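import Pool.Agent.Lib.MP_8f11b1_co_DU.Free2

set_option autoImplicit false

namespace Pool.Agent.MP8f11b1

variable {L κ β : Type} [Field L] [Algebra (ZMod 2) L] [Fintype κ] [Finite β] {g : ℕ}

open Free2

/-- the case of a nontrivial intersection -/
theorem free2_pos {v : β → κ → ZMod 2} {X P : κ → ZMod 2} {gam : Fin g → ZZ L 0}
    {C E : Set (β ⊕ Fin g)} (H : FreeHyp v X P gam 2 C E) (hE : 6 ≤ E.ncard)
    (h0 : LL 0 X P ⊓ SC v X P gam C ≠ ⊥) : False := by
  classical
  have hEf : E.Finite := Set.finite_of_ncard_pos (by omega)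
  have hCf : C.Finite := (lin_ncard_le _ H.ind).1
  have hBt : BB L κ 0 = ⊤ := by
    rw [eq_top_iff]
    rintro x -
    rw [BB, LinearMap.mem_ker]
    exact Subsingleton.elim _ _
  have hB : BB L κ 0 ⊔ SC v X P gam C = ⊤ := by rw [hBt, top_sup_eq]
  have hinr : ∀ c, fB v X P gam (Sum.inr c) ∈ LL (L := L) 0 X P := by
    intro c
    rw [Hr.mem_LL]
    exact ⟨_, _, Prod.ext rfl (Subsingleton.elim _ _)⟩
  have hSr : Module.finrank L ↥(SC v X P gam C) = C.ncard := lin_finrank_span _ H.ind hCf
  have hLr := Submodule.finrank_sup_add_finrank_inf_eq (LL 0 X P) (SC v X P gam C)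
  rw [Hr.finrank_LL H.xne H.pne H.xp, hSr] at hLr
  have hcard := Hr.card_EB E hEf
  -- the rational cases
  have hcnt : ∀ R : Submodule (ZMod 2) (κ → ZMod 2),
      (∀ p : κ → L, ((p, 0) : (κ → L) × (Fin 0 → L)) ∈ SC v X P gam C ↔
        p ∈ Submodule.span L (cst '' (R : Set (κ → ZMod 2)))) →
      Nat.card ((κ → ZMod 2) ⧸ R) = 4 ∧ Set.InjOn (fun z => R.mkQ (v z)) (Hr.EB E) ∧
        ∀ z ∈ Hr.EB E, R.mkQ (v z) ≠ 0 := by
    intro R hR
    obtain ⟨h1, h2⟩ := ratQ H R hR
    have h3 := inj_ne (fun z => R.mkQ (v z)) (Hr.EB E)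
      (fun J hJ hJc => h2 J (fun z hz => Hr.mem_EB.1 (hJ hz)) hJc)
    refine ⟨?_, h3⟩
    rw [Module.natCard_eq_pow_finrank (K := ZMod 2), h1 hB]
    simp
  have hcnt3 : ∀ R : Submodule (ZMod 2) (κ → ZMod 2),
      (∀ p : κ → L, ((p, 0) : (κ → L) × (Fin 0 → L)) ∈ SC v X P gam C ↔
        p ∈ Submodule.span L (cst '' (R : Set (κ → ZMod 2)))) → (Hr.EB E).card ≤ 3 := by
    intro R hR
    obtain ⟨h1, h2, h3⟩ := hcnt R hR
    have : Fintype ((κ → ZMod 2) ⧸ R) := Fintype.ofFinite _
    have h4 := card_le (fun z => R.mkQ (v z)) (Hr.EB E) h2 {0} (by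
      intro z hz
      rw [Finset.mem_singleton]
      exact h3 z hz)
    rw [← Nat.card_eq_fintype_card, h1, Finset.card_singleton] at h4
    omega
  -- the small part
  have hZ1 : Module.finrank L ↥(LL 0 X P ⊔ SC v X P gam C) < C.ncard + 2 →
      (E ∩ Set.range Sum.inr).ncard ≤ 1 := by
    intro hlt
    by_contra hn
    obtain ⟨D, hDs, hDc⟩ := Set.exists_subset_card_eq (s := E ∩ Set.range Sum.inr) (n := 2)
      (by omega)
    have hDE : D ⊆ E := hDs.trans Set.inter_subset_left
    have hDI := (H.unif D hDE).2 hDc.le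
    have hDd : Disjoint D C := (H.disj.mono_right hDE).symm
    have hDr := lin_finrank_span _ hDI ((hEf.subset hDE).union hCf)
    rw [Set.ncard_union_eq hDd (hEf.subset hDE) hCf, hDc] at hDr
    have hle : Submodule.span L (fB v X P gam '' (D ∪ C)) ≤ LL 0 X P ⊔ SC v X P gam C := by
      rw [Submodule.span_le]
      rintro _ ⟨z, hz | hz, rfl⟩
      · obtain ⟨-, c, rfl⟩ := hDs hz
        exact Submodule.mem_sup_left (hinr c)
      · exact Submodule.mem_sup_right (Submodule.subset_span ⟨z, hz, rfl⟩)
    have := Submodule.finrank_mono hle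
    omega
  have hu0 : ∀ u, (u = X ∨ u = P ∨ u = X + P) → u ≠ 0 := by
    rintro u (rfl | rfl | rfl)
    · exact H.xne
    · exact H.pne
    · exact Hr.xp_ne H.xp
  have hd : Module.finrank L ↥(LL 0 X P ⊓ SC v X P gam C) ≤ 2 := by
    have := Submodule.finrank_mono (inf_le_left : LL 0 X P ⊓ SC v X P gam C ≤ LL 0 X P)
    rwa [Hr.finrank_LL H.xne H.pne H.xp] at this
  have hd3 : Module.finrank L ↥(LL 0 X P ⊓ SC v X P gam C) = 0 ∨
      Module.finrank L ↥(LL 0 X P ⊓ SC v X P gam C) = 1 ∨
      Module.finrank L ↥(LL 0 X P ⊓ SC v X P gam C) = 2 := by omega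
  rcases hd3 with hd0 | hd1 | hd2
  · exact h0 (Submodule.finrank_eq_zero.1 hd0)
  · -- one-dimensional intersection
    have h1 := hZ1 (by omega)
    by_cases hu : ∀ u : κ → ZMod 2, (u = X ∨ u = P ∨ u = X + P) →
          ((cst u, 0) : (κ → L) × (Fin 0 → L)) ∉ SC v X P gam C
    · set R : Submodule (ZMod 2) (κ → ZMod 2) :=
        Submodule.span (ZMod 2) (v '' {z | Sum.inl z ∈ C}) with hRdef
      obtain ⟨h2, h3, h4⟩ := nonrat H hd1 hu R rfl
      have hRm : ∀ w ∈ R, ((cst w, 0) : (κ → L) × (Fin 0 → L)) ∈ SC v X P gam C := by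
        intro w hw
        have e1 : (cst w : κ → L) ∈ Submodule.span L (cst '' (R : Set (κ → ZMod 2))) :=
          Submodule.subset_span ⟨w, hw, rfl⟩
        rw [hRdef, Hr.span_cst_span] at e1
        rw [sc_bb]
        refine ⟨0, 0, ?_, by simpa using e1⟩
        rw [zero_smul, zero_smul, add_zero]
        exact Submodule.zero_mem _
      have hune : ∀ u, (u = X ∨ u = P ∨ u = X + P) → R.mkQ u ≠ 0 := by
        intro u hu' h
        rw [Submodule.mkQ_apply, Submodule.Quotient.mk_eq_zero] at h
        exact hu u hu' (hRm u h)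
      have : Fintype ((κ → ZMod 2) ⧸ R) := Fintype.ofFinite _
      have hc8 : Fintype.card ((κ → ZMod 2) ⧸ R) = 8 := by
        rw [← Nat.card_eq_fintype_card, Module.natCard_eq_pow_finrank (K := ZMod 2), h2 hB]
        simp
      have h5 := inj_ne (fun z => R.mkQ (v z)) (Hr.EB E)
        (fun J hJ hJc => (h3 J (fun z hz => Hr.mem_EB.1 (hJ hz)) hJc).1)
      have hX0 := hune X (Or.inl rfl)
      have hP0 := hune P (Or.inr (Or.inl rfl))
      have hXP0 := hune (X + P) (Or.inr (Or.inr rfl))
      have hXX : R.mkQ X ≠ R.mkQ (X + P) := by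
        intro h
        apply hP0
        rw [map_add] at h
        have e1 : R.mkQ X + R.mkQ P = R.mkQ X + 0 := by rw [← h, add_zero]
        exact add_left_cancel e1
      have hPP : R.mkQ P ≠ R.mkQ (X + P) := by
        intro h
        apply hX0
        rw [map_add] at h
        have e1 : R.mkQ X + R.mkQ P = 0 + R.mkQ P := by rw [← h, zero_add]
        exact add_right_cancel e1
      have hXPne : R.mkQ X ≠ R.mkQ P := by
        intro h
        apply hXP0
        rw [map_add, h]
        exact dbl _
      set U : Finset ((κ → ZMod 2) ⧸ R) := {0, R.mkQ X, R.mkQ P, R.mkQ (X + P)} with hU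
      have hUc : U.card = 4 := by
        rw [hU, Finset.card_insert_of_notMem, Finset.card_insert_of_notMem,
          Finset.card_pair hPP]
        · simp only [Finset.mem_insert, Finset.mem_singleton, not_or]
          exact ⟨hXPne, hXX⟩
        · simp only [Finset.mem_insert, Finset.mem_singleton, not_or]
          exact ⟨hX0.symm, hP0.symm, hXP0.symm⟩
      have hmemU : ∀ z ∈ Hr.EB E, R.mkQ (v z) ∈ U →
          R.mkQ (v z) = R.mkQ X ∨ R.mkQ (v z) = R.mkQ P ∨
            R.mkQ (v z) = R.mkQ X + R.mkQ P := by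
        intro z hz hzU
        rw [hU] at hzU
        simp only [Finset.mem_insert, Finset.mem_singleton] at hzU
        rcases hzU with h | h | h | h
        · exact absurd h (h5.2 z hz)
        · exact Or.inl h
        · exact Or.inr (Or.inl h)
        · rw [map_add] at h
          exact Or.inr (Or.inr h)
      have h6 := card_le (fun z => R.mkQ (v z)) ((Hr.EB E).filter fun z => R.mkQ (v z) ∉ U)
        (h5.1.mono (by
          intro z hz
          exact (Finset.mem_filter.1 hz).1)) U (fun z hz => (Finset.mem_filter.1 hz).2)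
      have h7 : ((Hr.EB E).filter fun z => ¬ R.mkQ (v z) ∉ U).card ≤ 1 := by
        rw [Finset.card_le_one]
        intro z hz z' hz'
        by_contra hne
        rw [Finset.mem_filter, not_not] at hz hz'
        have e1 : ∀ x ∈ ({z, z'} : Finset β), Sum.inl x ∈ E := by
          intro x hx
          rcases Finset.mem_insert.1 hx with rfl | hx
          · exact Hr.mem_EB.1 hz.1
          · rw [Finset.mem_singleton.1 hx]
            exact Hr.mem_EB.1 hz'.1
        apply (h3 {z, z'} e1 Finset.card_le_two).2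
        have e2 : (fun z => R.mkQ (v z)) '' (({z, z'} : Finset β) : Set β) =
            {R.mkQ (v z), R.mkQ (v z')} := by
          rw [Finset.coe_insert, Finset.coe_singleton, Set.image_pair]
        rw [e2]
        exact pair_span (fun h => hne (h5.1 hz.1 hz'.1 h)) (hmemU z hz.1 hz.2)
          (hmemU z' hz'.1 hz'.2)
      have h8 := Finset.card_filter_add_card_filter_not (s := Hr.EB E)
        (fun z => R.mkQ (v z) ∉ U)
      have h9 : ((Hr.EB E).filter fun z => ¬ R.mkQ (v z) ∉ U).Nonempty := by
        rw [← Finset.card_pos]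
        omega
      obtain ⟨z, hz⟩ := h9
      rw [Finset.mem_filter, not_not] at hz
      have h10 : (E ∩ Set.range Sum.inr).Nonempty := by
        rw [← Set.ncard_pos (hEf.inter_of_left _)]
        omega
      obtain ⟨_, hcE, c, rfl⟩ := h10
      have hcI := (H.unif {Sum.inr c} (by
        rintro x rfl
        exact hcE)).2 (by rw [Set.ncard_singleton]; omega)
      have hcr := lin_finrank_span _ hcI ((Set.finite_singleton _).union hCf)
      have hcC : Disjoint ({Sum.inr c} : Set (β ⊕ Fin g)) C := by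
        rw [Set.disjoint_singleton_left]
        exact fun h => Set.disjoint_left.1 H.disj h hcE
      rw [Set.ncard_union_eq hcC (Set.finite_singleton _) hCf, Set.ncard_singleton,
        Set.image_union, Set.image_singleton, Submodule.span_union] at hcr
      have h11 : LL 0 X P ⊔ SC v X P gam C =
          Submodule.span L {fB v X P gam (Sum.inr c)} ⊔ SC v X P gam C := by
        symm
        apply Submodule.eq_of_le_of_finrank_le
        · apply sup_le_sup_right
          rw [Submodule.span_singleton_le_iff_mem]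
          exact hinr c
        · have e1 : Submodule.span L (fB v X P gam '' C) = SC v X P gam C := rfl
          rw [e1] at hcr
          rw [hcr]
          omega
      have h12 : ∃ u, (u = X ∨ u = P ∨ u = X + P) ∧ R.mkQ u = R.mkQ (v z) := by
        rcases hmemU z hz.1 hz.2 with h | h | h
        · exact ⟨X, Or.inl rfl, h.symm⟩
        · exact ⟨P, Or.inr (Or.inl rfl), h.symm⟩
        · exact ⟨X + P, Or.inr (Or.inr rfl), by rw [map_add, h]⟩
      obtain ⟨u, hu1, hu2⟩ := h12
      apply h4 c hcE h11 u hu1 {z} (by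
        intro x hx
        rw [Finset.mem_singleton.1 hx]
        exact Hr.mem_EB.1 hz.1) (by simp)
      rw [Finset.sum_singleton]
      exact hu2
    · push Not at hu
      obtain ⟨u, hu1, hu2⟩ := hu
      have := hcnt3 _ (Hr.rat1 H.xne H.pne H.xp hd1 u hu1 hu2)
      omega
  · have h1 := hZ1 (by omega)
    have := hcnt3 _ (Hr.rat2' H.xne H.pne H.xp hd2).2
    omega

end Pool.Agent.MP8f11b1
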