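import Pool.Agent.Lib.MP_8f11b1_co_AM.FWDef
import Pool.Agent.Lib.MP_8f11b1_co_AM.Free2P

set_option autoImplicit false

namespace Pool.Agent.MP8f11b1

variable {L κ β : Type} [Field L] [Algebra (ZMod 2) L] [Fintype κ] [Finite β] {g : ℕ}

open Free2

omit [Finite β] in
private theorem FW2_dep {v : β → κ → ZMod 2} {X P : κ → ZMod 2} {gam : Fin g → ZZ L 0}
    {C E : Set (β ⊕ Fin g)} (H : FreeHyp v X P gam 2 C E) {CW : Set (Fin g)}
    (hCW : CW.ncard = 2) (hdep : ¬ LinearIndepOn L gam CW) :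
    ∃ c ∈ CW, (Sum.inr c : β ⊕ Fin g) ∉ E := by
  by_contra hn
  push Not at hn
  apply hdep
  have h1 : LinearIndepOn L (fB v X P gam) (Sum.inr '' CW ∪ C) := by
    refine (H.unif _ ?_).2 ?_
    · rintro _ ⟨c, hc, rfl⟩
      exact hn c hc
    · rw [Set.ncard_image_of_injective _ Sum.inr_injective, hCW]
  have h2 : LinearIndepOn L (fB v X P gam) (Sum.inr '' CW) := h1.mono Set.subset_union_left
  have h3 : LinearIndepOn L (fB v X P gam ∘ Sum.inr) CW :=
    h2.comp_of_image Sum.inr_injective.injOn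
  let T : ZZ L 0 →ₗ[L] (κ → L) × (Fin 0 → L) :=
    { toFun := fun z => (z.1 • cst X + z.2.1 • cst P, z.2.2)
      map_add' := by
        intro x y
        refine Prod.ext ?_ rfl
        change (x.1 + y.1) • cst X + (x.2.1 + y.2.1) • cst P =
          (x.1 • cst X + x.2.1 • cst P) + (y.1 • cst X + y.2.1 • cst P)
        rw [add_smul, add_smul]
        abel
      map_smul' := by
        intro a x
        refine Prod.ext ?_ rfl
        change (a * x.1) • cst X + (a * x.2.1) • cst P = a • (x.1 • cst X + x.2.1 • cst P)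
        rw [smul_add, smul_smul, smul_smul] }
  exact LinearIndependent.of_comp T h3

/-- the case of a trivial intersection -/
private theorem FW2_zero {v : β → κ → ZMod 2} {X P : κ → ZMod 2} {gam : Fin g → ZZ L 0} {b : ℕ}
    {C E : Set (β ⊕ Fin g)} (H : FreeHyp v X P gam 2 C E)
    (h0 : LL 0 X P ⊓ SC v X P gam C = ⊥) (hb : 7 ≤ b)
    (hE : E.ncard = b - 1) (hg : g + 2 = b) (c₀ c₁ cw : Fin g) (hcw : (Sum.inr cw : β ⊕ Fin g) ∉ E)
    (hcw0 : c₀ ≠ cw) (hcw1 : c₁ ≠ cw)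
    (hX : ((1, 0, 0) : ZZ L 0) ∈ Submodule.span L (gam '' {c₀}))
    (hXP : ((1, 1, 0) : ZZ L 0) ∈ Submodule.span L (gam '' {c₁})) : False := by
  classical
  have hEf : E.Finite := Set.finite_of_ncard_pos (by omega)
  have hCf : C.Finite := (lin_ncard_le _ H.ind).1
  have hBt : BB L κ 0 = ⊤ := by
    rw [eq_top_iff]
    rintro x -
    rw [BB, LinearMap.mem_ker]
    exact Subsingleton.elim _ _
  have hB : BB L κ 0 ⊔ SC v X P gam C = ⊤ := by rw [hBt, top_sup_eq]
  have hcard := Hr.card_EB E hEf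
  -- the rational cases
  have hcnt : ∀ R : Submodule (ZMod 2) (κ → ZMod 2),
      (∀ p : κ → L, ((p, 0) : (κ → L) × (Fin 0 → L)) ∈ SC v X P gam C ↔
        p ∈ Submodule.span L (cst '' (R : Set (κ → ZMod 2)))) →
      Nat.card ((κ → ZMod 2) ⧸ R) = 4 ∧ Set.InjOn (fun z => R.mkQ (v z)) (Hr.EB E) ∧
        ∀ z ∈ Hr.EB E, R.mkQ (v z) ≠ 0 := by
    intro R hR
    obtain ⟨h1, h2⟩ := ratQ H R hR
    have h3 := inj_ne (fun z => R.mkQ (v z)) (Hr.EB E)
      (fun J hJ hJc => h2 J (fun z hz => Hr.mem_EB.1 (hJ hz)) hJc)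
    refine ⟨?_, h3⟩
    rw [Module.natCard_eq_pow_finrank (K := ZMod 2), h1 hB]
    simp
  have hcnt3 : ∀ R : Submodule (ZMod 2) (κ → ZMod 2),
      (∀ p : κ → L, ((p, 0) : (κ → L) × (Fin 0 → L)) ∈ SC v X P gam C ↔
        p ∈ Submodule.span L (cst '' (R : Set (κ → ZMod 2)))) → (Hr.EB E).card ≤ 3 := by
    intro R hR
    obtain ⟨h1, h2, h3⟩ := hcnt R hR
    have : Fintype ((κ → ZMod 2) ⧸ R) := Fintype.ofFinite _
    have h4 := card_le (fun z => R.mkQ (v z)) (Hr.EB E) h2 {0} (by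
      intro z hz
      rw [Finset.mem_singleton]
      exact h3 z hz)
    rw [← Nat.card_eq_fintype_card, h1, Finset.card_singleton] at h4
    omega
  have hu0 : ∀ u, (u = X ∨ u = P ∨ u = X + P) → u ≠ 0 := by
    rintro u (rfl | rfl | rfl)
    · exact H.xne
    · exact H.pne
    · exact Hr.xp_ne H.xp
  have hR := Hr.rat0 (v := v) (X := X) (P := P) (gam := gam) (C := C) h0
  set R : Submodule (ZMod 2) (κ → ZMod 2) :=
    Submodule.span (ZMod 2) (v '' {z | Sum.inl z ∈ C}) with hRdef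
  obtain ⟨h1, h2, h3⟩ := hcnt R hR
  have : Fintype ((κ → ZMod 2) ⧸ R) := Fintype.ofFinite _
  rw [Nat.card_eq_fintype_card] at h1
  have hRm : ∀ w ∈ R, ((cst w, 0) : (κ → L) × (Fin 0 → L)) ∈ SC v X P gam C :=
    fun w hw => (hR _).2 (Submodule.subset_span ⟨w, hw, rfl⟩)
  have hune : ∀ u, (u = X ∨ u = P ∨ u = X + P) → R.mkQ u ≠ 0 := by
    intro u hu h
    rw [Submodule.mkQ_apply, Submodule.Quotient.mk_eq_zero] at h
    have h8 : ((cst u, 0) : (κ → L) × (Fin 0 → L)) ∈ LL 0 X P ⊓ SC v X P gam C :=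
      ⟨Hr.cst_mem_LL hu, hRm u h⟩
    rw [h0, Submodule.mem_bot, Prod.mk_eq_zero] at h8
    exact Hr.cst_ne (hu0 u hu) h8.1
  rw [Set.image_singleton, Submodule.mem_span_singleton] at hX hXP
  obtain ⟨m₀, hm₀⟩ := hX
  obtain ⟨m₁, hm₁⟩ := hXP
  have hm₀' : m₀ • fB v X P gam (Sum.inr c₀) = (cst X, 0) := by
    have e1 : m₀ * (gam c₀).1 = 1 := congrArg Prod.fst hm₀
    have e2 : m₀ * (gam c₀).2.1 = 0 := congrArg (fun x => x.2.1) hm₀
    refine Prod.ext ?_ (Subsingleton.elim _ _)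
    have e3 : m₀ • ((gam c₀).1 • cst X + (gam c₀).2.1 • cst P : κ → L) = cst X := by
      rw [smul_add, smul_smul, smul_smul, e1, e2, one_smul, zero_smul, add_zero]
    exact e3
  have hm₁' : m₁ • fB v X P gam (Sum.inr c₁) = (cst (X + P), 0) := by
    have e1 : m₁ * (gam c₁).1 = 1 := congrArg Prod.fst hm₁
    have e2 : m₁ * (gam c₁).2.1 = 1 := congrArg (fun x => x.2.1) hm₁
    refine Prod.ext ?_ (Subsingleton.elim _ _)
    have e3 : m₁ • ((gam c₁).1 • cst X + (gam c₁).2.1 • cst P : κ → L) = cst (X + P) := by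
      rw [smul_add, smul_smul, smul_smul, e1, e2, one_smul, one_smul, cst_add]
    exact e3
  have hc01 : c₀ ≠ c₁ := by
    rintro rfl
    have e1 : m₀ * (gam c₀).1 = 1 := congrArg Prod.fst hm₀
    have e2 : m₀ * (gam c₀).2.1 = 0 := congrArg (fun x => x.2.1) hm₀
    have e3 : m₁ * (gam c₀).2.1 = 1 := congrArg (fun x => x.2.1) hm₁
    have e4 : m₀ ≠ 0 := by
      rintro rfl
      rw [zero_mul] at e1
      exact zero_ne_one e1
    have e5 : (gam c₀).2.1 = 0 := (mul_eq_zero.1 e2).resolve_left e4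
    rw [e5, mul_zero] at e3
    exact zero_ne_one e3
  -- a class that is blocked
  have hblock : ∀ (u : κ → ZMod 2) (c : Fin g) (m : L), Sum.inr c ∈ E →
      m • fB v X P gam (Sum.inr c) = (cst u, 0) → u ≠ 0 →
      ∀ z ∈ Hr.EB E, R.mkQ (v z) ≠ R.mkQ u := by
    intro u c m hc hm hu z hz hzu
    have hm0 : m ≠ 0 := by
      rintro rfl
      rw [zero_smul] at hm
      exact Hr.cst_ne hu (congrArg Prod.fst hm).symm
    have h4 := Hr.sum_mem hRm u {z} (by rw [Finset.sum_singleton]; exact hzu.symm)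
    rw [Finset.sum_singleton, ← hm] at h4
    have hBE : ({Sum.inr c, Sum.inl z} : Set (β ⊕ Fin g)) ⊆ E := by
      rintro x (rfl | rfl)
      · exact hc
      · exact Hr.mem_EB.1 hz
    apply Hr.free_notMem H hBE (by rw [Set.ncard_pair (by simp)]) (z := Sum.inl z)
      (by simp)
    have h5 : fB v X P gam (Sum.inr c) ∈ Submodule.span L
        (fB v X P gam '' (({Sum.inr c, Sum.inl z} : Set (β ⊕ Fin g)) \ {Sum.inl z})) ⊔
        SC v X P gam C := by
      apply Submodule.mem_sup_left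
      apply Submodule.subset_span
      exact ⟨Sum.inr c, ⟨by simp, by simp⟩, rfl⟩
    have h6 := Submodule.sub_mem _ (Submodule.smul_mem _ m h5)
      (Submodule.mem_sup_right h4 : _ ∈ Submodule.span L
        (fB v X P gam '' (({Sum.inr c, Sum.inl z} : Set (β ⊕ Fin g)) \ {Sum.inl z})) ⊔
        SC v X P gam C)
    rwa [sub_sub_cancel] at h6
  have hZle : ∀ F : Finset (Fin g), (∀ c ∈ F, Sum.inr c ∉ E) →
      (E ∩ Set.range Sum.inr).ncard + F.card ≤ g := by
    intro F hF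
    have e1 : (E ∩ Set.range Sum.inr : Set (β ⊕ Fin g)) ⊆
        Sum.inr '' ((Finset.univ \ F : Finset (Fin g)) : Set (Fin g)) := by
      rintro _ ⟨h, c, rfl⟩
      refine ⟨c, ?_, rfl⟩
      rw [Finset.mem_coe, Finset.mem_sdiff]
      exact ⟨Finset.mem_univ _, fun hc => hF c hc h⟩
    have e2 := Set.ncard_le_ncard e1 (Set.toFinite _)
    rw [Set.ncard_image_of_injective _ Sum.inr_injective, Set.ncard_coe_finset,
      Finset.card_sdiff_of_subset (Finset.subset_univ F), Finset.card_univ,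
      Fintype.card_fin] at e2
    have e3 := Finset.card_le_univ F
    rw [Fintype.card_fin] at e3
    omega
  have hXX : R.mkQ X ≠ R.mkQ (X + P) := by
    intro h
    apply hune P (Or.inr (Or.inl rfl))
    rw [map_add] at h
    have e1 : R.mkQ X + R.mkQ P = R.mkQ X + 0 := by rw [← h, add_zero]
    exact add_left_cancel e1
  have hX0 := hune X (Or.inl rfl)
  have hXP0 := hune (X + P) (Or.inr (Or.inr rfl))
  by_cases hc0 : (Sum.inr c₀ : β ⊕ Fin g) ∈ E <;> by_cases hc1 : (Sum.inr c₁ : β ⊕ Fin g) ∈ E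
  · have h4 := card_le (fun z => R.mkQ (v z)) (Hr.EB E) h2 {0, R.mkQ X, R.mkQ (X + P)} (by
      intro z hz
      simp only [Finset.mem_insert, Finset.mem_singleton, not_or]
      exact ⟨h3 z hz, hblock X c₀ m₀ hc0 hm₀' H.xne z hz,
        hblock (X + P) c₁ m₁ hc1 hm₁' (Hr.xp_ne H.xp) z hz⟩)
    have h5 : ({0, R.mkQ X, R.mkQ (X + P)} : Finset ((κ → ZMod 2) ⧸ R)).card = 3 := by
      rw [Finset.card_eq_three]
      exact ⟨_, _, _, hX0.symm, hXP0.symm, hXX, rfl⟩
    have h6 := hZle {cw} (by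
      intro c hc
      rw [Finset.mem_singleton.1 hc]
      exact hcw)
    rw [Finset.card_singleton] at h6
    omega
  · have h4 := card_le (fun z => R.mkQ (v z)) (Hr.EB E) h2 {0, R.mkQ X} (by
      intro z hz
      simp only [Finset.mem_insert, Finset.mem_singleton, not_or]
      exact ⟨h3 z hz, hblock X c₀ m₀ hc0 hm₀' H.xne z hz⟩)
    rw [Finset.card_pair hX0.symm] at h4
    have h6 := hZle {c₁, cw} (by
      intro c hc
      rcases Finset.mem_insert.1 hc with rfl | hc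
      · exact hc1
      · rw [Finset.mem_singleton.1 hc]
        exact hcw)
    rw [Finset.card_pair hcw1] at h6
    omega
  · have h4 := card_le (fun z => R.mkQ (v z)) (Hr.EB E) h2 {0, R.mkQ (X + P)} (by
      intro z hz
      simp only [Finset.mem_insert, Finset.mem_singleton, not_or]
      exact ⟨h3 z hz, hblock (X + P) c₁ m₁ hc1 hm₁' (Hr.xp_ne H.xp) z hz⟩)
    rw [Finset.card_pair hXP0.symm] at h4
    have h6 := hZle {c₀, cw} (by
      intro c hc
      rcases Finset.mem_insert.1 hc with rfl | hc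
      · exact hc0
      · rw [Finset.mem_singleton.1 hc]
        exact hcw)
    rw [Finset.card_pair hcw0] at h6
    omega
  · have h4 := hcnt3 R hR
    have h6 := hZle {c₀, c₁, cw} (by
      intro c hc
      rcases Finset.mem_insert.1 hc with rfl | hc
      · exact hc0
      · rcases Finset.mem_insert.1 hc with rfl | hc
        · exact hc1
        · rw [Finset.mem_singleton.1 hc]
          exact hcw)
    have h7 : ({c₀, c₁, cw} : Finset (Fin g)).card = 3 := by
      rw [Finset.card_eq_three]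
      exact ⟨_, _, _, hc01, hcw0, hcw1, rfl⟩
    rw [h7] at h6
    omega

theorem freeW2 {v : β → κ → ZMod 2} {X P : κ → ZMod 2} {gam : Fin g → ZZ L 0} {b : ℕ}
    {C E K : Set (β ⊕ Fin g)} (H : FreeW v X P gam 2 C E K) (hb : 7 ≤ b)
    (hE : E.ncard = b) (hg : g + 2 = b) (T₀ T₁ CW : Set (Fin g))
    (hT₀ : T₀.ncard = 1) (hT₁ : T₁.ncard = 1) (hCW : CW.ncard = 2)
    (hdep : ¬ LinearIndepOn L gam CW) (hd₀ : Disjoint T₀ CW) (hd₁ : Disjoint T₁ CW)
    (hX : ((1, 0, 0) : ZZ L 0) ∈ Submodule.span L (gam '' T₀))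
    (hXP : ((1, 1, 0) : ZZ L 0) ∈ Submodule.span L (gam '' T₁)) : False := by
  obtain ⟨e, he⟩ : K.Nonempty := by
    rw [← Set.ncard_pos (Set.finite_of_ncard_pos (by rw [H.card]; omega)), H.card]
    omega
  have H' := H.erase he
  have hE' : (E \ {e}).ncard = b - 1 := by
    rw [Set.ncard_sdiff_singleton_of_mem (H.sub he), hE]
  by_cases h0 : LL 0 X P ⊓ SC v X P gam C = ⊥
  · obtain ⟨c₀, rfl⟩ := Set.ncard_eq_one.1 hT₀
    obtain ⟨c₁, rfl⟩ := Set.ncard_eq_one.1 hT₁
    obtain ⟨cw, h1, h2⟩ := FW2_dep H' hCW hdep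
    exact FW2_zero H' h0 hb hE' hg c₀ c₁ cw h2
      (fun h => Set.disjoint_left.1 hd₀ rfl (h ▸ h1))
      (fun h => Set.disjoint_left.1 hd₁ rfl (h ▸ h1)) hX hXP
  · exact free2_pos H' (by omega) h0

end Pool.Agent.MP8f11b1
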