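import Pool.Agent.Lib.MP_8f11b1_co_DU.Desc
import Pool.Agent.Lib.MP_8f11b1_co_DU.Hr
import Pool.Agent.Lib.MP_8f11b1_co_RX.Lin

set_option autoImplicit false

namespace Pool.Agent.MP8f11b1

variable {L κ β : Type} [Field L] [Algebra (ZMod 2) L] [Fintype κ] [Finite β] {g s : ℕ}

omit [Fintype κ] in
private theorem SplitG_ll_le_bb (X P : κ → ZMod 2) : LL s X P ≤ BB L κ s := by
  rw [LL, Submodule.span_le]
  rintro x (rfl | rfl) <;> simp [BB]

omit [Finite β] in
/-- the number of elements of `E` inside a subspace -/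
private theorem SplitG_cnt_aux {v : β → κ → ZMod 2} {X P : κ → ZMod 2} {gam : Fin g → ZZ L s} {a : ℕ}
    {C E : Set (β ⊕ Fin g)} (H : FreeHyp v X P gam a C E) (hEf : E.Finite)
    (T : Submodule L ((κ → L) × (Fin s → L)))
    (A : Set (β ⊕ Fin g)) (hAE : A ⊆ E) (hA : ∀ z ∈ A, fB v X P gam z ∈ T)
    (hT : Module.finrank L ↥(T ⊔ SC v X P gam C) < a + C.ncard) :
    A.ncard + C.ncard ≤ Module.finrank L ↥(T ⊔ SC v X P gam C) := by
  have hCf : C.Finite := (lin_ncard_le _ H.ind).1
  have key : ∀ A' ⊆ A, A'.ncard ≤ a →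
      A'.ncard + C.ncard ≤ Module.finrank L ↥(T ⊔ SC v X P gam C) := by
    intro A' hA' hc
    have h1 := (H.unif A' (hA'.trans hAE)).2 hc
    have hd : Disjoint A' C := (H.disj.mono_right (hA'.trans hAE)).symm
    have hfin : A'.Finite := hEf.subset (hA'.trans hAE)
    rw [← Set.ncard_union_eq hd hfin hCf, ← lin_finrank_span _ h1 (hfin.union hCf)]
    apply Submodule.finrank_mono
    rw [Submodule.span_le]
    rintro _ ⟨z, hz, rfl⟩
    rcases hz with hz | hz
    · exact Submodule.mem_sup_left (hA z (hA' hz))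
    · exact Submodule.mem_sup_right (Submodule.subset_span ⟨z, hz, rfl⟩)
  by_cases hc : A.ncard ≤ a
  · exact key A le_rfl hc
  · exfalso
    obtain ⟨A', hA', hc'⟩ := Set.exists_subset_card_eq (s := A) (n := a) (by omega)
    have := key A' hA' (by omega)
    omega

omit [Algebra (ZMod 2) L] in
private theorem SplitG_finrank_BB (s : ℕ) :
    Module.finrank L ↥(BB L κ s) = Fintype.card κ := by
  have h := LinearMap.finrank_range_add_finrank_ker (LinearMap.snd L (κ → L) (Fin s → L))
  rw [LinearMap.range_eq_top.2 LinearMap.snd_surjective, finrank_top] at h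
  simp only [Module.finrank_prod, Module.finrank_fintype_fun_eq_card, Fintype.card_fin] at h
  unfold BB
  omega

/-- splitting of a uniform minor between the two parts, without a condition on `g` -/
theorem split_gen {v : β → κ → ZMod 2} {X P : κ → ZMod 2} {gam : Fin g → ZZ L s} {a : ℕ}
    {C E : Set (β ⊕ Fin g)} (H : FreeHyp v X P gam a C E) (ha : 3 ≤ a) (hE : a + 3 ≤ E.ncard)
    (hs : s + 2 = a) :
    ((∀ c, Sum.inr c ∉ C) ∧ (E ∩ Set.range Sum.inl).ncard ≤ 2 ∧
      LL s X P ⊓ SC v X P gam C = ⊥ ∧ BB L κ s ≤ LL s X P ⊔ SC v X P gam C ∧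
      BB L κ s ⊔ SC v X P gam C ≠ ⊤) ∨
    (BB L κ s ⊔ SC v X P gam C = ⊤ ∧ (E ∩ Set.range Sum.inr).ncard +
      Module.finrank L ↥(LL s X P ⊓ SC v X P gam C) ≤ 2) := by
  have hEf : E.Finite := Set.finite_of_ncard_pos (by omega)
  have hCf : C.Finite := (lin_ncard_le _ H.ind).1
  set S := SC v X P gam C with hS
  set LLm := LL (L := L) s X P with hLL
  set B := BB L κ s with hB
  set Z : Submodule L ((κ → L) × (Fin s → L)) :=
    LLm ⊔ LinearMap.range (LinearMap.inr L (κ → L) (Fin s → L)) with hZ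
  have hQ : Module.finrank L ((κ → L) × (Fin s → L)) = Fintype.card κ + s := by simp
  have hSr : Module.finrank L ↥S = C.ncard := lin_finrank_span _ H.ind hCf
  have hLLr : Module.finrank L ↥LLm = 2 := Hr.finrank_LL H.xne H.pne H.xp
  have hLB : LLm ≤ B := SplitG_ll_le_bb X P
  have hfl : ∀ z, fB v X P gam (Sum.inl z) ∈ B := by
    intro z; simp [fB, hB, BB]
  have hcstLL : ∀ x y : L, ((x • cst X + y • cst P, 0) : (κ → L) × (Fin s → L)) ∈ LLm := by
    intro x y
    have h1 : ((x • cst X + y • cst P, 0) : (κ → L) × (Fin s → L)) =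
        x • (cst X, 0) + y • (cst P, 0) := by
      ext <;> simp
    rw [h1]
    exact Submodule.add_mem _ (Submodule.smul_mem _ _ (Submodule.subset_span (by simp)))
      (Submodule.smul_mem _ _ (Submodule.subset_span (by simp)))
  have hfr : ∀ c, fB v X P gam (Sum.inr c) ∈ Z := by
    intro c
    have h1 : fB v X P gam (Sum.inr c) =
        ((gam c).1 • cst X + (gam c).2.1 • cst P, 0) + (0, (gam c).2.2) := by
      ext <;> simp [fB]
    rw [h1]
    exact Submodule.add_mem_sup (hcstLL _ _) ⟨(gam c).2.2, by simp⟩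
  have hBZi : B ⊓ Z = LLm := by
    apply le_antisymm
    · rintro x ⟨hx1, hx2⟩
      obtain ⟨l, hl, t, ⟨y, rfl⟩, rfl⟩ := Submodule.mem_sup.1 hx2
      have hl2 : l.2 = 0 := by
        have := hLB hl
        simpa [hB, BB] using this
      have hy : y = 0 := by
        have h2 : (l + LinearMap.inr L (κ → L) (Fin s → L) y).2 = 0 := by
          simpa [hB, BB] using hx1
        simpa [hl2] using h2
      rw [hy, map_zero, add_zero]
      exact hl
    · exact le_inf hLB le_sup_left
  have hBZs : B ⊔ Z = ⊤ := by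
    rw [eq_top_iff]
    rintro ⟨x, y⟩ -
    have h1 : ((x, y) : (κ → L) × (Fin s → L)) = (x, 0) + (0, y) := by ext <;> simp
    rw [h1]
    refine Submodule.add_mem_sup ?_ (Submodule.mem_sup_right ⟨y, by simp⟩)
    simp [hB, BB]
  have hSsplit : (B ⊓ S) ⊔ (Z ⊓ S) = S := by
    apply le_antisymm (sup_le inf_le_right inf_le_right)
    rw [hS, SC, Submodule.span_le]
    rintro _ ⟨z, hz, rfl⟩
    have hm : fB v X P gam z ∈ Submodule.span L (fB v X P gam '' C) :=
      Submodule.subset_span ⟨z, hz, rfl⟩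
    cases z with
    | inl z => exact Submodule.mem_sup_left ⟨hfl z, hm⟩
    | inr c => exact Submodule.mem_sup_right ⟨hfr c, hm⟩
  have hdim1 : Module.finrank L ↥B + Module.finrank L ↥Z = Fintype.card κ + s + 2 := by
    have := Submodule.finrank_sup_add_finrank_inf_eq B Z
    rw [hBZi, hBZs, finrank_top, hQ, hLLr] at this
    omega
  have hdim2 : Module.finrank L ↥(B ⊓ S) + Module.finrank L ↥(Z ⊓ S) =
      C.ncard + Module.finrank L ↥(LLm ⊓ S) := by
    have := Submodule.finrank_sup_add_finrank_inf_eq (B ⊓ S) (Z ⊓ S)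
    have h2 : (B ⊓ S) ⊓ (Z ⊓ S) = LLm ⊓ S := by
      rw [← hBZi]
      ext x
      simp only [Submodule.mem_inf]
      tauto
    rw [hSsplit, h2, hSr] at this
    omega
  have hdB := Submodule.finrank_sup_add_finrank_inf_eq B S
  have hdZ := Submodule.finrank_sup_add_finrank_inf_eq Z S
  have hdL := Submodule.finrank_sup_add_finrank_inf_eq LLm S
  rw [hSr] at hdB hdZ hdL
  rw [hLLr] at hdL
  have hrk := H.rk
  have hBr : Module.finrank L ↥B = Fintype.card κ := SplitG_finrank_BB s
  have hleB : Module.finrank L ↥(B ⊔ S) ≤ a + C.ncard := by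
    have := Submodule.finrank_le (B ⊔ S)
    omega
  have hleZ : Module.finrank L ↥(Z ⊔ S) ≤ a + C.ncard := by
    have := Submodule.finrank_le (Z ⊔ S)
    omega
  have hLSle : Module.finrank L ↥(LLm ⊓ S) ≤ 2 := by
    have := Submodule.finrank_mono (inf_le_left : LLm ⊓ S ≤ LLm)
    omega
  have hcB : Module.finrank L ↥(B ⊔ S) < a + C.ncard →
      (E ∩ Set.range Sum.inl).ncard + C.ncard ≤ Module.finrank L ↥(B ⊔ S) := fun h =>
    SplitG_cnt_aux H hEf B _ Set.inter_subset_left (by rintro z ⟨-, c, rfl⟩; exact hfl c) h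
  have hcZ : Module.finrank L ↥(Z ⊔ S) < a + C.ncard →
      (E ∩ Set.range Sum.inr).ncard + C.ncard ≤ Module.finrank L ↥(Z ⊔ S) := fun h =>
    SplitG_cnt_aux H hEf Z _ Set.inter_subset_left (by rintro z ⟨-, c, rfl⟩; exact hfr c) h
  have hEsplit : (E ∩ Set.range Sum.inl).ncard + (E ∩ Set.range Sum.inr).ncard = E.ncard := by
    rw [← Set.ncard_union_eq ?_ (hEf.inter_of_left _) (hEf.inter_of_left _),
      ← Set.inter_union_distrib_left]
    · congr 1
      rw [Set.range_inl_union_range_inr, Set.inter_univ]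
    · refine Set.disjoint_left.2 ?_
      rintro _ ⟨-, c, rfl⟩ ⟨-, d, h⟩
      exact absurd h (by simp)
  by_cases h1 : Module.finrank L ↥(Z ⊔ S) < a + C.ncard
  · have h2 := hcZ h1
    by_cases h3 : Module.finrank L ↥(B ⊔ S) < a + C.ncard
    · exfalso
      have h4 := hcB h3
      omega
    · right
      refine ⟨?_, by omega⟩
      apply Submodule.eq_top_of_finrank_eq
      omega
  · left
    have h2 : Module.finrank L ↥(B ⊔ S) < a + C.ncard := by omega
    have h3 := hcB h2
    have hZS : Module.finrank L ↥(Z ⊓ S) = 0 := by omega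
    have hZS' : Z ⊓ S = ⊥ := Submodule.finrank_eq_zero.1 hZS
    have hLS' : LLm ⊓ S = ⊥ := by
      rw [eq_bot_iff, ← hZS']
      exact inf_le_inf_right S le_sup_left
    have hLS : Module.finrank L ↥(LLm ⊓ S) = 0 := by
      rw [hLS']
      exact finrank_bot L _
    refine ⟨?_, by omega, hLS', ?_, ?_⟩
    · intro c hc
      have h4 : fB v X P gam (Sum.inr c) ∈ Z ⊓ S := by
        refine ⟨hfr c, ?_⟩
        rw [hS, SC]
        exact Submodule.subset_span ⟨Sum.inr c, hc, rfl⟩
      rw [hZS', Submodule.mem_bot] at h4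
      exact H.ind.ne_zero hc h4
    · have h5 : LLm ⊔ S = B ⊔ S := by
        apply Submodule.eq_of_le_of_finrank_le (sup_le_sup_right hLB S)
        omega
      rw [h5]
      exact le_sup_left
    · intro h5
      rw [h5, finrank_top, hQ] at h2
      omega

end Pool.Agent.MP8f11b1
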