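import Pool.Agent.Lib.MP_8f11b1_co_AM.FW3B
import Pool.Agent.Lib.MP_8f11b1_co_AM.SplitG
import Pool.Agent.Lib.MP_8f11b1_co_DU.FreeB0
import Pool.Agent.Lib.MP_8f11b1_co_DU.FreeB1a
import Pool.Agent.Lib.MP_8f11b1_co_DU.FreeB1b

set_option autoImplicit false

namespace Pool.Agent.MP8f11b1

variable {L κ β : Type} [Field L] [Algebra (ZMod 2) L] [Fintype κ] [Finite β] {g s : ℕ}

theorem freeW3 {v : β → κ → ZMod 2} {X P : κ → ZMod 2} {gam : Fin g → ZZ L s} {a b : ℕ}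
    {C E K : Set (β ⊕ Fin g)} (H : FreeW v X P gam a C E K) (ha : 3 ≤ a) (hab : a + 4 ≤ b)
    (hne : ¬ (a = 3 ∧ b = 7)) (hE : E.ncard = b) (hg : g + 2 = b) (hs : s + 2 = a)
    (T₀ T₁ CW : Set (Fin g))
    (hT₀ : T₀.ncard + 1 = a) (hT₁ : T₁.ncard + 1 = a) (hCW : CW.ncard = a)
    (hdep : ¬ LinearIndepOn L gam CW) (hdis : T₀ ∩ T₁ ∩ CW = ∅)
    (hX : ((1, 0, 0) : ZZ L s) ∈ Submodule.span L (gam '' T₀))
    (hXP : ((1, 1, 0) : ZZ L s) ∈ Submodule.span L (gam '' T₁)) : False := by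
  have hEf : E.Finite := Set.finite_of_ncard_pos (by omega)
  have hcard : ∀ e ∈ K, (E \ {e}).ncard = b - 1 := by
    intro e he
    rw [Set.ncard_sdiff_singleton_of_mem (H.sub he), hE]
  have hKne : K.Nonempty := by
    rw [← Set.ncard_pos (hEf.subset H.sub), H.card]; omega
  obtain ⟨e, he⟩ := hKne
  rcases split_gen (H.erase he) ha (by rw [hcard e he]; omega) hs with
    ⟨h1, h2, h3, h4, h5⟩ | ⟨hB, hd⟩
  · refine freeW_B H ha hE hg T₀ T₁ CW hT₀ hT₁ hCW hdep hdis hX hXP h1 ?_ h4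
    intro e' he'
    rcases split_gen (H.erase he') ha (by rw [hcard e' he']; omega) hs with
      ⟨_, h6, _⟩ | ⟨h6, _⟩
    · exact h6
    · exact absurd h6 h5
  · have H' := H.erase he
    have hE' := hcard e he
    have hle : Module.finrank L ↥(LL s X P ⊓ SC v X P gam C) ≤ 2 := by omega
    have h3 : Module.finrank L ↥(LL s X P ⊓ SC v X P gam C) = 0 ∨
        Module.finrank L ↥(LL s X P ⊓ SC v X P gam C) = 1 ∨
        Module.finrank L ↥(LL s X P ⊓ SC v X P gam C) = 2 := by omega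
    have hab' : a + 3 ≤ b - 1 := by omega
    have hne' : ¬ (a = 3 ∧ b - 1 = 6) := by omega
    rcases h3 with h | h | h
    · exact free_B0 H' ha hab' hne' hE' hB (Submodule.finrank_eq_zero.1 h) (by omega)
    · by_cases hu : ∀ u : κ → ZMod 2, (u = X ∨ u = P ∨ u = X + P) →
          ((cst u, 0) : (κ → L) × (Fin s → L)) ∉ SC v X P gam C
      · exact free_B1b H' ha hab' hne' hE' hs hB h hu (by omega)
      · push Not at hu
        obtain ⟨u, hu1, hu2⟩ := hu
        exact free_B1a H' ha hab' hE' hB h u hu1 hu2 (by omega)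
    · exact free_B2 H' ha hab' hE' hB h (by omega)

end Pool.Agent.MP8f11b1
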