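import Pool.Agent.Lib.MP_8f11b1_co_DU.Defs

/-! Definitions for the classification of the matroids `U` for which all the classes
`Ex(U) ∪ Ex(N)` have only finitely many excluded minors. -/

set_option autoImplicit false

namespace Pool.Agent.MP8f11b1

/-- `M` is the matroid on `b` elements whose dependent sets are the sets with more than `a`
elements and one set `C` with `a` elements. -/
def IsW (a b : ℕ) {α : Type} (M : Matroid α) : Prop :=
  M.E.Finite ∧ M.E.ncard = b ∧
    ∃ C ⊆ M.E, C.ncard = a ∧ ∀ I ⊆ M.E, M.Indep I ↔ I.ncard ≤ a ∧ I ≠ C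

/-- Matroids with at most one nonspanning circuit. -/
def ClsV {α : Type} (M : Matroid α) : Prop :=
  ∃ (k : ℕ) (p : Prop) (D : Set α), ∀ I ⊆ M.E, M.Indep I ↔ I.ncard ≤ k ∧ (p → ¬ D ⊆ I)

/-- The rank of a set, as a natural number. -/
noncomputable def rk {α : Type} (M : Matroid α) (A : Set α) : ℕ := (M.eRk A).toNat

/-- There are two intersecting circuits, one of them not in the closure of the other. -/
def Star {α : Type} (M : Matroid α) : Prop :=
  ∃ C D, M.IsCircuit C ∧ M.IsCircuit D ∧ (C ∩ D).Nonempty ∧ ¬ C ⊆ M.closure D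

/-- `S` is a union of connected components. -/
def Sep {α : Type} (M : Matroid α) (S : Set α) : Prop :=
  S ⊆ M.E ∧ ∀ C, M.IsCircuit C → C ⊆ S ∨ Disjoint C S

/-- `M` is connected. -/
def Conn {α : Type} (M : Matroid α) : Prop := ∀ S, Sep M S → S = ∅ ∨ S = M.E

/-- All circuits are spanning. -/
def Unif {α : Type} (M : Matroid α) : Prop := ∀ C, M.IsCircuit C → M.Spanning C

end Pool.Agent.MP8f11b1
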