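import Pool.Agent.Lib.MP_8f11b1_co_DU.Gen
import Pool.Agent.Lib.MP_8f11b1_co_AM.Defs

set_option autoImplicit false

namespace Pool.Agent.MP8f11b1

variable {L : Type} [Field L]

/-- vectors for which exactly one set with at most `a` elements is dependent -/
theorem w_family [Infinite L] {a g : ℕ} (ha : 1 ≤ a) (CW : Set (Fin g)) (hCW : CW.ncard = a) :
    ∃ M : Fin g → (Fin a → L), ¬ LinearIndepOn L M CW ∧
      ∀ A : Set (Fin g), A.ncard ≤ a → A ≠ CW → LinearIndepOn L M A := by
  classical
  obtain ⟨c, hc⟩ : CW.Nonempty := by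
    rw [← Set.ncard_pos]
    omega
  obtain ⟨M', hM'⟩ := vandermonde_family (L := L) a g
  obtain ⟨v, hvP, hv⟩ := gen_step (Submodule.span L (M' '' (CW \ {c}))) (Set.range M')
    (Set.finite_range M')
  have hcard : (CW \ {c}).ncard + 1 = a := by
    rw [← hCW]
    exact Set.ncard_sdiff_singleton_add_one hc
  have him : ∀ A : Set (Fin g), c ∉ A → Function.update M' c v '' A = M' '' A := by
    intro A hA
    refine Set.image_congr fun x hx => ?_
    rw [Function.update_of_ne]
    rintro rfl
    exact hA hx
  have hind : ∀ A : Set (Fin g), c ∉ A → A.ncard ≤ a →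
      LinearIndepOn L (Function.update M' c v) A := by
    intro A hA hAc
    refine (hM' A hAc).congr fun x hx => ?_
    rw [Function.update_of_ne]
    rintro rfl
    exact hA hx
  have hn : ∀ A : Set (Fin g), c ∉ A \ {c} := fun A h => h.2 rfl
  refine ⟨Function.update M' c v, ?_, ?_⟩
  · intro h
    have h1 : CW = insert c (CW \ {c}) := by
      rw [Set.insert_sdiff_singleton, Set.insert_eq_of_mem hc]
    rw [h1, linearIndepOn_insert (hn CW), Function.update_self, him _ (hn CW)] at h
    exact h.2 hvP
  · intro A hA hne
    by_cases hcA : c ∈ A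
    · have h1 : A = insert c (A \ {c}) := by
        rw [Set.insert_sdiff_singleton, Set.insert_eq_of_mem hcA]
      have hA' : (A \ {c}).ncard + 1 ≤ a := by
        have := Set.ncard_sdiff_singleton_add_one hcA
        omega
      rw [h1, linearIndepOn_insert (hn A), Function.update_self, him _ (hn A)]
      refine ⟨hind _ (hn A) (by omega), hv _ (Set.image_subset_range _ _) fun hle => hne ?_⟩
      have h2 : CW \ {c} ⊆ A \ {c} := by
        intro c' hc'
        by_contra hc2
        have h3 := hM' (insert c' (A \ {c})) ((Set.ncard_insert_le _ _).trans hA')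
        rw [linearIndepOn_insert hc2] at h3
        exact h3.2 (hle (Submodule.subset_span ⟨c', hc', rfl⟩))
      have h3 : CW \ {c} = A \ {c} := Set.eq_of_subset_of_ncard_le h2 (by omega)
      rw [h1, ← h3, Set.insert_sdiff_singleton, Set.insert_eq_of_mem hc]
    · exact hind A hcA hA

end Pool.Agent.MP8f11b1
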