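import Pool.Agent.Lib.MP_8f11b1_co_AM.Defs
import Pool.Agent.Lib.MP_8f11b1_co_DU.IsoU

set_option autoImplicit false

namespace Pool.Agent.MP8f11b1

open Matroid

variable {α β ε : Type}

namespace IsoW

open IsoM

theorem tr_ncard {A : Set α} {B : Set β} (e : ↥A ≃ ↥B) {S : Set α} (hS : S ⊆ A) :
    (tr e S).ncard = S.ncard := by
  unfold IsoM.tr
  rw [Set.ncard_image_of_injective _ Subtype.val_injective,
    Set.ncard_image_of_injective _ e.injective]
  conv_rhs => rw [← IsoM.val_pre hS]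
  rw [Set.ncard_image_of_injective _ Subtype.val_injective]

theorem tr_symm {A : Set α} {B : Set β} (e : ↥A ≃ ↥B) {S : Set α} (hS : S ⊆ A) :
    tr e.symm (tr e S) = S := by
  ext x
  rw [mem_tr]
  constructor
  · rintro ⟨y, hy, rfl⟩
    rw [mem_tr] at hy
    obtain ⟨x, hx, hxy⟩ := hy
    have h1 : e x = y := Subtype.ext hxy
    rw [← h1, Equiv.symm_apply_apply]
    exact hx
  · intro hx
    refine ⟨e ⟨x, hS hx⟩, ?_, ?_⟩
    · rw [mem_tr]
      exact ⟨⟨x, hS hx⟩, hx, rfl⟩
    · rw [Equiv.symm_apply_apply]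

theorem tr_eq_iff {A : Set α} {B : Set β} (e : ↥A ≃ ↥B) {S : Set α} {T : Set β} (hS : S ⊆ A)
    (hT : T ⊆ B) : tr e S = T ↔ S = tr e.symm T := by
  constructor
  · rintro rfl
    exact (tr_symm e hS).symm
  · rintro rfl
    exact tr_symm e.symm hT

/-- an equivalence of the ground sets which maps one given subset to another one -/
theorem exists_equiv {A C : Set α} {B C' : Set β} (hA : A.Finite) (hB : B.Finite)
    (hAB : A.ncard = B.ncard) (hC : C ⊆ A) (hC' : C' ⊆ B) (hCC : C.ncard = C'.ncard) :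
    ∃ e : ↥A ≃ ↥B, ∀ I : Set ↥A, (Subtype.val '' I : Set α) = C ↔
      (Subtype.val '' (e '' I) : Set β) = C' := by
  classical
  have h1 : Finite ↥A := hA
  have h2 : Finite ↥B := hB
  haveI : Fintype ↥B := Fintype.ofFinite _
  have h3 : Nat.card ↥A = Nat.card ↥B := by
    rw [Nat.card_coe_set_eq, Nat.card_coe_set_eq, hAB]
  obtain ⟨e0⟩ := (Finite.card_eq).1 h3
  set C1 : Set ↥A := Subtype.val ⁻¹' C with hC1
  set C2 : Set ↥B := Subtype.val ⁻¹' C' with hC2
  have h4 : C1.ncard = C.ncard := by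
    conv_rhs => rw [← IsoM.val_pre hC]
    rw [Set.ncard_image_of_injective _ Subtype.val_injective]
  have h5 : C2.ncard = C'.ncard := by
    conv_rhs => rw [← IsoM.val_pre hC']
    rw [Set.ncard_image_of_injective _ Subtype.val_injective]
  have h6 : Nat.card {x // x ∈ e0 '' C1} = Nat.card {x // x ∈ C2} := by
    have h7 : (e0 '' C1).ncard = C2.ncard := by
      rw [Set.ncard_image_of_injective _ e0.injective, h4, h5, hCC]
    rw [← Nat.card_coe_set_eq, ← Nat.card_coe_set_eq] at h7
    exact h7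
  obtain ⟨f⟩ := (Finite.card_eq).1 h6
  set σ : Equiv.Perm ↥B := f.extendSubtype with hσ
  have h8 : σ '' (e0 '' C1) = C2 := by
    ext x
    constructor
    · rintro ⟨y, hy, rfl⟩
      exact f.extendSubtype_mem y hy
    · intro hx
      refine ⟨σ.symm x, ?_, σ.apply_symm_apply x⟩
      by_contra h9
      have h10 := f.extendSubtype_not_mem (σ.symm x) h9
      apply h10
      change σ (σ.symm x) ∈ C2
      rw [σ.apply_symm_apply]
      exact hx
  have h11 : (e0.trans σ) '' C1 = C2 := by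
    rw [← h8, Set.image_image]
    rfl
  refine ⟨e0.trans σ, fun I => ?_⟩
  have h12 : (Subtype.val '' I : Set α) = C ↔ I = C1 := by
    constructor
    · rintro h
      rw [hC1, ← h, Set.preimage_image_eq _ Subtype.val_injective]
    · rintro rfl
      exact IsoM.val_pre hC
  have h13 : (Subtype.val '' ((e0.trans σ) '' I) : Set β) = C' ↔ (e0.trans σ) '' I = C2 := by
    constructor
    · intro h
      rw [hC2, ← h, Set.preimage_image_eq _ Subtype.val_injective]
    · intro h
      rw [h]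
      exact IsoM.val_pre hC'
  rw [h12, h13, ← h11]
  exact (Set.image_injective.2 (e0.trans σ).injective).eq_iff.symm

end IsoW

open IsoW

theorem isW_of_iso {M : Matroid α} {N : Matroid β} {a b : ℕ} (h : Iso M N) (hN : IsW a b N) :
    IsW a b M := by
  obtain ⟨e, he⟩ := h
  obtain ⟨hf, hb, C, hC, hCa, hI⟩ := hN
  refine ⟨?_, ?_, IsoM.tr e.symm C, IsoM.tr_subset _ _, ?_, fun I hIE => ?_⟩
  · have h1 : Finite ↥N.E := hf
    have h2 : Finite ↥M.E := Finite.of_equiv _ e.symm
    exact Set.toFinite _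
  · rw [← hb, ← Nat.card_coe_set_eq, ← Nat.card_coe_set_eq]
    exact Nat.card_congr e
  · rw [tr_ncard e.symm hC, hCa]
  · rw [IsoM.indep_tr e he hIE, hI _ (IsoM.tr_subset e I), tr_ncard e hIE, Ne,
      tr_eq_iff e hIE hC]

theorem iso_of_isW {M : Matroid α} {N : Matroid β} {a b : ℕ} (hM : IsW a b M)
    (hN : IsW a b N) : Iso M N := by
  obtain ⟨hf, hb, C, hC, hCa, hI⟩ := hM
  obtain ⟨hf', hb', C', hC', hCa', hI'⟩ := hN
  obtain ⟨e, he⟩ := exists_equiv hf hf' (hb.trans hb'.symm) hC hC' (hCa.trans hCa'.symm)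
  refine ⟨e, fun I => ?_⟩
  rw [hI _ (by rintro _ ⟨x, _, rfl⟩; exact x.2), hI' _ (by rintro _ ⟨x, _, rfl⟩; exact x.2),
    Set.ncard_image_of_injective _ Subtype.val_injective,
    Set.ncard_image_of_injective _ Subtype.val_injective,
    Set.ncard_image_of_injective _ e.injective, Ne, Ne, he I]

/-- a minor given by an injection -/
theorem minor_isW (M : Matroid α) {a : ℕ} [Fintype ε] (X : Set α) (hX : M.Indep X) (j : ε → α)
    (hj : Function.Injective j) (hE : ∀ b, j b ∈ M.E ∧ j b ∉ X) (C : Set ε) (hC : C.ncard = a)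
    (hN : ∀ B : Set ε, M.Indep (j '' B ∪ X) ↔ B.ncard ≤ a ∧ B ≠ C)
    (U : Matroid β) (hU : IsW a (Fintype.card ε) U) :
    ∃ M' : Matroid α, M'.IsMinor M ∧ Iso M' U := by
  have hR : Set.range j ⊆ (M.contract X).E := by
    rintro _ ⟨b, rfl⟩
    rw [Matroid.contract_ground]
    exact hE b
  refine ⟨(M.contract X).restrict (Set.range j), ?_, ?_⟩
  · rw [← Matroid.delete_compl hR]
    exact Matroid.contract_delete_isMinor M X _
  · refine iso_of_isW ?_ hU
    refine ⟨Set.finite_range j, ?_, j '' C, ?_, ?_, fun I hI => ?_⟩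
    · rw [Matroid.restrict_ground_eq, ← Set.image_univ, Set.ncard_image_of_injective _ hj,
        Set.ncard_univ, Nat.card_eq_fintype_card]
    · rw [Matroid.restrict_ground_eq]
      exact Set.image_subset_range _ _
    · rw [Set.ncard_image_of_injective _ hj, hC]
    · rw [Matroid.restrict_ground_eq] at hI
      have h1 : I = j '' (j ⁻¹' I) := (Set.image_preimage_eq_of_subset hI).symm
      have h2 : I.ncard = (j ⁻¹' I).ncard := by
        conv_lhs => rw [h1]
        rw [Set.ncard_image_of_injective _ hj]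
      have h3 : I ≠ j '' C ↔ j ⁻¹' I ≠ C := by
        rw [not_iff_not]
        constructor
        · intro h
          rw [h, Set.preimage_image_eq _ hj]
        · intro h
          rw [← h]
          exact h1
      rw [Matroid.restrict_indep_iff, hX.contract_indep_iff, h2, h3, ← hN, ← h1]
      refine ⟨fun h => h.1.2, fun h => ⟨⟨?_, h⟩, hI⟩⟩
      rw [Set.disjoint_left]
      intro x hx hxX
      obtain ⟨b, rfl⟩ := hI hx
      exact (hE b).2 hxX

/-- a minor given by its ground set -/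
theorem minor_isW_set (M : Matroid α) {a b : ℕ} (X E' C : Set α) (hX : M.Indep X)
    (hE' : E' ⊆ M.E) (hd : Disjoint E' X) (hf : E'.Finite) (hb : E'.ncard = b) (hC : C ⊆ E')
    (hCa : C.ncard = a)
    (hN : ∀ B ⊆ E', M.Indep (B ∪ X) ↔ B.ncard ≤ a ∧ B ≠ C) :
    ∃ M' : Matroid α, M'.IsMinor M ∧ IsW a b M' := by
  have hR : E' ⊆ (M.contract X).E := by
    intro x hx
    rw [Matroid.contract_ground]
    exact ⟨hE' hx, fun h => Set.disjoint_left.1 hd hx h⟩
  refine ⟨(M.contract X).restrict E', ?_, ?_⟩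
  · rw [← Matroid.delete_compl hR]
    exact Matroid.contract_delete_isMinor M X _
  · refine ⟨hf, hb, C, hC, hCa, fun I hI => ?_⟩
    rw [Matroid.restrict_ground_eq] at hI
    rw [Matroid.restrict_indep_iff, hX.contract_indep_iff, ← hN I hI]
    exact ⟨fun h => h.1.2, fun h => ⟨⟨hd.mono_left hI, h⟩, hI⟩⟩

end Pool.Agent.MP8f11b1
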