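import Pool.Agent.Lib.MP_8f11b1_co_AM.Defs

set_option autoImplicit false

namespace Pool.Agent.MP8f11b1

private theorem tsets_ncard {g : ℕ} (S : Finset ℕ) (h : ∀ x ∈ S, x < g) :
    {i : Fin g | (i : ℕ) ∈ S}.ncard = S.card := by
  rw [← Set.ncard_image_of_injective _ Fin.val_injective]
  have : Fin.val '' {i : Fin g | (i : ℕ) ∈ S} = (S : Set ℕ) := by
    ext x
    constructor
    · rintro ⟨i, hi, rfl⟩
      exact hi
    · intro hx
      exact ⟨⟨x, h x hx⟩, hx, rfl⟩
  rw [this, Set.ncard_coe_finset]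

/-- the sets of the small part -/
theorem t_sets {a g : ℕ} (ha : 2 ≤ a) (hg : 2 * a ≤ g + 2) (h2 : a = 2 → 5 ≤ g) :
    ∃ T₀ T₁ CW : Set (Fin g), T₀.ncard + 1 = a ∧ T₁.ncard + 1 = a ∧ CW.ncard = a ∧
      T₀ ≠ T₁ ∧ ¬ T₀ ⊆ CW ∧ ¬ T₁ ⊆ CW ∧ T₀ ∩ T₁ ∩ CW = ∅ ∧
      (a = 2 → Disjoint T₀ CW ∧ Disjoint T₁ CW) := by
  rcases Nat.lt_or_ge 2 a with h3 | h3
  · refine ⟨{i : Fin g | (i : ℕ) ∈ insert (a - 1) (Finset.range (a - 2))},
      {i : Fin g | (i : ℕ) ∈ insert (a - 2) (Finset.range (a - 2))},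
      {i : Fin g | (i : ℕ) ∈ Finset.Ico (a - 2) (2 * a - 2)}, ?_, ?_, ?_, ?_, ?_, ?_, ?_, ?_⟩
    · rw [tsets_ncard, Finset.card_insert_of_notMem, Finset.card_range]
      · omega
      · rw [Finset.mem_range]; omega
      · intro x hx
        rw [Finset.mem_insert, Finset.mem_range] at hx
        omega
    · rw [tsets_ncard, Finset.card_insert_of_notMem, Finset.card_range]
      · omega
      · rw [Finset.mem_range]; omega
      · intro x hx
        rw [Finset.mem_insert, Finset.mem_range] at hx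
        omega
    · rw [tsets_ncard, Nat.card_Ico]
      · omega
      · intro x hx
        rw [Finset.mem_Ico] at hx
        omega
    · intro h
      have h4 : (⟨a - 1, by omega⟩ : Fin g) ∈
          {i : Fin g | (i : ℕ) ∈ insert (a - 1) (Finset.range (a - 2))} := by
        change a - 1 ∈ insert (a - 1) (Finset.range (a - 2))
        exact Finset.mem_insert_self _ _
      rw [h] at h4
      have h5 : a - 1 ∈ insert (a - 2) (Finset.range (a - 2)) := h4
      rw [Finset.mem_insert, Finset.mem_range] at h5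
      omega
    · intro h
      have h4 : (⟨0, by omega⟩ : Fin g) ∈
          {i : Fin g | (i : ℕ) ∈ insert (a - 1) (Finset.range (a - 2))} := by
        change 0 ∈ insert (a - 1) (Finset.range (a - 2))
        exact Finset.mem_insert_of_mem (Finset.mem_range.2 (by omega))
      have h5 : 0 ∈ Finset.Ico (a - 2) (2 * a - 2) := h h4
      rw [Finset.mem_Ico] at h5
      omega
    · intro h
      have h4 : (⟨0, by omega⟩ : Fin g) ∈
          {i : Fin g | (i : ℕ) ∈ insert (a - 2) (Finset.range (a - 2))} := by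
        change 0 ∈ insert (a - 2) (Finset.range (a - 2))
        exact Finset.mem_insert_of_mem (Finset.mem_range.2 (by omega))
      have h5 : 0 ∈ Finset.Ico (a - 2) (2 * a - 2) := h h4
      rw [Finset.mem_Ico] at h5
      omega
    · rw [Set.eq_empty_iff_forall_notMem]
      rintro x ⟨⟨h4, h5⟩, h6⟩
      have h4' : (x : ℕ) ∈ insert (a - 1) (Finset.range (a - 2)) := h4
      have h5' : (x : ℕ) ∈ insert (a - 2) (Finset.range (a - 2)) := h5
      have h6' : (x : ℕ) ∈ Finset.Ico (a - 2) (2 * a - 2) := h6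
      rw [Finset.mem_insert, Finset.mem_range] at h4' h5'
      rw [Finset.mem_Ico] at h6'
      omega
    · intro h; omega
  · have h4 : a = 2 := by omega
    have h5 := h2 h4
    refine ⟨{i : Fin g | (i : ℕ) ∈ ({0} : Finset ℕ)}, {i : Fin g | (i : ℕ) ∈ ({1} : Finset ℕ)},
      {i : Fin g | (i : ℕ) ∈ Finset.Ico 2 4}, ?_, ?_, ?_, ?_, ?_, ?_, ?_, ?_⟩
    · rw [tsets_ncard, Finset.card_singleton]
      · omega
      · intro x hx; rw [Finset.mem_singleton] at hx; omega
    · rw [tsets_ncard, Finset.card_singleton]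
      · omega
      · intro x hx; rw [Finset.mem_singleton] at hx; omega
    · rw [tsets_ncard, Nat.card_Ico]
      · omega
      · intro x hx; rw [Finset.mem_Ico] at hx; omega
    · intro h
      have h6 : (⟨0, by omega⟩ : Fin g) ∈ {i : Fin g | (i : ℕ) ∈ ({0} : Finset ℕ)} :=
        Finset.mem_singleton_self _
      rw [h] at h6
      have h7 : 0 ∈ ({1} : Finset ℕ) := h6
      rw [Finset.mem_singleton] at h7
      omega
    · intro h
      have h6 : (⟨0, by omega⟩ : Fin g) ∈ {i : Fin g | (i : ℕ) ∈ ({0} : Finset ℕ)} :=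
        Finset.mem_singleton_self _
      have h7 : 0 ∈ Finset.Ico 2 4 := h h6
      rw [Finset.mem_Ico] at h7
      omega
    · intro h
      have h6 : (⟨1, by omega⟩ : Fin g) ∈ {i : Fin g | (i : ℕ) ∈ ({1} : Finset ℕ)} :=
        Finset.mem_singleton_self _
      have h7 : 1 ∈ Finset.Ico 2 4 := h h6
      rw [Finset.mem_Ico] at h7
      omega
    · rw [Set.eq_empty_iff_forall_notMem]
      rintro x ⟨⟨h6, h7⟩, h8⟩
      have h6' : (x : ℕ) ∈ ({0} : Finset ℕ) := h6
      have h7' : (x : ℕ) ∈ ({1} : Finset ℕ) := h7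
      rw [Finset.mem_singleton] at h6' h7'
      omega
    · intro _
      constructor
      · rw [Set.disjoint_left]
        intro x h6 h8
        have h6' : (x : ℕ) ∈ ({0} : Finset ℕ) := h6
        have h8' : (x : ℕ) ∈ Finset.Ico 2 4 := h8
        rw [Finset.mem_singleton] at h6'
        rw [Finset.mem_Ico] at h8'
        omega
      · rw [Set.disjoint_left]
        intro x h6 h8
        have h6' : (x : ℕ) ∈ ({1} : Finset ℕ) := h6
        have h8' : (x : ℕ) ∈ Finset.Ico 2 4 := h8
        rw [Finset.mem_singleton] at h6'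
        rw [Finset.mem_Ico] at h8'
        omega

end Pool.Agent.MP8f11b1
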