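import Pool.Agent.Lib.MP_8f11b1_co_AM.NoW
import Pool.Agent.Lib.MP_8f11b1_co_AM.FW3
import Pool.Agent.Lib.MP_8f11b1_co_AM.FW2
import Pool.Agent.Lib.MP_8f11b1_co_AM.GenWB
import Pool.Agent.Lib.MP_8f11b1_co_AM.TSets
import Pool.Agent.Lib.MP_8f11b1_co_AM.IsoW
import Pool.Agent.Lib.MP_8f11b1_co_DU.Bad

set_option autoImplicit false

namespace Pool.Agent.MP8f11b1

open Matroid

/-- the general case -/
theorem badW_gen {a b : ℕ} (ha : 2 ≤ a) (hab : 2 * a ≤ b) (h5 : a + 3 ≤ b)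
    (T₀ T₁ CW : Set (Fin (b - 2))) (hT₀ : T₀.ncard + 1 = a) (hT₁ : T₁.ncard + 1 = a)
    (hCW : CW.ncard = a) (hT : T₀ ≠ T₁) (h0 : ¬ T₀ ⊆ CW) (h1 : ¬ T₁ ⊆ CW)
    (hfree : ∀ (L : Type) [Field L] [Algebra (ZMod 2) L] (κ β : Type) [Fintype κ] [Finite β]
      (v : β → κ → ZMod 2) (X P : κ → ZMod 2) (gam : Fin (b - 2) → ZZ L (a - 2))
      (C E K : Set (β ⊕ Fin (b - 2))), FreeW v X P gam a C E K → E.ncard = b →
      ¬ LinearIndepOn L gam CW →
      ((1, 0, 0) : ZZ L (a - 2)) ∈ Submodule.span L (gam '' T₀) →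
      ((1, 1, 0) : ZZ L (a - 2)) ∈ Submodule.span L (gam '' T₁) → False)
    {α : Type} (U : Matroid α) (hU : IsW a b U) : Bad U := by
  classical
  obtain ⟨gam, hG, hdep, hX, hXP, hun⟩ :=
    genWB (L := AlgebraicClosure (ZMod 2)) (a := a) (g := b - 2) ha (by omega) T₀ T₁ CW hT₀ hT₁
      hT hCW h0 h1
  refine engine gam {T₀} ⟨T₀, rfl⟩ (by rintro T rfl; exact hG) (Ex U) (ex_minorClosed U) ?_ ?_
  · intro r m hr hm M₀ hE hM₀
    refine ⟨⟨Set.toFinite _⟩, ?_⟩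
    refine noW (by omega : 1 ≤ a) (by omega : a < b) hr gam T₀ (ch2 hm gam T₀ hG) ?_ M₀ hE hM₀
      U hU
    intro v X P C E K hF hEb
    exact hfree _ _ _ v X P gam C E K hF hEb hdep hX hXP
  · intro r m hr hm M hE hM hcon
    apply hcon.2
    obtain ⟨X, j, hXi, hj, hjX, hB, hK⟩ := zmin2a (L := AlgebraicClosure (ZMod 2)) (r := r)
      (m := m) hm hr gam
    have hcard : Fintype.card (Bool ⊕ Fin (b - 2)) = b := by
      rw [Fintype.card_sum, Fintype.card_bool, Fintype.card_fin]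
      omega
    refine minor_isW M X ((hM _).2 (Or.inl hXi)) j hj (fun z => ⟨by rw [hE]; trivial, hjX z⟩)
      (a := a) (Sum.inr '' CW)
      (by rw [Set.ncard_image_of_injective _ Sum.inr_injective, hCW]) ?_ U
      (by rw [hcard]; exact hU)
    intro B
    rw [hM, ← hun B, hB]
    constructor
    · rintro (h | ⟨T, rfl, h⟩)
      · exact Or.inl h
      · exact Or.inr ((hK _ _).1 h)
    · rintro (h | h)
      · exact Or.inl h
      · exact Or.inr ⟨T₀, rfl, (hK _ _).2 h⟩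

theorem badW_three {a b : ℕ} (ha : 3 ≤ a) (hab : 2 * a ≤ b) (h4 : a + 4 ≤ b)
    (hne : ¬ (a = 3 ∧ b = 7)) {α : Type} (U : Matroid α) (hU : IsW a b U) : Bad U := by
  obtain ⟨T₀, T₁, CW, h1, h2, h3, h5, h6, h7, h8, -⟩ := t_sets (a := a) (g := b - 2) (by omega)
    (by omega) (by omega)
  refine badW_gen (by omega) hab (by omega) T₀ T₁ CW h1 h2 h3 h5 h6 h7 ?_ U hU
  intro L _ _ κ β _ _ v X P gam C E K hF hE hdep hX hXP
  exact freeW3 hF ha h4 hne hE (by omega) (by omega) T₀ T₁ CW h1 h2 h3 hdep h8 hX hXP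

theorem badW_two {b : ℕ} (hb : 7 ≤ b) {α : Type} (U : Matroid α) (hU : IsW 2 b U) :
    Bad U := by
  obtain ⟨T₀, T₁, CW, h1, h2, h3, h5, h6, h7, h8, h9⟩ := t_sets (a := 2) (g := b - 2) le_rfl
    (by omega) (by omega)
  obtain ⟨h9, h10⟩ := h9 rfl
  refine badW_gen le_rfl (by omega) (by omega) T₀ T₁ CW h1 h2 h3 h5 h6 h7 ?_ U hU
  intro L _ _ κ β _ _ v X P gam C E K hF hE hdep hX hXP
  exact freeW2 hF hb hE (by omega) T₀ T₁ CW (by omega) (by omega) h3 hdep h9 h10 hX hXP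

end Pool.Agent.MP8f11b1
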