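import Pool.Agent.Lib.MP_8f11b1_co_AM.Defs
import Pool.Agent.Lib.MP_8f11b1_co_DU.Bad

set_option autoImplicit false

namespace Pool.Agent.MP8f11b1

open Matroid

/-- large minor-minimal matroids with minors `U` and `N` give large excluded minors -/
theorem bad_of {β γ : Type} (U : Matroid β) (N : Matroid γ) (hN : N.Finite)
    (h : ∀ k : ℕ, ∃ (δ : Type) (K : Matroid δ), K.Finite ∧
      (∃ M' : Matroid δ, M'.IsMinor K ∧ Iso M' U) ∧ (∃ M' : Matroid δ, M'.IsMinor K ∧ Iso M' N) ∧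
      ∀ K' : Matroid δ, K'.IsMinor K → (∃ M' : Matroid δ, M'.IsMinor K' ∧ Iso M' U) →
        (∃ M' : Matroid δ, M'.IsMinor K' ∧ Iso M' N) → k ≤ K'.E.ncard) : Bad U := by
  refine ⟨γ, N, hN, fun k => ?_⟩
  obtain ⟨δ, K, hK, hKU, hKN, hk⟩ := h k
  have hfin' : ∀ S : Matroid δ, S.IsMinor K → S.E.Finite := fun S hS =>
    hK.ground_finite.subset hS.subset
  -- a minimal minor
  have hex : ∃ t : ℕ, ∃ M' : Matroid δ, M'.IsMinor K ∧
      (∃ N' : Matroid δ, N'.IsMinor M' ∧ Iso N' U) ∧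
      (∃ N' : Matroid δ, N'.IsMinor M' ∧ Iso N' N) ∧ M'.E.ncard = t :=
    ⟨_, K, Matroid.IsMinor.refl, hKU, hKN, rfl⟩
  classical
  obtain ⟨M', hM'K, hM'U, hM'N, hcard⟩ := Nat.find_spec hex
  have hmin := fun t (ht : t < Nat.find hex) => Nat.find_min hex ht
  refine ⟨δ, M', ⟨⟨hfin' _ hM'K⟩, ?_, ?_⟩, hk M' hM'K hM'U hM'N⟩
  · rintro (h | h)
    · exact h.2 hM'U
    · exact h.2 hM'N
  · intro M'' hM'' hne'
    have hsub : M''.E ⊂ M'.E := by
      refine hM''.subset.ssubset_of_ne ?_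
      intro hE
      exact hne' (hM''.eq_of_ground_subset hE.symm.subset).symm
    have hlt : M''.E.ncard < Nat.find hex := by
      rw [← hcard]
      exact Set.ncard_lt_ncard hsub (hfin' _ hM'K)
    by_contra hcon
    unfold Union at hcon
    rw [not_or] at hcon
    have hM''K := hM''.trans hM'K
    refine hmin _ hlt ⟨M'', hM''K, ?_, ?_, rfl⟩
    · by_contra hc
      exact hcon.1 ⟨⟨hfin' _ hM''K⟩, hc⟩
    · by_contra hc
      exact hcon.2 ⟨⟨hfin' _ hM''K⟩, hc⟩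

end Pool.Agent.MP8f11b1
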