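import Pool.Agent.Lib.MP_8f11b1_co_AM.Defs

set_option autoImplicit false

namespace Pool.Agent.MP8f11b1

open Matroid

variable {α : Type} {M : Matroid α}

theorem rk_cast [M.Finite] (A : Set α) : (rk M A : ℕ∞) = M.eRk A := by
  unfold rk
  refine ENat.coe_toNat ?_
  have h1 : M.eRk A ≤ M.eRank := M.eRk_le_eRank A
  have h2 : M.eRank ≠ ⊤ := by
    rw [Matroid.eRank_ne_top_iff]
    infer_instance
  exact ne_top_of_le_ne_top h2 h1

theorem rk_le_ncard [M.Finite] {A : Set α} (hA : A.Finite) : rk M A ≤ A.ncard := by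
  have h := M.eRk_le_encard A
  rw [← rk_cast, ← hA.cast_ncard_eq] at h
  exact_mod_cast h

theorem rk_mono [M.Finite] {A B : Set α} (h : A ⊆ B) : rk M A ≤ rk M B := by
  have h1 := M.eRk_mono h
  rw [← rk_cast, ← rk_cast] at h1
  exact_mod_cast h1

theorem rk_submod [M.Finite] (A B : Set α) :
    rk M (A ∩ B) + rk M (A ∪ B) ≤ rk M A + rk M B := by
  have h1 := M.eRk_inter_add_eRk_union_le A B
  simp only [← rk_cast] at h1
  exact_mod_cast h1

theorem rk_union_le [M.Finite] (A B : Set α) : rk M (A ∪ B) ≤ rk M A + rk M B := by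
  have := rk_submod (M := M) A B
  omega

theorem rk_empty [M.Finite] : rk M ∅ = 0 := by
  have := rk_le_ncard (M := M) Set.finite_empty
  simpa using this

theorem indep_iff_rk [M.Finite] {A : Set α} (hA : A ⊆ M.E) :
    M.Indep A ↔ rk M A = A.ncard := by
  have hf : A.Finite := M.ground_finite.subset hA
  rw [Matroid.indep_iff_eRk_eq_encard_of_finite hf, ← rk_cast, ← hf.cast_ncard_eq]
  exact_mod_cast Iff.rfl

theorem rk_indep [M.Finite] {A : Set α} (hA : M.Indep A) : rk M A = A.ncard :=
  (indep_iff_rk hA.subset_ground).1 hA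

theorem rk_closure [M.Finite] (A : Set α) : rk M (M.closure A) = rk M A := by
  unfold rk
  rw [Matroid.eRk_closure_eq]

theorem rk_le_of_subset_closure [M.Finite] {A B : Set α} (h : A ⊆ M.closure B) :
    rk M A ≤ rk M B := by
  rw [← rk_closure B]
  exact rk_mono h

theorem rk_insert_le [M.Finite] (e : α) (A : Set α) : rk M (insert e A) ≤ rk M A + 1 := by
  have h1 := M.eRk_insert_le_add_one e A
  simp only [← rk_cast] at h1
  exact_mod_cast h1

theorem rk_insert_of_mem_closure [M.Finite] {e : α} {A : Set α} (h : e ∈ M.closure A) :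
    rk M (insert e A) = rk M A := by
  refine le_antisymm ?_ (rk_mono (Set.subset_insert _ _))
  have h1 := M.eRk_insert_closure_eq e A
  have h2 : insert e (M.closure A) = M.closure A := Set.insert_eq_of_mem h
  rw [h2, Matroid.eRk_closure_eq] at h1
  unfold rk
  rw [h1]

theorem rk_insert_of_notMem [M.Finite] {e : α} {A : Set α} (he : e ∈ M.E)
    (h : e ∉ M.closure A) : rk M (insert e A) = rk M A + 1 := by
  have h1 := Matroid.eRk_insert_eq_add_one (M := M) (X := A) ⟨he, h⟩
  simp only [← rk_cast] at h1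
  exact_mod_cast h1

theorem mem_closure_iff_rk [M.Finite] {e : α} {A : Set α} (he : e ∈ M.E) :
    e ∈ M.closure A ↔ rk M (insert e A) = rk M A := by
  constructor
  · exact rk_insert_of_mem_closure
  · intro h
    by_contra h1
    have := rk_insert_of_notMem he h1
    omega

theorem exists_indep_rk [M.Finite] {A : Set α} (hA : A ⊆ M.E) :
    ∃ I ⊆ A, M.Indep I ∧ I.ncard = rk M A ∧ A ⊆ M.closure I := by
  obtain ⟨I, hI⟩ := M.exists_isBasis A
  refine ⟨I, hI.subset, hI.indep, ?_, hI.subset_closure⟩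
  have h1 := hI.eRk_eq_encard
  have hf : I.Finite := M.ground_finite.subset hI.indep.subset_ground
  rw [← rk_cast, ← hf.cast_ncard_eq] at h1
  exact_mod_cast h1.symm

theorem spanning_iff_rk [M.Finite] {A : Set α} (hA : A ⊆ M.E) :
    M.Spanning A ↔ rk M A = rk M M.E := by
  rw [Matroid.spanning_iff_eRk_le hA, ← rk_cast, ← Matroid.eRk_ground, ← rk_cast]
  constructor
  · intro h
    have h1 : rk M M.E ≤ rk M A := by exact_mod_cast h
    exact le_antisymm (rk_mono hA) h1
  · intro h
    rw [h]

theorem rk_isBase [M.Finite] {B : Set α} (hB : M.IsBase B) : B.ncard = rk M M.E := by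
  rw [← rk_indep hB.indep]
  exact (spanning_iff_rk hB.subset_ground).1 hB.spanning

theorem isBase_of_indep_ncard [M.Finite] {B : Set α} (hB : M.Indep B)
    (h : B.ncard = rk M M.E) : M.IsBase B := by
  obtain ⟨B', hB', hs⟩ := hB.exists_isBase_superset
  have h1 := rk_isBase hB'
  have h2 : B = B' := Set.eq_of_subset_of_ncard_le hs (by omega)
    (M.ground_finite.subset hB'.subset_ground)
  rw [h2]
  exact hB'

theorem circuit_rk [M.Finite] {C : Set α} (hC : M.IsCircuit C) : rk M C + 1 = C.ncard := by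
  have h1 := hC.eRk_add_one_eq
  have hf : C.Finite := M.ground_finite.subset hC.subset_ground
  rw [← rk_cast, ← hf.cast_ncard_eq] at h1
  exact_mod_cast h1

theorem rk_delete [M.Finite] {A Y : Set α} (hA : Disjoint A Y) :
    rk (M ＼ Y) A = rk M A := by
  unfold rk
  have h1 : M ＼ Y = M ↾ (M.E \ Y) := by rw [Matroid.delete_eq_restrict]
  rw [h1, Matroid.restrict_eRk_eq', ← Matroid.eRk_inter_ground M A]
  congr 2
  ext x
  constructor
  · rintro ⟨h2, h3, -⟩
    exact ⟨h2, h3⟩
  · rintro ⟨h2, h3⟩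
    exact ⟨h2, h3, fun h4 => Set.disjoint_left.1 hA h2 h4⟩

theorem contract_finite [M.Finite] (X : Set α) : (M ／ X).Finite :=
  ⟨M.ground_finite.subset (Matroid.contract_ground_subset_ground M X)⟩

theorem delete_finite [M.Finite] (X : Set α) : (M ＼ X).Finite :=
  ⟨M.ground_finite.subset (by rw [Matroid.delete_ground]; exact Set.sdiff_subset)⟩

/-- the rank in the contraction of an independent set -/
theorem rk_contract [M.Finite] {X A : Set α} (hX : M.Indep X) (hA : Disjoint A X) :
    rk (M ／ X) A + X.ncard = rk M (A ∪ X) := by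
  haveI : (M ／ X).Finite := contract_finite X
  have key : ∀ A ⊆ M.E, Disjoint A X → rk (M ／ X) A + X.ncard = rk M (A ∪ X) := by
    intro A hAE hA
    have hXf : X.Finite := M.ground_finite.subset hX.subset_ground
    have hAE' : A ⊆ (M ／ X).E := by
      rw [Matroid.contract_ground]
      exact fun x hx => ⟨hAE hx, fun h => Set.disjoint_left.1 hA hx h⟩
    obtain ⟨I, hIA, hI, hIc, hcl⟩ := exists_indep_rk hAE'
    have h1 := hX.contract_indep_iff.1 hI
    have hIf : I.Finite := M.ground_finite.subset (hIA.trans hAE)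
    have h2 : (I ∪ X).ncard = I.ncard + X.ncard := Set.ncard_union_eq h1.1 hIf hXf
    have h3 : A ∪ X ⊆ M.closure (I ∪ X) := by
      intro x hx
      rcases hx with hx | hx
      · have h4 := hcl hx
        rw [Matroid.contract_closure_eq] at h4
        exact h4.1
      · exact M.mem_closure_of_mem (Or.inr hx) h1.2.subset_ground
    have h4 := rk_le_of_subset_closure h3
    have h5 : rk M (I ∪ X) ≤ rk M (A ∪ X) := rk_mono (Set.union_subset_union_left _ hIA)
    rw [rk_indep h1.2] at h4 h5
    omega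
  have h1 : rk (M ／ X) A = rk (M ／ X) (A ∩ M.E) := by
    unfold rk
    rw [← Matroid.eRk_inter_ground (M ／ X) A, ← Matroid.eRk_inter_ground (M ／ X) (A ∩ M.E)]
    congr 2
    rw [Matroid.contract_ground]
    ext x
    constructor
    · rintro ⟨h2, h3, h4⟩
      exact ⟨⟨h2, h3⟩, h3, h4⟩
    · rintro ⟨⟨h2, -⟩, h3, h4⟩
      exact ⟨h2, h3, h4⟩
  have h2 : rk M (A ∪ X) = rk M (A ∩ M.E ∪ X) := by
    unfold rk
    rw [← Matroid.eRk_inter_ground M (A ∪ X), ← Matroid.eRk_inter_ground M (A ∩ M.E ∪ X)]
    congr 2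
    ext x
    constructor
    · rintro ⟨h3 | h3, h4⟩
      · exact ⟨Or.inl ⟨h3, h4⟩, h4⟩
      · exact ⟨Or.inr h3, h4⟩
    · rintro ⟨⟨h3, -⟩ | h3, h4⟩
      · exact ⟨Or.inl h3, h4⟩
      · exact ⟨Or.inr h3, h4⟩
  rw [h1, h2]
  exact key _ Set.inter_subset_right (hA.mono_left Set.inter_subset_left)

theorem rk_contractElem [M.Finite] {e : α} {A : Set α} (he : M.Indep {e}) (hA : e ∉ A) :
    rk (M ／ {e}) A + 1 = rk M (insert e A) := by
  have h := rk_contract he (Set.disjoint_singleton_right.2 hA)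
  rw [Set.ncard_singleton, Set.union_singleton] at h
  exact h

/-- the rank in the dual -/
theorem rk_dual [M.Finite] {A : Set α} (hA : A ⊆ M.E) :
    rk M✶ A + rk M M.E = rk M (M.E \ A) + A.ncard := by
  haveI : M✶.Finite := ⟨by rw [Matroid.dual_ground]; exact M.ground_finite⟩
  have h := M.eRk_dual_add_eRank A hA
  rw [← Matroid.eRk_ground] at h
  have hf : A.Finite := M.ground_finite.subset hA
  rw [← rk_cast, ← rk_cast, ← rk_cast, ← hf.cast_ncard_eq] at h
  exact_mod_cast h

/-- an element outside the closure -/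
theorem exists_notMem_closure [M.Finite] {A B : Set α} (hB : B ⊆ M.E)
    (h : rk M A < rk M B) : ∃ e ∈ B, e ∉ M.closure A := by
  by_contra hc
  push Not at hc
  have := rk_le_of_subset_closure (M := M) (A := B) (B := A) hc
  omega

end Pool.Agent.MP8f11b1
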