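import Pool.Agent.Lib.MP_8f11b1_co_AM.Defs
import Pool.Agent.Lib.MP_8f11b1_co_RX.IsoM

set_option autoImplicit false

namespace Pool.Agent.MP8f11b1

open Matroid

variable {α β : Type}

theorem clsV_minor {M M' : Matroid α} [M.Finite] (h : ClsV M) (hm : M'.IsMinor M) :
    ClsV M' := by
  obtain ⟨k, p, D, hD⟩ := h
  obtain ⟨X, hX, hdisj, hind, -⟩ := exists_indep_of_isMinor hm
  have hXf : X.Finite := M.ground_finite.subset hX.subset_ground
  have hXk : X.ncard ≤ k := ((hD X hX.subset_ground).1 hX).1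
  refine ⟨k - X.ncard, p, D \ X, fun I hI => ?_⟩
  have hIE : I ⊆ M.E := hI.trans hm.subset
  have hIf : I.Finite := M.ground_finite.subset hIE
  have hdI : Disjoint I X := (hdisj.mono_right hI).symm
  rw [hind I hI, hD (I ∪ X) (Set.union_subset hIE hX.subset_ground),
    Set.ncard_union_eq hdI hIf hXf]
  refine and_congr ⟨fun h => by omega, fun h => by omega⟩ ?_
  refine imp_congr_right fun _ => not_congr ?_
  rw [Set.sdiff_subset_iff, Set.union_comm]

theorem clsV_iso {M : Matroid α} {N : Matroid β} (hi : Iso M N) (h : ClsV M) : ClsV N := by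
  obtain ⟨k, p, D, hD⟩ := h
  obtain ⟨e, he⟩ := hi
  have key : ∀ J ⊆ N.E, N.Indep J ↔
      J.ncard ≤ k ∧ (p → ¬ D ⊆ IsoM.tr e.symm J) := by
    intro J hJ
    rw [IsoM.indep_tr e.symm (IsoM.symm_aux e he) hJ, hD _ (IsoM.tr_subset e.symm J)]
    have h1 : (IsoM.tr e.symm J).ncard = J.ncard := by
      unfold IsoM.tr
      rw [Set.ncard_image_of_injective _ Subtype.val_injective,
        Set.ncard_image_of_injective _ e.symm.injective]
      conv_rhs => rw [← IsoM.val_pre hJ]
      rw [Set.ncard_image_of_injective _ Subtype.val_injective]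
    rw [h1]
  by_cases hp : p ∧ D ⊆ M.E
  · refine ⟨k, p, IsoM.tr e D, fun J hJ => ?_⟩
    rw [key J hJ]
    refine and_congr_right fun _ => imp_congr_right fun _ => not_congr ?_
    constructor
    · intro h y hy
      obtain ⟨x, hx, rfl⟩ := (IsoM.mem_tr e D y).1 hy
      obtain ⟨y', hy', hxy⟩ := (IsoM.mem_tr e.symm J _).1 (h hx)
      have h2 : e.symm y' = x := Subtype.ext hxy
      rw [← h2, e.apply_symm_apply]
      exact hy'
    · intro h x hx
      refine (IsoM.mem_tr e.symm J x).2 ⟨e ⟨x, hp.2 hx⟩, ?_, ?_⟩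
      · exact h ((IsoM.mem_tr e D _).2 ⟨⟨x, hp.2 hx⟩, hx, rfl⟩)
      · rw [e.symm_apply_apply]
  · refine ⟨k, False, ∅, fun J hJ => ?_⟩
    rw [key J hJ]
    refine and_congr_right fun _ => ⟨fun _ h => h.elim, fun _ h1 h2 => hp ⟨h1, ?_⟩⟩
    exact h2.trans (IsoM.tr_subset e.symm J)

end Pool.Agent.MP8f11b1
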