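import Pool.Agent.Lib.MP_8f11b1_co_AM.PDef
import Pool.Agent.Lib.MP_8f11b1_co_AM.Rk
import Pool.Agent.Lib.MP_8f11b1_co_AM.VMin

set_option autoImplicit false

namespace Pool.Agent.MP8f11b1

open Matroid

variable {α : Type}

private theorem PBig_PY (α : Type) (m : ℕ) : (PY α m).ncard = m := by
  unfold PY
  rw [← Set.image_univ, Set.ncard_image_of_injective, Set.ncard_univ, Nat.card_fin]
  intro i j h
  exact Sum.inr_injective (Sum.inr_injective h)

private theorem PBig_PX (α : Type) (m : ℕ) : (PX α m).ncard = m := by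
  unfold PX
  rw [← Set.image_univ, Set.ncard_image_of_injective, Set.ncard_univ, Nat.card_fin]
  intro i j h
  exact Sum.inl_injective (Sum.inr_injective h)

private theorem PBig_PE (U : Matroid α) [U.Finite] (m : ℕ) :
    (PE U m).ncard = U.E.ncard + 2 * m := by
  unfold PE
  have hd : Disjoint (Sum.inl '' U.E : Set (PT α m)) (Set.range Sum.inr) := by
    rw [Set.disjoint_left]
    rintro _ ⟨x, _, rfl⟩ ⟨y, hy⟩
    exact absurd hy (by simp)
  rw [Set.ncard_union_eq hd (U.ground_finite.image _) (Set.finite_range _),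
    Set.ncard_image_of_injective _ Sum.inl_injective, ← Set.image_univ,
    Set.ncard_image_of_injective _ Sum.inr_injective, Set.ncard_univ, Nat.card_sum, Nat.card_fin]
  omega

/-- not too many elements are contracted or deleted -/
theorem pmat_big (U : Matroid α) [U.Finite] {a m : ℕ} (ha : rk U U.E = a) (hm : 1 ≤ m)
    (K : Matroid (PT α m)) (hK : IsP U a m K) (hV : ¬ ClsV U) (K' : Matroid (PT α m))
    (A B : Set (PT α m)) (hA : K.Indep A) (hAB : Disjoint A B) (hE : A ∪ B = K.E \ K'.E)
    (hK' : K' = K ／ A ＼ B) (hAY : A ⊂ PY α m) (hBY : Disjoint B (PY α m))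
    (hKU : ∃ M' : Matroid (PT α m), M'.IsMinor K' ∧ Iso M' U) :
    2 * m ≤ K'.E.ncard + 2 * U.E.ncard := by
  have hKf : K.E.Finite := by
    rw [hK.1]
    exact (U.ground_finite.image _).union (Set.finite_range _)
  have hAE : A ⊆ K.E := hA.subset_ground
  have hBE : B ⊆ K.E := fun x hx => ((hE ▸ Or.inr hx : x ∈ K.E \ K'.E)).1
  have hK'E : K'.E = (K.E \ A) \ B := by
    rw [hK', Matroid.delete_ground, Matroid.contract_ground]
  have hAf : A.Finite := hKf.subset hAE
  have hBf : B.Finite := hKf.subset hBE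
  have hYf : (PY α m).Finite := Set.finite_range _
  have hXf : (PX α m).Finite := Set.finite_range _
  have hAm : A.ncard ≤ m :=
    (Set.ncard_le_ncard hAY.subset hYf).trans (PBig_PY α m).le
  have hK'f : K'.E.Finite := by
    rw [hK'E]
    exact (hKf.subset Set.sdiff_subset).subset Set.sdiff_subset
  have : K'.Finite := ⟨hK'f⟩
  -- the independent sets of `K'`
  have key : ∀ I ⊆ K'.E, (∃ T : Set α, U.Indep T ∧ Sum.inl '' T ⊆ I ∪ A ∧
      (I \ PY α m).ncard ≤ m + T.ncard) → (K'.Indep I ↔
      I.ncard ≤ a + m - A.ncard ∧ (True → ¬ PY α m \ A ⊆ I)) := by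
    intro I hI hT
    rw [hK'E] at hI
    have hIA : Disjoint I A := Set.disjoint_left.2 fun x hx => (hI hx).1.2
    have hIB : Disjoint I B := Set.disjoint_left.2 fun x hx => (hI hx).2
    have hIE : I ⊆ K.E := fun x hx => (hI hx).1.1
    have hIAE : I ∪ A ⊆ PE U m := by
      rw [← hK.1]
      exact Set.union_subset hIE hAE
    have e1 : (I ∪ A) \ PY α m = I \ PY α m := by
      rw [Set.union_sdiff_distrib, Set.sdiff_eq_empty.2 hAY.subset, Set.union_empty]
    rw [hK', Matroid.delete_indep_iff, hA.contract_indep_iff, hK.2 _ hIAE, PInd, e1,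
      Set.ncard_union_eq hIA (hKf.subset hIE) hAf, Set.sdiff_subset_iff, Set.union_comm A I]
    constructor
    · rintro ⟨⟨-, -, h1, h2⟩, -⟩
      exact ⟨by omega, fun _ => h1⟩
    · rintro ⟨h1, h2⟩
      exact ⟨⟨hIA, hT, h2 trivial, by omega⟩, hIB⟩
  have hcls : ¬ ∀ I ⊆ K'.E, I.ncard ≤ a + m - A.ncard → ∃ T : Set α, U.Indep T ∧
      Sum.inl '' T ⊆ I ∪ A ∧ (I \ PY α m).ncard ≤ m + T.ncard := by
    intro h
    obtain ⟨M', hM', hiso⟩ := hKU
    refine hV (clsV_iso hiso (clsV_minor ⟨a + m - A.ncard, True, PY α m \ A, ?_⟩ hM'))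
    intro I hI
    constructor
    · intro h1
      have h2 : I.ncard ≤ a + m - A.ncard := by
        have h3 := h1
        have hI' := hI
        rw [hK'E] at hI'
        have hIA : Disjoint I A := Set.disjoint_left.2 fun x hx => (hI' hx).1.2
        have hIE : I ⊆ K.E := fun x hx => (hI' hx).1.1
        have hIAE : I ∪ A ⊆ PE U m := by
          rw [← hK.1]
          exact Set.union_subset hIE hAE
        rw [hK', Matroid.delete_indep_iff, hA.contract_indep_iff, hK.2 _ hIAE, PInd,
          Set.ncard_union_eq hIA (hKf.subset hIE) hAf] at h3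
        have := h3.1.2.2.2
        omega
      exact (key I hI (h I hI h2)).1 h1
    · intro h1
      exact (key I hI (h I hI h1.1)).2 h1
  -- few elements are contracted
  have c1 : A.ncard + 1 ≤ a := by
    by_contra hc
    apply hcls
    intro I hI hIc
    refine ⟨∅, U.empty_indep, by simp, ?_⟩
    have h1 : (I \ PY α m).ncard ≤ I.ncard :=
      Set.ncard_le_ncard Set.sdiff_subset (hK'f.subset hI)
    rw [Set.ncard_empty]
    omega
  have hXB := Set.ncard_inter_add_ncard_sdiff_eq_ncard (PX α m) B hXf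
  rw [PBig_PX] at hXB
  -- few elements are deleted
  have c2 : (PX α m ∩ B).ncard + a + 1 ≤ U.E.ncard := by
    by_contra hc
    apply hcls
    intro I hI hIc
    rw [hK'E] at hI
    have hJE : Sum.inl ⁻¹' I ⊆ U.E := by
      intro x hx
      have h1 : Sum.inl x ∈ PE U m := by
        rw [← hK.1]
        exact (hI hx).1.1
      rcases h1 with ⟨y, hy, hxy⟩ | ⟨y, hy⟩
      · rw [← Sum.inl_injective hxy]
        exact hy
      · exact absurd hy (by simp)
    obtain ⟨T, hTJ, hT, hTc, -⟩ := exists_indep_rk hJE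
    refine ⟨T, hT, ?_, ?_⟩
    · rintro _ ⟨x, hx, rfl⟩
      exact Or.inl (hTJ hx)
    · have h1 : I \ PY α m ⊆ Sum.inl '' (Sum.inl ⁻¹' I) ∪ (PX α m \ B) := by
        rintro x ⟨hx, hxY⟩
        rcases x with x | x | x
        · exact Or.inl ⟨x, hx, rfl⟩
        · exact Or.inr ⟨⟨x, rfl⟩, (hI hx).2⟩
        · exact absurd ⟨x, rfl⟩ hxY
      have hJf : (Sum.inl ⁻¹' I : Set α).Finite := U.ground_finite.subset hJE
      have h2 := Set.ncard_le_ncard h1 ((hJf.image _).union (hXf.subset Set.sdiff_subset))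
      have h3 := h2.trans (Set.ncard_union_le _ _)
      rw [Set.ncard_image_of_injective _ Sum.inl_injective] at h3
      have h4 := rk_union_le (M := U) (Sum.inl ⁻¹' I) (U.E \ Sum.inl ⁻¹' I)
      rw [Set.union_sdiff_cancel hJE, ha] at h4
      have h5 := rk_le_ncard (M := U) (A := U.E \ Sum.inl ⁻¹' I)
        (U.ground_finite.subset Set.sdiff_subset)
      have h6 := Set.ncard_sdiff_add_ncard_of_subset hJE U.ground_finite
      omega
  -- arithmetic
  have hB1 : B ⊆ Sum.inl '' U.E ∪ (PX α m ∩ B) := by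
    intro x hx
    have h1 : x ∈ PE U m := by
      rw [← hK.1]
      exact hBE hx
    rcases h1 with h1 | ⟨y, rfl⟩
    · exact Or.inl h1
    · rcases y with y | y
      · exact Or.inr ⟨⟨y, rfl⟩, hx⟩
      · exact absurd ⟨y, rfl⟩ (Set.disjoint_left.1 hBY hx)
  have hB2 := (Set.ncard_le_ncard hB1 ((U.ground_finite.image _).union
    (hXf.subset Set.inter_subset_left))).trans (Set.ncard_union_le _ _)
  rw [Set.ncard_image_of_injective _ Sum.inl_injective] at hB2
  have hE1 := Set.ncard_sdiff_add_ncard_of_subset hAE hKf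
  have hE2 := Set.ncard_sdiff_add_ncard_of_subset (s := B) (t := K.E \ A)
    (fun x hx => ⟨hBE hx, fun h => Set.disjoint_left.1 hAB h hx⟩) (hKf.subset Set.sdiff_subset)
  rw [← hK'E] at hE2
  rw [hK.1, PBig_PE] at hE1
  rw [hK.1] at hE2
  omega

end Pool.Agent.MP8f11b1
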