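import Pool.Agent.Lib.MP_8f11b1_co_AM.PDef
import Pool.Agent.Lib.MP_8f11b1_co_AM.Rk
import Pool.Agent.Lib.MP_8f11b1_co_DU.FBound
import Pool.Agent.Lib.MP_8f11b1_co_RX.IsoM

set_option autoImplicit false

namespace Pool.Agent.MP8f11b1

open Matroid

variable {α : Type}

private theorem PLoc_finite (U : Matroid α) [U.Finite] {a m : ℕ}
    (K : Matroid (PT α m)) (hK : IsP U a m K) : K.Finite := by
  refine ⟨?_⟩
  rw [hK.1]
  exact (U.ground_finite.image _).union (Set.finite_range _)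

private theorem PLoc_ncard (α : Type) (m : ℕ) : (PY α m).ncard = m := by
  unfold PY
  rw [← Set.image_univ, Set.ncard_image_of_injective, Set.ncard_univ, Nat.card_fin]
  intro i j h
  exact Sum.inr_injective (Sum.inr_injective h)

/-- small sets not containing `Y` are independent -/
private theorem PLoc_small (U : Matroid α) [U.Finite] {a m : ℕ}
    (K : Matroid (PT α m)) (hK : IsP U a m K) {Q : Set (PT α m)} (hQE : Q ⊆ K.E)
    (hQ : Q.ncard ≤ m) (hY : ¬ PY α m ⊆ Q) : K.Indep Q := by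
  haveI := PLoc_finite U K hK
  have hQf : Q.Finite := K.ground_finite.subset hQE
  rw [hK.2 Q (by rw [← hK.1]; exact hQE)]
  refine ⟨⟨∅, U.empty_indep, by simp, ?_⟩, hY, by omega⟩
  rw [Set.ncard_empty]
  exact (Set.ncard_le_ncard Set.sdiff_subset hQf).trans hQ

/-- a loop and an independent set with `a + 1` elements -/
private theorem PLoc_iso {β : Type} {a : ℕ} {N : Matroid (Fin (a + 2))} (hN : IsLC a N)
    {M : Matroid β} (h : Iso M N) :
    ∃ (l : β) (B : Set β), l ∈ M.E ∧ ¬ M.Indep {l} ∧ M.Indep B ∧ B.ncard = a + 1 := by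
  obtain ⟨e, he⟩ := h
  obtain ⟨hNE, hNI⟩ := hN
  obtain ⟨z, hz⟩ : ∃ z : ↥N.E, z.1 = 0 := ⟨⟨0, by rw [hNE]; trivial⟩, rfl⟩
  refine ⟨(e.symm z).1, Subtype.val '' ({e.symm z}ᶜ : Set ↥M.E), (e.symm z).2, ?_, ?_, ?_⟩
  · have h1 := he {e.symm z}
    rw [Set.image_singleton, Set.image_singleton, Set.image_singleton, Equiv.apply_symm_apply,
      hNI, hz] at h1
    rw [h1]
    simp
  · rw [he, hNI]
    rintro ⟨w, ⟨x, hx, rfl⟩, hw⟩
    apply hx
    rw [Set.mem_singleton_iff, Equiv.eq_symm_apply]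
    exact Subtype.ext (hw.trans hz.symm)
  · have h1 : Nat.card ↥M.E = a + 2 := by
      rw [Nat.card_congr e, hNE, Nat.card_univ, Nat.card_fin]
    haveI : Finite ↥M.E := Nat.finite_of_card_ne_zero (by omega)
    have h2 := Set.ncard_add_ncard_compl ({e.symm z} : Set ↥M.E)
    rw [Set.ncard_singleton, h1] at h2
    rw [Set.ncard_image_of_injective _ Subtype.val_injective]
    omega

/-- the position of the minors with a minor `N` -/
theorem pmat_loc (U : Matroid α) [U.Finite] {a m : ℕ} (ha : rk U U.E = a) (hm : 1 ≤ m)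
    (K : Matroid (PT α m)) (hK : IsP U a m K) (N : Matroid (Fin (a + 2))) (hN : IsLC a N)
    (K' : Matroid (PT α m)) (hK' : K'.IsMinor K)
    (hKN : ∃ M' : Matroid (PT α m), M'.IsMinor K' ∧ Iso M' N) :
    ∃ A B : Set (PT α m), K.Indep A ∧ Disjoint A B ∧ A ∪ B = K.E \ K'.E ∧ K' = K ／ A ＼ B ∧
      A ⊂ PY α m ∧ Disjoint B (PY α m) := by
  haveI := PLoc_finite U K hK
  obtain ⟨A, B, hA, hAB, hABE, hK'e, -⟩ := exists_indep_coindep hK'
  obtain ⟨M', hM', hiso⟩ := hKN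
  haveI hK'f : K'.Finite := ⟨K.ground_finite.subset hK'.subset⟩
  obtain ⟨A₂, hA₂, hA₂d, hA₂i, -⟩ := exists_indep_of_isMinor hM'
  obtain ⟨l, B₀, hl, hlM, hB₀, hB₀c⟩ := PLoc_iso hN hiso
  have hAE : A ⊆ K.E := hA.subset_ground
  have hAf : A.Finite := K.ground_finite.subset hAE
  have hA₂E : A₂ ⊆ K'.E := hA₂.subset_ground
  have hA₂f : A₂.Finite := K'.ground_finite.subset hA₂E
  have hM'E := hM'.subset
  have hAK' : Disjoint A K'.E := by
    rw [Set.disjoint_left]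
    intro x hx hx2
    have h1 : x ∈ A ∪ B := Or.inl hx
    rw [hABE] at h1
    exact h1.2 hx2
  have hBK' : ∀ x ∈ B, x ∉ K'.E := by
    intro x hx hx2
    have h1 : x ∈ A ∪ B := Or.inr hx
    rw [hABE] at h1
    exact h1.2 hx2
  have hind : ∀ J ⊆ K'.E, (K'.Indep J ↔ K.Indep (J ∪ A)) := by
    intro J hJ
    rw [hK'e, Matroid.delete_indep_iff, hA.contract_indep_iff]
    constructor
    · exact fun h => h.1.2
    · intro h
      refine ⟨⟨hAK'.symm.mono_left hJ, h⟩, ?_⟩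
      rw [Set.disjoint_left]
      exact fun x hx hx2 => hBK' x hx2 (hJ hx)
  have hB₀E : B₀ ⊆ M'.E := hB₀.subset_ground
  have hB₀f : B₀.Finite := K'.ground_finite.subset (hB₀E.trans hM'E)
  have hdB₀ : Disjoint B₀ A₂ := hA₂d.symm.mono_left hB₀E
  have hU₁ : B₀ ∪ A₂ ⊆ K'.E := Set.union_subset (hB₀E.trans hM'E) hA₂E
  -- the size of the contracted set
  have hc1 : A₂.ncard + A.ncard + 1 ≤ m := by
    have h1 : K.Indep ((B₀ ∪ A₂) ∪ A) := (hind _ hU₁).1 ((hA₂i B₀ hB₀E).1 hB₀)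
    have h2 := (hK.2 _ (by rw [← hK.1]; exact h1.subset_ground)).1 h1
    have h3 := h2.2.2
    rw [Set.ncard_union_eq (hAK'.symm.mono_left hU₁) (hB₀f.union hA₂f) hAf,
      Set.ncard_union_eq hdB₀ hB₀f hA₂f, hB₀c] at h3
    omega
  have hlK' : l ∈ K'.E := hM'E hl
  -- the set `Q`
  have hQE' : {l} ∪ A₂ ⊆ K'.E := Set.union_subset (Set.singleton_subset_iff.2 hlK') hA₂E
  have hQE : ({l} ∪ A₂) ∪ A ⊆ K.E := Set.union_subset (hQE'.trans hK'.subset) hAE
  have hQc : (({l} ∪ A₂) ∪ A).ncard ≤ m := by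
    have h1 := Set.ncard_union_le ({l} ∪ A₂) A
    have h2 := Set.ncard_union_le {l} A₂
    rw [Set.ncard_singleton] at h2
    omega
  have hQd : ¬ K.Indep (({l} ∪ A₂) ∪ A) := by
    intro h1
    exact hlM ((hA₂i {l} (Set.singleton_subset_iff.2 hl)).2 ((hind _ hQE').2 h1))
  have hYQ : PY α m ⊆ ({l} ∪ A₂) ∪ A := by
    by_contra h1
    exact hQd (PLoc_small U K hK hQE hQc h1)
  have hYe : PY α m = ({l} ∪ A₂) ∪ A := by
    refine Set.eq_of_subset_of_ncard_le hYQ ?_ (K.ground_finite.subset hQE)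
    rw [PLoc_ncard]
    exact hQc
  refine ⟨A, B, hA, hAB, hABE, hK'e, ?_, ?_⟩
  · refine HasSubset.Subset.ssubset_of_ne ?_ ?_
    · rw [hYe]
      exact Set.subset_union_right
    · intro h1
      have h2 := PLoc_ncard α m
      rw [← h1] at h2
      omega
  · rw [hYe, Set.disjoint_left]
    rintro x hx (hx2 | hx2)
    · exact hBK' x hx (hQE' hx2)
    · exact Set.disjoint_left.1 hAB hx2 hx

end Pool.Agent.MP8f11b1
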