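import Pool.Agent.Lib.MP_8f11b1_co_AM.PDef
import Pool.Agent.Lib.MP_8f11b1_co_AM.Rk

set_option autoImplicit false

namespace Pool.Agent.MP8f11b1

open Matroid

variable {α : Type}

private theorem PMat_PE_finite (U : Matroid α) [U.Finite] (m : ℕ) : (PE U m).Finite :=
  (U.ground_finite.image _).union (Set.finite_range _)

private theorem PMat_PY_ncard (m : ℕ) : (PY α m).ncard = m := by
  unfold PY
  rw [← Set.image_univ, Set.ncard_image_of_injective _
    (fun i j h => Sum.inr.inj (Sum.inr.inj h)), Set.ncard_univ, Nat.card_eq_fintype_card,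
    Fintype.card_fin]

private theorem PMat_PY_finite (m : ℕ) : (PY α m).Finite := Set.finite_range _

private theorem PMat_inl_notMem (m : ℕ) (t : α) : (Sum.inl t : PT α m) ∉ PY α m := by
  rintro ⟨i, hi⟩
  exact absurd hi (by simp)

private theorem PMat_empty (U : Matroid α) {a m : ℕ} (hm : 1 ≤ m) : PInd U a m ∅ := by
  refine ⟨⟨∅, U.empty_indep, by simp, by simp⟩, fun h => ?_, by simp⟩
  have h1 : (Sum.inr (Sum.inr ⟨0, hm⟩) : PT α m) ∈ PY α m := ⟨⟨0, hm⟩, rfl⟩
  exact h h1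

private theorem PMat_sub (U : Matroid α) [U.Finite] {a m : ℕ} {I J : Set (PT α m)}
    (hI : I ⊆ PE U m) (h : PInd U a m I) (hJ : J ⊆ I) : PInd U a m J := by
  obtain ⟨⟨T, hT, hTI, hc⟩, h2, h3⟩ := h
  have hIf : I.Finite := (PMat_PE_finite U m).subset hI
  have hTf : T.Finite := U.ground_finite.subset hT.subset_ground
  have hsub : {t ∈ T | (Sum.inl t : PT α m) ∈ J} ⊆ T := fun t ht => ht.1
  refine ⟨⟨{t ∈ T | (Sum.inl t : PT α m) ∈ J}, hT.subset hsub, ?_, ?_⟩,
    fun h => h2 (h.trans hJ), (Set.ncard_le_ncard hJ hIf).trans h3⟩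
  · rintro _ ⟨t, ht, rfl⟩
    exact ht.2
  · have e1 : (T \ {t ∈ T | (Sum.inl t : PT α m) ∈ J}).ncard +
        {t ∈ T | (Sum.inl t : PT α m) ∈ J}.ncard = T.ncard :=
      Set.ncard_diff_add_ncard_of_subset hsub hTf
    have e2 : ((Sum.inl : α → PT α m) '' (T \ {t ∈ T | (Sum.inl t : PT α m) ∈ J})).ncard =
        (T \ {t ∈ T | (Sum.inl t : PT α m) ∈ J}).ncard :=
      Set.ncard_image_of_injective _ Sum.inl_injective
    have e3 : (Sum.inl : α → PT α m) '' (T \ {t ∈ T | (Sum.inl t : PT α m) ∈ J}) ⊆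
        I \ PY α m := by
      rintro _ ⟨t, ht, rfl⟩
      exact ⟨hTI ⟨t, ht.1, rfl⟩, PMat_inl_notMem m t⟩
    have e4 := Set.ncard_diff_add_ncard_of_subset e3 (hIf.diff)
    have e5 : J \ PY α m ⊆ (I \ PY α m) \
        ((Sum.inl : α → PT α m) '' (T \ {t ∈ T | (Sum.inl t : PT α m) ∈ J})) := by
      rintro x ⟨hx, hx'⟩
      refine ⟨⟨hJ hx, hx'⟩, ?_⟩
      rintro ⟨t, ht, rfl⟩
      exact ht.2 ⟨ht.1, hx⟩
    have e6 := Set.ncard_le_ncard e5 (hIf.diff.diff)
    omega

private theorem PMat_aug (U : Matroid α) [U.Finite] {a m : ℕ} {I J : Set (PT α m)}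
    (hI : I ⊆ PE U m) (h : PInd U a m I) (hJ : J ⊆ PE U m) (h' : PInd U a m J)
    (hlt : I.ncard < J.ncard) : ∃ e ∈ J, e ∉ I ∧ PInd U a m (insert e I) := by
  have hIf : I.Finite := (PMat_PE_finite U m).subset hI
  have hJf : J.Finite := (PMat_PE_finite U m).subset hJ
  obtain ⟨⟨T0, hT0, hT0I, hc0⟩, h2, h3⟩ := h
  obtain ⟨⟨T', hT', hTJ, hc'⟩, h2', h3'⟩ := h'
  -- a maximal set T
  have hSf : {T : Set α | U.Indep T ∧ (Sum.inl : α → PT α m) '' T ⊆ I}.Finite :=
    (U.ground_finite.finite_subsets).subset fun T hT => hT.1.subset_ground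
  obtain ⟨T, ⟨hT, hTI⟩, hmax⟩ := Set.exists_max_image _ (fun T : Set α => T.ncard) hSf
    ⟨T0, hT0, hT0I⟩
  have hc : (I \ PY α m).ncard ≤ m + T.ncard := by
    have := hmax T0 ⟨hT0, hT0I⟩
    omega
  have hTf : T.Finite := U.ground_finite.subset hT.subset_ground
  have hTf' : T'.Finite := U.ground_finite.subset hT'.subset_ground
  have hcard : ∀ e ∉ I, (insert e I).ncard ≤ a + m := by
    intro e he
    rw [Set.ncard_insert_of_notMem he hIf]
    omega
  have hPY : ∀ e ∉ PY α m, ¬ PY α m ⊆ insert e I := by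
    intro e he hs
    refine h2 fun x hx => ?_
    rcases hs hx with rfl | h1
    · exact absurd hx he
    · exact h1
  have hI2 := Set.ncard_inter_add_ncard_sdiff_eq_ncard I (PY α m) hIf
  have hJ2 := Set.ncard_inter_add_ncard_sdiff_eq_ncard J (PY α m) hJf
  rcases lt_or_ge (I ∩ PY α m).ncard (J ∩ PY α m).ncard with hlt1 | hge1
  · obtain ⟨e, he, he'⟩ := Set.exists_mem_notMem_of_ncard_lt_ncard hlt1
      (hIf.subset Set.inter_subset_left)
    have heI : e ∉ I := fun h1 => he' ⟨h1, he.2⟩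
    refine ⟨e, he.1, heI, ⟨T, hT, hTI.trans (Set.subset_insert _ _), ?_⟩, fun hs => ?_,
      hcard e heI⟩
    · rw [Set.insert_sdiff_of_mem _ he.2]
      exact hc
    · have e1 : PY α m ⊆ insert e (I ∩ PY α m) := by
        intro x hx
        rcases hs hx with rfl | h1
        · exact Set.mem_insert _ _
        · exact Set.mem_insert_of_mem _ ⟨h1, hx⟩
      have e2 := Set.ncard_le_ncard e1 ((hIf.subset Set.inter_subset_left).insert e)
      have e3 := Set.ncard_insert_le e (I ∩ PY α m)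
      rw [PMat_PY_ncard] at e2
      have e4 : (PY α m).ncard ≤ (J ∩ PY α m).ncard := by
        rw [PMat_PY_ncard]
        omega
      have e5 := Set.eq_of_subset_of_ncard_le Set.inter_subset_right e4 (PMat_PY_finite m)
      exact h2' (e5 ▸ Set.inter_subset_left)
  · rcases lt_or_ge (I \ PY α m).ncard (m + T.ncard) with hlt2 | hge2
    · obtain ⟨e, he, he'⟩ := Set.exists_mem_notMem_of_ncard_lt_ncard
        (show (I \ PY α m).ncard < (J \ PY α m).ncard by omega) hIf.diff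
      have heI : e ∉ I := fun h1 => he' ⟨h1, he.2⟩
      refine ⟨e, he.1, heI, ⟨T, hT, hTI.trans (Set.subset_insert _ _), ?_⟩, hPY e he.2,
        hcard e heI⟩
      rw [Set.insert_sdiff_of_notMem _ he.2]
      exact (Set.ncard_insert_le _ _).trans hlt2
    · have hTT : T.ncard < T'.ncard := by omega
      have hTT' : T.encard < T'.encard := by
        rw [← hTf.cast_ncard_eq, ← hTf'.cast_ncard_eq]
        exact_mod_cast hTT
      obtain ⟨t, ht, htT⟩ := hT.augment hT' hTT'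
      have htI : (Sum.inl t : PT α m) ∉ I := by
        intro h1
        have e1 := hmax (insert t T) ⟨htT, by
          rw [Set.image_insert_eq]
          exact Set.insert_subset h1 hTI⟩
        rw [Set.ncard_insert_of_notMem ht.2 hTf] at e1
        omega
      refine ⟨Sum.inl t, hTJ ⟨t, ht.1, rfl⟩, htI, ⟨insert t T, htT, ?_, ?_⟩,
        hPY _ (PMat_inl_notMem m t), hcard _ htI⟩
      · rw [Set.image_insert_eq]
        exact Set.insert_subset_insert hTI
      · rw [Set.insert_sdiff_of_notMem _ (PMat_inl_notMem m t),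
          Set.ncard_insert_of_notMem ht.2 hTf]
        have e1 := Set.ncard_insert_le (Sum.inl t : PT α m) (I \ PY α m)
        omega

theorem pmat_exists (U : Matroid α) [U.Finite] {a m : ℕ} (ha : rk U U.E = a) (hm : 1 ≤ m) :
    ∃ K : Matroid (PT α m), IsP U a m K := by
  let K := IndepMatroid.ofFinite (PMat_PE_finite U m) (fun I => I ⊆ PE U m ∧ PInd U a m I)
    ⟨Set.empty_subset _, PMat_empty U hm⟩
    (fun I J hJ hIJ => ⟨hIJ.trans hJ.1, PMat_sub U hJ.1 hJ.2 hIJ⟩)
    (fun I J hI hJ hlt => by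
      obtain ⟨e, he, he', h1⟩ := PMat_aug U hI.1 hI.2 hJ.1 hJ.2 hlt
      exact ⟨e, he, he', Set.insert_subset (hJ.1 he) hI.1, h1⟩)
    (fun I hI => hI.1)
  refine ⟨K.matroid, rfl, fun I hI => ?_⟩
  exact ⟨fun h => h.2, fun h => ⟨hI, h⟩⟩

theorem lc_exists (a : ℕ) : ∃ N : Matroid (Fin (a + 2)), IsLC a N := by
  refine ⟨Matroid.uniqueBaseOn {x | x ≠ 0} Set.univ, rfl, fun I => ?_⟩
  rw [Matroid.uniqueBaseOn_indep_iff (Set.subset_univ _)]
  exact ⟨fun h h0 => h h0 rfl, fun h x hx h0 => h (h0 ▸ hx)⟩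

end Pool.Agent.MP8f11b1
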