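import Pool.Agent.Lib.MP_8f11b1_co_AM.PDef
import Pool.Agent.Lib.MP_8f11b1_co_AM.Rk
import Pool.Agent.Lib.MP_8f11b1_co_RX.MinX

set_option autoImplicit false

namespace Pool.Agent.MP8f11b1

open Matroid

variable {α : Type}

namespace PMin

theorem ncard_PX (α : Type) (m : ℕ) : (PX α m).ncard = m := by
  unfold PX
  rw [← Set.image_univ, Set.ncard_image_of_injective _
    (fun i j h => Sum.inl_injective (Sum.inr_injective h)), Set.ncard_univ, Nat.card_fin]

theorem ncard_PY (α : Type) (m : ℕ) : (PY α m).ncard = m := by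
  unfold PY
  rw [← Set.image_univ, Set.ncard_image_of_injective _
    (fun i j h => Sum.inr_injective (Sum.inr_injective h)), Set.ncard_univ, Nat.card_fin]

theorem finite_PX (α : Type) (m : ℕ) : (PX α m).Finite := Set.finite_range _

theorem finite_PY (α : Type) (m : ℕ) : (PY α m).Finite := Set.finite_range _

theorem indepU (U : Matroid α) [U.Finite] {a m : ℕ} (ha : rk U U.E = a) (hm : 1 ≤ m)
    (K : Matroid (PT α m)) (hK : IsP U a m K) (B : Set α) (hB : B ⊆ U.E) :
    U.Indep B ↔ K.Indep (Sum.inl '' B ∪ PX α m) := by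
  have hBf : B.Finite := U.ground_finite.subset hB
  have hsub : (Sum.inl '' B ∪ PX α m : Set (PT α m)) ⊆ PE U m := by
    rintro _ (⟨b, hb, rfl⟩ | ⟨i, rfl⟩)
    · exact Or.inl ⟨b, hB hb, rfl⟩
    · exact Or.inr ⟨_, rfl⟩
  have hdis : Disjoint (Sum.inl '' B : Set (PT α m)) (PX α m) := by
    rw [Set.disjoint_left]
    rintro _ ⟨b, -, rfl⟩ ⟨i, hi⟩
    exact Sum.inr_ne_inl hi
  have hcard : (Sum.inl '' B ∪ PX α m : Set (PT α m)).ncard = B.ncard + m := by
    rw [Set.ncard_union_eq hdis (hBf.image _) (finite_PX α m),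
      Set.ncard_image_of_injective _ Sum.inl_injective, ncard_PX]
  have hdiff : (Sum.inl '' B ∪ PX α m : Set (PT α m)) \ PY α m = Sum.inl '' B ∪ PX α m := by
    refine sdiff_eq_left.2 (Set.disjoint_left.2 ?_)
    rintro _ (⟨b, -, rfl⟩ | ⟨i, rfl⟩) ⟨k, hk⟩
    · exact Sum.inr_ne_inl hk
    · exact Sum.inr_ne_inl (Sum.inr_injective hk)
  rw [hK.2 _ hsub]
  unfold PInd
  rw [hdiff, hcard]
  constructor
  · intro h
    refine ⟨⟨B, h, Set.subset_union_left, by omega⟩, fun h1 => ?_, ?_⟩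
    · have h2 : (Sum.inr (Sum.inr ⟨0, hm⟩) : PT α m) ∈ (Sum.inl '' B ∪ PX α m : Set (PT α m)) :=
        h1 ⟨⟨0, hm⟩, rfl⟩
      rcases h2 with ⟨b, -, hb⟩ | ⟨i, hi⟩
      · exact Sum.inl_ne_inr hb
      · exact Sum.inl_ne_inr (Sum.inr_injective hi)
    · have h1 := rk_indep h
      have h2 := rk_mono (M := U) hB
      omega
  · rintro ⟨⟨T, hT, hTs, hTc⟩, -, -⟩
    have hTB : T ⊆ B := by
      intro t ht
      rcases hTs ⟨t, ht, rfl⟩ with ⟨b, hb, hbt⟩ | ⟨i, hi⟩
      · exact Sum.inl_injective hbt ▸ hb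
      · exact absurd hi Sum.inr_ne_inl
    have h1 : T = B := Set.eq_of_subset_of_ncard_le hTB (by omega) hBf
    exact h1 ▸ hT

end PMin

theorem pmat_minorU (U : Matroid α) [U.Finite] {a m : ℕ} (ha : rk U U.E = a) (hm : 1 ≤ m)
    (K : Matroid (PT α m)) (hK : IsP U a m K) :
    ∃ M' : Matroid (PT α m), M'.IsMinor K ∧ Iso M' U := by
  refine exists_isMinor_iso K U (PX α m) ?_ Sum.inl Sum.inl_injective.injOn ?_
    (PMin.indepU U ha hm K hK)
  · have h := (PMin.indepU U ha hm K hK ∅ (Set.empty_subset _)).1 U.empty_indep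
    rwa [Set.image_empty, Set.empty_union] at h
  · intro b hb
    rw [hK.1]
    refine ⟨Or.inl ⟨b, hb, rfl⟩, ?_⟩
    rintro ⟨i, hi⟩
    exact Sum.inr_ne_inl hi

theorem pmat_minorN (U : Matroid α) [U.Finite] {a m : ℕ} (ha : rk U U.E = a) (hm : 1 ≤ m)
    (K : Matroid (PT α m)) (hK : IsP U a m K) (N : Matroid (Fin (a + 2))) (hN : IsLC a N) :
    ∃ M' : Matroid (PT α m), M'.IsMinor K ∧ Iso M' N := by
  obtain ⟨B, hB⟩ := U.exists_isBase
  have hBE := hB.subset_ground
  have hBf : B.Finite := U.ground_finite.subset hBE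
  have hBc : B.ncard = a := (rk_isBase hB).trans ha
  have : Finite ↥B := hBf
  have hcd : Nat.card (Fin a) = Nat.card ↥B := by
    rw [Nat.card_fin, Nat.card_coe_set_eq, hBc]
  obtain ⟨e⟩ := Finite.card_eq.1 hcd
  obtain ⟨y0, hy0⟩ : ∃ y0 : PT α m, y0 = Sum.inr (Sum.inr ⟨0, hm⟩) := ⟨_, rfl⟩
  obtain ⟨x0, hx0⟩ : ∃ x0 : PT α m, x0 = Sum.inr (Sum.inl ⟨0, hm⟩) := ⟨_, rfl⟩
  obtain ⟨j, hj⟩ : ∃ j : Fin (a + 2) → PT α m,
      j = Fin.cons y0 (Fin.cons x0 fun i => Sum.inl (e i).1) := ⟨_, rfl⟩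
  have hj0 : j 0 = y0 := by
    rw [hj]
    rfl
  have hj1 : j (Fin.succ 0) = x0 := by
    rw [hj]
    rfl
  have hj2 : ∀ i : Fin a, j i.succ.succ = Sum.inl (e i).1 := by
    intro i
    rw [hj]
    rfl
  have hcases : ∀ i : Fin (a + 2), i = 0 ∨ i = Fin.succ 0 ∨ ∃ k : Fin a, i = k.succ.succ := by
    intro i
    refine Fin.cases (Or.inl rfl) (fun i => ?_) i
    refine Fin.cases (Or.inr (Or.inl rfl)) (fun i => ?_) i
    exact Or.inr (Or.inr ⟨i, rfl⟩)
  have hxy : x0 ≠ y0 := by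
    rw [hx0, hy0]
    exact fun h => Sum.inl_ne_inr (Sum.inr_injective h)
  have hxl : ∀ t : α, x0 ≠ Sum.inl t := fun t => by
    rw [hx0]
    exact Sum.inr_ne_inl
  have hyl : ∀ t : α, y0 ≠ Sum.inl t := fun t => by
    rw [hy0]
    exact Sum.inr_ne_inl
  have hinj : Function.Injective j := by
    intro i i' h
    rcases hcases i with rfl | rfl | ⟨k, rfl⟩ <;> rcases hcases i' with rfl | rfl | ⟨k', rfl⟩
    · rfl
    · rw [hj0, hj1] at h
      exact absurd h.symm hxy
    · rw [hj0, hj2] at h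
      exact absurd h (hyl _)
    · rw [hj0, hj1] at h
      exact absurd h hxy
    · rfl
    · rw [hj1, hj2] at h
      exact absurd h (hxl _)
    · rw [hj0, hj2] at h
      exact absurd h.symm (hyl _)
    · rw [hj1, hj2] at h
      exact absurd h.symm (hxl _)
    · rw [hj2, hj2] at h
      rw [e.injective (Subtype.ext (Sum.inl_injective h))]
  have hyY : y0 ∈ PY α m := by
    rw [hy0]
    exact ⟨_, rfl⟩
  have hjE : ∀ i, j i ∈ PE U m := by
    intro i
    rcases hcases i with rfl | rfl | ⟨k, rfl⟩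
    · rw [hj0, hy0]
      exact Or.inr ⟨_, rfl⟩
    · rw [hj1, hx0]
      exact Or.inr ⟨_, rfl⟩
    · rw [hj2]
      exact Or.inl ⟨_, hBE (e k).2, rfl⟩
  have hYE : PY α m ⊆ PE U m := by
    rintro _ ⟨i, rfl⟩
    exact Or.inr ⟨_, rfl⟩
  have hjX : ∀ i, j i ∉ PY α m \ {y0} := by
    intro i
    rcases hcases i with rfl | rfl | ⟨k, rfl⟩
    · rw [hj0]
      exact fun h => h.2 rfl
    · rw [hj1, hx0]
      rintro ⟨⟨i, hi⟩, -⟩
      exact Sum.inr_ne_inl (Sum.inr_injective hi)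
    · rw [hj2]
      rintro ⟨⟨i, hi⟩, -⟩
      exact Sum.inr_ne_inl hi
  have key : ∀ I : Set (Fin (a + 2)), N.Indep I ↔ K.Indep (j '' I ∪ (PY α m \ {y0})) := by
    intro I
    have hsub : (j '' I ∪ (PY α m \ {y0})) ⊆ PE U m := by
      rintro _ (⟨i, -, rfl⟩ | h)
      · exact hjE i
      · exact hYE h.1
    rw [hN.2 I, hK.2 _ hsub]
    constructor
    · intro h0
      have hy : y0 ∉ j '' I ∪ (PY α m \ {y0}) := by
        rintro (⟨i, hi, hiy⟩ | h)
        · rw [← hj0] at hiy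
          exact h0 (hinj hiy ▸ hi)
        · exact h.2 rfl
      have hTf : {t | t ∈ B ∧ Sum.inl t ∈ j '' I}.Finite := hBf.subset fun t ht => ht.1
      refine ⟨⟨{t | t ∈ B ∧ Sum.inl t ∈ j '' I}, hB.indep.subset fun t ht => ht.1, ?_, ?_⟩,
        fun h => hy (h hyY), ?_⟩
      · rintro _ ⟨t, ht, rfl⟩
        exact Or.inl ht.2
      · have h1 : (j '' I ∪ (PY α m \ {y0})) \ PY α m ⊆
            insert x0 (Sum.inl '' {t | t ∈ B ∧ Sum.inl t ∈ j '' I}) := by
          rintro _ ⟨⟨i, hi, rfl⟩ | h, h2⟩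
          · rcases hcases i with rfl | rfl | ⟨k, rfl⟩
            · exact absurd hi h0
            · rw [hj1]
              exact Set.mem_insert _ _
            · refine Set.mem_insert_of_mem _ ⟨(e k).1, ⟨(e k).2, ⟨_, hi, hj2 k⟩⟩, (hj2 k).symm⟩
          · exact absurd h.1 h2
        have h2 := Set.ncard_le_ncard h1 ((hTf.image _).insert _)
        have h3 := Set.ncard_insert_le x0
          (Sum.inl '' {t | t ∈ B ∧ Sum.inl t ∈ j '' I} : Set (PT α m))
        rw [Set.ncard_image_of_injective _ Sum.inl_injective] at h3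
        omega
      · have h1 : j '' I ∪ (PY α m \ {y0}) ⊆
            insert x0 (Sum.inl '' B) ∪ (PY α m \ {y0}) := by
          rintro _ (⟨i, hi, rfl⟩ | h)
          · rcases hcases i with rfl | rfl | ⟨k, rfl⟩
            · exact absurd hi h0
            · rw [hj1]
              exact Or.inl (Set.mem_insert _ _)
            · exact Or.inl (Set.mem_insert_of_mem _ ⟨(e k).1, (e k).2, (hj2 k).symm⟩)
          · exact Or.inr h
        have h2 := Set.ncard_le_ncard h1
          (((hBf.image _).insert _).union ((PMin.finite_PY α m).subset Set.sdiff_subset))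
        have h3 := Set.ncard_union_le (insert x0 (Sum.inl '' B) : Set (PT α m))
          (PY α m \ {y0})
        have h4 := Set.ncard_insert_le x0 (Sum.inl '' B : Set (PT α m))
        rw [Set.ncard_image_of_injective _ Sum.inl_injective] at h4
        have h5 := Set.ncard_sdiff_singleton_add_one hyY (PMin.finite_PY α m)
        rw [PMin.ncard_PY] at h5
        omega
    · rintro ⟨-, h2, -⟩ h0
      refine h2 fun y hy => ?_
      by_cases h3 : y = y0
      · rw [h3, ← hj0]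
        exact Or.inl ⟨0, h0, rfl⟩
      · exact Or.inr ⟨hy, h3⟩
  refine exists_isMinor_iso K N (PY α m \ {y0}) ?_ j hinj.injOn
    (fun i _ => ⟨hK.1 ▸ hjE i, hjX i⟩) fun I _ => key I
  have h := (key ∅).1 N.empty_indep
  rwa [Set.image_empty, Set.empty_union] at h

end Pool.Agent.MP8f11b1
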