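import Pool.Agent.Lib.MP_8f11b1_co_AM.BadOf
import Pool.Agent.Lib.MP_8f11b1_co_AM.PMat
import Pool.Agent.Lib.MP_8f11b1_co_AM.PMin
import Pool.Agent.Lib.MP_8f11b1_co_AM.PLoc
import Pool.Agent.Lib.MP_8f11b1_co_AM.PBig

set_option autoImplicit false

namespace Pool.Agent.MP8f11b1

open Matroid

/-- matroids outside of `ClsV` are bad -/
theorem p_bad {α : Type} (U : Matroid α) (hU : U.Finite) (hV : ¬ ClsV U) : Bad U := by
  obtain ⟨N, hN⟩ := lc_exists (rk U U.E)
  refine bad_of U N ⟨Set.toFinite _⟩ ?_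
  intro k
  set m : ℕ := k + 2 * U.E.ncard + 1 with hm
  obtain ⟨K, hK⟩ := pmat_exists U (m := m) rfl (by omega)
  have hKf : K.Finite := by
    refine ⟨?_⟩
    rw [hK.1]
    exact (hU.ground_finite.image _).union (Set.finite_range _)
  refine ⟨PT α m, K, hKf, pmat_minorU U rfl (by omega) K hK,
    pmat_minorN U rfl (by omega) K hK N hN, ?_⟩
  intro K' hK' h1 h2
  obtain ⟨A, B, hA, hAB, hE, hKK, hAY, hBY⟩ := pmat_loc U rfl (by omega) K hK N hN K' hK' h2
  have := pmat_big U rfl (by omega) K hK hV K' A B hA hAB hE hKK hAY hBY h1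
  omega

end Pool.Agent.MP8f11b1
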