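import Pool.Agent.Lib.MP_8f11b1_co_AM.SmallOf
import Pool.Agent.Lib.MP_8f11b1_co_RX.U2Rep
import Pool.Agent.Lib.MP_8f11b1_co_RX.RepM

set_option autoImplicit false

namespace Pool.Agent.MP8f11b1

open Matroid

namespace Sm2

variable {F : Type} [Field F]

/-- the affine coordinate -/
private def τ : Option F → F
  | none => 0
  | some t => t

/-- The vectors: two parallel ones and the affine line with `0` doubled. -/
private def g : Bool ⊕ Option F → F × F
  | .inl _ => (1, 0)
  | .inr a => (τ a, 1)

private def C : Set (Bool ⊕ Option F) := {Sum.inl true, Sum.inl false}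

private def K : Set (Bool ⊕ Option F) := {Sum.inr none, Sum.inr (some 0)}

private theorem τ_eq {x y : Option F} (h : τ x = τ y) (hxy : x ≠ y) :
    ({Sum.inr x, Sum.inr y} : Set (Bool ⊕ Option F)) = K := by
  rcases x with _ | x <;> rcases y with _ | y
  · exact absurd rfl hxy
  · have h1 : (0 : F) = y := h
    subst h1
    rfl
  · have h1 : x = (0 : F) := h
    subst h1
    exact Set.pair_comm _ _
  · have h1 : x = y := h
    exact absurd (by rw [h1]) hxy

private theorem lin_iff [Finite F] (I : Set (Bool ⊕ Option F)) :
    LinearIndepOn F (g : Bool ⊕ Option F → F × F) I ↔ I.ncard ≤ 2 ∧ I ≠ C ∧ I ≠ K := by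
  constructor
  · intro h
    refine ⟨?_, ?_, ?_⟩
    · have h1 := (lin_ncard_le g h).2
      simpa using h1
    · rintro rfl
      have h1 : (Sum.inl true : Bool ⊕ Option F) = Sum.inl false :=
        h.injOn (by simp [C]) (by simp [C]) (by simp [g])
      simp at h1
    · rintro rfl
      have h1 : (Sum.inr none : Bool ⊕ Option F) = Sum.inr (some 0) :=
        h.injOn (by simp [K]) (by simp [K]) (by simp [g, τ])
      simp at h1
  · rintro ⟨h1, h2, h2'⟩
    have hf : I.Finite := Set.toFinite I
    rcases Nat.lt_or_ge I.ncard 1 with h3 | h3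
    · have h4 : I = ∅ := by
        rw [← Set.ncard_eq_zero hf]
        omega
      rw [h4]
      exact linearIndepOn_empty F _
    rcases Nat.lt_or_ge I.ncard 2 with h4 | h4
    · obtain ⟨x, rfl⟩ := Set.ncard_eq_one.1 (by omega : I.ncard = 1)
      refine LinearIndepOn.singleton ?_
      rcases x with x | x
      · simp [g]
      · simp [g]
    · obtain ⟨x, y, hxy, rfl⟩ := Set.ncard_eq_two.1 (by omega : I.ncard = 2)
      rw [LinearIndepOn.pair_iff _ hxy]
      rcases x with x | x
      · rcases y with y | y
        · exfalso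
          apply h2
          unfold C
          cases x <;> cases y
          · simp at hxy
          · exact Set.pair_comm _ _
          · rfl
          · simp at hxy
        · intro c d hcd
          simp only [g, Prod.smul_mk, Prod.mk_add_mk, Prod.mk_eq_zero, smul_eq_mul, mul_one,
            mul_zero, zero_add] at hcd
          obtain ⟨h5, h6⟩ := hcd
          subst h6
          simpa using h5
      · rcases y with y | y
        · intro c d hcd
          simp only [g, Prod.smul_mk, Prod.mk_add_mk, Prod.mk_eq_zero, smul_eq_mul, mul_one,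
            mul_zero, add_zero] at hcd
          obtain ⟨h5, h6⟩ := hcd
          subst h6
          simpa using h5
        · intro c d hcd
          simp only [g, Prod.smul_mk, Prod.mk_add_mk, Prod.mk_eq_zero, smul_eq_mul,
            mul_one] at hcd
          obtain ⟨h5, h6⟩ := hcd
          have h7 : τ x ≠ τ y := fun h => h2' (τ_eq h fun h8 => hxy (by rw [h8]))
          have h8 : c * (τ x - τ y) = 0 := by linear_combination h5 - τ y * h6
          rcases mul_eq_zero.1 h8 with h9 | h9
          · subst h9
            simpa using h6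
          · exact absurd (sub_eq_zero.1 h9) h7

private theorem nrep [Finite F] {b : ℕ} (hb : b = Nat.card F + 3) (α : Type) (W : Matroid α)
    (hW : IsW 2 b W) : ¬ Rep F W := by
  intro hR
  obtain ⟨hE, hEb, C, hCE, hC2, hI⟩ := hW
  obtain ⟨c, hc⟩ : C.Nonempty := Set.nonempty_of_ncard_ne_zero (by omega)
  have hcE : c ∈ W.E := hCE hc
  have h1 : Rep F (W ＼ {c}) := hR.minor ⟨∅, {c}, by rw [contract_empty]⟩
  have h2 : IsU2 (b - 1) (W ＼ {c}) := by
    refine ⟨?_, fun I hI' => ?_⟩
    · rw [delete_ground]
      have h3 := Set.ncard_sdiff_singleton_add_one hcE hE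
      omega
    · rw [delete_ground] at hI'
      have h3 : I ⊆ W.E := fun x hx => (hI' hx).1
      have h4 : c ∉ I := fun hx => (hI' hx).2 rfl
      rw [deleteElem_indep_iff, hI I h3]
      constructor
      · exact fun h5 => h5.1.1
      · exact fun h5 => ⟨⟨h5, fun h6 => h4 (h6 ▸ hc)⟩, h4⟩
  have h3 := rep_isU2 h1 h2
  omega

end Sm2

open Sm2 in
/-- `W_{2,q+3}` for the size `q` of a finite field -/
theorem small_two (F : Type) [Field F] [Finite F] {b : ℕ} (hb : b = Nat.card F + 3)
    {α : Type} (W : Matroid α) (hW : IsW 2 b W) : Bad W := by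
  have hCK : (C : Set (Bool ⊕ Option F)) ≠ K := by
    intro h
    have h1 : (Sum.inl true : Bool ⊕ Option F) ∈ (K : Set (Bool ⊕ Option F)) := by
      rw [← h]
      simp [C]
    simp [K] at h1
  refine small_of F (g : Bool ⊕ Option F → F × F) C K le_rfl ?_ ?_ ?_ ?_ ?_ hCK lin_iff
    (fun α W hW => nrep hb α W hW) W hW
  · omega
  · rw [Nat.card_sum, Finite.card_option]
    simp
    omega
  · simp
  · unfold C
    exact Set.ncard_pair (by simp)
  · unfold K
    exact Set.ncard_pair (by simp)

end Pool.Agent.MP8f11b1
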