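import Pool.Agent.Lib.MP_8f11b1_co_AM.Rk

set_option autoImplicit false

namespace Pool.Agent.MP8f11b1

open Matroid

variable {α : Type} {M N : Matroid α}

namespace AM

theorem con_minor (M : Matroid α) (X : Set α) : (M ／ X).IsMinor M := by
  have := Matroid.contract_delete_isMinor M X ∅
  rwa [Matroid.delete_empty] at this

theorem del_minor (M : Matroid α) (X : Set α) : (M ＼ X).IsMinor M := by
  have := Matroid.contract_delete_isMinor M ∅ X
  rwa [Matroid.contract_empty] at this

theorem minor_del {X Y : Set α} (hd : Disjoint X Y) (hN : N = M ／ X ＼ Y) {e : α}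
    (he : e ∈ Y) : N.IsMinor (M ＼ {e}) := by
  have h1 : N = M ＼ {e} ＼ Y ／ X := by
    rw [hN, Matroid.delete_delete, Set.union_eq_self_of_subset_left (Set.singleton_subset_iff.2 he),
      Matroid.contract_delete_comm M hd]
  rw [h1]
  exact (con_minor _ _).trans (del_minor _ _)

theorem minor_con {X Y : Set α} (hN : N = M ／ X ＼ Y) {e : α} (he : e ∈ X) :
    N.IsMinor (M ／ {e}) := by
  have h1 : N = M ／ {e} ／ X ＼ Y := by
    rw [hN, Matroid.contract_contract,
      Set.union_eq_self_of_subset_left (Set.singleton_subset_iff.2 he)]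
  rw [h1]
  exact Matroid.contract_delete_isMinor _ _ _

theorem del_ne {e : α} (he : e ∈ M.E) : M ＼ {e} ≠ M := by
  intro h
  have h1 : e ∈ (M ＼ {e}).E := by rw [h]; exact he
  rw [Matroid.delete_ground] at h1
  exact h1.2 rfl

theorem con_ne {e : α} (he : e ∈ M.E) : M ／ {e} ≠ M := by
  intro h
  have h1 : e ∈ (M ／ {e}).E := by rw [h]; exact he
  rw [Matroid.contract_ground] at h1
  exact h1.2 rfl

/-- a minor given by its independent sets -/
theorem eq_of_indep {X : Set α} (hX : M.Indep X) (hd : Disjoint X N.E) (hNE : N.E ⊆ M.E)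
    (h : ∀ I ⊆ N.E, N.Indep I ↔ M.Indep (I ∪ X)) : N = M ／ X ＼ (M.E \ (X ∪ N.E)) := by
  have hd' := Set.disjoint_left.1 hd
  refine Matroid.ext_indep ?_ ?_
  · ext x
    simp only [Matroid.delete_ground, Matroid.contract_ground, Set.mem_sdiff, Set.mem_union]
    constructor
    · intro hx
      exact ⟨⟨hNE hx, fun h2 => hd' h2 hx⟩, fun h3 => h3.2 (Or.inr hx)⟩
    · rintro ⟨⟨h1, h2⟩, h3⟩
      by_contra h4
      exact h3 ⟨h1, fun h5 => h5.elim h2 h4⟩
  · intro I hI
    rw [h I hI, Matroid.delete_indep_iff, hX.contract_indep_iff]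
    constructor
    · intro h1
      refine ⟨⟨hd.symm.mono_left hI, h1⟩, ?_⟩
      rw [Set.disjoint_left]
      exact fun x hx hx2 => hx2.2 (Or.inr (hI hx))
    · exact fun h1 => h1.1.2

theorem minor_con_of_indep {X : Set α} (hX : M.Indep X) (hd : Disjoint X N.E)
    (hNE : N.E ⊆ M.E) (h : ∀ I ⊆ N.E, N.Indep I ↔ M.Indep (I ∪ X)) {e : α} (he : e ∈ X) :
    N.IsMinor (M ／ {e}) :=
  minor_con (eq_of_indep hX hd hNE h) he

theorem minor_del_of_indep {X : Set α} (hX : M.Indep X) (hd : Disjoint X N.E)
    (hNE : N.E ⊆ M.E) (h : ∀ I ⊆ N.E, N.Indep I ↔ M.Indep (I ∪ X)) {e : α} (heE : e ∈ M.E)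
    (heX : e ∉ X) (heN : e ∉ N.E) : N.IsMinor (M ＼ {e}) := by
  refine minor_del (Y := M.E \ (X ∪ N.E)) ?_ (eq_of_indep hX hd hNE h) ?_
  · rw [Set.disjoint_left]
    exact fun x hx hx2 => hx2.2 (Or.inl hx)
  · exact ⟨heE, fun h => h.elim heX heN⟩

/-- circuits of a contraction by a nonloop outside the closure -/
theorem circ_con {C : Set α} {e : α} (hC : M.IsCircuit C) (he : M.Indep {e})
    (hcl : e ∉ M.closure C) : (M ／ {e}).IsCircuit C := by
  have hCE := hC.subset_ground
  have heC : e ∉ C := fun h => hcl (M.mem_closure_of_mem h hCE)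
  rw [Matroid.isCircuit_iff_dep_forall_sdiff_singleton_indep]
  constructor
  · rw [he.contract_dep_iff]
    refine ⟨Set.disjoint_singleton_right.2 heC, ?_⟩
    exact hC.dep.superset Set.subset_union_left
      (Set.union_subset hCE he.subset_ground)
  · intro c hc
    rw [he.contract_indep_iff]
    refine ⟨Set.disjoint_singleton_right.2 fun h => heC h.1, ?_⟩
    rw [Set.union_singleton]
    have h1 := hC.sdiff_singleton_indep hc
    have h2 : e ∉ M.closure (C \ {c}) := fun h => hcl (M.closure_subset_closure Set.sdiff_subset h)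
    exact (h1.notMem_closure_iff_of_notMem (fun h => heC h.1)
      (he.subset_ground rfl)).1 h2

theorem nontrivial_of_mem {C : Set α} {e : α} (hC : M.IsCircuit C) (he : M.Indep {e})
    (heC : e ∈ C) : C.Nontrivial := by
  rw [← Set.not_subsingleton_iff]
  intro hs
  have h1 : C = {e} := hs.eq_singleton_of_mem heC
  exact hC.not_indep (h1 ▸ he)

theorem circ_con_mem {C : Set α} {e : α} (hC : M.IsCircuit C) (he : M.Indep {e})
    (heC : e ∈ C) : (M ／ {e}).IsCircuit (C \ {e}) :=
  hC.contractElem_isCircuit (nontrivial_of_mem hC he heC) heC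

/-- circuits of a contraction -/
theorem circ_of_con {C : Set α} {e : α} (hC : (M ／ {e}).IsCircuit C) (he : M.Indep {e}) :
    M.IsCircuit C ∨ M.IsCircuit (insert e C) := by
  have hCE := hC.subset_ground
  rw [Matroid.contract_ground] at hCE
  have heC : e ∉ C := fun h => (hCE h).2 rfl
  by_cases hi : M.Indep C
  · right
    rw [Matroid.isCircuit_iff_dep_forall_sdiff_singleton_indep]
    constructor
    · have := hC.dep
      rw [he.contract_dep_iff, Set.union_singleton] at this
      exact this.2
    · intro d hd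
      rcases Set.mem_insert_iff.1 hd with rfl | hd
      · exact hi.subset (by simp)
      · have h1 := hC.sdiff_singleton_indep hd
        rw [he.contract_indep_iff, Set.union_singleton] at h1
        refine h1.2.subset ?_
        rintro x ⟨hx, hxd⟩
        rcases Set.mem_insert_iff.1 hx with rfl | hx
        · exact Set.mem_insert _ _
        · exact Set.mem_insert_of_mem _ ⟨hx, hxd⟩
  · left
    rw [Matroid.isCircuit_iff_dep_forall_sdiff_singleton_indep]
    refine ⟨⟨hi, hCE.trans Set.sdiff_subset⟩, ?_⟩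
    intro c hc
    have h1 := hC.sdiff_singleton_indep hc
    rw [he.contract_indep_iff] at h1
    exact h1.2.subset Set.subset_union_left

theorem spanning_con [M.Finite] {A : Set α} {e : α} (he : M.Indep {e}) (hA : A ⊆ M.E)
    (heA : e ∉ A) : (M ／ {e}).Spanning A ↔ rk M (insert e A) = rk M M.E := by
  have heE : e ∈ M.E := he.subset_ground rfl
  rw [Matroid.contract_spanning_iff (Set.singleton_subset_iff.2 heE), Set.union_singleton,
    spanning_iff_rk (Set.insert_subset heE hA)]
  constructor
  · exact fun h => h.1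
  · exact fun h => ⟨h, Set.disjoint_singleton_right.2 heA⟩

theorem closure_con (M : Matroid α) (A : Set α) (e : α) :
    (M ／ {e}).closure A = M.closure (insert e A) \ {e} := by
  rw [Matroid.contract_closure_eq, Set.union_singleton]

theorem closure_del (M : Matroid α) {A : Set α} {e : α} (he : e ∉ A) :
    (M ＼ {e}).closure A = M.closure A \ {e} := by
  rw [Matroid.delete_closure_eq, Set.sdiff_singleton_eq_self he]

theorem indep_con {e : α} (he : M.Indep {e}) {I : Set α} (heI : e ∉ I) :
    (M ／ {e}).Indep I ↔ M.Indep (insert e I) := by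
  rw [he.contract_indep_iff, Set.union_singleton]
  exact ⟨fun h => h.2, fun h => ⟨Set.disjoint_singleton_right.2 heI, h⟩⟩

end AM

end Pool.Agent.MP8f11b1
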