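import Pool.Agent.Lib.MP_8f11b1_co_RX.Lin
import Mathlib

set_option autoImplicit false

/-! Independent sets of vectors in dimension three from determinants. -/

namespace Pool.Agent.MP8f11b1

namespace DetTri

/-- the determinant of three vectors -/
def d3 {F : Type} [CommRing F] (u v w : Fin 3 → F) : F :=
  u 0 * (v 1 * w 2 - v 2 * w 1) - u 1 * (v 0 * w 2 - v 2 * w 0) + u 2 * (v 0 * w 1 - v 1 * w 0)

variable {F : Type} [Field F]

theorem det_eq (u v w : Fin 3 → F) : Matrix.det (Matrix.of ![u, v, w]) = d3 u v w := by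
  rw [Matrix.det_fin_three]
  simp only [d3, Matrix.of_apply, Matrix.cons_val_zero, Matrix.cons_val_one, Matrix.cons_val]
  ring

theorem li_iff (u v w : Fin 3 → F) : LinearIndependent F ![u, v, w] ↔ d3 u v w ≠ 0 := by
  have h := Matrix.linearIndependent_rows_iff_isUnit (K := F) (A := Matrix.of ![u, v, w])
  rw [Matrix.isUnit_iff_isUnit_det, det_eq, isUnit_iff_ne_zero] at h
  exact h

theorem on_iff {n : ℕ} (f : Fin n → (Fin 3 → F)) {i j k : Fin n} (hij : i ≠ j) (hik : i ≠ k)
    (hjk : j ≠ k) : LinearIndepOn F f ({i, j, k} : Set (Fin n)) ↔ d3 (f i) (f j) (f k) ≠ 0 := by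
  have hinj : Function.Injective ![i, j, k] := by
    intro a b hab
    fin_cases a <;> fin_cases b <;> simp_all
  have hr : Set.range ![i, j, k] = ({i, j, k} : Set (Fin n)) := by
    ext x
    simp only [Set.mem_range, Set.mem_insert_iff, Set.mem_singleton_iff]
    constructor
    · rintro ⟨a, rfl⟩
      fin_cases a <;> simp
    · rintro (rfl | rfl | rfl)
      · exact ⟨0, rfl⟩
      · exact ⟨1, rfl⟩
      · exact ⟨2, rfl⟩
  rw [← hr, linearIndepOn_range_iff hinj, ← li_iff]
  have : f ∘ ![i, j, k] = ![f i, f j, f k] := by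
    funext a
    fin_cases a <;> rfl
  rw [this]

theorem on_of {n : ℕ} (f : Fin n → (Fin 3 → F)) {i j k : Fin n}
    (h : d3 (f i) (f j) (f k) ≠ 0) : LinearIndepOn F f ({i, j, k} : Set (Fin n)) := by
  refine (on_iff f ?_ ?_ ?_).2 h
  · rintro rfl
    apply h
    simp only [d3]
    ring
  · rintro rfl
    apply h
    simp only [d3]
    ring
  · rintro rfl
    apply h
    simp only [d3]
    ring

theorem indep_iff {n : ℕ} (hn : 2 ≤ n) (f : Fin n → (Fin 3 → F)) (C K : Finset (Fin n))
    (hC : C.card = 3) (hK : K.card = 3)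
    (h1 : ∀ i j k, i < j → j < k →
      (d3 (f i) (f j) (f k) ≠ 0 ↔ ({i, j, k} : Finset (Fin n)) ≠ C ∧ {i, j, k} ≠ K))
    (h2 : ∀ i j, i < j → ∃ k, d3 (f i) (f j) (f k) ≠ 0) (I : Set (Fin n)) :
    LinearIndepOn F f I ↔ I.ncard ≤ 3 ∧ I ≠ C ∧ I ≠ K := by
  classical
  -- three-element sets
  have key : ∀ J : Finset (Fin n), J.card = 3 →
      (LinearIndepOn F f (J : Set (Fin n)) ↔ J ≠ C ∧ J ≠ K) := by
    intro J hJ
    obtain ⟨i, j, k, hij, hjk, rfl⟩ : ∃ i j k : Fin n, i < j ∧ j < k ∧ J = {i, j, k} := by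
      refine ⟨J.orderEmbOfFin hJ 0, J.orderEmbOfFin hJ 1, J.orderEmbOfFin hJ 2, ?_, ?_, ?_⟩
      · exact (J.orderEmbOfFin hJ).strictMono (by decide)
      · exact (J.orderEmbOfFin hJ).strictMono (by decide)
      · have := Finset.range_orderEmbOfFin J hJ
        ext x
        rw [← Finset.mem_coe, ← this]
        simp only [Set.mem_range, Finset.mem_insert, Finset.mem_singleton]
        constructor
        · rintro ⟨a, rfl⟩
          fin_cases a <;> simp
        · rintro (rfl | rfl | rfl)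
          · exact ⟨0, rfl⟩
          · exact ⟨1, rfl⟩
          · exact ⟨2, rfl⟩
    rw [← h1 i j k hij hjk, ← on_iff f hij.ne (hij.trans hjk).ne hjk.ne]
    simp
  obtain ⟨J, rfl⟩ : ∃ J : Finset (Fin n), (J : Set (Fin n)) = I :=
    ⟨(Set.toFinite I).toFinset, (Set.toFinite I).coe_toFinset⟩
  rw [Set.ncard_coe_finset]
  simp only [ne_eq, Finset.coe_inj]
  rcases lt_trichotomy J.card 3 with hJ | hJ | hJ
  · -- small sets
    refine ⟨fun _ => ⟨hJ.le, fun h => by rw [h] at hJ; omega, fun h => by rw [h] at hJ; omega⟩,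
      fun _ => ?_⟩
    obtain ⟨J', hJJ', hJ'⟩ : ∃ J' : Finset (Fin n), J ⊆ J' ∧ J'.card = 2 :=
      Finset.exists_superset_card_eq (by omega) (by rw [Fintype.card_fin]; exact hn)
    obtain ⟨x, y, hxy, rfl⟩ := Finset.card_eq_two.1 hJ'
    have : ∃ i j : Fin n, i < j ∧ ({x, y} : Finset (Fin n)) = {i, j} := by
      rcases lt_or_gt_of_ne hxy with h | h
      · exact ⟨x, y, h, rfl⟩
      · exact ⟨y, x, h, Finset.pair_comm _ _⟩
    obtain ⟨i, j, hij, he⟩ := this
    obtain ⟨k, hk⟩ := h2 i j hij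
    refine (on_of f hk).mono ?_
    intro z hz
    have hz' := hJJ' hz
    rw [he] at hz'
    simp only [Finset.mem_insert, Finset.mem_singleton] at hz'
    rcases hz' with rfl | rfl
    · exact Set.mem_insert _ _
    · exact Set.mem_insert_of_mem _ (Set.mem_insert _ _)
  · rw [key J hJ]
    exact ⟨fun h => ⟨hJ.le, h⟩, fun h => h.2⟩
  · constructor
    · intro h
      have h3 := (lin_ncard_le f h).2
      rw [Set.ncard_coe_finset, Module.finrank_fin_fun] at h3
      omega
    · intro h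
      omega

end DetTri

end Pool.Agent.MP8f11b1
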