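import Pool.Agent.Lib.MP_8f11b1_co_AM.SmallOf
import Pool.Agent.Lib.MP_8f11b1_co_RX.U2Rep
import Pool.Agent.Lib.MP_8f11b1_co_RX.RepM
import Pool.Agent.Lib.MP_8f11b1_co_AM.Cir
import Pool.Agent.Lib.MP_8f11b1_co_AM.DetTri

set_option autoImplicit false

namespace Pool.Agent.MP8f11b1

open Matroid

namespace Sm36

/-- the vectors: three points on each of two lines -/
def f36 : Fin 6 → (Fin 3 → ZMod 3) :=
  ![![1, 0, 0], ![1, 1, 0], ![1, 2, 0], ![0, 0, 1], ![0, 1, 1], ![0, 2, 1]]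

theorem tab : ∀ i j k : Fin 6, i < j → j < k →
    (DetTri.d3 (f36 i) (f36 j) (f36 k) ≠ 0 ↔
      ({i, j, k} : Finset (Fin 6)) ≠ {0, 1, 2} ∧ ({i, j, k} : Finset (Fin 6)) ≠ {3, 4, 5}) := by
  unfold DetTri.d3 f36
  decide

theorem tab2 : ∀ i j : Fin 6, i < j → ∃ k, DetTri.d3 (f36 i) (f36 j) (f36 k) ≠ 0 := by
  unfold DetTri.d3 f36
  decide

theorem f36_indep [Fact (Nat.Prime 3)] (I : Set (Fin 6)) : LinearIndepOn (ZMod 3) f36 I ↔
    I.ncard ≤ 3 ∧ I ≠ {0, 1, 2} ∧ I ≠ {3, 4, 5} := by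
  have h := DetTri.indep_iff (F := ZMod 3) (n := 6) (by norm_num) f36 {0, 1, 2} {3, 4, 5}
    (by decide) (by decide) tab tab2 I
  rw [h]
  simp

theorem nr_36 [Fact (Nat.Prime 3)] {α : Type} (W : Matroid α) (hW : IsW 3 6 W) :
    ¬ Rep (ZMod 3) W := by
  intro hr
  obtain ⟨hf, hE, C, hC, hC3, hI⟩ := hW
  obtain ⟨q, hqE, hqC⟩ : ∃ q ∈ W.E, q ∉ C := by
    by_contra hc
    push Not at hc
    have := Set.ncard_le_ncard (show W.E ⊆ C from hc) (hf.subset hC)
    omega
  have hq : W.Indep {q} := by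
    rw [hI _ (Set.singleton_subset_iff.2 hqE), Set.ncard_singleton]
    refine ⟨by norm_num, ?_⟩
    rintro rfl
    exact hqC rfl
  have hu : IsU2 5 (W ／ {q}) := by
    constructor
    · rw [Matroid.contract_ground]
      have := Set.ncard_sdiff_singleton_add_one hqE hf
      omega
    · intro I hIE
      rw [Matroid.contract_ground] at hIE
      have hqI : q ∉ I := fun h => (hIE h).2 rfl
      have hIE' : I ⊆ W.E := fun x hx => (hIE hx).1
      rw [AM.indep_con hq hqI, hI _ (Set.insert_subset hqE hIE'),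
        Set.ncard_insert_of_notMem hqI (hf.subset hIE')]
      constructor
      · intro h
        omega
      · intro h
        refine ⟨by omega, ?_⟩
        rintro rfl
        exact hqC (Set.mem_insert _ _)
  have h := rep_isU2 (hr.minor (AM.con_minor W {q})) hu
  rw [Nat.card_zmod] at h
  omega

end Sm36

/-- `W_{3,6}` -/
theorem small_36 {α : Type} (W : Matroid α) (hW : IsW 3 6 W) : Bad W := by
  haveI : Fact (Nat.Prime 3) := ⟨by norm_num⟩
  refine small_of (ZMod 3) Sm36.f36 {0, 1, 2} {3, 4, 5} (a := 3) (b := 6) (by norm_num)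
    (by norm_num) (by simp) (by simp) ?_ ?_ ?_ Sm36.f36_indep (fun α W => Sm36.nr_36 W) W hW
  · rw [Set.ncard_eq_toFinset_card']; decide
  · rw [Set.ncard_eq_toFinset_card']; decide
  · intro h
    have h1 : (0 : Fin 6) ∈ ({3, 4, 5} : Set (Fin 6)) := by rw [← h]; simp
    simp at h1

end Pool.Agent.MP8f11b1
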