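import Pool.Agent.Lib.MP_8f11b1_co_AM.Defs

set_option autoImplicit false

namespace Pool.Agent.MP8f11b1

open Matroid

namespace NR37

def P2 (x y : ZMod 5) : Prop := x ≠ 0 ∧ y ≠ 0 ∧ x ≠ y

instance (x y : ZMod 5) : Decidable (P2 x y) := by
  unfold P2
  infer_instance

def P4 (x y x' y' : ZMod 5) : Prop := x ≠ x' ∧ y ≠ y' ∧ x - y ≠ x' - y' ∧ x * y' ≠ x' * y

instance (x y x' y' : ZMod 5) : Decidable (P4 x y x' y') := by
  unfold P4
  infer_instance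

def Q4 (x2 y2 x3 y3 : ZMod 5) : Prop := ∀ x4 y4 : ZMod 5, P2 x4 y4 → P4 x2 y2 x4 y4 →
    P4 x3 y3 x4 y4 → x2 * (y3 - y4) - y2 * (x3 - x4) + (x3 * y4 - x4 * y3) = 0

instance (x2 y2 x3 y3 : ZMod 5) : Decidable (Q4 x2 y2 x3 y3) := by
  unfold Q4
  infer_instance

def Q2 (x2 y2 : ZMod 5) : Prop := ∀ x3 y3 : ZMod 5, P2 x3 y3 → P4 x2 y2 x3 y3 → Q4 x2 y2 x3 y3

instance (x2 y2 : ZMod 5) : Decidable (Q2 x2 y2) := by
  unfold Q2
  infer_instance

theorem fin5 : ∀ x2 y2 : ZMod 5, P2 x2 y2 → Q2 x2 y2 := by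
  decide

theorem det3 {F V : Type} [Field F] [AddCommGroup V] [Module F V] {e1 e2 e3 g1 g2 g3 : V}
    {x1 y1 z1 x2 y2 z2 x3 y3 z3 : F} (h1 : g1 = x1 • e1 + y1 • e2 + z1 • e3)
    (h2 : g2 = x2 • e1 + y2 • e2 + z2 • e3) (h3 : g3 = x3 • e1 + y3 • e2 + z3 • e3)
    (hi : LinearIndependent F ![g1, g2, g3]) :
    x1 * (y2 * z3 - z2 * y3) - y1 * (x2 * z3 - z2 * x3) + z1 * (x2 * y3 - y2 * x3) ≠ 0 := by
  intro h
  have hd : (!![x1, y1, z1; x2, y2, z2; x3, y3, z3] : Matrix (Fin 3) (Fin 3) F).det = 0 := by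
    rw [Matrix.det_fin_three]
    simp only [Matrix.of_apply, Matrix.cons_val', Matrix.cons_val_zero, Matrix.cons_val_one,
      Matrix.cons_val, Matrix.cons_val_fin_one]
    linear_combination h
  obtain ⟨c, hc, h0⟩ := Matrix.exists_vecMul_eq_zero_iff.2 hd
  apply hc
  have e0 := congrFun h0 0
  have e1' := congrFun h0 1
  have e2' := congrFun h0 2
  simp only [Matrix.vecMul, dotProduct, Fin.sum_univ_three, Matrix.of_apply, Matrix.cons_val',
    Matrix.cons_val_zero, Matrix.cons_val_one, Matrix.cons_val, Matrix.cons_val_fin_one,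
    Pi.zero_apply] at e0 e1' e2'
  have hs : ∑ i, c i • (![g1, g2, g3] : Fin 3 → V) i = 0 := by
    simp only [Fin.sum_univ_three, Matrix.cons_val_zero, Matrix.cons_val_one, Matrix.cons_val]
    have h4 : c 0 • g1 + c 1 • g2 + c 2 • g3 = (c 0 * x1 + c 1 * x2 + c 2 * x3) • e1 +
        (c 0 * y1 + c 1 * y2 + c 2 * y3) • e2 + (c 0 * z1 + c 1 * z2 + c 2 * z3) • e3 := by
      rw [h1, h2, h3]
      module
    rw [h4, e0, e1', e2']
    simp
  funext i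
  exact Fintype.linearIndependent_iff.1 hi c hs i

theorem fam {F V α : Type} [Field F] [AddCommGroup V] [Module F V] {f : α → V} {a b c : α}
    (hab : a ≠ b) (hac : a ≠ c) (hbc : b ≠ c) (h : LinearIndepOn F f ({a, b, c} : Set α)) :
    LinearIndependent F ![f a, f b, f c] := by
  have hm : ∀ i : Fin 3, (![a, b, c] : Fin 3 → α) i ∈ ({a, b, c} : Set α) := by
    intro i
    fin_cases i <;> simp
  have hinj : Function.Injective (fun i : Fin 3 => (⟨![a, b, c] i, hm i⟩ : ({a, b, c} : Set α))) := by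
    intro i j hij
    have h1 := congrArg Subtype.val hij
    simp only at h1
    fin_cases i <;> fin_cases j <;> simp_all
  have h2 := LinearIndependent.comp h _ hinj
  convert h2 using 1
  funext i
  fin_cases i <;> rfl

end NR37

/-- `W_{3,7}` is not representable over the field with five elements -/
theorem nr_37 [Fact (Nat.Prime 5)] {α : Type} (W : Matroid α) (hW : IsW 3 7 W) :
    ¬ Rep (ZMod 5) W := by
  rintro ⟨V, hV1, hV2, f, hf⟩
  obtain ⟨hfin, hcard, C, hCE, hC3, hW⟩ := hW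
  have hCf : C.Finite := hfin.subset hCE
  obtain ⟨v1, v2, v3, h12, h13, h23, hCe⟩ := Set.ncard_eq_three.1 hC3
  have hTf : (W.E \ C).Finite := hfin.sdiff
  have hT : (W.E \ C).ncard = 4 := by
    rw [Set.ncard_sdiff hCE hCf, hcard, hC3]
  obtain ⟨q1, hq1⟩ : (W.E \ C).Nonempty := by
    rw [← Set.ncard_pos hTf, hT]
    norm_num
  have hT' : ((W.E \ C) \ {q1}).ncard = 3 := by
    rw [Set.ncard_sdiff_singleton_of_mem hq1, hT]
  obtain ⟨q2, q3, q4, h23', h24', h34', hTe⟩ := Set.ncard_eq_three.1 hT'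
  have hm2 : q2 ∈ (W.E \ C) \ {q1} := by rw [hTe]; simp
  have hm3 : q3 ∈ (W.E \ C) \ {q1} := by rw [hTe]; simp
  have hm4 : q4 ∈ (W.E \ C) \ {q1} := by rw [hTe]; simp
  have hn12 : q1 ≠ q2 := fun h => hm2.2 h.symm
  have hn13 : q1 ≠ q3 := fun h => hm3.2 h.symm
  have hn14 : q1 ≠ q4 := fun h => hm4.2 h.symm
  have hv1 : v1 ∈ C := by rw [hCe]; simp
  have hv2 : v2 ∈ C := by rw [hCe]; simp
  have hv3 : v3 ∈ C := by rw [hCe]; simp
  have hvq : ∀ v ∈ C, ∀ q ∈ W.E \ C, v ≠ q := fun v hv q hq h => hq.2 (h ▸ hv)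
  have hI : ∀ a b c : α, a ∈ W.E → b ∈ W.E → c ∈ W.E \ C → a ≠ b → a ≠ c → b ≠ c →
      LinearIndepOn (ZMod 5) f ({a, b, c} : Set α) := by
    intro a b c ha hb hc hab hac hbc
    have hsub : ({a, b, c} : Set α) ⊆ W.E := by
      rintro x (rfl | rfl | rfl)
      · exact ha
      · exact hb
      · exact hc.1
    rw [← hf _ hsub, hW _ hsub]
    refine ⟨(Set.ncard_eq_three.2 ⟨a, b, c, hab, hac, hbc, rfl⟩).le, fun h => hc.2 ?_⟩
    rw [← h]
    simp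
  have hI3 : ∀ a b c : α, a ∈ W.E → b ∈ W.E → c ∈ W.E \ C → a ≠ b → a ≠ c → b ≠ c →
      LinearIndependent (ZMod 5) ![f a, f b, f c] := fun a b c ha hb hc hab hac hbc =>
    NR37.fam hab hac hbc (hI a b c ha hb hc hab hac hbc)
  have hv1E := hCE hv1
  have hv2E := hCE hv2
  have hv3E := hCE hv3
  -- coordinates
  have hco : ∀ g ∈ W.E, g ≠ v1 → g ≠ v2 → g ≠ q1 →
      ∃ x y z : ZMod 5, f g = x • f v1 + y • f v2 + z • f q1 := by
    intro g hg hg1 hg2 hg3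
    have h1 := hI v1 v2 q1 hv1E hv2E hq1 h12 (hvq _ hv1 _ hq1) (hvq _ hv2 _ hq1)
    have hgn : g ∉ ({v1, v2, q1} : Set α) := by
      simp only [Set.mem_insert_iff, Set.mem_singleton_iff, not_or]
      exact ⟨hg1, hg2, hg3⟩
    have hsub : (insert g {v1, v2, q1} : Set α) ⊆ W.E := by
      rintro x (rfl | rfl | rfl | rfl)
      · exact hg
      · exact hv1E
      · exact hv2E
      · exact hq1.1
    have hnot : ¬ LinearIndepOn (ZMod 5) f (insert g {v1, v2, q1} : Set α) := by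
      rw [← hf _ hsub, hW _ hsub]
      rintro ⟨h2, -⟩
      rw [Set.ncard_insert_of_notMem hgn (by simp),
        Set.ncard_eq_three.2 ⟨v1, v2, q1, h12, hvq _ hv1 _ hq1, hvq _ hv2 _ hq1, rfl⟩] at h2
      omega
    have h3 : f g ∈ Submodule.span (ZMod 5) (f '' ({v1, v2, q1} : Set α)) := by
      by_contra h4
      exact hnot ((linearIndepOn_insert hgn).2 ⟨h1, h4⟩)
    rw [Set.image_insert_eq, Set.image_insert_eq, Set.image_singleton,
      Submodule.mem_span_triple] at h3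
    obtain ⟨x, y, z, h5⟩ := h3
    exact ⟨x, y, z, h5.symm⟩
  have hco3 : ∃ x y : ZMod 5, f v3 = x • f v1 + y • f v2 + (0 : ZMod 5) • f q1 := by
    have h1 : LinearIndepOn (ZMod 5) f ({v1, v2} : Set α) := by
      refine (hI v1 v2 q1 hv1E hv2E hq1 h12 (hvq _ hv1 _ hq1) (hvq _ hv2 _ hq1)).mono ?_
      rintro x (rfl | rfl)
      · simp
      · simp
    have hgn : v3 ∉ ({v1, v2} : Set α) := by
      simp only [Set.mem_insert_iff, Set.mem_singleton_iff, not_or]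
      exact ⟨h13.symm, h23.symm⟩
    have hsub : (insert v3 {v1, v2} : Set α) ⊆ W.E := by
      rintro x (rfl | rfl | rfl)
      · exact hv3E
      · exact hv1E
      · exact hv2E
    have hnot : ¬ LinearIndepOn (ZMod 5) f (insert v3 {v1, v2} : Set α) := by
      rw [← hf _ hsub, hW _ hsub]
      rintro ⟨-, h2⟩
      apply h2
      rw [hCe]
      ext x
      simp only [Set.mem_insert_iff, Set.mem_singleton_iff]
      tauto
    have h3 : f v3 ∈ Submodule.span (ZMod 5) (f '' ({v1, v2} : Set α)) := by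
      by_contra h4
      exact hnot ((linearIndepOn_insert hgn).2 ⟨h1, h4⟩)
    rw [Set.image_insert_eq, Set.image_singleton, Submodule.mem_span_pair] at h3
    obtain ⟨x, y, h5⟩ := h3
    exact ⟨x, y, by rw [← h5]; simp⟩
  have d1 : f v1 = (1 : ZMod 5) • f v1 + (0 : ZMod 5) • f v2 + (0 : ZMod 5) • f q1 := by simp
  have d2 : f v2 = (0 : ZMod 5) • f v1 + (1 : ZMod 5) • f v2 + (0 : ZMod 5) • f q1 := by simp
  have d3 : f q1 = (0 : ZMod 5) • f v1 + (0 : ZMod 5) • f v2 + (1 : ZMod 5) • f q1 := by simp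
  obtain ⟨a, b, d4⟩ := hco3
  obtain ⟨a2, b2, c2, d5⟩ := hco q2 hm2.1.1 (hvq _ hv1 _ hm2.1).symm (hvq _ hv2 _ hm2.1).symm
    hn12.symm
  obtain ⟨a3, b3, c3, d6⟩ := hco q3 hm3.1.1 (hvq _ hv1 _ hm3.1).symm (hvq _ hv2 _ hm3.1).symm
    hn13.symm
  obtain ⟨a4, b4, c4, d7⟩ := hco q4 hm4.1.1 (hvq _ hv1 _ hm4.1).symm (hvq _ hv2 _ hm4.1).symm
    hn14.symm
  have ta : a ≠ 0 := by
    intro h
    apply NR37.det3 d2 d4 d3 (hI3 v2 v3 q1 hv2E hv3E hq1 h23 (hvq _ hv2 _ hq1) (hvq _ hv3 _ hq1))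
    rw [h]
    ring
  have tb : b ≠ 0 := by
    intro h
    apply NR37.det3 d1 d4 d3 (hI3 v1 v3 q1 hv1E hv3E hq1 h13 (hvq _ hv1 _ hq1) (hvq _ hv3 _ hq1))
    rw [h]
    ring
  -- one further point
  have one : ∀ q ∈ W.E \ C, q1 ≠ q → ∀ x y z : ZMod 5,
      f q = x • f v1 + y • f v2 + z • f q1 → z ≠ 0 ∧ ∃ X Y : ZMod 5, x = z * a * X ∧
        y = z * b * Y ∧ X ≠ 0 ∧ Y ≠ 0 ∧ X ≠ Y := by
    intro q hq hne x y z hx
    have tz : z ≠ 0 := by
      intro h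
      apply NR37.det3 d1 d2 hx (hI3 v1 v2 q hv1E hv2E hq h12 (hvq _ hv1 _ hq) (hvq _ hv2 _ hq))
      rw [h]
      ring
    refine ⟨tz, x / (z * a), y / (z * b), ?_, ?_, ?_, ?_, ?_⟩
    · rw [mul_div_cancel₀ _ (mul_ne_zero tz ta)]
    · rw [mul_div_cancel₀ _ (mul_ne_zero tz tb)]
    · refine div_ne_zero ?_ (mul_ne_zero tz ta)
      intro h
      apply NR37.det3 d2 d3 hx (hI3 v2 q1 q hv2E hq1.1 hq (hvq _ hv2 _ hq1) (hvq _ hv2 _ hq) hne)
      rw [h]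
      ring
    · refine div_ne_zero ?_ (mul_ne_zero tz tb)
      intro h
      apply NR37.det3 d1 d3 hx (hI3 v1 q1 q hv1E hq1.1 hq (hvq _ hv1 _ hq1) (hvq _ hv1 _ hq) hne)
      rw [h]
      ring
    · intro h
      rw [div_eq_div_iff (mul_ne_zero tz ta) (mul_ne_zero tz tb)] at h
      have h' : x * b = y * a := by
        apply mul_left_cancel₀ tz
        linear_combination h
      apply NR37.det3 d4 d3 hx (hI3 v3 q1 q hv3E hq1.1 hq (hvq _ hv3 _ hq1) (hvq _ hv3 _ hq) hne)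
      linear_combination h'
  -- two further points
  have two : ∀ q ∈ W.E \ C, ∀ q' ∈ W.E \ C, q1 ≠ q → q1 ≠ q' → q ≠ q' →
      ∀ z z' X Y X' Y' : ZMod 5,
      f q = (z * a * X) • f v1 + (z * b * Y) • f v2 + z • f q1 →
      f q' = (z' * a * X') • f v1 + (z' * b * Y') • f v2 + z' • f q1 →
      X ≠ X' ∧ Y ≠ Y' ∧ X - Y ≠ X' - Y' ∧ X * Y' ≠ X' * Y := by
    intro q hq q' hq' hne hne' hqq z z' X Y X' Y' hx hx'
    refine ⟨?_, ?_, ?_, ?_⟩
    · intro h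
      apply NR37.det3 d2 hx hx' (hI3 v2 q q' hv2E hq.1 hq' (hvq _ hv2 _ hq) (hvq _ hv2 _ hq') hqq)
      linear_combination (- z * a * z') * h
    · intro h
      apply NR37.det3 d1 hx hx' (hI3 v1 q q' hv1E hq.1 hq' (hvq _ hv1 _ hq) (hvq _ hv1 _ hq') hqq)
      linear_combination (z * b * z') * h
    · intro h
      apply NR37.det3 d4 hx hx' (hI3 v3 q q' hv3E hq.1 hq' (hvq _ hv3 _ hq) (hvq _ hv3 _ hq') hqq)
      linear_combination (- z * a * b * z') * h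
    · intro h
      apply NR37.det3 d3 hx hx' (hI3 q1 q q' hq1.1 hq.1 hq' hne hne' hqq)
      linear_combination (z * a * b * z') * h
  obtain ⟨tc2, X2, Y2, e2, f2, n2⟩ := one q2 hm2.1 hn12 a2 b2 c2 d5
  obtain ⟨tc3, X3, Y3, e3, f3, n3⟩ := one q3 hm3.1 hn13 a3 b3 c3 d6
  obtain ⟨tc4, X4, Y4, e4, f4, n4⟩ := one q4 hm4.1 hn14 a4 b4 c4 d7
  rw [e2, f2] at d5
  rw [e3, f3] at d6
  rw [e4, f4] at d7
  have hfin5 := NR37.fin5 X2 Y2 n2 X3 Y3 n3
    (two q2 hm2.1 q3 hm3.1 hn12 hn13 h23' _ _ _ _ _ _ d5 d6) X4 Y4 n4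
    (two q2 hm2.1 q4 hm4.1 hn12 hn14 h24' _ _ _ _ _ _ d5 d7)
    (two q3 hm3.1 q4 hm4.1 hn13 hn14 h34' _ _ _ _ _ _ d6 d7)
  apply NR37.det3 d5 d6 d7 (hI3 q2 q3 q4 hm2.1.1 hm3.1.1 hm4.1 h23' h24' h34')
  linear_combination (c2 * a * c3 * b * c4) * hfin5

end Pool.Agent.MP8f11b1
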