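import Pool.Agent.Lib.MP_8f11b1_co_AM.SmallOf
import Pool.Agent.Lib.MP_8f11b1_co_AM.NR37
import Pool.Agent.Lib.MP_8f11b1_co_AM.DetTri

set_option autoImplicit false

namespace Pool.Agent.MP8f11b1

open Matroid

/-- the vectors: a point on two secants of a conic and the conic -/
def f37 : Fin 7 → (Fin 3 → ZMod 5) :=
  ![![0, 1, 0], ![1, 1, 1], ![1, 4, 1], ![1, 2, 4], ![1, 3, 4], ![1, 0, 0], ![0, 0, 1]]

namespace Sm37

theorem tab : ∀ i j k : Fin 7, i < j → j < k →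
    (DetTri.d3 (f37 i) (f37 j) (f37 k) ≠ 0 ↔
      ({i, j, k} : Finset (Fin 7)) ≠ {0, 1, 2} ∧ ({i, j, k} : Finset (Fin 7)) ≠ {0, 3, 4}) := by
  unfold DetTri.d3 f37
  decide

theorem tab2 : ∀ i j : Fin 7, i < j → ∃ k, DetTri.d3 (f37 i) (f37 j) (f37 k) ≠ 0 := by
  unfold DetTri.d3 f37
  decide

end Sm37

theorem f37_indep [Fact (Nat.Prime 5)] (I : Set (Fin 7)) : LinearIndepOn (ZMod 5) f37 I ↔
    I.ncard ≤ 3 ∧ I ≠ {0, 1, 2} ∧ I ≠ {0, 3, 4} := by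
  have h := DetTri.indep_iff (F := ZMod 5) (n := 7) (by norm_num) f37 {0, 1, 2} {0, 3, 4}
    (by decide) (by decide) Sm37.tab Sm37.tab2 I
  rw [h]
  simp

/-- `W_{3,7}` -/
theorem small_37 {α : Type} (W : Matroid α) (hW : IsW 3 7 W) : Bad W := by
  haveI : Fact (Nat.Prime 5) := ⟨by norm_num⟩
  refine small_of (ZMod 5) f37 {0, 1, 2} {0, 3, 4} (a := 3) (b := 7) (by norm_num)
    (by norm_num) (by simp) (by simp) ?_ ?_ ?_ f37_indep (fun α W => nr_37 W) W hW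
  · rw [Set.ncard_eq_toFinset_card']; decide
  · rw [Set.ncard_eq_toFinset_card']; decide
  · intro h
    have h1 : (1 : Fin 7) ∈ ({0, 3, 4} : Set (Fin 7)) := by rw [← h]; simp
    simp at h1

end Pool.Agent.MP8f11b1
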