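import Pool.Agent.Lib.MP_8f11b1_co_AM.Defs
import Pool.Agent.Lib.MP_8f11b1_co_DU.FDual

set_option autoImplicit false

namespace Pool.Agent.MP8f11b1

open Matroid

variable {α : Type}

theorem IsW.dual {M : Matroid α} {a b : ℕ} (hab : a < b) (h : IsW a b M) :
    IsW (b - a) b M✶ := by
  obtain ⟨hf, hb, C, hCE, hCa, hi⟩ := h
  have hCf : C.Finite := hf.subset hCE
  have ha : 1 ≤ a := by
    by_contra h0
    have h1 : C = ∅ := (Set.ncard_eq_zero hCf).1 (by omega)
    exact ((hi ∅ (Set.empty_subset _)).1 M.empty_indep).2 h1.symm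
  have base : ∀ B, M.IsBase B ↔ B ⊆ M.E ∧ B.ncard = a ∧ B ≠ C := by
    intro B
    constructor
    · intro hB
      have hBE := hB.subset_ground
      have h1 := (hi B hBE).1 hB.indep
      refine ⟨hBE, ?_, h1.2⟩
      by_contra hne
      have hlt : B.ncard < a := by omega
      obtain ⟨y, hyE, hyC⟩ : ∃ y ∈ M.E, y ∉ C := by
        by_contra hcon
        push Not at hcon
        have h2 := Set.ncard_le_ncard hcon hCf
        omega
      have h2 := Set.ncard_insert_le y B
      obtain ⟨B', hBB', hB'E, hB'a⟩ :=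
        Set.exists_subsuperset_card_eq (Set.insert_subset hyE hBE) (n := a) (by omega) (by omega)
      have h3 : M.Indep B' := (hi B' hB'E).2 ⟨hB'a.le, fun h4 =>
        hyC (h4 ▸ hBB' (Set.mem_insert _ _))⟩
      have h4 := hB.eq_of_subset_indep h3 ((Set.subset_insert _ _).trans hBB')
      rw [h4] at hlt
      omega
    · rintro ⟨hBE, hBa, hBC⟩
      rw [Matroid.isBase_iff_maximal_indep]
      refine ⟨(hi B hBE).2 ⟨hBa.le, hBC⟩, ?_⟩
      intro J hJ hBJ
      have hJE := hJ.subset_ground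
      have h2 := (hi J hJE).1 hJ
      have h3 := Set.eq_of_subset_of_ncard_le hBJ (by omega) (hf.subset hJE)
      exact h3.symm.subset
  refine ⟨hf, hb, M.E \ C, Set.sdiff_subset, ?_, fun I hI => ?_⟩
  · rw [Set.ncard_sdiff hCE hCf, hb, hCa]
  rw [Matroid.dual_ground] at hI
  have hIf : I.Finite := hf.subset hI
  rw [Matroid.dual_indep_iff_exists']
  constructor
  · rintro ⟨-, B, hB, hd⟩
    obtain ⟨hBE, hBa, hBC⟩ := (base B).1 hB
    have hBf : B.Finite := hf.subset hBE
    have h1 : (I ∪ B).ncard = I.ncard + B.ncard := Set.ncard_union_eq hd hIf hBf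
    have h2 : (I ∪ B).ncard ≤ M.E.ncard := Set.ncard_le_ncard (Set.union_subset hI hBE) hf
    refine ⟨by omega, fun h3 => hBC ?_⟩
    refine Set.eq_of_subset_of_ncard_le (fun x hx => ?_) (by omega) hCf
    by_contra hxC
    have h4 : x ∈ I := by
      rw [h3]
      exact ⟨hBE hx, hxC⟩
    exact Set.disjoint_left.1 hd h4 hx
  · rintro ⟨h1, h2⟩
    refine ⟨hI, ?_⟩
    have h3 : (M.E \ I).ncard = b - I.ncard := by
      rw [Set.ncard_sdiff hI hIf, hb]
    have h0 : I.ncard ≤ b := by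
      rw [← hb]
      exact Set.ncard_le_ncard hI hf
    obtain ⟨y, hyE, hyC⟩ : ∃ y ∈ M.E \ I, y ∉ C := by
      by_contra hcon
      push Not at hcon
      have h4 : M.E \ I = C := Set.eq_of_subset_of_ncard_le hcon (by omega) hCf
      apply h2
      rw [← h4, Set.sdiff_sdiff_cancel_left hI]
    obtain ⟨B, hyB, hBE, hBa⟩ := Set.exists_subsuperset_card_eq (s := {y}) (t := M.E \ I)
      (Set.singleton_subset_iff.2 hyE) (n := a) (by rw [Set.ncard_singleton]; exact ha) (by omega)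
    refine ⟨B, (base B).2 ⟨hBE.trans Set.sdiff_subset, hBa, fun h5 =>
      hyC (h5 ▸ hyB rfl)⟩, ?_⟩
    rw [Set.disjoint_left]
    exact fun x hx hxB => (hBE hxB).2 hx

/-- a matroid with at most one nonspanning circuit whose dual has the same property -/
theorem v_dual (U : Matroid α) [U.Finite] (h1 : ClsV U) (h2 : ClsV U✶) :
    (∃ a b, a ≤ b ∧ IsU a b U) ∨ (∃ a b, 1 ≤ a ∧ a < b ∧ IsW a b U) := by
  classical
  obtain ⟨k, p, D, hk⟩ := h1
  have hf : U.E.Finite := U.ground_finite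
  have hle : ∀ I ⊆ U.E, I.ncard ≤ U.E.ncard := fun I hI => Set.ncard_le_ncard hI hf
  by_cases hA : ∀ I ⊆ U.E, I.ncard ≤ k → (p → ¬ D ⊆ I)
  · refine Or.inl ⟨min k U.E.ncard, U.E.ncard, min_le_right _ _, hf, rfl, fun I hI => ?_⟩
    rw [hk I hI]
    exact ⟨fun h => le_min h.1 (hle I hI), fun h => ⟨h.trans (min_le_left _ _),
      hA I hI (h.trans (min_le_left _ _))⟩⟩
  push Not at hA
  obtain ⟨I0, hI0E, hI0k, hp, hDI0⟩ := hA
  have hDE : D ⊆ U.E := hDI0.trans hI0E
  have hDf : D.Finite := hf.subset hDE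
  have hDk : D.ncard ≤ k := (Set.ncard_le_ncard hDI0 (hf.subset hI0E)).trans hI0k
  have hDne : D.Nonempty := by
    rw [Set.nonempty_iff_ne_empty]
    intro h0
    exact ((hk ∅ (Set.empty_subset _)).1 U.empty_indep).2 hp (h0 ▸ subset_rfl)
  have hD1 : 1 ≤ D.ncard := (Set.ncard_pos hDf).2 hDne
  by_cases hDeq : D = U.E
  · have hb1 : 1 ≤ U.E.ncard := by rw [← hDeq]; exact hD1
    refine Or.inl ⟨U.E.ncard - 1, U.E.ncard, Nat.sub_le _ _, hf, rfl, fun I hI => ?_⟩
    rw [hk I hI]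
    constructor
    · rintro ⟨-, h3⟩
      have h4 := hle I hI
      have h5 : I.ncard ≠ U.E.ncard := by
        intro h6
        have h7 := Set.eq_of_subset_of_ncard_le hI h6.ge hf
        exact h3 hp (by rw [h7, hDeq])
      omega
    · intro h3
      have h4 : U.E.ncard ≤ k := by rw [← hDeq]; exact hDk
      refine ⟨by omega, fun _ h5 => ?_⟩
      have h6 : U.E.ncard ≤ I.ncard := by
        rw [← hDeq]
        exact Set.ncard_le_ncard h5 (hf.subset hI)
      omega
  have hDlt : D.ncard < U.E.ncard := Set.ncard_lt_ncard (hDE.ssubset_of_ne hDeq) hf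
  obtain ⟨a, ha⟩ : ∃ a, a = min k (U.E.ncard - 1) := ⟨_, rfl⟩
  have hak : a ≤ k := by omega
  have hab : a < U.E.ncard := by omega
  have hDa : D.ncard ≤ a := by omega
  have hind : ∀ I ⊆ U.E, U.Indep I ↔ I.ncard ≤ a ∧ ¬ D ⊆ I := by
    intro I hI
    rw [hk I hI]
    constructor
    · rintro ⟨h3, h4⟩
      have h5 := hle I hI
      have h6 : I.ncard ≠ U.E.ncard := by
        intro h6
        have h7 := Set.eq_of_subset_of_ncard_le hI h6.ge hf
        exact h4 hp (by rw [h7]; exact hDE)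
      exact ⟨by omega, h4 hp⟩
    · rintro ⟨h3, h4⟩
      exact ⟨by omega, fun _ => h4⟩
  by_cases hDa' : D.ncard = a
  · refine Or.inr ⟨a, U.E.ncard, by omega, hab, hf, rfl, D, hDE, hDa', fun I hI => ?_⟩
    rw [hind I hI]
    constructor
    · rintro ⟨h3, h4⟩
      exact ⟨h3, fun h5 => h4 (h5 ▸ subset_rfl)⟩
    · rintro ⟨h3, h4⟩
      exact ⟨h3, fun h5 => h4 (Set.eq_of_subset_of_ncard_le h5 (by omega) (hf.subset hI)).symm⟩
  exfalso
  have hDlt' : D.ncard < a := by omega
  obtain ⟨k', p', D', hk'⟩ := h2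
  rw [Matroid.dual_ground] at hk'
  obtain ⟨d, hd⟩ := hDne
  have hbase : ∀ B ⊆ U.E, B.ncard = a → ¬ D ⊆ B → U.IsBase B := by
    intro B hBE hBa hDB
    rw [Matroid.isBase_iff_maximal_indep]
    refine ⟨(hind B hBE).2 ⟨hBa.le, hDB⟩, ?_⟩
    intro J hJ hBJ
    have hJE := hJ.subset_ground
    have h2 := (hind J hJE).1 hJ
    have h3 := Set.eq_of_subset_of_ncard_le hBJ (by omega) (hf.subset hJE)
    exact h3.symm.subset
  -- a base and a coindependent set of size `b - a`
  obtain ⟨S0, hdS0, hS0E, hS0⟩ := Set.exists_subsuperset_card_eq (s := {d}) (t := U.E)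
    (Set.singleton_subset_iff.2 (hDE hd)) (n := U.E.ncard - a)
    (by rw [Set.ncard_singleton]; omega) (by omega)
  have hB0a : (U.E \ S0).ncard = a := by
    rw [Set.ncard_sdiff hS0E (hf.subset hS0E), hS0]
    omega
  have hB0 : U.IsBase (U.E \ S0) := hbase _ Set.sdiff_subset hB0a
    (fun h3 => (h3 hd).2 (hdS0 rfl))
  have hS0i : U✶.Indep S0 := by
    rw [Matroid.dual_indep_iff_exists']
    exact ⟨hS0E, _, hB0, Set.disjoint_sdiff_right⟩
  have hk1 : U.E.ncard - a ≤ k' := by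
    rw [← hS0]
    exact ((hk' S0 hS0E).1 hS0i).1
  have hall : ∀ B, U.IsBase B → B.ncard = a := by
    intro B hB
    rw [← hB0a]
    exact hB.ncard_eq_ncard_of_isBase hB0
  have hdep : ∀ S ⊆ U.E \ D, S.ncard = U.E.ncard - a → p' ∧ D' ⊆ S := by
    intro S hS hSn
    have hSE : S ⊆ U.E := hS.trans Set.sdiff_subset
    have h3 : ¬ U✶.Indep S := by
      rw [Matroid.dual_indep_iff_exists']
      rintro ⟨-, B, hB, hdis⟩
      have hBa := hall B hB
      have h4 : B ⊆ U.E \ S := fun x hx => ⟨hB.subset_ground hx,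
        fun h5 => Set.disjoint_left.1 hdis h5 hx⟩
      have h5 : (U.E \ S).ncard = a := by
        rw [Set.ncard_sdiff hSE (hf.subset hSE), hSn]
        omega
      have h6 := Set.eq_of_subset_of_ncard_le h4 (by omega) (hf.subset Set.sdiff_subset)
      have h7 := ((hind B hB.subset_ground).1 hB.indep).2
      apply h7
      rw [h6]
      exact fun x hx => ⟨hDE hx, fun h8 => (hS h8).2 hx⟩
    rw [hk' S hSE] at h3
    by_contra h4
    apply h3
    refine ⟨by omega, fun hp' h5 => h4 ⟨hp', h5⟩⟩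
  have hD' : ∀ x, x ∉ D' := by
    intro x hx
    have h3 : (U.E \ D).ncard = U.E.ncard - D.ncard := Set.ncard_sdiff hDE hDf
    have h4 := Set.pred_ncard_le_ncard_sdiff_singleton (U.E \ D) x
    obtain ⟨S, hS, hSn⟩ := Set.exists_subset_card_eq (s := (U.E \ D) \ {x})
      (n := U.E.ncard - a) (by omega)
    have h5 := hdep S (hS.trans Set.sdiff_subset) hSn
    exact (hS (h5.2 hx)).2 rfl
  obtain ⟨S1, hS1, hS1n⟩ := Set.exists_subset_card_eq (s := U.E \ D) (n := U.E.ncard - a)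
    (by rw [Set.ncard_sdiff hDE hDf]; omega)
  have hp' := (hdep S1 hS1 hS1n).1
  have h3 := ((hk' ∅ (Set.empty_subset _)).1 U✶.empty_indep).2 hp'
  exact h3 (fun x hx => absurd hx (hD' x))

end Pool.Agent.MP8f11b1
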