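import Pool.Agent.Lib.MP_8f11b1_co_AM.BadG
import Pool.Agent.Lib.MP_8f11b1_co_AM.Sm2
import Pool.Agent.Lib.MP_8f11b1_co_AM.Sm36
import Pool.Agent.Lib.MP_8f11b1_co_AM.Sm37
import Pool.Agent.Lib.MP_8f11b1_co_AM.WDual
import Pool.Agent.Lib.MP_8f11b1_co_AM.PBad

set_option autoImplicit false

namespace Pool.Agent.MP8f11b1

open Matroid

/-- a matroid with a bad dual is bad -/
theorem bad_of_dual {α : Type} (U : Matroid α) (h : Bad U✶) : Bad U := by
  obtain ⟨γ, N, hN, hk⟩ := h
  refine ⟨γ, N✶, ?_, ?_⟩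
  · exact ⟨by rw [Matroid.dual_ground]; exact hN.ground_finite⟩
  · intro k
    obtain ⟨δ, M, hM, hkM⟩ := hk k
    refine ⟨δ, M✶, ?_, by rwa [Matroid.dual_ground]⟩
    have := excluded_dual U✶ N M hM
    rwa [Matroid.dual_dual] at this

/-- the matroids `W_{a,b}` are bad except for four families -/
theorem badW {a b : ℕ} (ha : 2 ≤ a) (hab : a + 2 ≤ b) (hne : ¬ (a = 2 ∧ b = 4)) {α : Type}
    (U : Matroid α) (hU : IsW a b U) : Bad U := by
  have key : ∀ (a b : ℕ), 2 ≤ a → 2 * a ≤ b → a + 2 ≤ b → ¬ (a = 2 ∧ b = 4) → ∀ (β : Type)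
      (V : Matroid β), IsW a b V → Bad V := by
    intro a b h1 h2 h3 h4 β V hV
    by_cases ha2 : a = 2
    · subst ha2
      by_cases h7 : 7 ≤ b
      · exact badW_two h7 V hV
      · have h56 : b = 5 ∨ b = 6 := by omega
        rcases h56 with rfl | rfl
        · exact small_two (ZMod 2) (by simp) V hV
        · haveI : Fact (Nat.Prime 3) := ⟨by norm_num⟩
          exact small_two (ZMod 3) (by simp) V hV
    by_cases h36 : a = 3 ∧ b = 6
    · obtain ⟨rfl, rfl⟩ := h36
      exact small_36 V hV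
    by_cases h37 : a = 3 ∧ b = 7
    · obtain ⟨rfl, rfl⟩ := h37
      exact small_37 V hV
    exact badW_three (by omega) h2 (by omega) h37 V hV
  by_cases h2 : 2 * a ≤ b
  · exact key a b ha h2 hab hne α U hU
  · refine bad_of_dual U (key (b - a) b (by omega) (by omega) (by omega) (by omega) α U✶
      (hU.dual (by omega)))

end Pool.Agent.MP8f11b1
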