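import Pool.Agent.Lib.MP_8f11b1_co_AM.Cir

set_option autoImplicit false

namespace Pool.Agent.MP8f11b1

open Matroid

variable {α : Type} {M : Matroid α}

theorem Sep.compl {S : Set α} (h : Sep M S) : Sep M (M.E \ S) := by
  refine ⟨Set.sdiff_subset, fun C hC => ?_⟩
  rcases h.2 C hC with h1 | h1
  · right
    rw [Set.disjoint_left]
    exact fun x hx hx2 => hx2.2 (h1 hx)
  · left
    exact fun x hx => ⟨hC.subset_ground hx, fun hx2 => Set.disjoint_left.1 h1 hx hx2⟩

theorem Sep.inter {S T : Set α} (h : Sep M S) (h' : Sep M T) : Sep M (S ∩ T) := by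
  refine ⟨Set.inter_subset_left.trans h.1, fun C hC => ?_⟩
  rcases h.2 C hC with h1 | h1
  · rcases h'.2 C hC with h2 | h2
    · exact Or.inl (Set.subset_inter h1 h2)
    · exact Or.inr (h2.mono_right Set.inter_subset_right)
  · exact Or.inr (h1.mono_right Set.inter_subset_left)

theorem Sep.indep_iff {S I : Set α} (h : Sep M S) (hI : I ⊆ M.E) :
    M.Indep I ↔ M.Indep (I ∩ S) ∧ M.Indep (I \ S) := by
  refine ⟨fun h1 => ⟨h1.subset Set.inter_subset_left, h1.subset Set.sdiff_subset⟩, ?_⟩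
  rintro ⟨h1, h2⟩
  rw [Matroid.indep_iff_forall_subset_not_isCircuit hI]
  intro C hCI hC
  rcases h.2 C hC with h3 | h3
  · exact hC.not_indep (h1.subset (Set.subset_inter hCI h3))
  · exact hC.not_indep (h2.subset fun x hx => ⟨hCI hx, fun hx2 => Set.disjoint_left.1 h3 hx hx2⟩)

theorem Sep.con {S : Set α} (h : Sep M S) (X : Set α) : Sep (M ／ X) (S \ X) := by
  refine ⟨?_, fun C hC => ?_⟩
  · rw [Matroid.contract_ground]
    exact fun x hx => ⟨h.1 hx.1, hx.2⟩
  · have hCE := hC.subset_ground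
    rw [Matroid.contract_ground] at hCE
    obtain ⟨C', hC', h1, h2⟩ := hC.exists_subset_isCircuit_of_contract
    rcases h.2 C' hC' with h3 | h3
    · exact Or.inl fun x hx => ⟨h3 (h1 hx), (hCE hx).2⟩
    · exact Or.inr ((h3.mono_left h1).mono_right Set.sdiff_subset)

theorem Sep.del {S : Set α} (h : Sep M S) (X : Set α) : Sep (M ＼ X) (S \ X) := by
  refine ⟨?_, fun C hC => ?_⟩
  · rw [Matroid.delete_ground]
    exact fun x hx => ⟨h.1 hx.1, hx.2⟩
  · have hC1 := Matroid.delete_isCircuit_iff.1 hC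
    rcases h.2 C hC1.1 with h3 | h3
    · exact Or.inl fun x hx => ⟨h3 hx, fun h4 => Set.disjoint_left.1 hC1.2 hx h4⟩
    · exact Or.inr (h3.mono_right Set.sdiff_subset)

/-- an element outside of a separator is not in the closure of a subset, except for loops -/
theorem Sep.notMem_closure {S A : Set α} (h : Sep M S) (hA : A ⊆ S) {e : α} (he : M.Indep {e})
    (heS : e ∉ S) : e ∉ M.closure A := by
  intro hc
  obtain ⟨C, hC1, hC, heC⟩ :=
    Matroid.exists_isCircuit_of_mem_closure hc (fun h1 => heS (hA h1))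
  rcases h.2 C hC with h1 | h1
  · exact heS (h1 heC)
  · apply hC.not_indep
    refine he.subset fun x hx => ?_
    rcases Set.mem_insert_iff.1 (hC1 hx) with h2 | h2
    · exact h2
    · exact absurd (hA h2) (fun h3 => Set.disjoint_left.1 h1 hx h3)

/-- contraction of an element outside of a separator -/
theorem Sep.mem_closure_insert {S A : Set α} (h : Sep M S) (hA : A ⊆ S) {e z : α} (he : e ∈ S)
    (hz : z ∉ S) (hc : e ∈ M.closure (insert z A)) : e ∈ M.closure A := by
  by_cases heA : e ∈ A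
  · exact M.mem_closure_of_mem heA (hA.trans h.1)
  · have hez : e ∉ insert z A := by
      intro h1
      rcases Set.mem_insert_iff.1 h1 with h2 | h2
      · exact hz (h2 ▸ he)
      · exact heA h2
    obtain ⟨C, hC1, hC, heC⟩ := Matroid.exists_isCircuit_of_mem_closure hc hez
    rcases h.2 C hC with h1 | h1
    · refine M.closure_subset_closure ?_ (hC.mem_closure_sdiff_singleton_of_mem heC)
      rintro x ⟨hx, hxe⟩
      rcases Set.mem_insert_iff.1 (hC1 hx) with h2 | h2
      · exact absurd h2 hxe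
      · rcases Set.mem_insert_iff.1 h2 with h3 | h3
        · exact absurd (h1 hx) (h3 ▸ hz)
        · exact h3
    · exact absurd he (fun h3 => Set.disjoint_left.1 h1 heC h3)

/-- minimal separators -/
theorem exists_conn [M.Finite] {x : α} (hx : x ∈ M.E) :
    ∃ S, Sep M S ∧ x ∈ S ∧ ∀ T ⊆ S, Sep M T → T = ∅ ∨ T = S := by
  classical
  have hex : ∃ n, ∃ S, Sep M S ∧ x ∈ S ∧ S.ncard = n :=
    ⟨_, M.E, ⟨subset_rfl, fun C hC => Or.inl hC.subset_ground⟩, hx, rfl⟩
  obtain ⟨S, hS, hxS, hn⟩ := Nat.find_spec hex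
  have hmin : ∀ T, Sep M T → x ∈ T → S.ncard ≤ T.ncard := by
    intro T hT hxT
    rw [hn]
    exact Nat.find_min' hex ⟨T, hT, hxT, rfl⟩
  have hSf : S.Finite := M.ground_finite.subset hS.1
  refine ⟨S, hS, hxS, fun T hTS hT => ?_⟩
  by_cases hxT : x ∈ T
  · exact Or.inr (Set.eq_of_subset_of_ncard_le hTS (hmin T hT hxT) hSf)
  · left
    have h1 : S \ T = S ∩ (M.E \ T) := by
      ext y
      exact ⟨fun hy => ⟨hy.1, hS.1 hy.1, hy.2⟩, fun hy => ⟨hy.1, hy.2.2⟩⟩
    have h2 : Sep M (S \ T) := by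
      rw [h1]
      exact hS.inter hT.compl
    have h3 := Set.eq_of_subset_of_ncard_le Set.sdiff_subset (hmin _ h2 ⟨hxS, hxT⟩) hSf
    ext y
    constructor
    · intro hy
      have h4 := hTS hy
      rw [← h3] at h4
      exact absurd hy h4.2
    · exact fun hy => absurd hy (Set.notMem_empty y)

/-- a coloop is a separator -/
theorem sep_of_coloop [M.Finite] {e : α} (he : e ∈ M.E) (h : ¬ M.Spanning (M.E \ {e})) :
    Sep M {e} := by
  refine ⟨Set.singleton_subset_iff.2 he, fun C hC => Or.inr ?_⟩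
  rw [Set.disjoint_singleton_right]
  intro heC
  apply h
  have h1 : e ∈ M.closure (M.E \ {e}) := by
    refine M.closure_subset_closure ?_ (hC.mem_closure_sdiff_singleton_of_mem heC)
    exact fun x hx => ⟨hC.subset_ground hx.1, hx.2⟩
  rw [Matroid.spanning_iff_ground_subset_closure Set.sdiff_subset]
  intro x hx
  by_cases hxe : x = e
  · rw [hxe]
    exact h1
  · exact M.mem_closure_of_mem (X := M.E \ {e}) ⟨hx, hxe⟩ Set.sdiff_subset

end Pool.Agent.MP8f11b1
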