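import Pool.Agent.Lib.MP_8f11b1_co_AM.Cir
import Pool.Agent.Lib.MP_8f11b1_co_AM.SepA

set_option autoImplicit false

namespace Pool.Agent.MP8f11b1

open Matroid

variable {α : Type} {M : Matroid α}

private theorem glue {S B1 B2 : Set α} (h : Sep M S) (h1 : M.Indep B1) (h2 : M.Indep B2) :
    M.Indep (B1 ∩ S ∪ B2 \ S) := by
  have hE : B1 ∩ S ∪ B2 \ S ⊆ M.E :=
    Set.union_subset (Set.inter_subset_left.trans h1.subset_ground)
      (Set.sdiff_subset.trans h2.subset_ground)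
  rw [h.indep_iff hE]
  constructor
  · refine h1.subset ?_
    rintro x ⟨hx | hx, hxS⟩
    · exact hx.1
    · exact absurd hxS hx.2
  · refine h2.subset ?_
    rintro x ⟨hx | hx, hxS⟩
    · exact absurd hx.2 hxS
    · exact hx.1

private theorem glue_ncard [M.Finite] {S B1 B2 : Set α} (h1 : B1 ⊆ M.E) (h2 : B2 ⊆ M.E) :
    (B1 ∩ S ∪ B2 \ S).ncard = (B1 ∩ S).ncard + (B2 \ S).ncard := by
  refine Set.ncard_union_eq ?_ (M.ground_finite.subset (Set.inter_subset_left.trans h1))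
    (M.ground_finite.subset (Set.sdiff_subset.trans h2))
  rw [Set.disjoint_left]
  exact fun x hx hx2 => hx2.2 hx.2

theorem Sep.dual [M.Finite] {S : Set α} (h : Sep M S) : Sep M✶ S := by
  refine ⟨by rw [Matroid.dual_ground]; exact h.1, fun K hK => ?_⟩
  by_contra hcon
  rw [not_or] at hcon
  obtain ⟨hc1, hc2⟩ := hcon
  obtain ⟨x, hxK, hxS⟩ := Set.not_subset.1 hc1
  obtain ⟨y, hyK, hyS⟩ := Set.not_disjoint_iff.1 hc2
  have hi1 : M✶.Indep (K ∩ S) := hK.ssubset_indep
    ⟨Set.inter_subset_left, fun hs => hxS (hs hxK).2⟩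
  have hi2 : M✶.Indep (K \ S) := hK.ssubset_indep
    ⟨Set.sdiff_subset, fun hs => (hs hyK).2 hyS⟩
  obtain ⟨-, B1, hB1, hd1⟩ := Matroid.dual_indep_iff_exists'.1 hi1
  obtain ⟨-, B2, hB2, hd2⟩ := Matroid.dual_indep_iff_exists'.1 hi2
  have hg := glue h hB1.indep hB2.indep
  have hg' := glue h hB2.indep hB1.indep
  have hn := glue_ncard (M := M) (S := S) hB1.subset_ground hB2.subset_ground
  have hn' := glue_ncard (M := M) (S := S) hB2.subset_ground hB1.subset_ground
  have hf1 : B1.Finite := M.ground_finite.subset hB1.subset_ground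
  have hf2 : B2.Finite := M.ground_finite.subset hB2.subset_ground
  have e1 := Set.ncard_inter_add_ncard_sdiff_eq_ncard B1 S hf1
  have e2 := Set.ncard_inter_add_ncard_sdiff_eq_ncard B2 S hf2
  have r1 := rk_isBase hB1
  have r2 := rk_isBase hB2
  have l1 : (B1 ∩ S ∪ B2 \ S).ncard ≤ rk M M.E := by
    rw [← rk_indep hg]
    exact rk_mono hg.subset_ground
  have l2 : (B2 ∩ S ∪ B1 \ S).ncard ≤ rk M M.E := by
    rw [← rk_indep hg']
    exact rk_mono hg'.subset_ground
  have hbase : M.IsBase (B1 ∩ S ∪ B2 \ S) := isBase_of_indep_ncard hg (by omega)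
  apply hK.not_indep
  rw [Matroid.dual_indep_iff_exists']
  refine ⟨?_, _, hbase, ?_⟩
  · have := hK.subset_ground
    rwa [Matroid.dual_ground] at this
  · rw [Set.disjoint_left]
    rintro z hz (hz2 | hz2)
    · exact Set.disjoint_left.1 hd1 ⟨hz, hz2.2⟩ hz2.1
    · exact Set.disjoint_left.1 hd2 ⟨hz, hz2.2⟩ hz2.1

theorem Conn.dual [M.Finite] (h : Conn M) : Conn M✶ := by
  intro S hS
  haveI : M✶.Finite := ⟨by rw [Matroid.dual_ground]; exact M.ground_finite⟩
  have h1 := hS.dual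
  rw [Matroid.dual_dual] at h1
  rw [Matroid.dual_ground]
  exact h S h1

end Pool.Agent.MP8f11b1
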