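import Pool.Agent.Lib.MP_8f11b1_co_AM.Cir
import Pool.Agent.Lib.MP_8f11b1_co_AM.IsoW

set_option autoImplicit false

namespace Pool.Agent.MP8f11b1

open Matroid

variable {α : Type}

namespace StarB

private theorem exists_min (M : Matroid α) [M.Finite] {D : Set α}
    (h : ∃ C, M.IsCircuit C ∧ (C ∩ D).Nonempty ∧ ¬ C ⊆ M.closure D) :
    ∃ C, M.IsCircuit C ∧ (C ∩ D).Nonempty ∧ ¬ C ⊆ M.closure D ∧
      ∀ C', M.IsCircuit C' → (C' ∩ D).Nonempty → ¬ C' ⊆ M.closure D →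
        ¬ (C' \ D ⊂ C \ D) := by
  classical
  have hex : ∃ n : ℕ, ∃ C, M.IsCircuit C ∧ (C ∩ D).Nonempty ∧ ¬ C ⊆ M.closure D ∧
      (C \ D).ncard = n := by
    obtain ⟨C, h1, h2, h3⟩ := h
    exact ⟨_, C, h1, h2, h3, rfl⟩
  obtain ⟨C, h1, h2, h3, h4⟩ := Nat.find_spec hex
  refine ⟨C, h1, h2, h3, ?_⟩
  intro C' h1' h2' h3' hss
  have hfin : (C \ D).Finite := M.ground_finite.subset (Set.sdiff_subset.trans h1.subset_ground)
  have hlt := Set.ncard_lt_ncard hss hfin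
  rw [h4] at hlt
  exact Nat.find_min hex hlt ⟨C', h1', h2', h3', rfl⟩

private theorem not_mem_closure (M : Matroid α) {C D : Set α} (hC : M.IsCircuit C)
    (hD : M.IsCircuit D) (hCD : ¬ C ⊆ M.closure D)
    (hmin : ∀ C', M.IsCircuit C' → (C' ∩ D).Nonempty → ¬ C' ⊆ M.closure D →
        ¬ (C' \ D ⊂ C \ D)) : ∀ x ∈ C, x ∉ D → x ∉ M.closure D := by
  intro x hxC hxD hx
  have hDcl : D ⊆ M.closure D := M.subset_closure D hD.subset_ground
  rw [Matroid.mem_closure_iff_exists_isCircuit hxD] at hx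
  obtain ⟨Dx, hDx, hDxc, hxDx⟩ := hx
  obtain ⟨c, hcC, hc⟩ := Set.not_subset.1 hCD
  have hcx : c ≠ x := by
    rintro rfl
    apply hc
    rw [Matroid.mem_closure_iff_exists_isCircuit hxD]
    exact ⟨Dx, hDx, hDxc, hxDx⟩
  have hcDx : c ∉ Dx := by
    intro h
    rcases Set.mem_insert_iff.1 (hDx h) with h | h
    · exact hcx h
    · exact hc (hDcl h)
  obtain ⟨C', hC's, hC', hcC'⟩ := hC.strong_elimination hDxc hxC hxDx hcC hcDx
  have hsub : ∀ y ∈ C', y ∉ D → y ∈ C ∧ y ≠ x := by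
    intro y hy hyD
    have h1 := hC's hy
    have hyx : y ≠ x := fun h => h1.2 h
    refine ⟨?_, hyx⟩
    rcases h1.1 with h | h
    · exact h
    · rcases Set.mem_insert_iff.1 (hDx h) with h | h
      · exact absurd h hyx
      · exact absurd h hyD
  by_cases hne : (C' ∩ D).Nonempty
  · refine hmin C' hC' hne (fun h => hc (h hcC')) ?_
    refine ⟨fun y hy => ⟨(hsub y hy.1 hy.2).1, hy.2⟩, fun h => ?_⟩
    have h1 := h ⟨hxC, hxD⟩
    exact (hsub x h1.1 h1.2).2 rfl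
  · have hCC : C' ⊆ C := by
      intro y hy
      exact (hsub y hy (fun h => hne ⟨y, hy, h⟩)).1
    have h1 : C' = C := hC'.eq_of_subset_isCircuit hC hCC
    have h2 : x ∈ C' := by rw [h1]; exact hxC
    exact (hsub x h2 hxD).2 rfl

private theorem eq_D (M : Matroid α) {C D : Set α} (hC : M.IsCircuit C)
    (hD : M.IsCircuit D) (hcl : ∀ x ∈ C, x ∉ D → x ∉ M.closure D)
    (hmin : ∀ C', M.IsCircuit C' → (C' ∩ D).Nonempty → ¬ C' ⊆ M.closure D →
        ¬ (C' \ D ⊂ C \ D)) {C' : Set α} (hC' : M.IsCircuit C') (hss : C' \ D ⊂ C \ D) :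
    C' = D := by
  by_cases hs : C' ⊆ D
  · exact hC'.eq_of_subset_isCircuit hD hs
  exfalso
  obtain ⟨y, hy, hyD⟩ := Set.not_subset.1 hs
  have hyC : y ∈ C := (hss.1 ⟨hy, hyD⟩).1
  have hne : ¬ (C' ∩ D).Nonempty := fun h =>
    hmin C' hC' h (fun h2 => hcl y hyC hyD (h2 hy)) hss
  have hCC : C' ⊆ C := by
    intro z hz
    exact (hss.1 ⟨hz, fun h => hne ⟨z, hz, h⟩⟩).1
  have h1 : C' = C := hC'.eq_of_subset_isCircuit hC hCC
  rw [h1] at hss
  exact hss.2 subset_rfl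

end StarB

theorem star_minor (M : Matroid α) [M.Finite] (h : Star M) :
    ∃ M' : Matroid α, M'.IsMinor M ∧ IsW 2 4 M' := by
  obtain ⟨C0, D, hC0, hD, hne0, hcl0⟩ := h
  obtain ⟨C, hC, hne, hCD, hmin⟩ := StarB.exists_min M ⟨C0, hC0, hne0, hcl0⟩
  have hcl := StarB.not_mem_closure M hC hD hCD hmin
  have hst : ∀ C', M.IsCircuit C' → C' \ D ⊂ C \ D → C' = D :=
    fun C' h1 h2 => StarB.eq_D M hC hD hcl hmin h1 h2
  have hDcl : D ⊆ M.closure D := M.subset_closure D hD.subset_ground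
  have hCneD : C ≠ D := by
    intro h
    apply hCD
    rw [h]
    exact hDcl
  obtain ⟨d1, hd1C, hd1D⟩ := hne
  have hDC : ¬ D ⊆ C := fun h => hCneD (hD.eq_of_subset_isCircuit hC h).symm
  obtain ⟨d2, hd2D, hd2C⟩ := Set.not_subset.1 hDC
  obtain ⟨c1, hc1C, hc1cl⟩ := Set.not_subset.1 hCD
  have hc1D : c1 ∉ D := fun h => hc1cl (hDcl h)
  have hc2 : ∃ c2, c2 ∈ C ∧ c2 ∉ D ∧ c2 ≠ c1 := by
    by_contra hno
    have h1 : C \ {c1} ⊆ D := by
      rintro y ⟨hy, hy1⟩
      by_contra hyD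
      exact hno ⟨y, hy, hyD, hy1⟩
    exact hc1cl (M.closure_subset_closure h1 (hC.mem_closure_sdiff_singleton_of_mem hc1C))
  obtain ⟨c2, hc2C, hc2D, hc21⟩ := hc2
  have hgr : C ∪ D ⊆ M.E := Set.union_subset hC.subset_ground hD.subset_ground
  have hd12 : d1 ≠ d2 := fun h => hd2C (h ▸ hd1C)
  have hd1c1 : d1 ≠ c1 := fun h => hc1D (h ▸ hd1D)
  have hd1c2 : d1 ≠ c2 := fun h => hc2D (h ▸ hd1D)
  have hd2c1 : d2 ≠ c1 := fun h => hc1D (h ▸ hd2D)
  have hd2c2 : d2 ≠ c2 := fun h => hc2D (h ▸ hd2D)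
  -- deleting one element of `D` and one of `C \ D`
  have I1 : ∀ S : Set α, ∀ d ∈ D, ∀ c ∈ C, c ∉ D → S ⊆ C ∪ D → d ∉ S → c ∉ S →
      M.Indep S := by
    intro S d hd c hc hcD hS hdS hcS
    by_contra hni
    obtain ⟨C', hC's, hC'⟩ :=
      ((M.not_indep_iff (hS.trans hgr)).1 hni).exists_isCircuit_subset
    have h1 : C' = D := by
      refine hst C' hC' ⟨?_, ?_⟩
      · rintro y ⟨hy, hyD⟩
        exact ⟨(hS (hC's hy)).resolve_right hyD, hyD⟩
      · intro h
        exact hcS (hC's (h ⟨hc, hcD⟩).1)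
    apply hdS
    apply hC's
    rw [h1]
    exact hd
  have I2 : ∀ S : Set α, S ⊆ C ∪ D → d1 ∉ S → d2 ∉ S → M.Indep S := by
    intro S hS h1S h2S
    by_contra hni
    obtain ⟨C', hC's, hC'⟩ :=
      ((M.not_indep_iff (hS.trans hgr)).1 hni).exists_isCircuit_subset
    have hsub : C' \ D ⊆ C \ D := by
      rintro y ⟨hy, hyD⟩
      exact ⟨(hS (hC's hy)).resolve_right hyD, hyD⟩
    by_cases hsub2 : C \ D ⊆ C' \ D
    · have hCC' : C ≠ C' := by
        intro h
        apply h1S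
        apply hC's
        rw [← h]
        exact hd1C
      obtain ⟨C3, hC3s, hC3⟩ := hC.elimination hC' hCC' c1
      have h3 : C3 = D := by
        refine hst C3 hC3 ⟨?_, ?_⟩
        · rintro y ⟨hy, hyD⟩
          refine ⟨?_, hyD⟩
          rcases (hC3s hy).1 with h | h
          · exact h
          · exact (hsub ⟨h, hyD⟩).1
        · intro h
          exact (hC3s (h ⟨hc1C, hc1D⟩).1).2 rfl
      have h4 : d2 ∈ C3 := by rw [h3]; exact hd2D
      rcases (hC3s h4).1 with h | h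
      · exact hd2C h
      · exact h2S (hC's h)
    · have h3 : C' = D := hst C' hC' ⟨hsub, hsub2⟩
      apply h1S
      apply hC's
      rw [h3]
      exact hd1D
  -- dependent sets
  have D1 : ∀ S : Set α, D ⊆ S → ¬ M.Indep S := fun S hS hi => hD.not_indep (hi.subset hS)
  have D2 : ∀ S : Set α, C ⊆ S → ¬ M.Indep S := fun S hS hi => hC.not_indep (hi.subset hS)
  have D3 : ∀ S : Set α, (C ∪ D) \ {d1} ⊆ S → ¬ M.Indep S := by
    intro S hS hi
    obtain ⟨C3, hC3s, hC3⟩ := hC.elimination hD hCneD d1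
    exact hC3.not_indep (hi.subset (hC3s.trans hS))
  have hE' : ({d1, d2, c1, c2} : Set α) ⊆ C ∪ D := by
    rintro y (rfl | rfl | rfl | rfl)
    · exact Or.inl hd1C
    · exact Or.inr hd2D
    · exact Or.inl hc1C
    · exact Or.inl hc2C
  have hcard : ({d1, d2, c1, c2} : Set α).ncard = 4 := by
    rw [Set.ncard_insert_of_notMem, Set.ncard_insert_of_notMem, Set.ncard_pair hc21.symm]
    · simp [hd2c1, hd2c2]
    · simp [hd12, hd1c1, hd1c2]
  have hfin : ({d1, d2, c1, c2} : Set α).Finite := Set.toFinite _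
  refine minor_isW_set M ((C ∪ D) \ {d1, d2, c1, c2}) {d1, d2, c1, c2} {d1, d2}
    ?_ (hE'.trans hgr) Set.disjoint_sdiff_right hfin hcard ?_ (Set.ncard_pair hd12) ?_
  · exact I2 _ Set.sdiff_subset (fun h => h.2 (by simp)) (fun h => h.2 (by simp))
  · rintro y (rfl | rfl) <;> simp
  intro B hB
  have hBf : B.Finite := hfin.subset hB
  have hsubB : B ∪ (C ∪ D) \ {d1, d2, c1, c2} ⊆ C ∪ D :=
    Set.union_subset (hB.trans hE') Set.sdiff_subset
  have hno : ∀ z ∈ ({d1, d2, c1, c2} : Set α), z ∉ B → z ∉ B ∪ (C ∪ D) \ {d1, d2, c1, c2} := by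
    rintro z hz hzB (h | h)
    · exact hzB h
    · exact h.2 hz
  have hyes : ∀ z ∈ C ∪ D, (z ∈ ({d1, d2, c1, c2} : Set α) → z ∈ B) →
      z ∈ B ∪ (C ∪ D) \ {d1, d2, c1, c2} := by
    intro z hz h
    by_cases hz2 : z ∈ ({d1, d2, c1, c2} : Set α)
    · exact Or.inl (h hz2)
    · exact Or.inr ⟨hz, hz2⟩
  have m1 : d1 ∈ ({d1, d2, c1, c2} : Set α) := by simp
  have m2 : d2 ∈ ({d1, d2, c1, c2} : Set α) := by simp
  have m3 : c1 ∈ ({d1, d2, c1, c2} : Set α) := by simp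
  have m4 : c2 ∈ ({d1, d2, c1, c2} : Set α) := by simp
  have hDs : d1 ∈ B → d2 ∈ B → ¬ M.Indep (B ∪ (C ∪ D) \ {d1, d2, c1, c2}) := by
    intro h1 h2
    refine D1 _ fun y hy => hyes y (Or.inr hy) ?_
    rintro (rfl | rfl | rfl | rfl)
    · exact h1
    · exact h2
    · exact absurd hy hc1D
    · exact absurd hy hc2D
  constructor
  · intro hi
    refine ⟨?_, ?_⟩
    · by_contra hgt
      have hle : (({d1, d2, c1, c2} : Set α) \ B).ncard ≤ 1 := by
        rw [Set.ncard_sdiff hB hBf, hcard]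
        omega
      rw [Set.ncard_le_one (hfin.subset Set.sdiff_subset)] at hle
      by_cases h1 : d1 ∈ B
      · by_cases h2 : d2 ∈ B
        · exact hDs h1 h2 hi
        · refine D2 _ (fun y hy => hyes y (Or.inl hy) ?_) hi
          intro hy2
          by_contra hyB
          have := hle y ⟨hy2, hyB⟩ d2 ⟨m2, h2⟩
          rw [this] at hy
          exact hd2C hy
      · refine D3 _ (fun y hy => hyes y hy.1 ?_) hi
        intro hy2
        by_contra hyB
        exact hy.2 (hle y ⟨hy2, hyB⟩ d1 ⟨m1, h1⟩)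
    · intro hBe
      refine hDs ?_ ?_ hi
      · rw [hBe]; simp
      · rw [hBe]; simp
  · rintro ⟨hle, hne⟩
    have hkey : ∀ d ∈ D, ∀ d' ∈ B, d ∉ B → d' ≠ c1 → d' ≠ c2 →
        d ∈ ({d1, d2, c1, c2} : Set α) → M.Indep (B ∪ (C ∪ D) \ {d1, d2, c1, c2}) := by
      intro d hd d' hd' hdB h1 h2 hm
      by_cases hb1 : c1 ∈ B
      · by_cases hb2 : c2 ∈ B
        · exfalso
          have h3 : ({d', c1, c2} : Set α).ncard = 3 := by
            rw [Set.ncard_insert_of_notMem, Set.ncard_pair hc21.symm]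
            simp [h1, h2]
          have h4 : ({d', c1, c2} : Set α) ⊆ B := by
            rintro y (rfl | rfl | rfl)
            · exact hd'
            · exact hb1
            · exact hb2
          have h5 := Set.ncard_le_ncard h4 hBf
          omega
        · exact I1 _ d hd c2 hc2C hc2D hsubB (hno d hm hdB) (hno c2 m4 hb2)
      · exact I1 _ d hd c1 hc1C hc1D hsubB (hno d hm hdB) (hno c1 m3 hb1)
    by_cases h1 : d1 ∈ B
    · by_cases h2 : d2 ∈ B
      · exfalso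
        apply hne
        symm
        refine Set.eq_of_subset_of_ncard_le ?_ ?_ hBf
        · rintro y (rfl | rfl)
          · exact h1
          · exact h2
        · rw [Set.ncard_pair hd12]
          exact hle
      · exact hkey d2 hd2D d1 h1 h2 hd1c1 hd1c2 m2
    · by_cases h2 : d2 ∈ B
      · exact hkey d1 hd1D d2 h2 h1 hd2c1 hd2c2 m1
      · exact I2 _ hsubB (hno d1 m1 h1) (hno d2 m2 h2)

end Pool.Agent.MP8f11b1
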