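import Pool.Agent.Lib.MP_8f11b1_co_AM.SepR

set_option autoImplicit false

namespace Pool.Agent.MP8f11b1

open Matroid

variable {α : Type}

/-- The situation in the connected case. -/
structure Min5 (M N : Matroid α) (X Y : Set α) : Prop where
  conn : Conn M
  star : Star M
  indX : M.Indep X
  disj : Disjoint X Y
  hE : X ∪ Y = M.E \ N.E
  hNE : N.E ⊆ M.E
  ind : ∀ I ⊆ N.E, N.Indep I ↔ M.Indep (I ∪ X)
  base : ∀ B, N.IsBase B → M.IsBase (B ∪ X)
  con : ∀ z ∈ M.E, N.IsMinor (M ／ {z}) → ¬ Star (M ／ {z})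
  del : ∀ z ∈ M.E, N.IsMinor (M ＼ {z}) → ¬ Star (M ＼ {z})

theorem min5_of (M N : Matroid α) [M.Finite] (h : MinStar M N) (hc : Conn M) :
    ∃ X Y, Min5 M N X Y := by
  obtain ⟨hst, hN, hmin⟩ := h
  obtain ⟨X, Y, hX, hXY, hXYE, hNe, hbase⟩ := exists_indep_coindep hN
  refine ⟨X, Y, hc, hst, hX, hXY, hXYE, hN.subset, ?_, hbase, ?_, ?_⟩
  · intro I hI
    have hI' : ∀ x ∈ I, x ∉ X ∪ Y := by
      intro x hx hx2
      rw [hXYE] at hx2
      exact hx2.2 (hI hx)
    rw [hNe, Matroid.delete_indep_iff, hX.contract_indep_iff]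
    constructor
    · exact fun h1 => h1.1.2
    · intro h1
      refine ⟨⟨?_, h1⟩, ?_⟩
      · rw [Set.disjoint_left]
        exact fun x hx hx2 => hI' x hx (Or.inl hx2)
      · rw [Set.disjoint_left]
        exact fun x hx hx2 => hI' x hx (Or.inr hx2)
  · intro z hz hz2
    exact hmin _ (AM.con_minor M {z}) (AM.con_ne hz) hz2
  · intro z hz hz2
    exact hmin _ (AM.del_minor M {z}) (AM.del_ne hz) hz2

theorem min5_facts {M N : Matroid α} [M.Finite] {X Y : Set α} (H : Min5 M N X Y) :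
    (∀ z ∈ X, N.IsMinor (M ／ {z})) ∧ (∀ z ∈ Y, N.IsMinor (M ＼ {z})) ∧
      (∀ e ∈ M.E, M.Spanning (M.E \ {e})) ∧ X.ncard ≤ rk M M.E ∧
      rk M M.E ≤ N.E.ncard + X.ncard ∧ M.E.ncard = N.E.ncard + X.ncard + Y.ncard ∧
      2 ≤ rk M M.E := by
  have hEf : M.E.Finite := M.ground_finite
  have hXs : ∀ x ∈ X, x ∈ M.E ∧ x ∉ N.E := by
    intro x hx
    have h1 : x ∈ X ∪ Y := Or.inl hx
    rw [H.hE] at h1
    exact h1
  have hYs : ∀ x ∈ Y, x ∈ M.E ∧ x ∉ N.E := by
    intro x hx
    have h1 : x ∈ X ∪ Y := Or.inr hx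
    rw [H.hE] at h1
    exact h1
  have hd : Disjoint X N.E := by
    rw [Set.disjoint_left]
    exact fun x hx => (hXs x hx).2
  have hXf : X.Finite := hEf.subset fun x hx => (hXs x hx).1
  have hYf : Y.Finite := hEf.subset fun x hx => (hYs x hx).1
  have hNf : N.E.Finite := hEf.subset H.hNE
  refine ⟨?_, ?_, ?_, ?_, ?_, ?_, ?_⟩
  · intro z hz
    exact AM.minor_con_of_indep H.indX hd H.hNE H.ind hz
  · intro z hz
    exact AM.minor_del_of_indep H.indX hd H.hNE H.ind (hYs z hz).1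
      (fun h => Set.disjoint_left.1 H.disj h hz) (hYs z hz).2
  · intro e he
    by_contra hns
    have hsep := sep_of_coloop he hns
    rcases H.conn {e} hsep with h1 | h1
    · exact Set.singleton_ne_empty e h1
    · obtain ⟨C, D, hC, hD, -, hCD⟩ := H.star
      have h2 : ∀ C, M.IsCircuit C → C = {e} := by
        intro C hC
        have h3 : C ⊆ {e} := by rw [h1]; exact hC.subset_ground
        exact (Set.subset_singleton_iff_eq.1 h3).resolve_left hC.nonempty.ne_empty
      apply hCD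
      rw [h2 C hC, ← h2 D hD]
      exact M.subset_closure D hD.subset_ground
  · rw [← rk_indep H.indX]
    exact rk_mono H.indX.subset_ground
  · obtain ⟨B, hB⟩ := N.exists_isBase
    have h1 := rk_isBase (H.base B hB)
    have h2 := Set.ncard_union_le B X
    have h3 : B.ncard ≤ N.E.ncard := Set.ncard_le_ncard hB.subset_ground hNf
    omega
  · have h1 := Set.ncard_sdiff_add_ncard_of_subset H.hNE hEf
    rw [← H.hE, Set.ncard_union_eq H.disj hXf hYf] at h1
    omega
  · obtain ⟨C, D, hC, hD, ⟨d, hdC, hdD⟩, hCD⟩ := H.star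
    by_contra hlt
    obtain ⟨c, hcC, hcD⟩ := Set.not_subset.1 hCD
    have h1 := rk_insert_of_notMem (hC.subset_ground hcC) hcD
    have h2 : rk M (insert c D) ≤ rk M M.E :=
      rk_mono (Set.insert_subset (hC.subset_ground hcC) hD.subset_ground)
    have h3 := circuit_rk hD
    have h4 : D.ncard = 1 := by omega
    obtain ⟨d', hd'⟩ := Set.ncard_eq_one.1 h4
    have h5 : d = d' := by
      rw [hd'] at hdD
      exact hdD
    have h6 : D ⊆ C := by
      rw [hd', ← h5]
      exact Set.singleton_subset_iff.2 hdC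
    have h7 : D = C := hD.eq_of_subset_isCircuit hC h6
    apply hCD
    rw [← h7]
    exact M.subset_closure D hD.subset_ground

end Pool.Agent.MP8f11b1
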