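import Pool.Agent.Lib.MP_8f11b1_co_AM.UA1
import Pool.Agent.Lib.MP_8f11b1_co_AM.Min5

set_option autoImplicit false

namespace Pool.Agent.MP8f11b1

open Matroid

variable {α : Type}

namespace UA2

theorem sub_closure {M : Matroid α} [M.Finite] {D S : Set α} (hS : S ⊆ M.E) (hDS : D ⊆ S)
    (hD : rk M D + 1 = rk M M.E) (hns : ¬ M.Spanning S) : S ⊆ M.closure D := by
  intro z hz
  by_contra hzc
  have h1 := rk_insert_of_notMem (hS hz) hzc
  have h2 : rk M (insert z D) ≤ rk M S := rk_mono (Set.insert_subset hz hDS)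
  have h3 : rk M S ≤ rk M M.E := rk_mono hS
  exact hns ((spanning_iff_rk hS).2 (by omega))

/-- a nonspanning circuit -/
theorem exists_circ {M N : Matroid α} [M.Finite] {X Y : Set α} (H : Min5 M N X Y) {e : α}
    (he : e ∈ X) (hu : Unif (M ／ {e})) :
    ∃ D, M.IsCircuit D ∧ ¬ M.Spanning D ∧ e ∉ M.closure D ∧ D.ncard = rk M M.E ∧
      rk M D + 1 = rk M M.E := by
  obtain ⟨C, D, hC, hD, _, hCD⟩ := H.star
  have hns : ¬ M.Spanning D := by
    intro h
    apply hCD
    rw [h.closure_eq]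
    exact hC.subset_ground
  have hei : M.Indep {e} := H.indX.subset (Set.singleton_subset_iff.2 he)
  obtain ⟨h1, h2⟩ := ua_circ M hei hu hD hns
  exact ⟨D, hD, hns, h1, h2, by rw [circuit_rk hD, h2]⟩

end UA2

/-- the case of at least two contracted elements -/
theorem ua_two {M N : Matroid α} [M.Finite] {X Y : Set α} (H : Min5 M N X Y) {e : α}
    (he : e ∈ X) (hu : Unif (M ／ {e})) (h3 : 3 ≤ rk M M.E) (h2 : 2 ≤ X.ncard) :
    X.ncard + Y.ncard ≤ N.E.ncard := by
  obtain ⟨D, hD, hDs, heD, hDr, hDk⟩ := UA2.exists_circ H he hu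
  obtain ⟨F1, F2, F3, F4, F5, F6, F7⟩ := min5_facts H
  have hXE : X ⊆ M.E := fun x hx => (H.hE.subset (Or.inl hx)).1
  have hYE : Y ⊆ M.E := fun x hx => (H.hE.subset (Or.inr hx)).1
  have hXN : ∀ x ∈ X, x ∉ N.E := fun x hx => (H.hE.subset (Or.inl hx)).2
  have hYN : ∀ x ∈ Y, x ∉ N.E := fun x hx => (H.hE.subset (Or.inr hx)).2
  have hXY : ∀ x ∈ X, x ∉ Y := fun x hx => Set.disjoint_left.1 H.disj hx
  have hEf : M.E.Finite := M.ground_finite
  have hXf : X.Finite := hEf.subset hXE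
  have heE : e ∈ M.E := hXE he
  have hei : M.Indep {e} := H.indX.subset (Set.singleton_subset_iff.2 he)
  obtain ⟨e', he'X, he'⟩ : ∃ e' ∈ X, e' ≠ e := by
    have h4 : 1 < X.ncard := by omega
    exact Set.exists_ne_of_one_lt_ncard h4 e
  -- the exchange
  have hconY : ∀ y ∈ Y, ¬ Star (M ／ {y}) := by
    intro y hy
    refine H.con y (hYE hy) ?_
    obtain ⟨X', hX'⟩ : ∃ X', X' = insert y (X \ {e'}) := ⟨_, rfl⟩
    have hyX : y ∉ X := fun h => hXY y h hy
    have hX'E : X' ⊆ M.E := by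
      rw [hX']
      exact Set.insert_subset (hYE hy) (Set.sdiff_subset.trans hXE)
    have hX'N : ∀ x ∈ X', x ∉ N.E := by
      rw [hX']
      intro x hx
      rcases Set.mem_insert_iff.1 hx with rfl | hx
      · exact hYN _ hy
      · exact hXN x hx.1
    have hX'f : X'.Finite := hEf.subset hX'E
    have heX' : e ∈ X' := by
      rw [hX']
      exact Set.mem_insert_of_mem _ ⟨he, fun h => he' h.symm⟩
    have hcard : X'.ncard = X.ncard := by
      rw [hX', Set.ncard_insert_of_notMem (fun h => hyX h.1) (hXf.subset Set.sdiff_subset),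
        Set.ncard_sdiff_singleton_add_one he'X hXf]
    have hind : ∀ I ⊆ N.E, N.Indep I ↔ M.Indep (I ∪ X') := by
      intro I hI
      have hIf : I.Finite := hEf.subset (hI.trans H.hNE)
      have h5 : (I ∪ X).ncard = I.ncard + X.ncard :=
        Set.ncard_union_eq (Set.disjoint_left.2 fun x hx hx' => hXN x hx' (hI hx)) hIf hXf
      have h6 : (I ∪ X').ncard = I.ncard + X'.ncard :=
        Set.ncard_union_eq (Set.disjoint_left.2 fun x hx hx' => hX'N x hx' (hI hx)) hIf hX'f
      rw [H.ind I hI, ua_indep M hei hu (Set.union_subset (hI.trans H.hNE) hXE) (Or.inr he),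
        ua_indep M hei hu (Set.union_subset (hI.trans H.hNE) hX'E) (Or.inr heX'), h5, h6, hcard]
    have hX'i : M.Indep X' := by
      have h5 := (hind ∅ (Set.empty_subset _)).1 N.empty_indep
      rwa [Set.empty_union] at h5
    exact AM.minor_con_of_indep hX'i (Set.disjoint_left.2 hX'N) H.hNE hind
      (by rw [hX']; exact Set.mem_insert _ _)
  have hconX : ∀ x ∈ X, ¬ Star (M ／ {x}) := fun x hx => H.con x (hXE hx) (F1 x hx)
  have hno : ∀ D', M.IsCircuit D' → ¬ M.Spanning D' → ∀ z ∈ D', z ∉ X ∧ z ∉ Y := by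
    intro D' hD' hDs' z hz
    have h5 := (ua_circ M hei hu hD' hDs').2
    have h6 := ua_con M hei (F3 e heE) hu hD' hDs' hz (by omega)
    exact ⟨fun h => hconX z h h6, fun h => hconY z h h6⟩
  have hDN : D ⊆ N.E := by
    intro z hz
    by_contra hzN
    have h5 : z ∈ M.E \ N.E := ⟨hD.subset_ground hz, hzN⟩
    rw [← H.hE] at h5
    obtain ⟨h6, h7⟩ := hno D hD hDs z hz
    exact h5.elim h6 h7
  have hNf : N.E.Finite := hEf.subset H.hNE
  have h5 : D.ncard ≤ N.E.ncard := Set.ncard_le_ncard hDN hNf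
  have hY : Y = ∅ := by
    rw [Set.eq_empty_iff_forall_notMem]
    intro y hy
    have hyD : y ∉ D := fun h => hYN y hy (hDN h)
    have hye : y ≠ e := fun h => hXY e he (h ▸ hy)
    have h6 : ¬ M.Spanning ((M.E \ {y}) \ {e}) := fun h =>
      H.del y (hYE hy) (F2 y hy) (ua_del M hei hu hD hDs hyD hye (by omega) h)
    have h7 : (M.E \ {y}) \ {e} ⊆ M.closure D := by
      refine UA2.sub_closure (Set.sdiff_subset.trans Set.sdiff_subset) ?_ hDk h6
      intro z hz
      refine ⟨⟨hD.subset_ground hz, fun h => hyD (h ▸ hz)⟩, fun h => hXN e he (hDN ?_)⟩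
      have h8 : z = e := h
      exact h8 ▸ hz
    have h8 : e' ∈ M.closure D :=
      h7 ⟨⟨hXE he'X, fun h => hXY e' he'X (by rw [Set.mem_singleton_iff.1 h]; exact hy)⟩, he'⟩
    have h9 : e' ∉ D := fun h => hXN e' he'X (hDN h)
    obtain ⟨D'', hD''s, hD'', he''⟩ : ∃ D'' ⊆ insert e' D, M.IsCircuit D'' ∧ e' ∈ D'' :=
      (Matroid.mem_closure_iff_exists_isCircuit h9).1 h8
    have h10 : ¬ M.Spanning D'' := by
      intro h
      rw [spanning_iff_rk hD''.subset_ground] at h
      have h11 : D'' ⊆ M.closure D := by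
        intro z hz
        rcases Set.mem_insert_iff.1 (hD''s hz) with rfl | hz
        · exact h8
        · exact M.mem_closure_of_mem hz hD.subset_ground
      have h12 := rk_le_of_subset_closure h11
      omega
    exact (hno D'' hD'' h10 e' he'').1 he'X
  rw [hY, Set.ncard_empty]
  omega

/-- the case of one contracted element -/
theorem ua_one {M N : Matroid α} [M.Finite] {X Y : Set α} (H : Min5 M N X Y) {e : α}
    (he : e ∈ X) (hu : Unif (M ／ {e})) (h1 : X.ncard = 1) :
    X.ncard + Y.ncard ≤ N.E.ncard + 3 := by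
  obtain ⟨D, hD, hDs, heD, hDr, hDk⟩ := UA2.exists_circ H he hu
  obtain ⟨F1, F2, F3, F4, F5, F6, F7⟩ := min5_facts H
  have hYE : Y ⊆ M.E := fun x hx => (H.hE.subset (Or.inr hx)).1
  have hXY : ∀ x ∈ X, x ∉ Y := fun x hx => Set.disjoint_left.1 H.disj hx
  have hEf : M.E.Finite := M.ground_finite
  have heE : e ∈ M.E := (H.hE.subset (Or.inl he)).1
  have hei : M.Indep {e} := H.indX.subset (Set.singleton_subset_iff.2 he)
  have heD' : e ∉ D := fun h => heD (M.mem_closure_of_mem h hD.subset_ground)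
  have hsub : ∀ y ∈ Y \ D, (M.E \ {y}) \ {e} ⊆ M.closure D := by
    rintro y ⟨hy, hyD⟩
    have hye : y ≠ e := fun h => hXY e he (h ▸ hy)
    have h6 : ¬ M.Spanning ((M.E \ {y}) \ {e}) := fun h =>
      H.del y (hYE hy) (F2 y hy) (ua_del M hei hu hD hDs hyD hye (by omega) h)
    refine UA2.sub_closure (Set.sdiff_subset.trans Set.sdiff_subset) ?_ hDk h6
    intro z hz
    refine ⟨⟨hD.subset_ground hz, fun h => hyD (h ▸ hz)⟩, fun h => heD' ?_⟩
    have h8 : z = e := h
    exact h8 ▸ hz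
  have hYD : (Y \ D).ncard ≤ 1 := by
    by_contra hc
    have hYDf : (Y \ D).Finite := (hEf.subset hYE).subset Set.sdiff_subset
    obtain ⟨y1, hy1, y2, hy2, hne⟩ := (Set.one_lt_ncard hYDf).1 (by omega)
    have h5 : M.E \ {e} ⊆ M.closure D := by
      rintro z ⟨hz, hze⟩
      by_cases hz1 : z = y1
      · exact hsub y2 hy2 ⟨⟨hz, fun h => hne (hz1.symm.trans h)⟩, hze⟩
      · exact hsub y1 hy1 ⟨⟨hz, hz1⟩, hze⟩
    have h6 := rk_le_of_subset_closure h5
    have h7 := (spanning_iff_rk Set.sdiff_subset).1 (F3 e heE)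
    omega
  have hDf : D.Finite := hEf.subset hD.subset_ground
  have h5 : Y.ncard ≤ (Y \ D).ncard + D.ncard := by
    have h6 : Y ⊆ (Y \ D) ∪ D := by
      intro z hz
      by_cases h : z ∈ D
      · exact Or.inr h
      · exact Or.inl ⟨hz, h⟩
    refine (Set.ncard_le_ncard h6 ?_).trans (Set.ncard_union_le _ _)
    exact ((hEf.subset hYE).subset Set.sdiff_subset).union hDf
  omega

end Pool.Agent.MP8f11b1
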