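import Pool.Agent.Lib.MP_8f11b1_co_AM.SepA

set_option autoImplicit false

namespace Pool.Agent.MP8f11b1

open Matroid

variable {α : Type}

private theorem ubx_sep {M : Matroid α} {x f : α} (hxf : x ≠ f) (hfE : f ∈ M.E)
    (hcx : ¬ Conn (M ／ {x})) : ∃ S, Sep (M ／ {x}) S ∧ f ∈ S ∧ ((M ／ {x}).E \ S).Nonempty := by
  unfold Conn at hcx
  push Not at hcx
  obtain ⟨S0, hS0, hne, hne2⟩ := hcx
  have hfE' : f ∈ (M ／ {x}).E := by
    rw [Matroid.contract_ground]
    exact ⟨hfE, fun h => hxf h.symm⟩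
  by_cases hf : f ∈ S0
  · refine ⟨S0, hS0, hf, ?_⟩
    rw [Set.sdiff_nonempty]
    exact fun h => hne2 (hS0.1.antisymm h)
  · refine ⟨(M ／ {x}).E \ S0, hS0.compl, ⟨hfE', hf⟩, ?_⟩
    rw [Set.sdiff_sdiff_cancel_left hS0.1]
    exact hne

private theorem ubx_circ {M : Matroid α} (hc : Conn M) {x : α} (hix : M.Indep {x})
    {T : Set α} (hT : Sep (M ／ {x}) T) (hne : T.Nonempty) :
    ∃ C, M.IsCircuit C ∧ x ∈ C ∧ C \ {x} ⊆ T := by
  have hTE := hT.1
  rw [Matroid.contract_ground] at hTE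
  have hxT : x ∉ T := fun h => (hTE h).2 rfl
  have hxE : x ∈ M.E := hix.subset_ground rfl
  have h1 : ¬ Sep M T := by
    intro h
    rcases hc T h with h2 | h2
    · exact hne.ne_empty h2
    · exact hxT (h2 ▸ hxE)
  have h2 : ∃ C, M.IsCircuit C ∧ ¬ C ⊆ T ∧ ¬ Disjoint C T := by
    by_contra h3
    push Not at h3
    refine h1 ⟨hTE.trans Set.sdiff_subset, fun C hC => ?_⟩
    by_cases h4 : C ⊆ T
    · exact Or.inl h4
    · exact Or.inr (h3 C hC h4)
  obtain ⟨C, hC, hCT, hCT2⟩ := h2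
  rw [Set.not_disjoint_iff] at hCT2
  obtain ⟨t, htC, htT⟩ := hCT2
  have htx : t ≠ x := fun h => hxT (h ▸ htT)
  by_cases hxC : x ∈ C
  · refine ⟨C, hC, hxC, ?_⟩
    rcases hT.2 _ (AM.circ_con_mem hC hix hxC) with h3 | h3
    · exact h3
    · exact absurd htT (Set.disjoint_left.1 h3 ⟨htC, htx⟩)
  · by_cases hxcl : x ∈ M.closure C
    · have h3 : t ∈ (M ／ {x}).closure (C \ {t}) := by
        rw [AM.closure_con]
        exact ⟨M.closure_subset_closure (Set.subset_insert _ _)
          (hC.mem_closure_sdiff_singleton_of_mem htC), htx⟩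
      obtain ⟨C', hC'C, hC', htC'⟩ := Matroid.exists_isCircuit_of_mem_closure h3 (fun h => h.2 rfl)
      rw [Set.insert_sdiff_singleton, Set.insert_eq_of_mem htC] at hC'C
      have h4 : C' ⊆ T := by
        rcases hT.2 _ hC' with h5 | h5
        · exact h5
        · exact absurd htT (Set.disjoint_left.1 h5 htC')
      have h5 : C' ⊂ C := hC'C.ssubset_of_ne fun h => hCT (h ▸ h4)
      rcases AM.circ_of_con hC' hix with h6 | h6
      · exact absurd (hC.ssubset_indep h5) h6.not_indep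
      · refine ⟨insert x C', h6, Set.mem_insert _ _, ?_⟩
        rintro y ⟨hy, hyx⟩
        rcases Set.mem_insert_iff.1 hy with hy | hy
        · exact absurd hy hyx
        · exact h4 hy
    · rcases hT.2 _ (AM.circ_con hC hix hxcl) with h3 | h3
      · exact absurd h3 hCT
      · exact absurd htT (Set.disjoint_left.1 h3 htC)

/-- one half of the disconnected case -/
theorem ub_half (M : Matroid α) [M.Finite] (hc : Conn M) {x f : α} (hxf : x ≠ f)
    (hi : M.Indep {x, f}) (hf : ¬ Star (M ／ {f})) (hcx : ¬ Conn (M ／ {x})) :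
    x ∉ M.closure (insert f (M.E \ M.closure {x, f})) := by
  have hix : M.Indep {x} := hi.subset (by simp)
  have hif : M.Indep {f} := hi.subset (by simp)
  have hxE : x ∈ M.E := hix.subset_ground rfl
  have hfE : f ∈ M.E := hif.subset_ground rfl
  have hFE : {x, f} ⊆ M.E := hi.subset_ground
  obtain ⟨S, hS, hfS, hTne⟩ := ubx_sep hxf hfE hcx
  obtain ⟨T, hT⟩ : ∃ T, T = (M ／ {x}).E \ S := ⟨_, rfl⟩
  have hTsep : Sep (M ／ {x}) T := hT ▸ hS.compl
  have hfT : f ∉ T := by
    rw [hT]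
    exact fun h => h.2 hfS
  have hTS : ∀ t ∈ T, t ∉ S := by
    rw [hT]
    exact fun t h => h.2
  rw [← hT] at hTne
  have hxS : x ∉ S := by
    have := hS.1
    rw [Matroid.contract_ground] at this
    exact fun h => (this h).2 rfl
  -- the circuit of `T`
  obtain ⟨CT, hCT, hxCT, hCTT⟩ := ubx_circ hc hix hTsep hTne
  have hCTi : CT ⊆ insert x T := by
    intro y hy
    by_cases h : y = x
    · exact Or.inl h
    · exact Or.inr (hCTT ⟨hy, h⟩)
  have hfi : (M ／ {x}).Indep {f} := by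
    rw [AM.indep_con hix (fun h => hxf h)]
    exact hi
  have hfcl : f ∉ M.closure CT := by
    intro h
    refine hTsep.notMem_closure (subset_refl T) hfi hfT ?_
    rw [AM.closure_con]
    exact ⟨M.closure_subset_closure hCTi h, fun h2 => hxf h2.symm⟩
  have hCTf : (M ／ {f}).IsCircuit CT := AM.circ_con hCT hif hfcl
  -- the circuit of `S`
  obtain ⟨CS, hCS, hxCS, hCSS⟩ := ubx_circ hc hix hS ⟨f, hfS⟩
  have hxcl : x ∈ M.closure S :=
    M.closure_subset_closure hCSS (hCS.mem_closure_sdiff_singleton_of_mem hxCS)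
  have hxcl2 : x ∈ (M ／ {f}).closure (S \ {f}) := by
    rw [AM.closure_con, Set.insert_sdiff_singleton, Set.insert_eq_of_mem hfS]
    exact ⟨hxcl, hxf⟩
  obtain ⟨C2, hC2s, hC2, hxC2⟩ := Matroid.exists_isCircuit_of_mem_closure hxcl2
    (fun h => hxS h.1)
  have hstar : ∀ C D, (M ／ {f}).IsCircuit C → (M ／ {f}).IsCircuit D → x ∈ C → x ∈ D →
      C ⊆ M.closure (insert f D) := by
    intro C D hC hD hxC hxD
    by_contra h
    refine hf ⟨C, D, hC, hD, ⟨x, hxC, hxD⟩, fun h2 => h (h2.trans ?_)⟩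
    rw [AM.closure_con]
    exact Set.sdiff_subset
  have h1 := hstar CT C2 hCTf hC2 hxCT hxC2
  have h2 : insert f C2 ⊆ insert x S := by
    refine Set.insert_subset (Or.inr hfS) (hC2s.trans ?_)
    exact Set.insert_subset_insert Set.sdiff_subset
  have hCTx : CT ⊆ M.closure {x} := by
    intro t ht
    by_cases htx : t = x
    · rw [htx]
      exact M.mem_closure_of_mem rfl hix.subset_ground
    · have htT : t ∈ T := hCTT ⟨ht, htx⟩
      have htE : t ∈ M.E := hCT.subset_ground ht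
      by_contra h3
      have h4 : (M ／ {x}).Indep {t} := by
        rw [AM.indep_con hix (fun h => htx h.symm)]
        have h5 := (hix.notMem_closure_iff_of_notMem (e := t) (fun h => htx h) htE).1 h3
        rwa [Set.pair_comm] at h5
      refine hS.notMem_closure (subset_refl S) h4 (hTS t htT) ?_
      rw [AM.closure_con]
      exact ⟨M.closure_subset_closure h2 (h1 ht), htx⟩
  intro h3
  obtain ⟨Z, hZ⟩ : ∃ Z, Z = M.E \ M.closure {x, f} := ⟨_, rfl⟩
  rw [← hZ] at h3
  have hxZ : x ∉ Z := by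
    rw [hZ]
    exact fun h => h.2 (M.mem_closure_of_mem (by simp) hFE)
  have h4 : x ∈ (M ／ {f}).closure Z := by
    rw [AM.closure_con]
    exact ⟨h3, hxf⟩
  obtain ⟨C3, hC3s, hC3, hxC3⟩ := Matroid.exists_isCircuit_of_mem_closure h4 hxZ
  have h5 := hstar C3 CT hC3 hCTf hxC3 hxCT
  have h6 : insert f CT ⊆ M.closure {x, f} :=
    Set.insert_subset (M.mem_closure_of_mem (by simp) hFE)
      (hCTx.trans (M.closure_subset_closure (by simp)))
  have h7 : C3 ⊆ M.closure {x, f} := by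
    refine h5.trans ?_
    have := M.closure_subset_closure h6
    rwa [Matroid.closure_closure] at this
  have h8 : C3 ⊆ {x} := by
    intro c hcC
    rcases Set.mem_insert_iff.1 (hC3s hcC) with h9 | h9
    · exact h9
    · rw [hZ] at h9
      exact absurd (h7 hcC) h9.2
  refine hC3.not_indep (Matroid.Indep.subset ?_ h8)
  rw [AM.indep_con hif (fun h => hxf h.symm), Set.pair_comm]
  exact hi

/-- a contradiction -/
theorem ub_rank (M : Matroid α) [M.Finite] (hc : Conn M) (h3 : 3 ≤ rk M M.E) {x f : α}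
    (hxf : x ≠ f) (hi : M.Indep {x, f})
    (h1 : x ∉ M.closure (insert f (M.E \ M.closure {x, f})))
    (h2 : f ∉ M.closure (insert x (M.E \ M.closure {x, f}))) : False := by
  have hFE : {x, f} ⊆ M.E := hi.subset_ground
  have hxE : x ∈ M.E := hFE (by simp)
  have hfE : f ∈ M.E := hFE (by simp)
  obtain ⟨F, hF⟩ : ∃ F, F = M.closure {x, f} := ⟨_, rfl⟩
  obtain ⟨Z, hZ⟩ : ∃ Z, Z = M.E \ F := ⟨_, rfl⟩
  rw [← hF, ← hZ] at h1 h2
  have hrF : rk M F = 2 := by
    rw [hF, rk_closure, rk_indep hi, Set.ncard_pair hxf]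
  have hxF : x ∈ F := by
    rw [hF]
    exact M.mem_closure_of_mem (by simp) hFE
  have hFsub : F ⊆ M.E := by
    rw [hF]
    exact M.closure_subset_ground _
  have hfF : f ∈ F := by
    rw [hF]
    exact M.mem_closure_of_mem (by simp) hFE
  have hns : ¬ Sep M F := by
    intro h
    rcases hc F h with h4 | h4
    · rw [h4] at hxF
      exact hxF
    · rw [h4] at hrF
      omega
  obtain ⟨C, hC, hCF, hCF2⟩ : ∃ C, M.IsCircuit C ∧ ¬ C ⊆ F ∧ ¬ Disjoint C F := by
    by_contra h4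
    push Not at h4
    refine hns ⟨hFsub, fun C hC => ?_⟩
    by_cases h5 : C ⊆ F
    · exact Or.inl h5
    · exact Or.inr (h4 C hC h5)
  have hCfin : C.Finite := M.ground_finite.subset hC.subset_ground
  have hA : M.Indep (C \ F) := by
    refine hC.ssubset_indep (Set.sdiff_subset.ssubset_of_ne fun h => hCF2 ?_)
    rw [Set.disjoint_left]
    intro c hc1
    rw [← h] at hc1
    exact hc1.2
  have hB : M.Indep (C ∩ F) :=
    hC.ssubset_indep (Set.inter_subset_left.ssubset_of_ne fun h => hCF (Set.inter_eq_left.1 h))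
  have hcard : (C ∩ F).ncard + (C \ F).ncard = C.ncard :=
    Set.ncard_inter_add_ncard_sdiff_eq_ncard C F hCfin
  have hZF : rk M Z + 2 ≤ rk M (Z ∪ F) := by
    have h4 : f ∉ M.closure Z := fun h => h2 (M.closure_subset_closure (Set.subset_insert _ _) h)
    have h5 := rk_insert_of_notMem hfE h4
    have h6 := rk_insert_of_notMem hxE h1
    have h7 : rk M (insert x (insert f Z)) ≤ rk M (Z ∪ F) := rk_mono (by
      refine Set.insert_subset (Or.inr hxF) (Set.insert_subset (Or.inr hfF) ?_)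
      exact Set.subset_union_left)
    omega
  have hAZ : C \ F ⊆ Z := by
    rw [hZ]
    exact fun c hc1 => ⟨hC.subset_ground hc1.1, hc1.2⟩
  have hBF : C ∩ F ⊆ F := Set.inter_subset_right
  have hAB : (C \ F) ∪ (C ∩ F) = C := Set.sdiff_union_inter C F
  have e1 := rk_submod (M := M) C Z
  have e2 : rk M (C \ F) ≤ rk M (C ∩ Z) := rk_mono fun c hc1 => ⟨hc1.1, hAZ hc1⟩
  have e3 := rk_submod (M := M) ((C ∩ F) ∪ Z) F
  have e4 : rk M (C ∩ F) ≤ rk M (((C ∩ F) ∪ Z) ∩ F) :=
    rk_mono fun c hc1 => ⟨Or.inl hc1, hc1.2⟩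
  have e5 : rk M (Z ∪ F) ≤ rk M (((C ∩ F) ∪ Z) ∪ F) :=
    rk_mono (Set.union_subset_union_left _ Set.subset_union_right)
  have e6 : rk M ((C ∩ F) ∪ Z) ≤ rk M (C ∪ Z) :=
    rk_mono (Set.union_subset_union_left _ Set.inter_subset_left)
  have e7 := rk_indep hA
  have e8 := rk_indep hB
  have e9 := circuit_rk hC
  omega

end Pool.Agent.MP8f11b1
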