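import Pool.Agent.Lib.MP_8f11b1_co_AM.SepA

set_option autoImplicit false

namespace Pool.Agent.MP8f11b1

open Matroid

variable {α : Type}

theorem unif_of_conn (M : Matroid α) [M.Finite] (hc : Conn M) (hs : ¬ Star M) : Unif M := by
  intro D hD
  have hst : ∀ C D : Set α, M.IsCircuit C → M.IsCircuit D → (C ∩ D).Nonempty →
      C ⊆ M.closure D := by
    intro C D hC hD hne
    by_contra h
    exact hs ⟨C, D, hC, hD, hne, h⟩
  have hsep : Sep M (M.closure D) := by
    refine ⟨M.closure_subset_ground D, ?_⟩
    intro C hC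
    by_cases hdis : Disjoint C (M.closure D)
    · exact Or.inr hdis
    left
    rw [Set.not_disjoint_iff] at hdis
    obtain ⟨x, hxC, hxD⟩ := hdis
    by_cases hxD' : x ∈ D
    · exact hst C D hC hD ⟨x, hxC, hxD'⟩
    · obtain ⟨K, hKs, hK, hxK⟩ := (Matroid.mem_closure_iff_exists_isCircuit hxD').1 hxD
      refine (hst C K hC hK ⟨x, hxC, hxK⟩).trans ?_
      refine M.closure_subset_closure_of_subset_closure ?_
      intro z hz
      rcases Set.mem_insert_iff.1 (hKs hz) with rfl | hz
      · exact hxD
      · exact M.mem_closure_of_mem hz hD.subset_ground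
  have hsub : D ⊆ M.closure D := M.subset_closure D hD.subset_ground
  rcases hc _ hsep with h | h
  · exfalso
    obtain ⟨d, hd⟩ := hD.nonempty
    have := hsub hd
    rw [h] at this
    exact this
  · exact (Matroid.spanning_iff_closure_eq hD.subset_ground).2 h

end Pool.Agent.MP8f11b1
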