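import Pool.Agent.Lib.MP_8f11b1_co_AM.StarA
import Pool.Agent.Lib.MP_8f11b1_co_AM.StarB
import Pool.Agent.Lib.MP_8f11b1_co_AM.SepD
import Pool.Agent.Lib.MP_8f11b1_co_AM.UnC
import Pool.Agent.Lib.MP_8f11b1_co_AM.UA2
import Pool.Agent.Lib.MP_8f11b1_co_AM.UB
import Pool.Agent.Lib.MP_8f11b1_co_AM.WDual

set_option autoImplicit false

namespace Pool.Agent.MP8f11b1

open Matroid

variable {α : Type}

/-- the bound for the contracted elements -/
theorem conn_bound {M N : Matroid α} [M.Finite] {X Y : Set α} (H : Min5 M N X Y) :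
    X.ncard + Y.ncard ≤ N.E.ncard + 3 ∨ X.ncard ≤ 2 := by
  obtain ⟨f1, f2, f3, f4, f5, f6, f7⟩ := min5_facts H
  by_cases h3 : 3 ≤ rk M M.E
  swap
  · right; omega
  by_cases h2 : X.ncard ≤ 1
  · right; omega
  have hXf : X.Finite := M.ground_finite.subset H.indX.subset_ground
  obtain ⟨x, hx, f, hf, hxf⟩ := (Set.one_lt_ncard hXf).1 (by omega : 1 < X.ncard)
  have hxE := H.indX.subset_ground hx
  have hfE := H.indX.subset_ground hf
  have hsx := H.con x hxE (f1 x hx)
  have hsf := H.con f hfE (f1 f hf)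
  haveI : (M ／ {x}).Finite := contract_finite _
  haveI : (M ／ {f}).Finite := contract_finite _
  by_cases hux : Unif (M ／ {x})
  · left
    have := ua_two H hx hux h3 (by omega)
    omega
  by_cases huf : Unif (M ／ {f})
  · left
    have := ua_two H hf huf h3 (by omega)
    omega
  exfalso
  have hcx : ¬ Conn (M ／ {x}) := fun h => hux (unif_of_conn _ h hsx)
  have hcf : ¬ Conn (M ／ {f}) := fun h => huf (unif_of_conn _ h hsf)
  have hi : M.Indep {x, f} := H.indX.subset (by
    rintro z (rfl | rfl)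
    · exact hx
    · exact hf)
  have hi' : M.Indep {f, x} := by rwa [Set.pair_comm]
  have h4 := ub_half M H.conn hxf hi hsf hcx
  have h5 := ub_half M H.conn (Ne.symm hxf) hi' hsx hcf
  rw [Set.pair_comm] at h5
  exact ub_rank M H.conn h3 hxf hi h4 h5

theorem star_dual (M : Matroid α) [M.Finite] (h : Star M) : Star M✶ := by
  obtain ⟨M', hM', hW⟩ := star_minor M h
  haveI : M✶.Finite := ⟨by rw [Matroid.dual_ground]; exact M.ground_finite⟩
  have h1 : (M'✶).IsMinor M✶ := by
    obtain ⟨C, D, -, -, hd, rfl⟩ := hM'.exists_eq_contract_delete_disjoint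
    rw [Matroid.dual_contract_delete, ← Matroid.contract_delete_comm _ hd.symm]
    exact Matroid.contract_delete_isMinor _ _ _
  exact star_of_minor M✶ h1 (hW.dual (by norm_num))

theorem star_dual_iff (M : Matroid α) [M.Finite] : Star M✶ ↔ Star M := by
  refine ⟨fun h => ?_, star_dual M⟩
  haveI : M✶.Finite := ⟨by rw [Matroid.dual_ground]; exact M.ground_finite⟩
  have := star_dual M✶ h
  rwa [Matroid.dual_dual] at this

end Pool.Agent.MP8f11b1
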