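import Pool.Agent.Lib.MP_8f11b1_co_AM.Rk

set_option autoImplicit false

namespace Pool.Agent.MP8f11b1

open Matroid

variable {α : Type}

/-- augmentation from circuit elimination -/
private theorem CircM_aug (E : Set α) (hE : E.Finite) (P : Set α → Prop)
    (h3 : ∀ C D e, P C → P D → C ≠ D → e ∈ C → e ∈ D → ∃ F, P F ∧ F ⊆ (C ∪ D) \ {e})
    {I J : Set α} (hI : I ⊆ E ∧ ∀ C, P C → ¬ C ⊆ I) (hJ : J ⊆ E ∧ ∀ C, P C → ¬ C ⊆ J)
    (hlt : I.ncard < J.ncard) :
    ∃ e ∈ J, e ∉ I ∧ (insert e I ⊆ E ∧ ∀ C, P C → ¬ C ⊆ insert e I) := by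
  classical
  by_contra hcon
  push Not at hcon
  have hIf : I.Finite := hE.subset hI.1
  have hJf : J.Finite := hE.subset hJ.1
  obtain ⟨m, hm⟩ : ∃ m : ℕ, m = (I \ J).ncard := ⟨_, rfl⟩
  have hex : ∃ m : ℕ, ∃ K : Set α, (K ⊆ I ∪ J ∧ (∀ C, P C → ¬ C ⊆ K) ∧ I.ncard < K.ncard) ∧
      (I \ K).ncard = m := ⟨_, J, ⟨Set.subset_union_right, hJ.2, hlt⟩, rfl⟩
  obtain ⟨K, ⟨hKs, hK, hKc⟩, hKm⟩ := Nat.find_spec hex
  have hmin : ∀ T : Set α, T ⊆ I ∪ J → I.ncard < T.ncard → (I \ T).ncard < (I \ K).ncard →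
      ∃ C, P C ∧ C ⊆ T := by
    intro T hT hTc hlt'
    by_contra hno
    push Not at hno
    rw [hKm] at hlt'
    exact Nat.find_min hex hlt' ⟨T, ⟨hT, hno, hTc⟩, rfl⟩
  have hKf : K.Finite := (hIf.union hJf).subset hKs
  obtain ⟨g, hgK, hgI⟩ : ∃ g ∈ K, g ∉ I := by
    by_contra hno
    push Not at hno
    exact absurd (Set.ncard_le_ncard hno hIf) (by omega)
  obtain ⟨e, heI, heK⟩ : ∃ e ∈ I, e ∉ K := by
    by_contra hno
    push Not at hno
    have hgJ : g ∈ J := by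
      rcases hKs hgK with h | h
      · exact absurd h hgI
      · exact h
    have hsub : insert g I ⊆ K := Set.insert_subset hgK hno
    obtain ⟨C, hC, hCs⟩ := hcon g hgJ hgI (Set.insert_subset (hJ.1 hgJ) hI.1)
    exact hK C hC (hCs.trans hsub)
  have key : ∀ f, f ∈ K → f ∉ I → ∃ C, P C ∧ C ⊆ insert e K ∧ f ∉ C ∧ e ∈ C := by
    intro f hfK hfI
    have hfe : f ≠ e := fun h => hfI (h ▸ heI)
    have hT1 : insert e K \ {f} ⊆ I ∪ J :=
      Set.sdiff_subset.trans (Set.insert_subset (Or.inl heI) hKs)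
    have hT2 : I.ncard < (insert e K \ {f}).ncard := by
      rw [Set.ncard_sdiff_singleton_of_mem (Set.mem_insert_of_mem e hfK),
        Set.ncard_insert_of_notMem heK hKf]
      omega
    have hT3 : (I \ (insert e K \ {f})).ncard < (I \ K).ncard := by
      refine Set.ncard_lt_ncard ?_ (hIf.subset Set.sdiff_subset)
      refine ⟨?_, fun hsub => ?_⟩
      · rintro x ⟨hxI, hx⟩
        refine ⟨hxI, fun hxK => hx ⟨Set.mem_insert_of_mem e hxK, ?_⟩⟩
        rintro rfl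
        exact hfI hxI
      · exact (hsub ⟨heI, heK⟩).2 ⟨Set.mem_insert e K, fun h => hfe h.symm⟩
    obtain ⟨C, hC, hCs⟩ := hmin (insert e K \ {f}) hT1 hT2 hT3
    refine ⟨C, hC, hCs.trans Set.sdiff_subset, fun h => (hCs h).2 rfl, ?_⟩
    by_contra heC
    refine hK C hC fun x hx => ?_
    rcases (hCs hx).1 with h | h
    · exact absurd (h ▸ hx) heC
    · exact h
  obtain ⟨C, hC, hCs, hgC, heC⟩ := key g hgK hgI
  obtain ⟨f, hfC, hfK, hfI⟩ : ∃ f ∈ C, f ∈ K ∧ f ∉ I := by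
    by_contra hno
    push Not at hno
    refine hI.2 C hC fun x hx => ?_
    rcases hCs hx with h | h
    · rw [h]
      exact heI
    · exact hno x hx h
  obtain ⟨D, hD, hDs, hfD, heD⟩ := key f hfK hfI
  obtain ⟨F, hF, hFs⟩ := h3 C D e hC hD (fun h => hfD (h ▸ hfC)) heC heD
  refine hK F hF fun x hx => ?_
  obtain ⟨h4, h5⟩ := hFs hx
  rcases h4 with h4 | h4
  · rcases hCs h4 with h6 | h6
    · exact absurd h6 h5
    · exact h6
  · rcases hDs h4 with h6 | h6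
    · exact absurd h6 h5
    · exact h6

/-- the matroid with given circuits -/
theorem circ_mat (E : Set α) (hE : E.Finite) (P : Set α → Prop) (h1 : ∀ C, P C → C ⊆ E)
    (h0 : ¬ P ∅) (h2 : ∀ C D, P C → P D → C ⊆ D → C = D)
    (h3 : ∀ C D e, P C → P D → C ≠ D → e ∈ C → e ∈ D → ∃ F, P F ∧ F ⊆ (C ∪ D) \ {e}) :
    ∃ R : Matroid α, R.E = E ∧ (∀ I ⊆ E, R.Indep I ↔ ∀ C, P C → ¬ C ⊆ I) ∧
      ∀ C, R.IsCircuit C ↔ P C := by
  classical
  let N : IndepMatroid α := IndepMatroid.ofFinite hE (fun I => I ⊆ E ∧ ∀ C, P C → ¬ C ⊆ I)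
    ⟨Set.empty_subset _, fun C hC hs => h0 (Set.subset_empty_iff.1 hs ▸ hC)⟩
    (fun I J hJ hIJ => ⟨hIJ.trans hJ.1, fun C hC hs => hJ.2 C hC (hs.trans hIJ)⟩)
    (fun I J hI hJ hlt => CircM_aug E hE P h3 hI hJ hlt)
    (fun I hI => hI.1)
  have hN : ∀ I, N.matroid.Indep I ↔ (I ⊆ E ∧ ∀ C, P C → ¬ C ⊆ I) := fun I => Iff.rfl
  have hNE : N.matroid.E = E := rfl
  refine ⟨N.matroid, hNE, fun I hI => ⟨fun h => ((hN I).1 h).2, fun h => (hN I).2 ⟨hI, h⟩⟩, ?_⟩
  intro C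
  rw [Matroid.isCircuit_iff_forall_ssubset]
  constructor
  · rintro ⟨hdep, hmin⟩
    have h4 : ¬ (C ⊆ E ∧ ∀ D, P D → ¬ D ⊆ C) := fun h => hdep.not_indep ((hN C).2 h)
    have h5 : C ⊆ E := hdep.subset_ground
    push Not at h4
    obtain ⟨D, hD, hDC⟩ := h4 h5
    rcases Set.eq_or_ssubset_of_subset hDC with h6 | h6
    · rw [← h6]
      exact hD
    · exact absurd (Set.Subset.refl D) (((hN D).1 (hmin h6)).2 D hD)
  · intro hC
    refine ⟨⟨fun h => ((hN C).1 h).2 C hC (Set.Subset.refl C), h1 C hC⟩, fun I hI => ?_⟩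
    refine (hN I).2 ⟨hI.subset.trans (h1 C hC), fun D hD hDI => ?_⟩
    have h4 := h2 D C hD hC (hDI.trans hI.subset)
    rw [h4] at hDI
    exact hI.not_subset hDI

/-- the matroid of the small circuits -/
theorem small_mat (M : Matroid α) [M.Finite] {l : ℕ} (hr : 2 * l ≤ rk M M.E + 1)
    (h : ∀ C, M.IsCircuit C → ¬ M.Spanning C → C.ncard < l) :
    ∃ R : Matroid α, R.E = M.E ∧ (∀ C, R.IsCircuit C → M.IsCircuit C ∧ C.ncard < l) ∧
      ∀ I ⊆ M.E, M.Indep I ↔ R.Indep I ∧ I.ncard ≤ rk M M.E := by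
  classical
  obtain ⟨R, hRE, hRI, hRC⟩ := circ_mat M.E M.ground_finite
    (fun C => M.IsCircuit C ∧ C.ncard < l) (fun C hC => hC.1.subset_ground)
    (fun h0 => M.empty_not_isCircuit h0.1)
    (fun C D hC hD hCD => hC.1.eq_of_subset_isCircuit hD.1 hCD)
    (fun C D e hC hD hne heC heD => by
      obtain ⟨F, hFs, hF⟩ := hC.1.elimination hD.1 hne e
      refine ⟨F, ⟨hF, ?_⟩, hFs⟩
      refine h F hF fun hsp => ?_
      have hCf : C.Finite := M.ground_finite.subset hC.1.subset_ground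
      have hDf : D.Finite := M.ground_finite.subset hD.1.subset_ground
      have h4 := Set.ncard_le_ncard hFs ((hCf.union hDf).subset Set.sdiff_subset)
      rw [Set.ncard_sdiff_singleton_of_mem (Set.mem_union_left D heC)] at h4
      have h5 := Set.ncard_union_add_ncard_inter C D hCf hDf
      have h6 : 0 < (C ∩ D).ncard := by
        rw [Set.ncard_pos (hCf.subset Set.inter_subset_left)]
        exact ⟨e, heC, heD⟩
      have h7 := circuit_rk hF
      have h8 := (spanning_iff_rk hF.subset_ground).1 hsp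
      have h9 := hC.2
      have h10 := hD.2
      omega)
  refine ⟨R, hRE, fun C hC => (hRC C).1 hC, fun I hI => ?_⟩
  rw [hRI I hI]
  constructor
  · intro hInd
    refine ⟨fun C hC hCI => hC.1.not_indep (hInd.subset hCI), ?_⟩
    rw [← rk_indep hInd]
    exact rk_mono hI
  · rintro ⟨h4, h5⟩
    by_contra hno
    have hdep : M.Dep I := ⟨hno, hI⟩
    obtain ⟨C, hCI, hC⟩ := hdep.exists_isCircuit_subset
    have hIf : I.Finite := M.ground_finite.subset hI
    have h6 : ¬ C.ncard < l := fun h => h4 C ⟨hC, h⟩ hCI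
    have h7 : M.Spanning C := by
      by_contra hns
      exact h6 (h C hC hns)
    have h8 := (spanning_iff_rk hC.subset_ground).1 h7
    have h9 := circuit_rk hC
    have h10 := Set.ncard_le_ncard hCI hIf
    omega

end Pool.Agent.MP8f11b1
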