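import Pool.Agent.Lib.MP_8f11b1_co_AM.Rk

set_option autoImplicit false

namespace Pool.Agent.MP8f11b1

open Matroid

variable {α : Type}

/-- the number of the elements of `X` which are not coloops of `A ∪ X` -/
theorem col_count (R : Matroid α) [R.Finite] {l : ℕ} (hl : 1 ≤ l)
    (hc : ∀ C, R.IsCircuit C → C.ncard < l)
    {A X : Set α} (hX : R.Indep X) (hA : A ⊆ R.E) :
    {f | f ∈ X ∧ f ∈ R.closure ((A ∪ X) \ {f})}.ncard ≤ A.ncard * l := by
  classical
  have hEf : R.E.Finite := R.ground_finite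
  have hAf : A.Finite := hEf.subset hA
  obtain ⟨B, hB, hXB⟩ := hX.subset_isBasis_of_subset (X := A ∪ X) Set.subset_union_right
    (Set.union_subset hA hX.subset_ground)
  have hBi := hB.indep
  have hex : ∀ n : α, ∃ C : Set α, C.ncard ≤ l ∧ C.Finite ∧
      (n ∈ A \ B → R.IsCircuit C ∧ n ∈ C ∧ C ⊆ insert n B) := by
    intro n
    by_cases hn : n ∈ A \ B
    · have h1 : n ∈ R.closure B := hB.subset_closure (Or.inl hn.1)
      obtain ⟨C, hCB, hC, hnC⟩ := exists_isCircuit_of_mem_closure h1 hn.2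
      exact ⟨C, (hc C hC).le, hEf.subset hC.subset_ground, fun _ => ⟨hC, hnC, hCB⟩⟩
    · exact ⟨∅, by simp, Set.finite_empty, fun h => absurd h hn⟩
  choose C hCl hCf hC using hex
  let S : Finset α := hAf.toFinset.biUnion fun n => (hCf n).toFinset
  have hsub : {f | f ∈ X ∧ f ∈ R.closure ((A ∪ X) \ {f})} ⊆ (S : Set α) := by
    rintro f ⟨hfX, hf⟩
    by_contra hfS
    have hfS' : ∀ n ∈ A, f ∉ C n := by
      intro n hn hfn
      refine hfS (Finset.mem_coe.2 (Finset.mem_biUnion.2 ⟨n, ?_, ?_⟩))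
      · exact hAf.mem_toFinset.2 hn
      · exact (hCf n).mem_toFinset.2 hfn
    have h1 : (A ∪ X) \ {f} ⊆ R.closure (B \ {f}) := by
      rintro x ⟨hx, hxf⟩
      by_cases hxB : x ∈ B
      · exact R.mem_closure_of_mem ⟨hxB, hxf⟩ (Set.sdiff_subset.trans hBi.subset_ground)
      · have hxA : x ∈ A := hx.resolve_right fun h => hxB (hXB h)
        obtain ⟨h2, h3, h4⟩ := hC x ⟨hxA, hxB⟩
        refine R.closure_subset_closure ?_ (h2.mem_closure_sdiff_singleton_of_mem h3)
        rintro z ⟨hz, hzx⟩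
        rcases Set.mem_insert_iff.1 (h4 hz) with h5 | h5
        · exact absurd h5 hzx
        · exact ⟨h5, fun h6 => hfS' x hxA (h6 ▸ hz)⟩
    have h2 : f ∈ R.closure (B \ {f}) :=
      R.closure_subset_closure_of_subset_closure h1 hf
    exact hBi.notMem_closure_sdiff_of_mem (hXB hfX) h2
  have h1 : S.card ≤ hAf.toFinset.card * l := by
    refine Finset.card_biUnion_le_card_mul _ _ _ fun n _ => ?_
    rw [← Set.ncard_eq_toFinset_card _ (hCf n)]
    exact hCl n
  calc {f | f ∈ X ∧ f ∈ R.closure ((A ∪ X) \ {f})}.ncard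
      ≤ (S : Set α).ncard := Set.ncard_le_ncard hsub S.finite_toSet
    _ = S.card := Set.ncard_coe_finset S
    _ ≤ hAf.toFinset.card * l := h1
    _ = A.ncard * l := by rw [← Set.ncard_eq_toFinset_card _ hAf]

/-- an element in the closure of `Z \ {f}` for all `f` in a set `F` of coloops -/
theorem col_closure (R : Matroid α) [R.Finite] {Z F : Set α} (hZ : Z ⊆ R.E) (hF : F ⊆ Z)
    (hcol : ∀ f ∈ F, f ∉ R.closure (Z \ {f})) {y : α} (hy : y ∉ Z)
    (hyc : ∀ f ∈ F, y ∈ R.closure (Z \ {f})) (hne : F.Nonempty) :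
    y ∈ R.closure (Z \ F) := by
  obtain ⟨f₀, hf₀⟩ := hne
  have hyZ : y ∈ R.closure Z := R.closure_subset_closure Set.sdiff_subset (hyc f₀ hf₀)
  obtain ⟨C, hCZ, hC, hyC⟩ := exists_isCircuit_of_mem_closure hyZ hy
  have hCF : ∀ f ∈ F, f ∉ C := by
    intro f hfF hfC
    obtain ⟨C', hC'Z, hC', hyC'⟩ := exists_isCircuit_of_mem_closure (hyc f hfF)
      (fun h => hy h.1)
    have hfC' : f ∉ C' := by
      intro h
      rcases Set.mem_insert_iff.1 (hC'Z h) with h1 | h1
      · exact hy (h1 ▸ hF hfF)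
      · exact h1.2 rfl
    obtain ⟨K, hKs, hK, hfK⟩ := hC.strong_elimination hC' hyC hyC' hfC hfC'
    refine hcol f hfF (R.closure_subset_closure ?_ (hK.mem_closure_sdiff_singleton_of_mem hfK))
    rintro z ⟨hz, hzf⟩
    refine ⟨?_, hzf⟩
    have h1 := hKs hz
    rcases h1.1 with h2 | h2
    · exact (Set.mem_insert_iff.1 (hCZ h2)).resolve_left h1.2
    · exact ((Set.mem_insert_iff.1 (hC'Z h2)).resolve_left h1.2).1
  refine R.closure_subset_closure ?_ (hC.mem_closure_sdiff_singleton_of_mem hyC)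
  rintro z ⟨hz, hzy⟩
  exact ⟨(Set.mem_insert_iff.1 (hCZ hz)).resolve_left hzy, fun h => hCF z h hz⟩

end Pool.Agent.MP8f11b1
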