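import Pool.Agent.Lib.MP_8f11b1_co_AM.CircM
import Pool.Agent.Lib.MP_8f11b1_co_AM.RCol

set_option autoImplicit false

namespace Pool.Agent.MP8f11b1

open Matroid

variable {α : Type}

/-- the main step -/
theorem core4 (M : Matroid α) [M.Finite] {l : ℕ} (hl : 1 ≤ l) {A X Y D : Set α}
    (hE : A ∪ X ∪ Y = M.E) (hAX : Disjoint A X) (hY : Disjoint (A ∪ X) Y) (hX : M.Indep X)
    (hrk : rk M M.E ≤ A.ncard + X.ncard) (hr : 2 * l ≤ rk M M.E + 1)
    (hsm : ∀ C, M.IsCircuit C → ¬ M.Spanning C → C.ncard < l)
    (hD : M.IsCircuit D) (hDX : Disjoint D X) (hDc : D.ncard = rk M M.E + 1)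
    (hno : ∀ f ∈ X, ∀ y ∈ Y,
      ¬ ∀ I ⊆ A, M.Indep (I ∪ X) ↔ M.Indep (I ∪ insert y (X \ {f}))) :
    D.ncard ≤ A.ncard * (l + 1) + 1 := by
  classical
  obtain ⟨R, hRE, hRc, hRI⟩ := small_mat M hr hsm
  have hEf := M.ground_finite
  have hRf : R.Finite := ⟨by rw [hRE]; exact hEf⟩
  have hAE : A ⊆ M.E := by
    rw [← hE]; exact fun x hx => Or.inl (Or.inl hx)
  have hXE : X ⊆ M.E := hX.subset_ground
  have hYE : Y ⊆ M.E := by
    rw [← hE]; exact fun x hx => Or.inr hx
  have hAf := hEf.subset hAE
  have hXf := hEf.subset hXE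
  have hXR : R.Indep X := ((hRI X hXE).1 hX).1
  have hcnt := col_count R hl (fun C hC => (hRc C hC).2) hXR (A := A) (by rw [hRE]; exact hAE)
  set F : Set α := {f | f ∈ X ∧ f ∉ R.closure ((A ∪ X) \ {f})} with hF
  have hFX : F ⊆ X := fun f hf => hf.1
  have hXF : X \ F = {f | f ∈ X ∧ f ∈ R.closure ((A ∪ X) \ {f})} := by
    ext f
    constructor
    · rintro ⟨h1, h2⟩
      refine ⟨h1, ?_⟩
      by_contra h3
      exact h2 ⟨h1, h3⟩
    · rintro ⟨h1, h2⟩
      exact ⟨h1, fun h3 => h3.2 h2⟩
  rw [← hXF] at hcnt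
  have hmul : A.ncard * (l + 1) = A.ncard * l + A.ncard := by ring
  rcases Set.eq_empty_or_nonempty F with h0 | hne
  · rw [h0, Set.sdiff_empty] at hcnt
    omega
  · -- elements of `Y` are in the closures
    have hYcl : ∀ y ∈ Y, ∀ f ∈ F, y ∈ R.closure ((A ∪ X) \ {f}) := by
      intro y hy f hf
      by_contra hcl
      have hfX := hf.1
      have hfA : f ∉ A := fun h => Set.disjoint_left.1 hAX h hfX
      have hyAX : y ∉ A ∪ X := fun h => Set.disjoint_left.1 hY h hy
      have hyE := hYE hy
      refine hno f hfX y hy ?_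
      intro I hI
      have hIE := hI.trans hAE
      have hIf := hAf.subset hI
      have hIX : Disjoint I X := hAX.mono_left hI
      have hfI : f ∉ I := fun h => hfA (hI h)
      have hyI : y ∉ I := fun h => hyAX (Or.inl (hI h))
      have hyX : y ∉ X := fun h => hyAX (Or.inr h)
      have hyn : y ∉ I ∪ (X \ {f}) := by
        rintro (h | h)
        · exact hyI h
        · exact hyX h.1
      have e1 : I ∪ X = insert f (I ∪ (X \ {f})) := by
        ext x
        simp only [Set.mem_union, Set.mem_insert_iff, Set.mem_sdiff, Set.mem_singleton_iff]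
        constructor
        · rintro (h | h)
          · exact Or.inr (Or.inl h)
          · by_cases hxf : x = f
            · exact Or.inl hxf
            · exact Or.inr (Or.inr ⟨h, hxf⟩)
        · rintro (h | h | h)
          · rw [h]; exact Or.inr hfX
          · exact Or.inl h
          · exact Or.inr h.1
      have e2 : I ∪ insert y (X \ {f}) = insert y (I ∪ (X \ {f})) := by
        rw [Set.union_insert]
      have hfn : f ∉ I ∪ (X \ {f}) := by
        rintro (h | h)
        · exact hfI h
        · exact h.2 rfl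
      have hfin : (I ∪ (X \ {f})).Finite := hIf.union (hXf.subset Set.sdiff_subset)
      have c1 : (I ∪ X).ncard = (I ∪ (X \ {f})).ncard + 1 := by
        rw [e1, Set.ncard_insert_of_notMem hfn hfin]
      have c2 : (I ∪ insert y (X \ {f})).ncard = (I ∪ (X \ {f})).ncard + 1 := by
        rw [e2, Set.ncard_insert_of_notMem hyn hfin]
      have hsub : I ∪ (X \ {f}) ⊆ (A ∪ X) \ {f} := by
        rintro x (h | h)
        · exact ⟨Or.inl (hI h), fun hx => hfI (by rw [← Set.mem_singleton_iff.1 hx]; exact h)⟩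
        · exact ⟨Or.inr h.1, h.2⟩
      have hfc : f ∉ R.closure (I ∪ (X \ {f})) := fun h =>
        hf.2 (R.closure_subset_closure hsub h)
      have hyc : y ∉ R.closure (I ∪ (X \ {f})) := fun h =>
        hcl (R.closure_subset_closure hsub h)
      have i1 : R.Indep (I ∪ X) ↔ R.Indep (I ∪ (X \ {f})) := by
        rw [e1]
        refine ⟨fun h => h.subset (Set.subset_insert _ _), fun h => ?_⟩
        exact (h.notMem_closure_iff_of_notMem hfn (by rw [hRE]; exact hXE hfX)).1 hfc
      have i2 : R.Indep (I ∪ insert y (X \ {f})) ↔ R.Indep (I ∪ (X \ {f})) := by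
        rw [e2]
        refine ⟨fun h => h.subset (Set.subset_insert _ _), fun h => ?_⟩
        exact (h.notMem_closure_iff_of_notMem hyn (by rw [hRE]; exact hyE)).1 hyc
      rw [hRI _ (Set.union_subset hIE hXE), hRI _ (Set.union_subset hIE
        (Set.insert_subset hyE (Set.sdiff_subset.trans hXE))), i1, i2, c1, c2]
    have hZE : A ∪ X ⊆ R.E := by rw [hRE]; exact Set.union_subset hAE hXE
    have hDcl : D ⊆ R.closure ((A ∪ X) \ F) := by
      intro z hz
      have hzE := hD.subset_ground hz
      rw [← hE] at hzE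
      rcases hzE with (h | h) | h
      · refine R.mem_closure_of_mem ⟨Or.inl h, fun hzF => ?_⟩ (Set.sdiff_subset.trans hZE)
        exact Set.disjoint_left.1 hAX h (hFX hzF)
      · exact absurd h (fun h => Set.disjoint_left.1 hDX hz h)
      · refine col_closure R hZE (hFX.trans Set.subset_union_right) (fun f hf => hf.2)
          (fun h' => Set.disjoint_left.1 hY h' h) (fun f hf => hYcl z h f hf) hne
    have hDR : R.Indep D := by
      rw [Matroid.indep_iff_forall_subset_not_isCircuit (by rw [hRE]; exact hD.subset_ground)]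
      intro C hCD hC
      obtain ⟨h1, h2⟩ := hRc C hC
      have h3 : C = D := (hD.eq_of_superset_isCircuit h1 hCD).symm
      rw [h3] at h2
      omega
    have h1 := rk_le_of_subset_closure hDcl
    rw [rk_indep hDR] at h1
    have hfin2 : ((A ∪ X) \ F).Finite := (hAf.union hXf).subset Set.sdiff_subset
    have h2 := rk_le_ncard (M := R) hfin2
    have h3 : ((A ∪ X) \ F).ncard ≤ A.ncard + (X \ F).ncard := by
      refine (Set.ncard_le_ncard ?_ (hAf.union (hXf.subset Set.sdiff_subset))).trans
        (Set.ncard_union_le A (X \ F))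
      rintro x ⟨h | h, h'⟩
      · exact Or.inl h
      · exact Or.inr ⟨h, h'⟩
    omega

end Pool.Agent.MP8f11b1
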