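import Pool.Agent.Lib.MP_8f11b1_co_AM.Cir

set_option autoImplicit false

namespace Pool.Agent.MP8f11b1

open Matroid

variable {α : Type}

/-- a circuit which becomes a union of short circuits -/
theorem cover4 (M : Matroid α) [M.Finite] {C : Set α} {e : α} (hC : M.IsCircuit C)
    (he : M.Indep {e}) (heC : e ∉ C) (hcl : e ∈ M.closure C) {b : ℕ}
    (hmin : ∀ D ⊆ C, (M ／ {e}).IsCircuit D → D.ncard < b) : C.ncard + 2 ≤ 2 * b := by
  have heE : e ∈ M.E := he.subset_ground rfl
  have hCE := hC.subset_ground
  have hCf : C.Finite := M.ground_finite.subset hCE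
  have hdep : (M ／ {e}).Dep C := by
    rw [he.contract_dep_iff]
    exact ⟨Set.disjoint_singleton_right.2 heC, hC.dep.superset Set.subset_union_left
      (Set.union_subset hCE he.subset_ground)⟩
  obtain ⟨D₁, hD₁C, hD₁⟩ := hdep.exists_isCircuit_subset
  have hD₁b : D₁.ncard < b := hmin D₁ hD₁C hD₁
  have hD₁s : D₁ ⊂ C := by
    refine ⟨hD₁C, fun hCD => ?_⟩
    have hEq : D₁ = C := Set.Subset.antisymm hD₁C hCD
    rw [hEq] at hD₁
    obtain ⟨c, hc⟩ := hC.nonempty
    have h1 := hD₁.sdiff_singleton_indep hc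
    rw [he.contract_indep_iff, Set.union_singleton] at h1
    have h2 := hC.sdiff_singleton_indep hc
    have h3 := (h2.notMem_closure_iff_of_notMem (fun h => heC h.1) heE).2 h1.2
    rw [hC.closure_sdiff_singleton_eq c] at h3
    exact h3 hcl
  have heD₁ : e ∉ D₁ := fun h => heC (hD₁C h)
  -- circuits of the contraction that do not stay dependent
  have hcirc : ∀ D, (M ／ {e}).IsCircuit D → M.Indep D → e ∉ D → M.IsCircuit (insert e D) := by
    intro D hD hDi heD
    rw [Matroid.isCircuit_iff_dep_forall_sdiff_singleton_indep]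
    constructor
    · have := hD.dep
      rw [he.contract_dep_iff, Set.union_singleton] at this
      exact this.2
    · intro d hd
      rcases Set.mem_insert_iff.1 hd with rfl | hd
      · exact hDi.subset (by simp)
      · have h1 := hD.sdiff_singleton_indep hd
        rw [he.contract_indep_iff, Set.union_singleton] at h1
        refine h1.2.subset ?_
        rintro x ⟨hx, hxd⟩
        rcases Set.mem_insert_iff.1 hx with rfl | hx
        · exact Set.mem_insert _ _
        · exact Set.mem_insert_of_mem _ ⟨hx, hxd⟩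
  have hD₁M : M.IsCircuit (insert e D₁) := hcirc D₁ hD₁ (hC.ssubset_indep hD₁s) heD₁
  obtain ⟨c, hc⟩ := hD₁.nonempty
  have hcC : c ∈ C := hD₁C hc
  have hcI := hC.sdiff_singleton_indep hcC
  have hne : C ≠ insert e D₁ := by
    intro h
    apply heC
    rw [h]
    exact Set.mem_insert _ _
  obtain ⟨D, hDs, hD⟩ := hC.elimination hD₁M hne c
  have hDs' : D ⊆ insert e (C \ {c}) := by
    intro x hx
    have h1 := hDs hx
    rcases h1.1 with h2 | h2
    · exact Set.mem_insert_of_mem _ ⟨h2, h1.2⟩
    · rcases Set.mem_insert_iff.1 h2 with rfl | h2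
      · exact Set.mem_insert _ _
      · exact Set.mem_insert_of_mem _ ⟨hD₁C h2, h1.2⟩
  have heD : e ∈ D := by
    by_contra h
    apply hD.not_indep
    refine hcI.subset ?_
    intro x hx
    rcases Set.mem_insert_iff.1 (hDs' hx) with rfl | h2
    · exact absurd hx h
    · exact h2
  have hDC : D \ {e} ⊆ C := by
    rintro x ⟨hx, hxe⟩
    rcases Set.mem_insert_iff.1 (hDs' hx) with h | h
    · exact absurd h hxe
    · exact h.1
  have hD2c : (M ／ {e}).IsCircuit (D \ {e}) := AM.circ_con_mem hD he heD
  have hD2b : (D \ {e}).ncard < b := hmin _ hDC hD2c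
  have hcov : C ⊆ D₁ ∪ (D \ {e}) := by
    intro g hg
    by_contra hgn
    rw [Set.mem_union, not_or] at hgn
    have hgI := hC.sdiff_singleton_indep hg
    have hne2 : insert e D₁ ≠ D := by
      rintro rfl
      have h1 := hDs' (Set.mem_insert_of_mem _ hc)
      rcases Set.mem_insert_iff.1 h1 with rfl | h2
      · exact heD₁ hc
      · exact h2.2 rfl
    obtain ⟨K, hKs, hK⟩ := hD₁M.elimination hD hne2 e
    apply hK.not_indep
    refine hgI.subset ?_
    intro x hx
    have h1 := hKs hx
    have hxe : x ≠ e := fun h => h1.2 h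
    rcases h1.1 with h2 | h2
    · rcases Set.mem_insert_iff.1 h2 with h2 | h2
      · exact absurd h2 hxe
      · refine ⟨hD₁C h2, ?_⟩
        intro hxg
        rw [Set.mem_singleton_iff] at hxg
        rw [hxg] at h2
        exact hgn.1 h2
    · rcases Set.mem_insert_iff.1 (hDs' h2) with h3 | h3
      · exact absurd h3 hxe
      · refine ⟨h3.1, ?_⟩
        intro hxg
        rw [Set.mem_singleton_iff] at hxg
        rw [hxg] at h2 hxe
        exact hgn.2 ⟨h2, hxe⟩
  have hfin : (D₁ ∪ (D \ {e})).Finite := (hCf.subset hD₁C).union (hCf.subset hDC)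
  have h1 : C.ncard ≤ (D₁ ∪ (D \ {e})).ncard := Set.ncard_le_ncard hcov hfin
  have h2 := Set.ncard_union_le D₁ (D \ {e})
  omega

end Pool.Agent.MP8f11b1
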