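import Pool.Agent.Lib.MP_8f11b1_co_AM.FWDef
import Pool.Agent.Lib.MP_8f11b1_co_DU.FreeA

set_option autoImplicit false

namespace Pool.Agent.MP8f11b1

variable {L κ β : Type} [Field L] [Algebra (ZMod 2) L] [Fintype κ] [Finite β] {g s : ℕ}

private theorem FW3B_span (v : β → κ → ZMod 2) (X P : κ → ZMod 2) (gam : Fin g → ZZ L s)
    (C : Set (β ⊕ Fin g)) {u : κ → ZMod 2}
    (hu : u ∈ Submodule.span (ZMod 2) (v '' {z | Sum.inl z ∈ C})) :
    ((cst u, 0) : (κ → L) × (Fin s → L)) ∈ Submodule.span L (fB v X P gam '' C) := by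
  have h1 := (desc_span (L := L) u _).2 hu
  have h2 := Submodule.mem_map_of_mem (f := LinearMap.inl L (κ → L) (Fin s → L)) h1
  rw [Submodule.map_span] at h2
  refine Submodule.span_mono ?_ h2
  rintro _ ⟨_, ⟨_, ⟨z, hz, rfl⟩, rfl⟩, rfl⟩
  exact ⟨Sum.inl z, hz, rfl⟩

private def FW3B_lin (X P : κ → ZMod 2) (s : ℕ) :
    ZZ L s →ₗ[L] (κ → L) × (Fin s → L) where
  toFun x := (x.1 • cst X + x.2.1 • cst P, x.2.2)
  map_add' x y := by
    refine Prod.ext ?_ rfl
    simp only [Prod.fst_add, Prod.snd_add, add_smul]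
    abel
  map_smul' c x := by
    refine Prod.ext ?_ rfl
    simp only [Prod.smul_fst, Prod.smul_snd, smul_eq_mul, mul_smul, smul_add, RingHom.id_apply]

private theorem FW3B_gam (v : β → κ → ZMod 2) (X P : κ → ZMod 2) (gam : Fin g → ZZ L s)
    (T : Set (Fin g)) {x : ZZ L s} (hx : x ∈ Submodule.span L (gam '' T)) :
    ((x.1 • cst X + x.2.1 • cst P, x.2.2) : (κ → L) × (Fin s → L)) ∈
      Submodule.span L (fB v X P gam '' (Sum.inr '' T)) := by
  have h2 := Submodule.mem_map_of_mem (f := FW3B_lin X P s) hx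
  rw [Submodule.map_span] at h2
  refine Submodule.span_mono ?_ h2
  rintro _ ⟨_, ⟨c, hc, rfl⟩, rfl⟩
  exact ⟨Sum.inr c, ⟨c, hc, rfl⟩, rfl⟩

private theorem FW3B_eqK {v : β → κ → ZMod 2} {X P : κ → ZMod 2} {gam : Fin g → ZZ L s} {a : ℕ}
    {C E K : Set (β ⊕ Fin g)} (H : FreeW v X P gam a C E K) {B : Set (β ⊕ Fin g)} (hB : B ⊆ E)
    (hc : B.ncard ≤ a) (hd : ¬ LinearIndepOn L (fB v X P gam) (B ∪ C)) : B = K := by
  by_contra hne
  exact hd ((H.unif B hB).2 ⟨hc, hne⟩)

private theorem FW3B_aux {v : β → κ → ZMod 2} {X P : κ → ZMod 2} {gam : Fin g → ZZ L s} {a : ℕ}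
    {C E K : Set (β ⊕ Fin g)} (H : FreeW v X P gam a C E K)
    {z : β} (hz : Sum.inl z ∈ E) (T : Set (Fin g)) (h1 : ∀ c ∈ T, Sum.inr c ∈ E)
    (hT : T.ncard + 1 = a) {x ρ : κ → ZMod 2}
    (hx : ((cst x, 0) : (κ → L) × (Fin s → L)) ∈
      Submodule.span L (fB v X P gam '' (Sum.inr '' T)))
    (hρ : ρ ∈ Submodule.span (ZMod 2) (v '' {z | Sum.inl z ∈ C})) (hv : v z = x + ρ) :
    insert (Sum.inl z) (Sum.inr '' T) = K := by
  have hzC : Sum.inl z ∉ C := fun h => Set.disjoint_left.1 H.disj h hz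
  have hzn : (Sum.inl z : β ⊕ Fin g) ∉ Sum.inr '' T ∪ C := by
    rintro (⟨c, _, hc⟩ | h)
    · exact Sum.inr_ne_inl hc
    · exact hzC h
  have hB : insert (Sum.inl z) (Sum.inr '' T) ⊆ E := by
    rintro _ (rfl | ⟨c, hc, rfl⟩)
    · exact hz
    · exact h1 c hc
  have hcard : (insert (Sum.inl z) (Sum.inr '' T) : Set (β ⊕ Fin g)).ncard ≤ a := by
    refine (Set.ncard_insert_le _ _).trans ?_
    rw [Set.ncard_image_of_injective _ Sum.inr_injective]
    omega
  refine FW3B_eqK H hB hcard fun h2 => ?_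
  rw [Set.insert_union, linearIndepOn_insert hzn] at h2
  apply h2.2
  have h3 : fB v X P gam (Sum.inl z) = (cst x, 0) + ((cst ρ, 0) : (κ → L) × (Fin s → L)) := by
    change ((cst (v z), 0) : (κ → L) × (Fin s → L)) = _
    rw [hv, cst_add, Prod.mk_add_mk, add_zero]
  rw [h3]
  refine Submodule.add_mem _ (Submodule.span_mono (Set.image_mono Set.subset_union_left) hx)
    (Submodule.span_mono (Set.image_mono Set.subset_union_right) ?_)
  exact FW3B_span v X P gam C hρ

private theorem FW3B_cw {v : β → κ → ZMod 2} {X P : κ → ZMod 2} {gam : Fin g → ZZ L s} {a : ℕ}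
    {C E K : Set (β ⊕ Fin g)} (H : FreeW v X P gam a C E K) {CW : Set (Fin g)}
    (hCW : CW.ncard = a) (hdep : ¬ LinearIndepOn L gam CW) (h1 : ∀ c ∈ CW, Sum.inr c ∈ E) :
    Sum.inr '' CW = K := by
  refine FW3B_eqK H ?_ ?_ fun h2 => ?_
  · rintro _ ⟨c, hc, rfl⟩
    exact h1 c hc
  · rw [Set.ncard_image_of_injective _ Sum.inr_injective, hCW]
  · apply hdep
    have h3 : LinearIndepOn L (fB v X P gam) (Sum.inr '' CW) := h2.mono Set.subset_union_left
    have h4 : LinearIndepOn L (fB v X P gam ∘ Sum.inr) CW :=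
      h3.comp_of_image Sum.inr_injective.injOn
    have h5 : fB v X P gam ∘ Sum.inr = ⇑(FW3B_lin (L := L) X P s) ∘ gam := rfl
    rw [h5] at h4
    exact LinearIndependent.of_comp _ h4

private theorem FW3B_z2 : ∀ x : ZMod 2, x = 0 ∨ x = 1 := by decide

private theorem FW3B_cls0 : ∀ p q r : ZMod 2 × ZMod 2, p ≠ 0 → q ≠ 0 → r ≠ 0 → p ≠ q →
    p ≠ r → q ≠ r → p = (1, 0) ∨ q = (1, 0) ∨ r = (1, 0) := by
  rintro ⟨p1, p2⟩ ⟨q1, q2⟩ ⟨r1, r2⟩ h1 h2 h3 h4 h5 h6
  rcases FW3B_z2 p1 with rfl | rfl <;> rcases FW3B_z2 p2 with rfl | rfl <;>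
    rcases FW3B_z2 q1 with rfl | rfl <;> rcases FW3B_z2 q2 with rfl | rfl <;>
    rcases FW3B_z2 r1 with rfl | rfl <;> rcases FW3B_z2 r2 with rfl | rfl <;>
    first
    | exact absurd rfl h1 | exact absurd rfl h2 | exact absurd rfl h3
    | exact absurd rfl h4 | exact absurd rfl h5 | exact absurd rfl h6
    | exact Or.inl rfl | exact Or.inr (Or.inl rfl) | exact Or.inr (Or.inr rfl)

private theorem FW3B_cls1 : ∀ p q r : ZMod 2 × ZMod 2, p ≠ 0 → q ≠ 0 → r ≠ 0 → p ≠ q →
    p ≠ r → q ≠ r → p = (1, 1) ∨ q = (1, 1) ∨ r = (1, 1) := by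
  rintro ⟨p1, p2⟩ ⟨q1, q2⟩ ⟨r1, r2⟩ h1 h2 h3 h4 h5 h6
  rcases FW3B_z2 p1 with rfl | rfl <;> rcases FW3B_z2 p2 with rfl | rfl <;>
    rcases FW3B_z2 q1 with rfl | rfl <;> rcases FW3B_z2 q2 with rfl | rfl <;>
    rcases FW3B_z2 r1 with rfl | rfl <;> rcases FW3B_z2 r2 with rfl | rfl <;>
    first
    | exact absurd rfl h1 | exact absurd rfl h2 | exact absurd rfl h3
    | exact absurd rfl h4 | exact absurd rfl h5 | exact absurd rfl h6
    | exact Or.inl rfl | exact Or.inr (Or.inl rfl) | exact Or.inr (Or.inr rfl)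

theorem freeW_B {v : β → κ → ZMod 2} {X P : κ → ZMod 2} {gam : Fin g → ZZ L s} {a b : ℕ}
    {C E K : Set (β ⊕ Fin g)} (H : FreeW v X P gam a C E K) (ha : 3 ≤ a)
    (hE : E.ncard = b) (hg : g + 2 = b) (T₀ T₁ CW : Set (Fin g))
    (hT₀ : T₀.ncard + 1 = a) (hT₁ : T₁.ncard + 1 = a) (hCW : CW.ncard = a)
    (hdep : ¬ LinearIndepOn L gam CW) (hdis : T₀ ∩ T₁ ∩ CW = ∅)
    (hX : ((1, 0, 0) : ZZ L s) ∈ Submodule.span L (gam '' T₀))
    (hXP : ((1, 1, 0) : ZZ L s) ∈ Submodule.span L (gam '' T₁))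
    (hC : ∀ c, Sum.inr c ∉ C) (h2 : ∀ e ∈ K, ((E \ {e}) ∩ Set.range Sum.inl).ncard ≤ 2)
    (h4 : BB L κ s ≤ LL s X P ⊔ SC v X P gam C) : False := by
  have hdesc : ∀ z, ∃ a' b' : ZMod 2, ∃ ρ ∈ Submodule.span (ZMod 2) (v '' {z | Sum.inl z ∈ C}),
      v z = a' • X + b' • P + ρ := by
    intro z
    have e1 : ((cst (v z), 0) : (κ → L) × (Fin s → L)) ∈ BB L κ s := by
      unfold BB
      rw [LinearMap.mem_ker]
      rfl
    have e2 := h4 e1
    have e3 : LL s X P ⊔ SC v X P gam C ≤ (Submodule.span L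
        (cst '' ({X, P} ∪ v '' {z | Sum.inl z ∈ C}))).comap
          (LinearMap.fst L (κ → L) (Fin s → L)) := by
      refine sup_le ?_ ?_
      · unfold LL
        rw [Submodule.span_le]
        rintro _ (rfl | rfl)
        · exact Submodule.subset_span ⟨X, Or.inl (by simp), rfl⟩
        · exact Submodule.subset_span ⟨P, Or.inl (by simp), rfl⟩
      · unfold SC
        rw [Submodule.span_le]
        rintro _ ⟨z' | c, hz', rfl⟩
        · exact Submodule.subset_span ⟨v z', Or.inr ⟨z', hz', rfl⟩, rfl⟩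
        · exact absurd hz' (hC c)
    have e4 : (cst (v z) : κ → L) ∈ Submodule.span L
        (cst '' ({X, P} ∪ v '' {z | Sum.inl z ∈ C})) := e3 e2
    have e5 := (desc_span (v z) _).1 e4
    rw [Submodule.span_union, Submodule.mem_sup] at e5
    obtain ⟨u, hu, ρ, hρ, huρ⟩ := e5
    obtain ⟨a', b', hab⟩ := Submodule.mem_span_pair.1 hu
    exact ⟨a', b', ρ, hρ, by rw [hab, huρ]⟩
  choose a' b' ρ hρ hv using hdesc
  have hX' := FW3B_gam v X P gam T₀ hX
  have hXP' := FW3B_gam v X P gam T₁ hXP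
  simp only [one_smul, zero_smul, add_zero] at hX' hXP'
  rw [← cst_add] at hXP'
  -- the class of an element is not zero
  have hne : ∀ z, Sum.inl z ∈ E → (a' z, b' z) ≠ 0 := by
    intro z hz h0
    have ha0 : a' z = 0 := congrArg Prod.fst h0
    have hb0 : b' z = 0 := congrArg Prod.snd h0
    have hvz := hv z
    rw [ha0, hb0, zero_smul, zero_smul, zero_add, zero_add] at hvz
    have hzC : Sum.inl z ∉ C := fun h => Set.disjoint_left.1 H.disj h hz
    have e1 : ({Sum.inl z} : Set (β ⊕ Fin g)) = K := by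
      refine FW3B_eqK H (Set.singleton_subset_iff.2 hz) ?_ fun e1 => ?_
      · rw [Set.ncard_singleton]
        omega
      · rw [Set.singleton_union, linearIndepOn_insert hzC] at e1
        apply e1.2
        have := FW3B_span (L := L) v X P gam C (hρ z)
        rw [← hvz] at this
        exact this
    have e2 := H.card
    rw [← e1, Set.ncard_singleton] at e2
    omega
  -- the classes are different
  have hdiff : ∀ z1 z2, Sum.inl z1 ∈ E → Sum.inl z2 ∈ E → z1 ≠ z2 →
      (a' z1, b' z1) ≠ (a' z2, b' z2) := by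
    intro z1 z2 hz1 hz2 h12 h0
    have ha0 : a' z1 = a' z2 := congrArg Prod.fst h0
    have hb0 : b' z1 = b' z2 := congrArg Prod.snd h0
    have hinl : (Sum.inl z1 : β ⊕ Fin g) ≠ Sum.inl z2 := fun h => h12 (Sum.inl_injective h)
    have hzC : (Sum.inl z1 : β ⊕ Fin g) ∉ insert (Sum.inl z2) C := by
      rintro (h | h)
      · exact hinl h
      · exact Set.disjoint_left.1 H.disj h hz1
    have e1 : ({Sum.inl z1, Sum.inl z2} : Set (β ⊕ Fin g)) = K := by
      refine FW3B_eqK H ?_ ?_ fun e1 => ?_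
      · rintro _ (rfl | rfl)
        · exact hz1
        · exact hz2
      · rw [Set.ncard_pair hinl]
        omega
      · have e2 : ({Sum.inl z1, Sum.inl z2} : Set (β ⊕ Fin g)) ∪ C =
            insert (Sum.inl z1) (insert (Sum.inl z2) C) := by
          rw [Set.insert_union, Set.singleton_union]
        rw [e2, linearIndepOn_insert hzC] at e1
        apply e1.2
        have e3 : v z1 = v z2 + (ρ z1 - ρ z2) := by
          rw [hv z1, hv z2, ha0, hb0]
          abel
        have e4 : v z1 ∈ Submodule.span (ZMod 2)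
            (v '' {z | Sum.inl z ∈ insert (Sum.inl z2) C}) := by
          rw [e3]
          have e5 : (v '' {z | Sum.inl z ∈ C}) ⊆ v '' {z | Sum.inl z ∈ insert (Sum.inl z2) C} :=
            Set.image_mono fun z hz => Or.inr hz
          refine Submodule.add_mem _ (Submodule.subset_span ⟨z2, Or.inl rfl, rfl⟩)
            (Submodule.sub_mem _ (Submodule.span_mono e5 (hρ z1)) (Submodule.span_mono e5 (hρ z2)))
        exact FW3B_span v X P gam _ e4
    have e2 := H.card
    rw [← e1, Set.ncard_pair hinl] at e2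
    omega
  have h10 : ∀ z, Sum.inl z ∈ E → (a' z, b' z) = (1, 0) → (∀ c ∈ T₀, Sum.inr c ∈ E) →
      insert (Sum.inl z) (Sum.inr '' T₀) = K := by
    intro z hz h0 hT
    have ha0 : a' z = 1 := congrArg Prod.fst h0
    have hb0 : b' z = 0 := congrArg Prod.snd h0
    refine FW3B_aux H hz T₀ hT hT₀ hX' (hρ z) ?_
    have := hv z
    rw [ha0, hb0, one_smul, zero_smul, add_zero] at this
    exact this
  have h11 : ∀ z, Sum.inl z ∈ E → (a' z, b' z) = (1, 1) → (∀ c ∈ T₁, Sum.inr c ∈ E) →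
      insert (Sum.inl z) (Sum.inr '' T₁) = K := by
    intro z hz h0 hT
    have ha0 : a' z = 1 := congrArg Prod.fst h0
    have hb0 : b' z = 1 := congrArg Prod.snd h0
    refine FW3B_aux H hz T₁ hT hT₁ hXP' (hρ z) ?_
    have := hv z
    rw [ha0, hb0, one_smul, one_smul] at this
    exact this
  -- counting
  have hfin : ∀ S : Set (β ⊕ Fin g), S.Finite := fun S => Set.toFinite S
  have hsum : (E ∩ Set.range Sum.inl).ncard + (E ∩ Set.range Sum.inr).ncard = b := by
    rw [← Set.ncard_union_eq _ (hfin _) (hfin _), ← Set.inter_union_distrib_left,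
      Set.range_inl_union_range_inr, Set.inter_univ, hE]
    rw [Set.disjoint_left]
    rintro _ ⟨_, z, rfl⟩ ⟨_, c, hc⟩
    exact Sum.inr_ne_inl hc
  have hr : (Set.range (Sum.inr : Fin g → β ⊕ Fin g)).ncard = g := by
    rw [← Set.image_univ, Set.ncard_image_of_injective _ Sum.inr_injective, Set.ncard_univ,
      Nat.card_eq_fintype_card, Fintype.card_fin]
  have hle : (E ∩ Set.range Sum.inr).ncard ≤ g := by
    have := Set.ncard_le_ncard (Set.inter_subset_right : E ∩ Set.range Sum.inr ⊆ _) (hfin _)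
    omega
  have hKne : K.Nonempty := by
    rw [← Set.ncard_pos (hfin _), H.card]
    omega
  by_cases hk : (E ∩ Set.range Sum.inl).ncard = 2
  · -- two elements of the rich part
    have hall : ∀ c, Sum.inr c ∈ E := by
      intro c
      have e1 : E ∩ Set.range Sum.inr = Set.range (Sum.inr : Fin g → β ⊕ Fin g) :=
        Set.eq_of_subset_of_ncard_le Set.inter_subset_right (by omega) (hfin _)
      have e2 : (Sum.inr c : β ⊕ Fin g) ∈ E ∩ Set.range Sum.inr := by
        rw [e1]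
        exact ⟨c, rfl⟩
      exact e2.1
    have hK := FW3B_cw H hCW hdep fun c _ => hall c
    have hnK : ∀ z T, insert (Sum.inl z) (Sum.inr '' T) ≠ K := by
      intro z T h
      have h1 : (Sum.inl z : β ⊕ Fin g) ∈ K := by
        rw [← h]
        exact Set.mem_insert _ _
      rw [← hK] at h1
      obtain ⟨c, _, hc⟩ := h1
      exact Sum.inr_ne_inl hc
    obtain ⟨x1, x2, hx12, hx⟩ := Set.ncard_eq_two.1 hk
    have hx1 : x1 ∈ E ∩ Set.range Sum.inl := by rw [hx]; simp
    have hx2 : x2 ∈ E ∩ Set.range Sum.inl := by rw [hx]; simp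
    obtain ⟨hz1, z1, rfl⟩ := hx1
    obtain ⟨hz2, z2, rfl⟩ := hx2
    have hc : ∀ p : ZMod 2 × ZMod 2, p ≠ 0 → p ≠ (1, 0) → p ≠ (1, 1) → p = (0, 1) := by decide
    have hkey : ∀ z, Sum.inl z ∈ E → (a' z, b' z) = (0, 1) := fun z hz =>
      hc _ (hne z hz) (fun h => hnK z T₀ (h10 z hz h fun c _ => hall c))
        (fun h => hnK z T₁ (h11 z hz h fun c _ => hall c))
    refine hdiff z1 z2 hz1 hz2 (fun h => hx12 (by rw [h])) ?_
    rw [hkey z1 hz1, hkey z2 hz2]
  · -- three elements of the rich part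
    have hk3 : 3 ≤ (E ∩ Set.range Sum.inl).ncard := by omega
    have hKl : K ⊆ E ∩ Set.range Sum.inl := by
      intro e he
      refine ⟨H.sub he, ?_⟩
      by_contra hcon
      have e1 := h2 e he
      have e2 : (E \ {e}) ∩ Set.range Sum.inl = E ∩ Set.range Sum.inl := by
        ext x
        constructor
        · rintro ⟨⟨h, _⟩, h'⟩
          exact ⟨h, h'⟩
        · rintro ⟨h, h'⟩
          refine ⟨⟨h, ?_⟩, h'⟩
          rintro rfl
          exact hcon h'
      rw [e2] at e1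
      omega
    have hk3' : (E ∩ Set.range Sum.inl).ncard = 3 := by
      obtain ⟨e, he⟩ := hKne
      have e1 := h2 e he
      have e2 : E ∩ Set.range Sum.inl ⊆ insert e ((E \ {e}) ∩ Set.range Sum.inl) := by
        rintro x ⟨h, h'⟩
        by_cases hx : x = e
        · exact Or.inl hx
        · exact Or.inr ⟨⟨h, hx⟩, h'⟩
      have e3 := (Set.ncard_le_ncard e2 (hfin _)).trans (Set.ncard_insert_le _ _)
      omega
    have hKe : K = E ∩ Set.range Sum.inl := by
      refine Set.eq_of_subset_of_ncard_le hKl ?_ (hfin _)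
      rw [hk3', H.card]
      exact ha
    have hmiss : {c : Fin g | Sum.inr c ∉ E}.ncard = 1 := by
      have e1 : (Sum.inr '' {c : Fin g | Sum.inr c ∉ E} : Set (β ⊕ Fin g)) =
          Set.range Sum.inr \ (E ∩ Set.range Sum.inr) := by
        ext x
        constructor
        · rintro ⟨c, hc, rfl⟩
          exact ⟨⟨c, rfl⟩, fun h => hc h.1⟩
        · rintro ⟨⟨c, rfl⟩, h⟩
          exact ⟨c, fun h' => h ⟨h', c, rfl⟩, rfl⟩
      have e2 := Set.ncard_image_of_injective {c : Fin g | (Sum.inr c : β ⊕ Fin g) ∉ E}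
        (Sum.inr_injective (α := β))
      rw [e1, Set.ncard_sdiff Set.inter_subset_right (hfin _), hr] at e2
      omega
    obtain ⟨c0, hc0⟩ := Set.ncard_eq_one.1 hmiss
    have hc0' : ∀ c : Fin g, Sum.inr c ∉ E → c = c0 := by
      intro c hc
      have : c ∈ {c : Fin g | Sum.inr c ∉ E} := hc
      rw [hc0] at this
      exact this
    have hKinr : ∀ c, Sum.inr c ∉ K := by
      intro c hc
      obtain ⟨_, z, hz⟩ := hKl hc
      exact Sum.inr_ne_inl hz.symm
    have hcw : c0 ∈ CW := by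
      by_contra hcon
      have e1 := FW3B_cw H hCW hdep fun c hc => by
        by_contra h
        rw [hc0' c h] at hc
        exact hcon hc
      have e2 : CW.Nonempty := by
        rw [← Set.ncard_pos (Set.toFinite _), hCW]
        omega
      obtain ⟨c, hc⟩ := e2
      exact hKinr c (by rw [← e1]; exact ⟨c, hc, rfl⟩)
    obtain ⟨x1, x2, x3, hx12, hx13, hx23, hx⟩ := Set.ncard_eq_three.1 hk3'
    have hx1 : x1 ∈ E ∩ Set.range Sum.inl := by rw [hx]; simp
    have hx2 : x2 ∈ E ∩ Set.range Sum.inl := by rw [hx]; simp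
    have hx3 : x3 ∈ E ∩ Set.range Sum.inl := by rw [hx]; simp
    obtain ⟨hz1, z1, rfl⟩ := hx1
    obtain ⟨hz2, z2, rfl⟩ := hx2
    obtain ⟨hz3, z3, rfl⟩ := hx3
    have d12 := hdiff z1 z2 hz1 hz2 (fun h => hx12 (by rw [h]))
    have d13 := hdiff z1 z3 hz1 hz3 (fun h => hx13 (by rw [h]))
    have d23 := hdiff z2 z3 hz2 hz3 (fun h => hx23 (by rw [h]))
    have hcls0 := FW3B_cls0 _ _ _ (hne z1 hz1) (hne z2 hz2) (hne z3 hz3) d12 d13 d23
    have hcls1 := FW3B_cls1 _ _ _ (hne z1 hz1) (hne z2 hz2) (hne z3 hz3) d12 d13 d23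
    have hz10 : ∃ z, Sum.inl z ∈ E ∧ (a' z, b' z) = (1, 0) := by
      rcases hcls0 with h | h | h
      · exact ⟨z1, hz1, h⟩
      · exact ⟨z2, hz2, h⟩
      · exact ⟨z3, hz3, h⟩
    have hz11 : ∃ z, Sum.inl z ∈ E ∧ (a' z, b' z) = (1, 1) := by
      rcases hcls1 with h | h | h
      · exact ⟨z1, hz1, h⟩
      · exact ⟨z2, hz2, h⟩
      · exact ⟨z3, hz3, h⟩
    have hT0 : c0 ∈ T₀ := by
      by_contra hcon
      obtain ⟨z, hz, hcl⟩ := hz10
      have e1 := h10 z hz hcl fun c hc => by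
        by_contra h
        rw [hc0' c h] at hc
        exact hcon hc
      have e2 : T₀.Nonempty := by
        rw [← Set.ncard_pos (Set.toFinite _)]
        omega
      obtain ⟨c, hc⟩ := e2
      exact hKinr c (by rw [← e1]; exact Or.inr ⟨c, hc, rfl⟩)
    have hT1 : c0 ∈ T₁ := by
      by_contra hcon
      obtain ⟨z, hz, hcl⟩ := hz11
      have e1 := h11 z hz hcl fun c hc => by
        by_contra h
        rw [hc0' c h] at hc
        exact hcon hc
      have e2 : T₁.Nonempty := by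
        rw [← Set.ncard_pos (Set.toFinite _)]
        omega
      obtain ⟨c, hc⟩ := e2
      exact hKinr c (by rw [← e1]; exact Or.inr ⟨c, hc, rfl⟩)
    have : c0 ∈ T₀ ∩ T₁ ∩ CW := ⟨⟨hT0, hT1⟩, hcw⟩
    rw [hdis] at this
    exact this

end Pool.Agent.MP8f11b1
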