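import Pool.Agent.Lib.MP_8f11b1_co_AM.Defs

set_option autoImplicit false

namespace Pool.Agent.MP8f11b1

variable {L : Type} [Field L] [Algebra (ZMod 2) L] {g s : ℕ}

/-- After the contraction of `C` the dependent sets of the elements of `E` are the sets with
more than `a` elements and the set `K`. -/
structure FreeW {κ β : Type} [Fintype κ] (v : β → κ → ZMod 2) (X P : κ → ZMod 2)
    (gam : Fin g → ZZ L s) (a : ℕ) (C E K : Set (β ⊕ Fin g)) : Prop where
  xne : X ≠ 0
  pne : P ≠ 0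
  xp : X ≠ P
  ind : LinearIndepOn L (fB v X P gam) C
  disj : Disjoint C E
  rk : C.ncard + a = Fintype.card κ + s
  sub : K ⊆ E
  card : K.ncard = a
  unif : ∀ B ⊆ E, LinearIndepOn L (fB v X P gam) (B ∪ C) ↔ B.ncard ≤ a ∧ B ≠ K

theorem FreeW.erase {κ β : Type} [Fintype κ] {v : β → κ → ZMod 2} {X P : κ → ZMod 2}
    {gam : Fin g → ZZ L s} {a : ℕ} {C E K : Set (β ⊕ Fin g)} (H : FreeW v X P gam a C E K)
    {e : β ⊕ Fin g} (he : e ∈ K) : FreeHyp v X P gam a C (E \ {e}) where
  xne := H.xne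
  pne := H.pne
  xp := H.xp
  ind := H.ind
  disj := H.disj.mono_right Set.sdiff_subset
  rk := H.rk
  unif := by
    intro B hB
    rw [H.unif B (hB.trans Set.sdiff_subset)]
    refine ⟨fun h => h.1, fun h => ⟨h, ?_⟩⟩
    rintro rfl
    exact (hB he).2 rfl

end Pool.Agent.MP8f11b1
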