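import Pool.Agent.Lib.MP_8f11b1_co_AM.M5D

set_option autoImplicit false

namespace Pool.Agent.MP8f11b1

open Matroid

variable {α : Type}

/-- the size in the connected case -/
theorem conn_size {M N : Matroid α} [M.Finite] {X Y : Set α} (H : Min5 M N X Y) :
    M.E.ncard ≤ 2 * N.E.ncard + 4 := by
  haveI : M✶.Finite := ⟨by rw [Matroid.dual_ground]; exact M.ground_finite⟩
  obtain ⟨f1, f2, f3, f4, f5, f6, f7⟩ := min5_facts H
  have h1 := conn_bound H
  have h2 := conn_bound (min5_dual H)
  rw [Matroid.dual_ground] at h2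
  omega

theorem star_bound (M N : Matroid α) [M.Finite] (h : MinStar M N) :
    M.E.ncard ≤ 2 * N.E.ncard + 4 := by
  obtain ⟨S, hS, hES, hst, hc⟩ := star_comp M N h
  have h1 := star_reduce M N h hS hES hst
  haveI : (M ↾ S).Finite := ⟨M.ground_finite.subset (by
    rw [Matroid.restrict_ground_eq]; exact hS.1)⟩
  obtain ⟨X, Y, H⟩ := min5_of _ _ h1 hc
  have h2 := conn_size H
  rw [Matroid.restrict_ground_eq, Matroid.restrict_ground_eq] at h2
  have hNE : N.E ⊆ M.E := h.2.1.subset
  have hEf := M.ground_finite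
  have h3 : M.E = S ∪ (N.E \ S) := by
    ext x
    constructor
    · intro hx
      by_cases hxS : x ∈ S
      · exact Or.inl hxS
      · right
        refine ⟨?_, hxS⟩
        by_contra hxN
        exact hxS (hES ⟨hx, hxN⟩)
    · rintro (hx | hx)
      · exact hS.1 hx
      · exact hNE hx.1
  have h4 : M.E.ncard ≤ S.ncard + (N.E \ S).ncard := by
    conv_lhs => rw [h3]
    exact Set.ncard_union_le _ _
  have h5 : (N.E ∩ S).ncard + (N.E \ S).ncard = N.E.ncard :=
    Set.ncard_inter_add_ncard_sdiff_eq_ncard _ _ (hEf.subset hNE)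
  omega

end Pool.Agent.MP8f11b1
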