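import Pool.Agent.Lib.MP_8f11b1_co_AM.NsB
import Pool.Agent.Lib.MP_8f11b1_co_AM.StB
import Pool.Agent.Lib.MP_8f11b1_co_DU.FinX

set_option autoImplicit false

namespace Pool.Agent.MP8f11b1

open Matroid

/-- For every `N` the excluded minors of `Ex U ∪ Ex N` have at most `4 (|U| + 1) (|N| + 1)`
elements. -/
def FinC {α : Type} (U : Matroid α) : Prop :=
  ∀ (γ : Type) (N : Matroid γ), N.Finite → ∀ (δ : Type) (M : Matroid δ),
    IsExcludedMinor (Union (Ex U) (Ex N)) M →
      M.E.ncard ≤ 4 * (U.E.ncard + 1) * (N.E.ncard + 1)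

theorem finC_of_finB {α : Type} {U : Matroid α} (h : FinB U) : FinC U := by
  intro γ N hN δ M hM
  have h1 := h γ N hN δ M hM
  nlinarith [Nat.zero_le (U.E.ncard * N.E.ncard)]

theorem finC_dual {α : Type} (U : Matroid α) (h : FinC U✶) : FinC U := by
  intro γ N hN δ M hM
  have := h γ N✶ ⟨by rw [Matroid.dual_ground]; exact hN.ground_finite⟩ δ M✶
    (excluded_dual U N M hM)
  rwa [Matroid.dual_ground, Matroid.dual_ground, Matroid.dual_ground] at this

theorem nsc_iff {α β : Type} (M : Matroid α) [M.Finite] {l : ℕ} (hl : 1 ≤ l) (U : Matroid β)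
    (hU : IsW l (l + 1) U) : (∃ M' : Matroid α, M'.IsMinor M ∧ Iso M' U) ↔ Nsc l M := by
  constructor
  · rintro ⟨M', hm, hi⟩
    exact nsc_of_minor M hl hm (isW_of_iso hi hU)
  · intro h
    obtain ⟨M', hm, hW⟩ := nsc_minor M hl h
    exact ⟨M', hm, iso_of_isW hW hU⟩

theorem star_iff {α β : Type} (M : Matroid α) [M.Finite] (U : Matroid β) (hU : IsW 2 4 U) :
    (∃ M' : Matroid α, M'.IsMinor M ∧ Iso M' U) ↔ Star M := by
  constructor
  · rintro ⟨M', hm, hi⟩
    exact star_of_minor M hm (isW_of_iso hi hU)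
  · intro h
    obtain ⟨M', hm, hW⟩ := star_minor M h
    exact ⟨M', hm, iso_of_isW hW hU⟩

/-- a circuit and a coloop -/
theorem finC_nsc {l : ℕ} (hl : 1 ≤ l) {α : Type} (U : Matroid α) (hU : IsW l (l + 1) U) :
    FinC U := by
  intro γ N hN δ M hM
  obtain ⟨hf, h1, N', hN', hi, hmin⟩ := excluded_unfold U N M hM
  have hMf : M.Finite := hf
  rw [nsc_iff M hl U hU] at h1
  rw [← iso_ncard hi, hU.2.1]
  have h2 := nsc_bound M N' hl hN' h1 (by
    intro M' hM' hne hNM
    have hM'f : M'.Finite := ⟨hf.ground_finite.subset hM'.subset⟩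
    rw [← nsc_iff M' hl U hU]
    exact hmin M' hM' hne hNM)
  have h3 : N'.E.ncard + 2 * ((N'.E.ncard + 2) * (l + 1)) =
      2 * (l * N'.E.ncard) + 3 * N'.E.ncard + 4 * l + 4 := by ring
  have h4 : 4 * (l + 1 + 1) * (N'.E.ncard + 1) =
      4 * (l * N'.E.ncard) + 8 * N'.E.ncard + 4 * l + 8 := by ring
  rw [h3] at h2
  rw [h4]
  have := Nat.zero_le (l * N'.E.ncard)
  omega

/-- the matroid of rank two on four elements with one parallel pair -/
theorem finC_star {α : Type} (U : Matroid α) (hU : IsW 2 4 U) : FinC U := by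
  intro γ N hN δ M hM
  obtain ⟨hf, h1, N', hN', hi, hmin⟩ := excluded_unfold U N M hM
  have hMf : M.Finite := hf
  rw [star_iff M U hU] at h1
  rw [← iso_ncard hi, hU.2.1]
  have h2 := star_bound M N' ⟨h1, hN', by
    intro M' hM' hne hNM
    have hM'f : M'.Finite := ⟨hf.ground_finite.subset hM'.subset⟩
    rw [← star_iff M' U hU]
    exact hmin M' hM' hne hNM⟩
  omega

/-- the good matroids `W_{a,b}` -/
theorem finC_W {a b : ℕ} (ha : 1 ≤ a) (hab : a < b) (h : a = 1 ∨ b = a + 1 ∨ (a = 2 ∧ b = 4))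
    {α : Type} (U : Matroid α) (hU : IsW a b U) : FinC U := by
  rcases h with rfl | rfl | ⟨rfl, rfl⟩
  · refine finC_dual U ?_
    have h1 := hU.dual hab
    have h2 : b = (b - 1) + 1 := by omega
    have h3 : IsW (b - 1) (b - 1 + 1) U✶ := by rwa [← h2]
    exact finC_nsc (by omega) _ h3
  · exact finC_nsc ha U hU
  · exact finC_star U hU

end Pool.Agent.MP8f11b1
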