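import Pool.Agent.Lib.MP_8f11b1_co_AM.CB

set_option autoImplicit false

namespace Pool.Agent.MP8f11b1

open Matroid

variable {α : Type}

private theorem M5D_minor {M M' : Matroid α} (h : M'.IsMinor M) : (M'✶).IsMinor M✶ := by
  obtain ⟨C, D, -, -, hd, rfl⟩ := h.exists_eq_contract_delete_disjoint
  rw [Matroid.dual_contract_delete, ← Matroid.contract_delete_comm _ hd.symm]
  exact Matroid.contract_delete_isMinor _ _ _

private theorem M5D_minor' {M M' : Matroid α} (h : (M'✶).IsMinor M✶) : M'.IsMinor M := by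
  have := M5D_minor h
  rwa [Matroid.dual_dual, Matroid.dual_dual] at this

/-- duality -/
theorem min5_dual {M N : Matroid α} [M.Finite] {X Y : Set α} (H : Min5 M N X Y) :
    Min5 M✶ N✶ Y X := by
  have hE := Set.ext_iff.1 H.hE
  have hXN : ∀ x ∈ X, x ∈ M.E ∧ x ∉ N.E := fun x hx => (hE x).1 (Or.inl hx)
  have hYN : ∀ x ∈ Y, x ∈ M.E ∧ x ∉ N.E := fun x hx => (hE x).1 (Or.inr hx)
  have hdXN : Disjoint X N.E := Set.disjoint_left.2 fun x hx => (hXN x hx).2
  have hdXY := Set.disjoint_left.1 H.disj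
  have hY : Y = M.E \ (X ∪ N.E) := by
    ext x
    constructor
    · intro hx
      exact ⟨(hYN x hx).1, fun h => h.elim (fun h => hdXY h hx) (hYN x hx).2⟩
    · rintro ⟨hx1, hx2⟩
      rcases (hE x).2 ⟨hx1, fun h => hx2 (Or.inr h)⟩ with h | h
      · exact absurd (Or.inl h) hx2
      · exact h
  have hN : N = M ／ X ＼ Y := by
    rw [hY]
    exact AM.eq_of_indep H.indX hdXN H.hNE H.ind
  have hN' : N✶ = M✶ ／ Y ＼ X := by
    rw [Matroid.contract_delete_comm _ H.disj.symm, ← Matroid.dual_contract_delete, ← hN]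
  have hYi : M✶.Indep Y := by
    obtain ⟨B, hB⟩ := N.exists_isBase
    rw [Matroid.dual_indep_iff_exists']
    refine ⟨fun x hx => (hYN x hx).1, B ∪ X, H.base B hB, Set.disjoint_left.2 fun x hx h => ?_⟩
    rcases h with h | h
    · exact (hYN x hx).2 (hB.subset_ground h)
    · exact hdXY h hx
  refine ⟨H.conn.dual, star_dual M H.star, hYi, H.disj.symm, ?_, ?_, ?_, ?_, ?_, ?_⟩
  · rw [Matroid.dual_ground, Matroid.dual_ground, Set.union_comm]
    exact H.hE
  · rw [Matroid.dual_ground, Matroid.dual_ground]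
    exact H.hNE
  · intro I hI
    rw [Matroid.dual_ground] at hI
    rw [hN', Matroid.delete_indep_iff, hYi.contract_indep_iff]
    constructor
    · exact fun h => h.1.2
    · exact fun h => ⟨⟨Set.disjoint_left.2 fun x hx hx2 => (hYN x hx2).2 (hI hx), h⟩,
        Set.disjoint_left.2 fun x hx hx2 => (hXN x hx2).2 (hI hx)⟩
  · intro B hB
    rw [Matroid.dual_isBase_iff'] at hB ⊢
    obtain ⟨hB1, hB2⟩ := hB
    refine ⟨?_, Set.union_subset (hB2.trans H.hNE) fun x hx => (hYN x hx).1⟩
    have h1 := H.base _ hB1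
    have h2 : M.E \ (B ∪ Y) = N.E \ B ∪ X := by
      ext x
      constructor
      · rintro ⟨hx1, hx2⟩
        by_cases hxN : x ∈ N.E
        · exact Or.inl ⟨hxN, fun h => hx2 (Or.inl h)⟩
        · rcases (hE x).2 ⟨hx1, hxN⟩ with h | h
          · exact Or.inr h
          · exact absurd (Or.inr h) hx2
      · rintro (⟨hx1, hx2⟩ | hx)
        · exact ⟨H.hNE hx1, fun h => h.elim hx2 fun h => (hYN x h).2 hx1⟩
        · exact ⟨(hXN x hx).1, fun h => h.elim (fun h => (hXN x hx).2 (hB2 h)) (hdXY hx)⟩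
    rw [h2]
    exact h1
  · intro z hz hm
    rw [Matroid.dual_ground] at hz
    rw [← Matroid.dual_delete] at hm ⊢
    have : (M ＼ {z}).Finite := delete_finite _
    rw [star_dual_iff]
    exact H.del z hz (M5D_minor' hm)
  · intro z hz hm
    rw [Matroid.dual_ground] at hz
    rw [← Matroid.dual_contract] at hm ⊢
    have : (M ／ {z}).Finite := contract_finite _
    rw [star_dual_iff]
    exact H.con z hz (M5D_minor' hm)

end Pool.Agent.MP8f11b1
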