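import Pool.Agent.Lib.MP_8f11b1_co_AM.BadW
import Pool.Agent.Lib.MP_8f11b1_co_AM.FinC
import Pool.Agent.Lib.MP_8f11b1_co_DU.Main2

set_option autoImplicit false

namespace Pool.Agent.MP8f11b1

open Matroid

/-- The good matroids. -/
def Good {α : Type} (U : Matroid α) : Prop :=
  (∃ a b, a ≤ b ∧ IsU a b U ∧ (a ≤ 1 ∨ b ≤ a + 1)) ∨
    ∃ a b, 1 ≤ a ∧ a < b ∧ IsW a b U ∧ (a = 1 ∨ b = a + 1 ∨ (a = 2 ∧ b = 4))

theorem finC_good {α : Type} (U : Matroid α) (h : Good U) : FinC U := by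
  rcases h with ⟨a, b, hab, hU, h⟩ | ⟨a, b, ha, hab, hU, h⟩
  · exact finC_of_finB (finB_uniform hab h U hU)
  · exact finC_W ha hab h U hU

theorem bad_not_good {α : Type} (U : Matroid α) (hf : U.Finite) (h : ¬ Good U) : Bad U := by
  haveI := hf
  by_cases h1 : ClsV U
  swap
  · exact p_bad U hf h1
  by_cases h2 : ClsV U✶
  swap
  · exact bad_of_dual U (p_bad _ ⟨by rw [Matroid.dual_ground]; exact hf.ground_finite⟩ h2)
  rcases v_dual U h1 h2 with ⟨a, b, hab, hU⟩ | ⟨a, b, ha, hab, hU⟩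
  · have h3 : ¬ (a ≤ 1 ∨ b ≤ a + 1) := fun h4 => h (Or.inl ⟨a, b, hab, hU, h4⟩)
    rw [not_or, not_le, not_le] at h3
    exact bad_uniform (by omega) (by omega) U hU
  · have h3 : ¬ (a = 1 ∨ b = a + 1 ∨ (a = 2 ∧ b = 4)) :=
      fun h4 => h (Or.inr ⟨a, b, ha, hab, hU, h4⟩)
    rw [not_or, not_or] at h3
    exact badW (by omega) (by omega) h3.2.2 U hU

end Pool.Agent.MP8f11b1
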