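import Pool.Agent.Lib.MP_8f11b1_co_AM.FWDef
import Pool.Agent.Lib.MP_8f11b1_co_DU.NoU
import Pool.Agent.Lib.MP_8f11b1_co_AM.IsoW

set_option autoImplicit false

namespace Pool.Agent.MP8f11b1

variable {L : Type} [Field L] [Algebra (ZMod 2) L] {r m g s : ℕ}

omit [Algebra (ZMod 2) L] in
private theorem NoWaux_base {α V : Type} [Finite α] [AddCommGroup V] [Module L V]
    [FiniteDimensional L V] (f : α → V) (M : Matroid α)
    (hM : ∀ I, M.Indep I ↔ LinearIndepOn L f I) {K : Set α}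
    (hK : LinearIndepOn L f K) (hc : K.ncard = Module.finrank L V) {B : Set α}
    (hB : M.IsBase B) : B.ncard = Module.finrank L V := by
  obtain ⟨B', hB', hKB⟩ := ((hM K).2 hK).exists_isBase_superset
  have h1 : B.ncard = B'.ncard := hB.ncard_eq_ncard_of_isBase hB'
  have h2 := Set.ncard_le_ncard hKB (Set.toFinite B')
  have h3 := (lin_ncard_le f ((hM B).1 hB.indep)).2
  omega

/-- no minor `W` in the vector matroid -/
theorem noW {a b : ℕ} (ha : 1 ≤ a) (hab : a < b) (hr : 1 ≤ r) (gam : Fin g → ZZ L s)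
    (T : Set (Fin g)) (hch : CH L (f2 gam : G2 r m g → V2 L r m s) (KT T))
    (hfree : ∀ (v : ((Fin (2 * m) ⊕ Fin (2 * m)) ⊕ NB r) →
        (Fin (2 * m) ⊕ (Fin r ⊕ Unit)) → ZMod 2)
      (X P : (Fin (2 * m) ⊕ (Fin r ⊕ Unit)) → ZMod 2) (C E K : Set (G2 r m g)),
      FreeW v X P gam a C E K → E.ncard = b → False)
    (M₀ : Matroid (G2 r m g)) (hE : M₀.E = Set.univ)
    (hM₀ : ∀ I, M₀.Indep I ↔ LinearIndepOn L (f2 gam : G2 r m g → V2 L r m s) I)
    {α : Type} (U : Matroid α) (hU : IsW a b U) :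
    ¬ ∃ M' : Matroid (G2 r m g), M'.IsMinor M₀ ∧ Iso M' U := by
  rintro ⟨M', hMin, hiso⟩
  obtain ⟨hEf, hb, K, hKE, hKa, hunif⟩ := isW_of_iso hiso hU
  have hfr : Module.finrank L (V2 L r m s) = 2 * m + ((r + 1) + s) := by
    simp [Module.finrank_prod]
  have hMf : M₀.Finite := ⟨by rw [hE]; exact Set.toFinite _⟩
  obtain ⟨C, hC, hCd, hCi, hCb⟩ := exists_indep_of_isMinor hMin
  -- a base with a elements
  obtain ⟨x, hxE, hxK⟩ : ∃ x ∈ M'.E, x ∉ K := by
    by_contra hcon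
    push Not at hcon
    have h1 := Set.ncard_le_ncard (show M'.E ⊆ K from hcon) (Set.toFinite K)
    omega
  obtain ⟨k0, hk0⟩ : K.Nonempty := by
    rw [← Set.ncard_pos (Set.toFinite K)]
    omega
  obtain ⟨B0, hB0⟩ : ∃ B0, B0 = insert x (K \ {k0}) := ⟨_, rfl⟩
  have hB0E : B0 ⊆ M'.E := by
    rw [hB0]
    exact Set.insert_subset hxE (Set.sdiff_subset.trans hKE)
  have hB0c : B0.ncard = a := by
    rw [hB0, Set.ncard_insert_of_notMem (fun h => hxK h.1) (Set.toFinite _),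
      Set.ncard_sdiff_singleton_add_one hk0 (Set.toFinite _), hKa]
  have hB0K : B0 ≠ K := by
    intro h
    apply hxK
    rw [← h, hB0]
    exact Set.mem_insert _ _
  obtain ⟨B1, hB1, hB01⟩ := ((hunif B0 hB0E).2 ⟨hB0c.le, hB0K⟩).exists_isBase_superset
  have hB1c : B1.ncard = a := by
    have h1 := ((hunif B1 hB1.subset_ground).1 hB1.indep).1
    have h2 := Set.ncard_le_ncard hB01 (Set.toFinite B1)
    omega
  have hbase := hCb B1 hB1
  -- a spanning set
  have hKne : (KT T : Set (G2 r m g)).Nonempty := by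
    rw [← Set.ncard_pos (Set.toFinite _), hch.card, hfr]
    omega
  obtain ⟨k, hk⟩ := hKne
  have ha0 : (Sum.inl (Sum.inr (Sum.inr 0)) : G2 r m g) ∉ (KT T : Set (G2 r m g)) := fun h => h
  have hK' : LinearIndepOn L (f2 gam : G2 r m g → V2 L r m s)
      (insert (Sum.inl (Sum.inr (Sum.inr 0))) (KT T \ {k})) := by
    refine (linearIndepOn_insert fun hg' => ha0 hg'.1).2 ⟨hch.ind k hk, fun hs => ?_⟩
    exact hch.flat _ ha0 (Submodule.span_mono (Set.image_mono Set.sdiff_subset) hs)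
  have hK'c : (insert (Sum.inl (Sum.inr (Sum.inr 0))) (KT T \ {k}) : Set (G2 r m g)).ncard =
      Module.finrank L (V2 L r m s) := by
    rw [Set.ncard_insert_of_notMem (fun hg' => ha0 hg'.1) (Set.toFinite _),
      Set.ncard_sdiff_singleton_add_one hk (Set.toFinite _), hch.card]
  have hrk := NoWaux_base _ M₀ hM₀ hK' hK'c hbase
  obtain ⟨e', v, X, P, hX, hP, hXP, hfB⟩ := tr2 (m := m) hr gam
  have hlin : ∀ S : Set (G2 r m g), LinearIndepOn L (fB v X P gam) S ↔
      LinearIndepOn L (f2 gam : G2 r m g → V2 L r m s) S := by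
    intro S
    have h1 : fB v X P gam = e'.toLinearMap ∘ (f2 gam : G2 r m g → V2 L r m s) := by
      funext z
      exact (hfB z).symm
    rw [h1]
    exact LinearMap.linearIndependent_iff e'.toLinearMap
      (v := fun i : S => (f2 gam : G2 r m g → V2 L r m s) i) (LinearEquiv.ker e')
  refine hfree v X P C M'.E K
    ⟨hX, hP, hXP, (hlin C).2 ((hM₀ C).1 hC), hCd, ?_, hKE, hKa, ?_⟩ hb
  · have h1 : Disjoint B1 C := (hCd.mono_right hB1.subset_ground).symm
    have h2 := Set.ncard_union_eq h1 (Set.toFinite _) (Set.toFinite _)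
    have h3 : Fintype.card (Fin (2 * m) ⊕ (Fin r ⊕ Unit)) = 2 * m + (r + 1) := by simp
    rw [h3]
    omega
  · intro B hB
    rw [hlin, ← hM₀, ← hCi B hB, hunif B hB]

end Pool.Agent.MP8f11b1
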