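import Pool.Agent.Lib.MP_8f11b1_co_AM.Cir
import Pool.Agent.Lib.MP_8f11b1_co_AM.IsoW

set_option autoImplicit false

namespace Pool.Agent.MP8f11b1

open Matroid

variable {α : Type}

/-- There is a nonspanning circuit with at least `l` elements. -/
def Nsc (l : ℕ) (M : Matroid α) : Prop :=
  ∃ C, M.IsCircuit C ∧ ¬ M.Spanning C ∧ l ≤ C.ncard

theorem nsc_minor (M : Matroid α) [M.Finite] {l : ℕ} (hl : 1 ≤ l) (h : Nsc l M) :
    ∃ M' : Matroid α, M'.IsMinor M ∧ IsW l (l + 1) M' := by
  obtain ⟨C, hC, hns, hlC⟩ := h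
  have hCE := hC.subset_ground
  have hCf : C.Finite := M.ground_finite.subset hCE
  obtain ⟨D, hDC, hD⟩ := Set.exists_subset_card_eq hlC
  have hDf : D.Finite := hCf.subset hDC
  obtain ⟨e, heE, hecl⟩ : ∃ e ∈ M.E, e ∉ M.closure C := by
    by_contra hc
    push Not at hc
    apply hns
    rw [Matroid.spanning_iff_closure_eq hCE]
    exact Set.Subset.antisymm (M.closure_subset_ground C) hc
  have heC : e ∉ C := fun h => hecl (M.mem_closure_of_mem h hCE)
  have heD : e ∉ D := fun h => heC (hDC h)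
  have hXC : C \ D ⊆ C := Set.sdiff_subset
  have hDne : D.Nonempty := by
    rw [← Set.ncard_pos hDf]
    omega
  have hX : M.Indep (C \ D) := by
    refine hC.ssubset_indep ?_
    refine Set.ssubset_iff_subset_ne.2 ⟨hXC, fun h => ?_⟩
    obtain ⟨d, hd⟩ := hDne
    have h1 : d ∈ C \ D := by rw [h]; exact hDC hd
    exact h1.2 hd
  refine minor_isW_set M (C \ D) (insert e D) D hX (Set.insert_subset heE (hDC.trans hCE)) ?_
    (hDf.insert e) ?_ (Set.subset_insert _ _) hD ?_
  · rw [Set.disjoint_left]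
    intro x hx hx2
    rcases Set.mem_insert_iff.1 hx with rfl | hx
    · exact heC hx2.1
    · exact hx2.2 hx
  · rw [Set.ncard_insert_of_notMem heD hDf, hD]
  · intro B hB
    have hBf : B.Finite := (hDf.insert e).subset hB
    constructor
    · intro hi
      have hnD : ¬ D ⊆ B := by
        intro hDB
        refine hC.not_indep (hi.subset ?_)
        intro x hx
        by_cases hxD : x ∈ D
        · exact Or.inl (hDB hxD)
        · exact Or.inr ⟨hx, hxD⟩
      refine ⟨?_, fun h => hnD h.ge⟩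
      have h1 : B ⊂ insert e D := by
        refine Set.ssubset_iff_subset_ne.2 ⟨hB, fun h => hnD ?_⟩
        rw [h]
        exact Set.subset_insert _ _
      have h2 := Set.ncard_lt_ncard h1 (hDf.insert e)
      rw [Set.ncard_insert_of_notMem heD hDf, hD] at h2
      omega
    · rintro ⟨hBl, hBD⟩
      have hnD : ¬ D ⊆ B := by
        intro hDB
        exact hBD (Set.eq_of_subset_of_ncard_le hDB (by omega) hBf).symm
      obtain ⟨d, hdD, hdB⟩ := Set.not_subset.1 hnD
      have h1 := hC.sdiff_singleton_indep (hDC hdD)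
      have h2 : e ∉ M.closure (C \ {d}) := fun h =>
        hecl (M.closure_subset_closure Set.sdiff_subset h)
      have h3 := (h1.notMem_closure_iff_of_notMem (fun h => heC h.1) heE).1 h2
      refine h3.subset ?_
      rintro x (hx | hx)
      · rcases Set.mem_insert_iff.1 (hB hx) with rfl | hxD
        · exact Set.mem_insert _ _
        · refine Set.mem_insert_of_mem _ ⟨hDC hxD, ?_⟩
          rintro rfl
          exact hdB hx
      · refine Set.mem_insert_of_mem _ ⟨hx.1, ?_⟩
        rintro rfl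
        exact hx.2 hdD

theorem nsc_of_minor (M : Matroid α) [M.Finite] {l : ℕ} (hl : 1 ≤ l) {M' : Matroid α}
    (hm : M'.IsMinor M) (h : IsW l (l + 1) M') : Nsc l M := by
  obtain ⟨hf, hE, C0, hC0, hc0, hi0⟩ := h
  obtain ⟨X, hX, hd, hi, -⟩ := exists_indep_of_isMinor hm
  have hC0f : C0.Finite := hf.subset hC0
  obtain ⟨e, heE, heC⟩ : ∃ e ∈ M'.E, e ∉ C0 := by
    by_contra hc
    push Not at hc
    have h1 : C0 = M'.E := Set.Subset.antisymm hC0 hc
    rw [← h1, hc0] at hE
    omega
  have hind : ∀ c ∈ C0, M.Indep ((C0 \ {c}) ∪ X) := by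
    intro c hc
    refine (hi _ (Set.sdiff_subset.trans hC0)).1 ((hi0 _ (Set.sdiff_subset.trans hC0)).2 ⟨?_, ?_⟩)
    · rw [← hc0]
      exact Set.ncard_le_ncard Set.sdiff_subset hC0f
    · intro h
      have h1 : c ∈ C0 \ {c} := by rw [h]; exact hc
      exact h1.2 rfl
  have hdep : ¬ M.Indep (C0 ∪ X) := by
    intro h
    exact ((hi0 C0 hC0).1 ((hi C0 hC0).2 h)).2 rfl
  have hE' : M'.E ⊆ M.E := hm.subset
  have hsub : C0 ∪ X ⊆ M.E := Set.union_subset (hC0.trans hE') hX.subset_ground
  obtain ⟨C, hCs, hC⟩ := Matroid.Dep.exists_isCircuit_subset (M := M) ⟨hdep, hsub⟩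
  have hC0C : C0 ⊆ C := by
    intro c hc
    by_contra hcC
    refine hC.not_indep ((hind c hc).subset ?_)
    intro x hx
    rcases hCs hx with h1 | h1
    · refine Or.inl ⟨h1, ?_⟩
      rintro rfl
      exact hcC hx
    · exact Or.inr h1
  have hCf : C.Finite := M.ground_finite.subset hC.subset_ground
  refine ⟨C, hC, ?_, by rw [← hc0]; exact Set.ncard_le_ncard hC0C hCf⟩
  obtain ⟨c, hc⟩ : C0.Nonempty := by
    rw [← Set.ncard_pos hC0f]
    omega
  have hcX : c ∉ X := fun h => (Set.disjoint_left.1 hd) h (hC0 hc)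
  have heX : e ∉ X := fun h => (Set.disjoint_left.1 hd) h heE
  have hIe : M.Indep (insert e (C0 \ {c}) ∪ X) := by
    have h1 : insert e (C0 \ {c}) ⊆ M'.E := Set.insert_subset heE (Set.sdiff_subset.trans hC0)
    refine (hi _ h1).1 ((hi0 _ h1).2 ⟨?_, ?_⟩)
    · rw [Set.ncard_insert_of_notMem (fun h => heC h.1) (hC0f.subset Set.sdiff_subset),
        Set.ncard_sdiff_singleton_of_mem hc, hc0]
      omega
    · intro h
      exact heC (by rw [← h]; exact Set.mem_insert _ _)
  have heI : e ∉ (C0 \ {c}) ∪ X := by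
    rintro (h | h)
    · exact heC h.1
    · exact heX h
  have hecl : e ∉ M.closure ((C0 \ {c}) ∪ X) := by
    rw [(hind c hc).notMem_closure_iff_of_notMem heI (hE' heE), ← Set.insert_union]
    exact hIe
  have hcI : c ∉ (C0 \ {c}) ∪ X := by
    rintro (h | h)
    · exact h.2 rfl
    · exact hcX h
  have hccl : c ∈ M.closure ((C0 \ {c}) ∪ X) := by
    by_contra hcon
    rw [(hind c hc).notMem_closure_iff_of_notMem hcI (hsub (Or.inl hc))] at hcon
    apply hdep
    have h1 : insert c (C0 \ {c} ∪ X) = C0 ∪ X := by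
      rw [← Set.insert_union, Set.insert_sdiff_singleton, Set.insert_eq_of_mem hc]
    rwa [h1] at hcon
  have hCcl : C ⊆ M.closure ((C0 \ {c}) ∪ X) := by
    intro x hx
    have h1 : (C0 \ {c}) ∪ X ⊆ M.E := (hind c hc).subset_ground
    rcases hCs hx with h2 | h2
    · by_cases hxc : x = c
      · rw [hxc]
        exact hccl
      · exact M.mem_closure_of_mem (Or.inl ⟨h2, hxc⟩) h1
    · exact M.mem_closure_of_mem (Or.inr h2) h1
  intro hsp
  apply hecl
  have h2 : M.closure C ⊆ M.closure ((C0 \ {c}) ∪ X) :=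
    M.closure_subset_closure_of_subset_closure hCcl
  apply h2
  rw [hsp.closure_eq]
  exact hE' heE

end Pool.Agent.MP8f11b1
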