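import Pool.Agent.Lib.MP_8f11b1_co_AM.Cir
import Pool.Agent.Lib.MP_8f11b1_co_AM.NsIff
import Pool.Agent.Lib.MP_8f11b1_co_AM.Core4
import Pool.Agent.Lib.MP_8f11b1_co_AM.Cov4
import Pool.Agent.Lib.MP_8f11b1_co_DU.FBound

set_option autoImplicit false

namespace Pool.Agent.MP8f11b1

open Matroid

variable {α : Type}

namespace NsB

/-- the independent sets of a minor -/
theorem indep_iff {M N : Matroid α} {X Y : Set α} (hX : M.Indep X)
    (hXYE : X ∪ Y = M.E \ N.E) (hNe : N = M ／ X ＼ Y) {I : Set α} (hI : I ⊆ N.E) :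
    N.Indep I ↔ M.Indep (I ∪ X) := by
  have h1 : Disjoint I X := Set.disjoint_left.2 fun x hx hx2 => by
    have h2 : x ∈ X ∪ Y := Or.inl hx2
    rw [hXYE] at h2
    exact h2.2 (hI hx)
  have h3 : Disjoint I Y := Set.disjoint_left.2 fun x hx hx2 => by
    have h2 : x ∈ X ∪ Y := Or.inr hx2
    rw [hXYE] at h2
    exact h2.2 (hI hx)
  have h4 : N.Indep I ↔ (M ／ X ＼ Y).Indep I := by rw [← hNe]
  rw [h4, Matroid.delete_indep_iff, hX.contract_indep_iff]
  exact ⟨fun h => h.1.2, fun h => ⟨⟨h1, h⟩, h3⟩⟩

end NsB

/-- the size of a minimal matroid with a minor `N` and a nonspanning circuit with at least `l`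
elements -/
theorem nsc_bound (M N : Matroid α) [M.Finite] {l : ℕ} (hl : 1 ≤ l) (hN : N.IsMinor M)
    (hC : Nsc l M)
    (hmin : ∀ M' : Matroid α, M'.IsMinor M → M' ≠ M → N.IsMinor M' → ¬ Nsc l M') :
    M.E.ncard ≤ N.E.ncard + 2 * ((N.E.ncard + 2) * (l + 1)) := by
  obtain ⟨X, Y, hX, hXY, hXYE, hNe, hbase⟩ := exists_indep_coindep hN
  obtain ⟨D, hD, hDs, hDl⟩ := hC
  have hEf : M.E.Finite := M.ground_finite
  have hDE := hD.subset_ground
  have hDf : D.Finite := hEf.subset hDE
  have hXE := hX.subset_ground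
  have hXf : X.Finite := hEf.subset hXE
  have hNE : N.E ⊆ M.E := hN.subset
  have hNf : N.E.Finite := hEf.subset hNE
  have hXN : ∀ x ∈ X, x ∉ N.E := fun x hx => by
    have : x ∈ X ∪ Y := Or.inl hx
    rw [hXYE] at this
    exact this.2
  have hYE : ∀ y ∈ Y, y ∈ M.E ∧ y ∉ N.E := fun y hy => by
    have : y ∈ X ∪ Y := Or.inr hy
    rw [hXYE] at this
    exact this
  have hYf : Y.Finite := hEf.subset fun y hy => (hYE y hy).1
  have hXYn : ∀ x ∈ X, x ∉ Y := fun x hx hy => Set.disjoint_left.1 hXY hx hy
  have hcard : M.E.ncard = N.E.ncard + X.ncard + Y.ncard := by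
    have h1 : N.E ∪ (X ∪ Y) = M.E := by
      rw [hXYE, Set.union_sdiff_cancel hN.subset]
    have h2 : Disjoint N.E (X ∪ Y) := by
      rw [hXYE]; exact Set.disjoint_sdiff_right
    rw [← h1, Set.ncard_union_eq h2 hNf (hXf.union hYf), Set.ncard_union_eq hXY hXf hYf]
    ring
  obtain ⟨B, hB⟩ := N.exists_isBase
  have hBX : M.IsBase (B ∪ X) := hbase B hB
  have hBN : B.ncard ≤ N.E.ncard := Set.ncard_le_ncard hB.subset_ground hNf
  have hr1 : (B ∪ X).ncard = rk M M.E := rk_isBase hBX
  have hrX : rk M M.E ≤ N.E.ncard + X.ncard := by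
    have := Set.ncard_union_le B X
    omega
  have hrD1 : rk M D + 1 = D.ncard := circuit_rk hD
  have hrD : rk M D < rk M M.E := by
    have h1 : rk M D ≤ rk M M.E := rk_mono hDE
    have h2 : rk M D ≠ rk M M.E := fun h => hDs ((spanning_iff_rk hDE).2 h)
    omega
  -- the deleted elements are in the circuit
  have hYD : Y ⊆ D := by
    intro y hy
    by_contra hyD
    obtain ⟨hyE, hyN⟩ := hYE y hy
    refine hmin (M ＼ {y}) (AM.del_minor _ _) (AM.del_ne hyE) (AM.minor_del hXY hNe hy)
      ⟨D, ?_, ?_, hDl⟩
    · rw [Matroid.delete_isCircuit_iff]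
      exact ⟨hD, Set.disjoint_singleton_right.2 hyD⟩
    · intro hsp
      have : (M ＼ {y}).Finite := delete_finite {y}
      have h1 : D ⊆ (M ＼ {y}).E := by
        rw [Matroid.delete_ground]
        exact fun x hx => ⟨hDE hx, fun h => hyD (h ▸ hx)⟩
      have h2 := (spanning_iff_rk h1).1 hsp
      have h3 : Disjoint (M ＼ {y}).E {y} := by
        rw [Matroid.delete_ground]
        exact Set.disjoint_sdiff_left
      rw [rk_delete (Set.disjoint_singleton_right.2 hyD), rk_delete h3] at h2
      have h4 : B ∪ X ⊆ (M ＼ {y}).E := by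
        rw [Matroid.delete_ground]
        intro x hx
        refine ⟨hBX.subset_ground hx, fun h => ?_⟩
        rw [Set.mem_singleton_iff] at h
        subst h
        rcases hx with hx | hx
        · exact hyN (hB.subset_ground hx)
        · exact hXYn _ hx hy
      have h5 : rk M (B ∪ X) ≤ rk M (M ＼ {y}).E := rk_mono h4
      rw [rk_indep hBX.indep] at h5
      omega
  have hYc : Y.ncard ≤ D.ncard := Set.ncard_le_ncard hYD hDf
  -- contracted elements
  have hel : ∀ e ∈ X, M.Indep {e} := fun e he => hX.subset (Set.singleton_subset_iff.2 he)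
  have hcon : ∀ e, M.Indep {e} → N.IsMinor (M ／ {e}) → ¬ Nsc l (M ／ {e}) := fun e he hm =>
    hmin (M ／ {e}) (AM.con_minor _ _) (AM.con_ne (he.subset_ground rfl)) hm
  have hdis : ∀ e ∈ D, M.Indep {e} → N.IsMinor (M ／ {e}) → D.ncard ≤ l := by
    intro e heD he hm
    by_contra hlt
    refine hcon e he hm ⟨D \ {e}, AM.circ_con_mem hD he heD, ?_, ?_⟩
    · have heD' : e ∉ D \ {e} := fun h => h.2 rfl
      rw [AM.spanning_con he (Set.sdiff_subset.trans hDE) heD',
        Set.insert_sdiff_singleton, Set.insert_eq_of_mem heD]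
      omega
    · rw [Set.ncard_sdiff_singleton_of_mem heD]
      omega
  have hXcl : D.ncard < rk M M.E → X ⊆ M.closure D := by
    intro hlt e he
    by_contra hcl
    have heD : e ∉ D := fun h => hcl (M.mem_closure_of_mem h hDE)
    refine hcon e (hel e he) (AM.minor_con hNe he) ⟨D, AM.circ_con hD (hel e he) hcl, ?_, hDl⟩
    rw [AM.spanning_con (hel e he) hDE heD, rk_insert_of_notMem (hXE he) hcl]
    omega
  have hXc : X.ncard ≤ D.ncard := by
    have h0 := rk_indep hX
    rcases Nat.lt_or_ge D.ncard (rk M M.E) with hlt | hge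
    · have h1 := rk_le_of_subset_closure (hXcl hlt)
      omega
    · have h1 : rk M X ≤ rk M M.E := rk_mono hXE
      omega
  have hclaim : D.ncard ≤ (N.E.ncard + 2) * (l + 1) := by
    have hexp : (N.E.ncard + 2) * (l + 1) = N.E.ncard * (l + 1) + 2 * l + 2 := by ring
    have hexp2 : N.E.ncard * (l + 1) = N.E.ncard * l + N.E.ncard := by ring
    by_cases hDl' : D.ncard ≤ l
    · have : l ≤ N.E.ncard * (l + 1) + 2 * l + 2 := by
        have := Nat.zero_le (N.E.ncard * (l + 1))
        omega
      omega
    by_cases hr2 : rk M M.E < 2 * l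
    · have := Nat.zero_le (N.E.ncard * (l + 1))
      omega
    rcases Set.eq_empty_or_nonempty X with hXe | ⟨e, he⟩
    · have h5 : X.ncard = 0 := by rw [hXe]; simp
      have := Nat.zero_le (N.E.ncard * l)
      omega
    have heI := hel e he
    have hm := AM.minor_con hNe he
    have heD : ∀ x ∈ X, x ∉ D := fun x hx hxD =>
      hDl' (hdis x hxD (hel x hx) (AM.minor_con hNe hx))
    by_cases hcl : e ∈ M.closure D
    · have h1 := cover4 M hD heI (heD e he) hcl (b := l) (fun D' hD' hD'c => by
        by_contra hge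
        refine hcon e heI hm ⟨D', hD'c, ?_, not_lt.1 hge⟩
        rw [AM.spanning_con heI (hD'.trans hDE) (fun h => heD e he (hD' h))]
        have h2 : rk M (insert e D') ≤ rk M (insert e D) := rk_mono (Set.insert_subset_insert hD')
        rw [rk_insert_of_mem_closure hcl] at h2
        omega)
      have := Nat.zero_le (N.E.ncard * (l + 1))
      omega
    have hge : rk M M.E ≤ D.ncard := by
      by_contra hlt
      exact hcl (hXcl (not_le.1 hlt) he)
    have hDr : D.ncard = rk M M.E := by omega
    have : (M ／ {e}).Finite := contract_finite {e}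
    have heE := hXE he
    have hME : (M ／ {e}).E = M.E \ {e} := Matroid.contract_ground M {e}
    have hrk1 : rk (M ／ {e}) (M ／ {e}).E + 1 = rk M M.E := by
      rw [hME, rk_contractElem heI (fun h => h.2 rfl), Set.insert_sdiff_singleton,
        Set.insert_eq_of_mem heE]
    have hXe1 : (X \ {e}).ncard + 1 = X.ncard := Set.ncard_sdiff_singleton_add_one he hXf
    have hmain := core4 (M ／ {e}) (l := l) (A := N.E) (X := X \ {e}) (Y := Y) (D := D) hl
      (by
        rw [hME]
        ext x
        constructor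
        · rintro ((hx | hx) | hx)
          · exact ⟨hNE hx, fun h => hXN x (h ▸ he) hx⟩
          · exact ⟨hXE hx.1, hx.2⟩
          · exact ⟨(hYE x hx).1, fun h => hXYn x (h ▸ he) hx⟩
        · rintro ⟨hx, hxe⟩
          by_cases hxN : x ∈ N.E
          · exact Or.inl (Or.inl hxN)
          · have h1 : x ∈ X ∪ Y := by
              rw [hXYE]
              exact ⟨hx, hxN⟩
            rcases h1 with h1 | h1
            · exact Or.inl (Or.inr ⟨h1, hxe⟩)
            · exact Or.inr h1)
      (Set.disjoint_left.2 fun x hx hx2 => hXN x hx2.1 hx)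
      (Set.disjoint_left.2 fun x hx hx2 => hx.elim (fun h => (hYE x hx2).2 h)
        (fun h => hXYn x h.1 hx2))
      (by
        rw [AM.indep_con heI (fun h => h.2 rfl), Set.insert_sdiff_singleton,
          Set.insert_eq_of_mem he]
        exact hX)
      (by omega) (by omega)
      (fun C hC hCs => by
        by_contra hCl
        exact hcon e heI hm ⟨C, hC, hCs, not_lt.1 hCl⟩)
      (AM.circ_con hD heI hcl)
      (Set.disjoint_left.2 fun x hx hx2 => heD x hx2.1 hx)
      (by omega)
      (by
        intro f hf y hy hiff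
        have hye : y ≠ e := fun h => hXYn e he (h ▸ hy)
        have hiff' : ∀ I ⊆ N.E, N.Indep I ↔
            M.Indep (I ∪ insert e (insert y ((X \ {e}) \ {f}))) := by
          intro I hI
          have heI' : e ∉ I := fun h => hXN e he (hI h)
          have h1 : (M ／ {e}).Indep (I ∪ (X \ {e})) ↔ M.Indep (I ∪ X) := by
            rw [AM.indep_con heI (fun h => h.elim heI' (fun h => h.2 rfl)),
              ← Set.union_insert, Set.insert_sdiff_singleton, Set.insert_eq_of_mem he]
          have h2 : (M ／ {e}).Indep (I ∪ insert y ((X \ {e}) \ {f})) ↔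
              M.Indep (I ∪ insert e (insert y ((X \ {e}) \ {f}))) := by
            rw [AM.indep_con heI, ← Set.union_insert]
            rintro (h | h)
            · exact heI' h
            · rcases Set.mem_insert_iff.1 h with h | h
              · exact hye h.symm
              · exact h.1.2 rfl
          rw [NsB.indep_iff hX hXYE hNe hI, ← h1, hiff I hI, h2]
        have hX' : M.Indep (insert e (insert y ((X \ {e}) \ {f}))) := by
          have h1 := (hiff' ∅ (Set.empty_subset _)).1 N.empty_indep
          rwa [Set.empty_union] at h1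
        have hyX' : y ∈ insert e (insert y ((X \ {e}) \ {f})) :=
          Set.mem_insert_of_mem _ (Set.mem_insert _ _)
        have hm' : N.IsMinor (M ／ {y}) := by
          refine AM.minor_con_of_indep hX' ?_ hNE hiff' hyX'
          rw [Set.disjoint_left]
          intro x hx
          rcases Set.mem_insert_iff.1 hx with rfl | hx
          · exact hXN _ he
          rcases Set.mem_insert_iff.1 hx with rfl | hx
          · exact (hYE _ hy).2
          · exact hXN _ hx.1.1
        exact hDl' (hdis y (hYD hy) (hX'.subset (Set.singleton_subset_iff.2 hyX')) hm'))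
    have := Nat.zero_le (N.E.ncard * (l + 1))
    omega
  omega

end Pool.Agent.MP8f11b1
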