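import Pool.Agent.Lib.MP_8f11b1_co_AM.Defs

set_option autoImplicit false

namespace Pool.Agent.MP8f11b1

variable {α : Type}

/-- The elements of `K`: the elements of `U`, the set `X`, the set `Y`. -/
abbrev PT (α : Type) (m : ℕ) : Type := α ⊕ (Fin m ⊕ Fin m)

/-- The set `X`. -/
def PX (α : Type) (m : ℕ) : Set (PT α m) := Set.range fun i => Sum.inr (Sum.inl i)

/-- The set `Y`. -/
def PY (α : Type) (m : ℕ) : Set (PT α m) := Set.range fun i => Sum.inr (Sum.inr i)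

/-- The ground set of `K`. -/
def PE (U : Matroid α) (m : ℕ) : Set (PT α m) := Sum.inl '' U.E ∪ Set.range Sum.inr

/-- The independent sets of `K`. -/
def PInd (U : Matroid α) (a m : ℕ) (I : Set (PT α m)) : Prop :=
  (∃ T : Set α, U.Indep T ∧ Sum.inl '' T ⊆ I ∧ (I \ PY α m).ncard ≤ m + T.ncard) ∧
    ¬ PY α m ⊆ I ∧ I.ncard ≤ a + m

/-- `K` is the matroid belonging to `U`. -/
def IsP (U : Matroid α) (a m : ℕ) (K : Matroid (PT α m)) : Prop :=
  K.E = PE U m ∧ ∀ I ⊆ PE U m, K.Indep I ↔ PInd U a m I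

/-- One loop and `a + 1` coloops. -/
def IsLC (a : ℕ) (N : Matroid (Fin (a + 2))) : Prop :=
  N.E = Set.univ ∧ ∀ I, N.Indep I ↔ (0 : Fin (a + 2)) ∉ I

end Pool.Agent.MP8f11b1
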