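import Pool.Agent.Lib.MP_8f11b1_co_AM.SepA
import Pool.Agent.Lib.MP_8f11b1_co_DU.FBound

set_option autoImplicit false

namespace Pool.Agent.MP8f11b1

open Matroid

variable {α : Type}

/-- `M` is minor-minimal with the property `Star` and with the minor `N`. -/
def MinStar (M N : Matroid α) : Prop :=
  Star M ∧ N.IsMinor M ∧ ∀ M' : Matroid α, M'.IsMinor M → M' ≠ M → N.IsMinor M' → ¬ Star M'

/-- reduction to the connected case, first part -/
theorem star_comp (M N : Matroid α) [M.Finite] (h : MinStar M N) :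
    ∃ S, Sep M S ∧ M.E \ N.E ⊆ S ∧ Star (M ↾ S) ∧ Conn (M ↾ S) := by
  obtain ⟨⟨C, D, hC, hD, ⟨d, hdC, hdD⟩, hCD⟩, hN, hmin⟩ := h
  obtain ⟨c, hcC, hcD⟩ := Set.not_subset.1 hCD
  obtain ⟨S, hS, hdS, hSmin⟩ := exists_conn (M := M) (hC.subset_ground hdC)
  have hCS : C ⊆ S := (hS.2 C hC).resolve_right
    (fun h1 => Set.disjoint_left.1 h1 hdC hdS)
  have hDS : D ⊆ S := (hS.2 D hD).resolve_right
    (fun h1 => Set.disjoint_left.1 h1 hdD hdS)
  obtain ⟨X, Y, hX, hXY, hXYE, hNXY, -⟩ := exists_indep_coindep hN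
  refine ⟨S, hS, ?_, ?_, ?_⟩
  · intro z hz
    by_contra hzS
    rw [← hXYE] at hz
    have hzE : z ∈ M.E := by
      have : z ∈ M.E \ N.E := by rw [← hXYE]; exact hz
      exact this.1
    rcases hz with hz | hz
    · have hzi : M.Indep {z} := hX.subset (Set.singleton_subset_iff.2 hz)
      refine hmin (M ／ {z}) (AM.con_minor M {z}) (AM.con_ne hzE) (AM.minor_con hNXY hz)
        ⟨C, D, AM.circ_con hC hzi (hS.notMem_closure hCS hzi hzS),
          AM.circ_con hD hzi (hS.notMem_closure hDS hzi hzS), ⟨d, hdC, hdD⟩, ?_⟩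
      intro hsub
      have h1 := hsub hcC
      rw [AM.closure_con] at h1
      exact hcD (hS.mem_closure_insert hDS (hCS hcC) hzS h1.1)
    · have hzC : z ∉ C := fun h1 => hzS (hCS h1)
      have hzD : z ∉ D := fun h1 => hzS (hDS h1)
      refine hmin (M ＼ {z}) (AM.del_minor M {z}) (AM.del_ne hzE) (AM.minor_del hXY hNXY hz)
        ⟨C, D, Matroid.delete_isCircuit_iff.2 ⟨hC, Set.disjoint_singleton_right.2 hzC⟩,
          Matroid.delete_isCircuit_iff.2 ⟨hD, Set.disjoint_singleton_right.2 hzD⟩,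
          ⟨d, hdC, hdD⟩, ?_⟩
      intro hsub
      have h1 := hsub hcC
      rw [AM.closure_del M hzD] at h1
      exact hcD h1.1
  · refine ⟨C, D, (Matroid.restrict_isCircuit_iff hS.1).2 ⟨hC, hCS⟩,
      (Matroid.restrict_isCircuit_iff hS.1).2 ⟨hD, hDS⟩, ⟨d, hdC, hdD⟩, ?_⟩
    intro hsub
    have h1 := hsub hcC
    rw [Matroid.restrict_closure_eq M hDS hS.1] at h1
    exact hcD h1.1
  · intro T hT
    have hTS : T ⊆ S := hT.1
    refine hSmin T hTS ⟨hTS.trans hS.1, fun C' hC' => ?_⟩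
    rcases hS.2 C' hC' with h1 | h1
    · exact hT.2 C' ((Matroid.restrict_isCircuit_iff hS.1).2 ⟨hC', h1⟩)
    · exact Or.inr (h1.mono_right hTS)

/-- reduction to the connected case, second part -/
theorem star_reduce (M N : Matroid α) [M.Finite] (h : MinStar M N) {S : Set α} (hS : Sep M S)
    (hES : M.E \ N.E ⊆ S) (hst : Star (M ↾ S)) : MinStar (M ↾ S) (N ↾ (N.E ∩ S)) := by
  obtain ⟨-, hN, hmin⟩ := h
  have hNE : N.E ⊆ M.E := hN.subset
  obtain ⟨X, hX, hXN, hXi, -⟩ := exists_indep_of_isMinor hN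
  have hXS : X ⊆ S := fun x hx =>
    hES ⟨hX.subset_ground hx, fun h1 => Set.disjoint_left.1 hXN hx h1⟩
  have hNS : ∀ I ⊆ N.E ∩ S, (N ↾ (N.E ∩ S)).Indep I ↔ M.Indep (I ∪ X) := by
    intro I hI
    rw [Matroid.restrict_indep_iff, hXi I (hI.trans Set.inter_subset_left)]
    exact ⟨fun h1 => h1.1, fun h1 => ⟨h1, hI⟩⟩
  refine ⟨hst, ?_, ?_⟩
  · have h1 := AM.eq_of_indep (M := M ↾ S) (N := N ↾ (N.E ∩ S)) (X := X)
      (Matroid.restrict_indep_iff.2 ⟨hX, hXS⟩)
      (hXN.mono_right Set.inter_subset_left) Set.inter_subset_right (by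
        intro I hI
        rw [hNS I hI, Matroid.restrict_indep_iff]
        exact ⟨fun h1 => ⟨h1, Set.union_subset (hI.trans Set.inter_subset_right) hXS⟩,
          fun h1 => h1.1⟩)
    rw [h1]
    exact Matroid.contract_delete_isMinor _ _ _
  · intro M' hM' hne hNM' hst'
    have : (M ↾ S).Finite := ⟨M.ground_finite.subset hS.1⟩
    have hM'S : M'.E ⊆ S := hM'.subset
    have : M'.Finite := ⟨(M.ground_finite.subset hS.1).subset hM'S⟩
    obtain ⟨A, hA, hAM', hAi, -⟩ := exists_indep_of_isMinor hM'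
    obtain ⟨A', hA', hA'N, hA'i, -⟩ := exists_indep_of_isMinor hNM'
    have hAS : A ⊆ S := hA.subset_ground
    have hAi0 : M.Indep A := (Matroid.restrict_indep_iff.1 hA).1
    have hA'S : A' ⊆ S := hA'.subset_ground.trans hM'S
    have hNSM' : N.E ∩ S ⊆ M'.E := hNM'.subset
    have hdAM' := Set.disjoint_left.1 hAM'
    have hdA'N := Set.disjoint_left.1 hA'N
    have hM'i : ∀ I ⊆ M'.E, M'.Indep I ↔ M.Indep (I ∪ A) := by
      intro I hI
      rw [hAi I hI, Matroid.restrict_indep_iff]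
      exact ⟨fun h1 => h1.1, fun h1 => ⟨h1, Set.union_subset (hI.trans hM'S) hAS⟩⟩
    -- the minor of `M`
    obtain ⟨M'', hM''def⟩ : ∃ M'' : Matroid α, M'' = M ／ A ＼ (S \ (A ∪ M'.E)) := ⟨_, rfl⟩
    have hM''E : ∀ x, x ∈ M''.E ↔ x ∈ M.E ∧ (x ∉ S ∨ x ∈ M'.E) := by
      intro x
      rw [hM''def, Matroid.delete_ground, Matroid.contract_ground]
      constructor
      · rintro ⟨⟨h1, h2⟩, h3⟩
        refine ⟨h1, ?_⟩
        by_contra h4
        push Not at h4
        exact h3 ⟨h4.1, fun h5 => h5.elim h2 h4.2⟩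
      · rintro ⟨h1, h2⟩
        refine ⟨⟨h1, fun h3 => ?_⟩, fun h3 => ?_⟩
        · exact h2.elim (fun h4 => h4 (hAS h3)) (fun h4 => hdAM' h3 h4)
        · exact h2.elim (fun h4 => h4 h3.1) (fun h4 => h3.2 (Or.inr h4))
    have hM''i : ∀ J ⊆ M''.E, M''.Indep J ↔ M.Indep (J ∪ A) := by
      intro J hJ
      have hJ1 : Disjoint J A := by
        rw [Set.disjoint_left]
        intro x hx hxA
        exact ((hM''E x).1 (hJ hx)).2.elim (fun h4 => h4 (hAS hxA)) (fun h4 => hdAM' hxA h4)
      have hJ2 : Disjoint J (S \ (A ∪ M'.E)) := by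
        rw [Set.disjoint_left]
        intro x hx hxA
        exact ((hM''E x).1 (hJ hx)).2.elim (fun h4 => h4 hxA.1) (fun h4 => hxA.2 (Or.inr h4))
      rw [hM''def, Matroid.delete_indep_iff, hAi0.contract_indep_iff]
      exact ⟨fun h1 => h1.1.2, fun h1 => ⟨⟨hJ1, h1⟩, hJ2⟩⟩
    have hsub : M'.E ⊆ M''.E := fun x hx => (hM''E x).2 ⟨hS.1 (hM'S hx), Or.inr hx⟩
    have hres : M' = M'' ↾ M'.E := by
      refine Matroid.ext_indep rfl ?_
      intro I hI
      rw [Matroid.restrict_indep_iff, hM'i I hI, hM''i I (hI.trans hsub)]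
      exact ⟨fun h1 => ⟨h1, hI⟩, fun h1 => h1.1⟩
    refine hmin M'' ?_ ?_ ?_ ?_
    · rw [hM''def]
      exact Matroid.contract_delete_isMinor _ _ _
    · intro heq
      apply hne
      have hSM' : S ⊆ M'.E := by
        intro x hx
        have h1 : x ∈ M''.E := by rw [heq]; exact hS.1 hx
        exact ((hM''E x).1 h1).2.resolve_left (fun h2 => h2 hx)
      have hA0 : A = ∅ := by
        rw [Set.eq_empty_iff_forall_notMem]
        exact fun x hx => hdAM' hx (hSM' (hAS hx))
      refine Matroid.ext_indep (Set.Subset.antisymm hM'S hSM') ?_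
      intro I hI
      rw [hM'i I hI, hA0, Set.union_empty, Matroid.restrict_indep_iff]
      exact ⟨fun h1 => ⟨h1, hI.trans hM'S⟩, fun h1 => h1.1⟩
    · have hA'M'' : A' ⊆ M''.E := hA'.subset_ground.trans hsub
      have hA'NE : Disjoint A' N.E := by
        rw [Set.disjoint_left]
        exact fun x hx hx2 => hdA'N hx ⟨hx2, hA'S hx⟩
      have hNEM'' : N.E ⊆ M''.E := by
        intro x hx
        refine (hM''E x).2 ⟨hNE hx, ?_⟩
        by_cases hxS : x ∈ S
        · exact Or.inr (hNSM' ⟨hx, hxS⟩)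
        · exact Or.inl hxS
      have key := AM.eq_of_indep (M := M'') (N := N) (X := A')
        ((hM''i A' hA'M'').2 ((hM'i A' hA'.subset_ground).1 hA')) hA'NE hNEM'' (by
          intro I hI
          have hIE : I ⊆ M.E := hI.trans hNE
          have hIS : I ∩ S ⊆ N.E ∩ S := Set.inter_subset_inter_left _ hI
          rw [hXi I hI, hM''i (I ∪ A') (Set.union_subset (hI.trans hNEM'') hA'M''),
            hS.indep_iff (Set.union_subset hIE hX.subset_ground),
            hS.indep_iff (Set.union_subset (Set.union_subset hIE (hA'S.trans hS.1))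
              (hAS.trans hS.1))]
          have e1 : (I ∪ X) ∩ S = I ∩ S ∪ X := by
            rw [Set.union_inter_distrib_right, Set.inter_eq_self_of_subset_left hXS]
          have e2 : (I ∪ X) \ S = I \ S := by
            ext x
            constructor
            · rintro ⟨h1 | h1, h2⟩
              · exact ⟨h1, h2⟩
              · exact absurd (hXS h1) h2
            · exact fun h1 => ⟨Or.inl h1.1, h1.2⟩
          have e3 : (I ∪ A' ∪ A) ∩ S = I ∩ S ∪ A' ∪ A := by
            rw [Set.union_inter_distrib_right, Set.union_inter_distrib_right,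
              Set.inter_eq_self_of_subset_left hA'S, Set.inter_eq_self_of_subset_left hAS]
          have e4 : (I ∪ A' ∪ A) \ S = I \ S := by
            ext x
            constructor
            · rintro ⟨(h1 | h1) | h1, h2⟩
              · exact ⟨h1, h2⟩
              · exact absurd (hA'S h1) h2
              · exact absurd (hAS h1) h2
            · exact fun h1 => ⟨Or.inl (Or.inl h1.1), h1.2⟩
          rw [e1, e2, e3, e4, ← hNS (I ∩ S) hIS, hA'i (I ∩ S) hIS,
            hM'i (I ∩ S ∪ A') (Set.union_subset (hIS.trans hNSM') hA'.subset_ground)])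
      rw [key]
      exact Matroid.contract_delete_isMinor _ _ _
    · obtain ⟨C, D, hC, hD, hne', hCD⟩ := hst'
      rw [hres] at hC hD hCD
      have hC' := (Matroid.restrict_isCircuit_iff hsub).1 hC
      have hD' := (Matroid.restrict_isCircuit_iff hsub).1 hD
      rw [Matroid.restrict_closure_eq M'' hD'.2 hsub] at hCD
      exact ⟨C, D, hC'.1, hD'.1, hne', fun h1 => hCD (Set.subset_inter h1 hC'.2)⟩

end Pool.Agent.MP8f11b1
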