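import Pool.Agent.Lib.MP_8f11b1_co_AM.IsoW
import Pool.Agent.Lib.MP_8f11b1_co_DU.Bad
import Pool.Agent.Lib.MP_8f11b1_co_RX.Main
import Pool.Agent.Lib.MP_8f11b1_co_RX.U2Rel

set_option autoImplicit false

namespace Pool.Agent.MP8f11b1

open Matroid

/-- bad matroids from one relaxation over a finite field -/
theorem small_of (F : Type) [Field F] [Finite F] {β V : Type} [Finite β] [AddCommGroup V]
    [Module F V] [FiniteDimensional F V] (f : β → V) (C K : Set β) {a b : ℕ} (ha : 2 ≤ a)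
    (hab : a < b) (hb : Nat.card β = b) (hV : Module.finrank F V = a) (hC : C.ncard = a)
    (hK : K.ncard = a) (hCK : C ≠ K)
    (hI : ∀ I : Set β, LinearIndepOn F f I ↔ I.ncard ≤ a ∧ I ≠ C ∧ I ≠ K)
    (hnr : ∀ (α : Type) (W : Matroid α), IsW a b W → ¬ Rep F W)
    {α : Type} (W : Matroid α) (hW : IsW a b W) : Bad W := by
  have hfin : ∀ S : Set β, S.Finite := fun S => Set.toFinite S
  have hKd : ∀ k ∈ K, (K \ {k}).ncard + 1 = a := by
    intro k hk
    rw [Set.ncard_sdiff_singleton_add_one hk (hfin K), hK]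
  have hins : ∀ g ∉ K, ∀ k ∈ K, (insert g (K \ {k})).ncard = a := by
    intro g hg k hk
    rw [Set.ncard_insert_of_notMem (fun h => hg h.1) (hfin _), hKd k hk]
  have hex : ∀ g ∉ K, ∃ k ∈ K, insert g (K \ {k}) ≠ C := by
    intro g hg
    by_contra hcon
    push Not at hcon
    obtain ⟨k, hk, k', hk', hne⟩ := (Set.one_lt_ncard (hfin K)).1 (by rw [hK]; omega)
    have h1 : k' ∈ insert g (K \ {k}) := Set.mem_insert_of_mem _ ⟨hk', fun h => hne h.symm⟩
    rw [hcon k hk, ← hcon k' hk'] at h1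
    rcases h1 with h1 | h1
    · exact hg (h1 ▸ hk')
    · exact h1.2 rfl
  have hproper : ∀ I : Set β, I.ncard < a → LinearIndepOn F f I := by
    intro I hlt
    rw [hI]
    refine ⟨hlt.le, fun h => ?_, fun h => ?_⟩
    · rw [h, hC] at hlt
      exact lt_irrefl _ hlt
    · rw [h, hK] at hlt
      exact lt_irrefl _ hlt
  have hKdep : ¬ LinearIndepOn F f K := fun h => ((hI K).1 h).2.2 rfl
  have hli : ∀ g ∉ K, ∀ k ∈ K, insert g (K \ {k}) ≠ C → LinearIndepOn F f (insert g (K \ {k})) := by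
    intro g hg k hk hne
    rw [hI]
    refine ⟨(hins g hg k hk).le, hne, fun h => hg ?_⟩
    rw [← h]
    exact Set.mem_insert _ _
  have hch : CH F f K := by
    refine ⟨by rw [hK, hV], ?_, ?_⟩
    · intro e he
      have := hKd e he
      exact hproper _ (by omega)
    · intro g hg hgs
      obtain ⟨k, hk, hne⟩ := hex g hg
      have h1 := hli g hg k hk hne
      have h2 := ((linearIndepOn_insert (fun h => hg h.1)).1 h1)
      apply h2.2
      have h3 : f k ∈ Submodule.span F (f '' (K \ {k})) := by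
        by_contra h4
        apply hKdep
        have h5 := (linearIndepOn_insert (fun h : k ∈ K \ {k} => h.2 rfl)).2 ⟨h2.1, h4⟩
        rwa [Set.insert_sdiff_singleton, Set.insert_eq_of_mem hk] at h5
      have h6 : Submodule.span F (f '' K) ≤ Submodule.span F (f '' (K \ {k})) := by
        rw [Submodule.span_le]
        rintro _ ⟨x, hx, rfl⟩
        by_cases hxk : x = k
        · rw [hxk]
          exact h3
        · exact Submodule.subset_span ⟨x, ⟨hx, hxk⟩, rfl⟩
      exact h6 hgs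
  obtain ⟨Z₀, hE₀, hZ₀⟩ := vecM_exists (F := F) f
  obtain ⟨Z, hE, hZ⟩ := relM_exists (F := F) f K hch
  have hI₀ : ∀ I, Z₀.Indep I ↔ I.ncard ≤ a ∧ I ≠ C ∧ I ≠ K := fun I => by rw [hZ₀, hI]
  have hIZ : ∀ I, Z.Indep I ↔ I.ncard ≤ a ∧ I ≠ C := by
    intro I
    rw [hZ, hI]
    constructor
    · rintro (h | h)
      · exact ⟨h.1, h.2.1⟩
      · refine ⟨?_, ?_⟩
        · rw [← hK]
          exact Set.ncard_le_ncard h (hfin _)
        · rintro rfl
          exact hCK (Set.eq_of_subset_of_ncard_le h (by rw [hC, hK]) (hfin _))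
    · intro h
      by_cases h1 : I = K
      · exact Or.inr h1.le
      · exact Or.inl ⟨h.1, h.2, h1⟩
  have key : ∀ M : Matroid β, (∀ I, M.Indep I → I.ncard ≤ a) →
      (∃ J, M.Indep J ∧ J.ncard = a) → ∀ B, M.IsBase B ↔ M.Indep B ∧ B.ncard = a := by
    rintro M h1 ⟨J, h2, h4⟩ B
    have h3 : ∀ B, M.Indep B → B.ncard = a → M.IsBase B := by
      intro B h4 h5
      rw [Matroid.isBase_iff_maximal_indep]
      refine ⟨h4, fun C h6 h7 => ?_⟩
      have h8 := Set.eq_of_subset_of_ncard_le h7 (by rw [h5]; exact h1 C h6) (Set.toFinite _)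
      exact h8.ge
    refine ⟨fun h => ⟨h.indep, ?_⟩, fun h => h3 B h.1 h.2⟩
    rw [← h4]
    exact h.ncard_eq_ncard_of_isBase (h3 _ h2 h4)
  obtain ⟨g, hg⟩ : ∃ g, g ∉ K := by
    by_contra hcon
    push Not at hcon
    have h1 : K = Set.univ := Set.eq_univ_of_forall hcon
    rw [h1, Set.ncard_univ, hb] at hK
    omega
  have hB₀ : ∀ B, Z₀.IsBase B ↔ Z₀.Indep B ∧ B.ncard = a := by
    obtain ⟨k, hk, hne⟩ := hex g hg
    exact key Z₀ (fun I h => ((hI₀ I).1 h).1)
      ⟨_, (hZ₀ _).2 (hli g hg k hk hne), hins g hg k hk⟩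
  have hB : ∀ B, Z.IsBase B ↔ Z.Indep B ∧ B.ncard = a :=
    key Z (fun I h => ((hIZ I).1 h).1) ⟨K, (hIZ K).2 ⟨hK.le, fun h => hCK h.symm⟩, hK⟩
  have hrel : IsRelaxation Z₀ K Z := by
    refine ⟨?_, ?_, ?_, by rw [hE, hE₀], ?_⟩
    · rw [Matroid.isCircuit_iff_forall_ssubset]
      refine ⟨⟨fun h => ((hI₀ _).1 h).2.2 rfl, by rw [hE₀]; exact Set.subset_univ _⟩, ?_⟩
      intro I h
      rw [hZ₀]
      have h1 := Set.ncard_lt_ncard h (Set.toFinite _)
      exact hproper _ (by omega)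
    · rw [Matroid.spanning_iff_exists_isBase_subset (by rw [hE₀]; exact Set.subset_univ _)]
      rintro ⟨B, h1, h2⟩
      rw [hB₀] at h1
      exact ((hI₀ B).1 h1.1).2.2 (Set.eq_of_subset_of_ncard_le h2 (by rw [h1.2, hK])
        (Set.toFinite _))
    · intro e he
      rw [Matroid.spanning_iff_exists_isBase_subset (by rw [hE₀]; exact Set.subset_univ _)]
      obtain ⟨k, hk, hne⟩ := hex e he.2
      refine ⟨insert e (K \ {k}), (hB₀ _).2 ⟨(hZ₀ _).2 (hli e he.2 k hk hne),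
        hins e he.2 k hk⟩, ?_⟩
      exact Set.insert_subset_insert Set.sdiff_subset
    · intro B
      rw [hB, hB₀, hIZ, hI₀]
      constructor
      · rintro ⟨⟨h1, h2⟩, h4⟩
        by_cases h3 : B = K
        · exact Or.inr h3
        · exact Or.inl ⟨⟨h1, h2, h3⟩, h4⟩
      · rintro (h | h)
        · exact ⟨⟨h.1.1, h.1.2.1⟩, h.2⟩
        · rw [h]
          exact ⟨⟨hK.le, fun h => hCK h.symm⟩, hK⟩
  have hZW : IsW a b Z := by
    refine ⟨hfin _, ?_, C, by rw [hE]; exact Set.subset_univ _, hC, fun I _ => hIZ I⟩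
    rw [hE, Set.ncard_univ, hb]
  obtain ⟨γ, N, n1, -, n3⟩ := main_A F β Z₀ Z K ⟨hfin _⟩
    ⟨V, inferInstance, inferInstance, f, fun I _ => hZ₀ I⟩ hrel
  refine ⟨γ, N, n1, n3 (Ex W) (ex_minorClosed W) ?_ ?_⟩
  · intro α' M hM hR
    refine ⟨hM, ?_⟩
    rintro ⟨M', hM', hi⟩
    exact hnr _ M' (isW_of_iso hi hW) (hR.minor hM')
  · intro h
    exact h.2 ⟨Z, Matroid.IsMinor.refl, iso_of_isW hZW hW⟩

end Pool.Agent.MP8f11b1
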