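import Pool.Agent.Lib.MP_8f11b1_co_AM.Cir
import Pool.Agent.Lib.MP_8f11b1_co_RX.MinX

set_option autoImplicit false

namespace Pool.Agent.MP8f11b1

open Matroid

variable {α : Type}

theorem star_of_minor (M : Matroid α) [M.Finite] {M' : Matroid α} (hm : M'.IsMinor M)
    (h : IsW 2 4 M') : Star M := by
  obtain ⟨hfin, hcard, Cs, hCs, hCs2, hI⟩ := h
  obtain ⟨X, hX, hd, hi, -⟩ := exists_indep_of_isMinor hm
  have hE : M'.E ⊆ M.E := hm.subset
  obtain ⟨p1, p2, hp, rfl⟩ := Set.ncard_eq_two.1 hCs2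
  have hq : (M'.E \ {p1, p2}).ncard = 2 := by
    rw [Set.ncard_sdiff hCs, hcard, hCs2]
  obtain ⟨q1, q2, hqq, hqe⟩ := Set.ncard_eq_two.1 hq
  have hq1 : q1 ∈ M'.E \ {p1, p2} := by rw [hqe]; exact Set.mem_insert _ _
  have hq2 : q2 ∈ M'.E \ {p1, p2} := by rw [hqe]; exact Set.mem_insert_of_mem _ rfl
  have hp1 : p1 ∈ M'.E := hCs (Set.mem_insert _ _)
  have hp2 : p2 ∈ M'.E := hCs (Set.mem_insert_of_mem _ rfl)
  have nq1 : q1 ≠ p1 ∧ q1 ≠ p2 := by
    have := hq1.2
    simpa using this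
  have nq2 : q2 ≠ p1 ∧ q2 ≠ p2 := by
    have := hq2.2
    simpa using this
  have ind : ∀ B ⊆ M'.E, B.ncard ≤ 2 → B ≠ {p1, p2} → M.Indep (B ∪ X) := by
    intro B hB h1 h2
    exact (hi B hB).1 ((hI B hB).2 ⟨h1, h2⟩)
  have hXE : X ⊆ M.E := hX.subset_ground
  have hdep1 : M.Dep ({p1, p2} ∪ X) := by
    refine ⟨fun h => ?_, Set.union_subset (hCs.trans hE) hXE⟩
    exact ((hI _ hCs).1 ((hi _ hCs).2 h)).2 rfl
  obtain ⟨D, hD1, hD⟩ := hdep1.exists_isCircuit_subset
  have s1 : ({p1} : Set α) ⊆ M'.E := Set.singleton_subset_iff.2 hp1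
  have s2 : ({p2} : Set α) ⊆ M'.E := Set.singleton_subset_iff.2 hp2
  have i1 : M.Indep ({p1} ∪ X) := by
    refine ind _ s1 (by rw [Set.ncard_singleton]; omega) ?_
    intro h
    have : p2 ∈ ({p1} : Set α) := by rw [h]; exact Set.mem_insert_of_mem _ rfl
    exact hp (Set.mem_singleton_iff.1 this).symm
  have i2 : M.Indep ({p2} ∪ X) := by
    refine ind _ s2 (by rw [Set.ncard_singleton]; omega) ?_
    intro h
    have : p1 ∈ ({p2} : Set α) := by rw [h]; exact Set.mem_insert _ _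
    exact hp (Set.mem_singleton_iff.1 this)
  have hD1m : p1 ∈ D := by
    by_contra hc
    refine hD.not_indep (i2.subset ?_)
    intro x hx
    rcases hD1 hx with h | h
    · rcases h with h | h
      · exact absurd (h ▸ hx) hc
      · exact Or.inl h
    · exact Or.inr h
  have hD2m : p2 ∈ D := by
    by_contra hc
    refine hD.not_indep (i1.subset ?_)
    intro x hx
    rcases hD1 hx with h | h
    · rcases h with h | h
      · exact Or.inl h
      · exact absurd ((Set.mem_singleton_iff.1 h) ▸ hx) hc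
    · exact Or.inr h
  have s3 : ({p1, q1, q2} : Set α) ⊆ M'.E := by
    intro x hx
    rcases hx with rfl | rfl | hx
    · exact hp1
    · exact hq1.1
    · rw [Set.mem_singleton_iff.1 hx]; exact hq2.1
  have hdep2 : M.Dep ({p1, q1, q2} ∪ X) := by
    refine ⟨fun h => ?_, Set.union_subset (s3.trans hE) hXE⟩
    have h3 := ((hI _ s3).1 ((hi _ s3).2 h)).1
    have h4 : ({p1, q1, q2} : Set α).ncard = 3 :=
      Set.ncard_eq_three.2 ⟨p1, q1, q2, nq1.1.symm, nq2.1.symm, hqq, rfl⟩
    omega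
  obtain ⟨C, hC1, hC⟩ := hdep2.exists_isCircuit_subset
  have pair : ∀ x y : α, x ∈ M'.E → y ∈ M'.E → x ≠ p2 → y ≠ p2 → M.Indep ({x, y} ∪ X) := by
    intro x y hx hy h1 h2
    refine ind _ ?_ ?_ ?_
    · intro z hz
      rcases hz with rfl | hz
      · exact hx
      · rw [Set.mem_singleton_iff.1 hz]; exact hy
    · exact (Set.ncard_insert_le _ _).trans (by rw [Set.ncard_singleton])
    · intro h
      have : p2 ∈ ({x, y} : Set α) := by rw [h]; exact Set.mem_insert_of_mem _ rfl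
      rcases this with h3 | h3
      · exact h1 h3.symm
      · exact h2 (Set.mem_singleton_iff.1 h3).symm
  have hC1m : p1 ∈ C := by
    by_contra hc
    refine hC.not_indep ((pair q1 q2 hq1.1 hq2.1 nq1.2 nq2.2).subset ?_)
    intro x hx
    rcases hC1 hx with h | h
    · rcases h with h | h
      · exact absurd (h ▸ hx) hc
      · exact Or.inl h
    · exact Or.inr h
  have hC2m : q1 ∈ C := by
    by_contra hc
    refine hC.not_indep ((pair p1 q2 hp1 hq2.1 hp nq2.2).subset ?_)
    intro x hx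
    rcases hC1 hx with h | h
    · rcases h with h | h | h
      · exact Or.inl (Or.inl h)
      · exact absurd (h ▸ hx) hc
      · exact Or.inl (Or.inr h)
    · exact Or.inr h
  refine ⟨C, D, hC, hD, ⟨p1, hC1m, hD1m⟩, fun hcl => ?_⟩
  have hsub : M.closure D ⊆ M.closure ({p1} ∪ X) := by
    have e1 : M.closure D ⊆ M.closure (D \ {p2}) := by
      rw [hD.closure_sdiff_singleton_eq p2]
    refine e1.trans (M.closure_subset_closure ?_)
    intro x hx
    rcases hD1 hx.1 with h | h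
    · rcases h with h | h
      · exact Or.inl h
      · exact absurd h hx.2
    · exact Or.inr h
  have hq1c : q1 ∈ M.closure ({p1} ∪ X) := hsub (hcl hC2m)
  have hq1X : q1 ∉ X := fun h => (Set.disjoint_left.1 hd) h hq1.1
  have hii := pair q1 p1 hq1.1 hp1 nq1.2 hp
  have heq : ({q1, p1} ∪ X : Set α) = insert q1 ({p1} ∪ X) := by
    rw [Set.insert_union]
  rw [heq] at hii
  have hnm : q1 ∉ ({p1} ∪ X : Set α) := by
    rintro (h | h)
    · exact nq1.1 h
    · exact hq1X h
  exact hii.notMem_closure_sdiff_of_mem (Set.mem_insert _ _) (by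
    rw [Set.insert_sdiff_self_of_notMem hnm]; exact hq1c)

end Pool.Agent.MP8f11b1
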