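import Pool.Agent.Lib.MP_8f11b1_co_AM.Cir

set_option autoImplicit false

namespace Pool.Agent.MP8f11b1

open Matroid

variable {α : Type}

/-- nonspanning circuits if `M ／ {e}` is uniform -/
theorem ua_circ (M : Matroid α) [M.Finite] {e : α} (he : M.Indep {e}) (hu : Unif (M ／ {e}))
    {D : Set α} (hD : M.IsCircuit D) (hDs : ¬ M.Spanning D) :
    e ∉ M.closure D ∧ D.ncard = rk M M.E := by
  have hDE := hD.subset_ground
  have heE : e ∈ M.E := he.subset_ground rfl
  have heD : e ∉ D := by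
    intro h
    have h1 := AM.circ_con_mem hD he h
    have h2 := (AM.spanning_con (A := D \ {e}) he (Set.sdiff_subset.trans hDE)
      (fun h3 => h3.2 rfl)).1 (hu _ h1)
    rw [Set.insert_sdiff_singleton, Set.insert_eq_of_mem h] at h2
    exact hDs ((spanning_iff_rk hDE).2 h2)
  have hcl : e ∉ M.closure D := by
    intro h
    have h1 : (M ／ {e}).Dep D := by
      refine ⟨?_, ?_⟩
      · rw [AM.indep_con he heD]
        exact fun h2 => hD.not_indep (h2.subset (Set.subset_insert _ _))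
      · rw [Matroid.contract_ground]
        exact fun x hx => ⟨hDE hx, fun h2 => heD (h2 ▸ hx)⟩
    obtain ⟨C', hC', hC'c⟩ := h1.exists_isCircuit_subset
    have h2 := (AM.spanning_con he (hC'.trans hDE) (fun h3 => heD (hC' h3))).1 (hu _ hC'c)
    have h3 : insert e C' ⊆ M.closure D :=
      Set.insert_subset h (hC'.trans (M.subset_closure D hDE))
    have h4 := rk_le_of_subset_closure (M := M) h3
    have h5 := rk_mono (M := M) hDE
    exact hDs ((spanning_iff_rk hDE).2 (by omega))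
  refine ⟨hcl, ?_⟩
  have h1 := AM.circ_con hD he hcl
  have h2 := (AM.spanning_con he hDE heD).1 (hu _ h1)
  have h3 := rk_insert_of_notMem heE hcl
  have h4 := circuit_rk hD
  omega

/-- bases become circuits -/
theorem ua_base (M : Matroid α) [M.Finite] {e : α} (he : M.Indep {e}) (hu : Unif (M ／ {e}))
    {B : Set α} (hB : M.IsBase B) (heB : e ∉ B) : M.IsCircuit (insert e B) := by
  have heE : e ∈ M.E := he.subset_ground rfl
  have hC := hB.fundCircuit_isCircuit heE heB
  have hCs := M.fundCircuit_subset_insert e B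
  have heC := M.mem_fundCircuit e B
  have h1 := AM.circ_con_mem hC he heC
  have h2 := (AM.spanning_con (A := M.fundCircuit e B \ {e}) he
    (Set.sdiff_subset.trans hC.subset_ground) (fun h3 => h3.2 rfl)).1 (hu _ h1)
  rw [Set.insert_sdiff_singleton, Set.insert_eq_of_mem heC] at h2
  have h3 := circuit_rk hC
  have h4 := rk_isBase hB
  have hBf : B.Finite := M.ground_finite.subset hB.subset_ground
  have h5 : (insert e B).ncard = B.ncard + 1 := Set.ncard_insert_of_notMem heB hBf
  have h6 : M.fundCircuit e B = insert e B :=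
    Set.eq_of_subset_of_ncard_le hCs (by omega) (hBf.insert e)
  rwa [h6] at hC

/-- independence of the sets containing `e` -/
theorem ua_indep (M : Matroid α) [M.Finite] {e : α} (he : M.Indep {e}) (hu : Unif (M ／ {e}))
    {S : Set α} (hS : S ⊆ M.E) (heS : e ∈ S) : M.Indep S ↔ S.ncard ≤ rk M M.E := by
  constructor
  · intro h
    rw [← rk_indep h]
    exact rk_mono hS
  · intro h
    by_contra hc
    have hd : M.Dep S := ⟨hc, hS⟩
    obtain ⟨C, hCS, hC⟩ := hd.exists_isCircuit_subset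
    have hSf : S.Finite := M.ground_finite.subset hS
    have h1 := Set.ncard_le_ncard hCS hSf
    have h2 := circuit_rk hC
    have h3 : ¬ M.Spanning C := by
      intro h4
      have h5 := (spanning_iff_rk hC.subset_ground).1 h4
      omega
    obtain ⟨h4, h5⟩ := ua_circ M he hu hC h3
    have h6 : C = S := Set.eq_of_subset_of_ncard_le hCS (by omega) hSf
    exact h4 (M.subset_closure C hC.subset_ground (h6 ▸ heS))

private theorem ua_two {D : Set α} (hf : D.Finite) {z : α} (h : 3 ≤ D.ncard) :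
    ∃ d ∈ D, ∃ x ∈ D, d ≠ z ∧ x ≠ z ∧ x ≠ d := by
  have h1 : 2 ≤ (D \ {z}).ncard := by
    have := Set.ncard_le_ncard_sdiff_add_ncard D {z}
    rw [Set.ncard_singleton] at this
    omega
  have h2 : 1 < (D \ {z}).ncard := by omega
  obtain ⟨d, hd, x, hx, hne⟩ := (Set.one_lt_ncard (hf.subset Set.sdiff_subset)).1 h2
  exact ⟨d, hd.1, x, hx.1, hd.2, hx.2, hne.symm⟩

theorem ua_con (M : Matroid α) [M.Finite] {e z : α} {D : Set α} (he : M.Indep {e})
    (hsp : M.Spanning (M.E \ {e})) (hu : Unif (M ／ {e})) (hD : M.IsCircuit D)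
    (hDs : ¬ M.Spanning D) (hz : z ∈ D) (h3 : 3 ≤ D.ncard) : Star (M ／ {z}) := by
  have hDE := hD.subset_ground
  have hDf : D.Finite := M.ground_finite.subset hDE
  have hcl := (ua_circ M he hu hD hDs).1
  have heD : e ∉ D := fun h => hcl (M.subset_closure D hDE h)
  obtain ⟨d, hd, x, hx, hdz, hxz, hxd⟩ := ua_two hDf (z := z) h3
  have hI := hD.sdiff_singleton_indep hd
  have hIs : D \ {d} ⊆ M.E \ {e} :=
    fun w hw => ⟨hDE hw.1, fun h => heD (h ▸ hw.1)⟩
  obtain ⟨B, hB, hIB, hBs⟩ := hI.exists_isBase_subset_spanning hsp hIs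
  have heB : e ∉ B := fun h => (hBs h).2 rfl
  have hC := ua_base M he hu hB heB
  have hzB : z ∈ B := hIB ⟨hz, fun h => hdz h.symm⟩
  have hz1 : M.Indep {z} := hI.subset (Set.singleton_subset_iff.2 ⟨hz, fun h => hdz h.symm⟩)
  refine ⟨insert e B \ {z}, D \ {z}, AM.circ_con_mem hC hz1 (Set.mem_insert_of_mem _ hzB),
    AM.circ_con_mem hD hz1 hz, ?_, ?_⟩
  · exact ⟨x, ⟨Set.mem_insert_of_mem _ (hIB ⟨hx, hxd⟩), hxz⟩, hx, hxz⟩
  · intro h
    have h1 : e ∈ insert e B \ {z} := ⟨Set.mem_insert _ _, fun h2 => heD (h2 ▸ hz)⟩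
    have h2 := h h1
    rw [AM.closure_con, Set.insert_sdiff_singleton, Set.insert_eq_of_mem hz] at h2
    exact hcl h2.1

theorem ua_del (M : Matroid α) [M.Finite] {e y : α} {D : Set α} (he : M.Indep {e})
    (hu : Unif (M ／ {e})) (hD : M.IsCircuit D) (hDs : ¬ M.Spanning D) (hy : y ∉ D)
    (hye : y ≠ e) (h2 : 2 ≤ D.ncard) (hsp : M.Spanning ((M.E \ {y}) \ {e})) :
    Star (M ＼ {y}) := by
  have hDE := hD.subset_ground
  have hDf : D.Finite := M.ground_finite.subset hDE
  have hcl := (ua_circ M he hu hD hDs).1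
  have heD : e ∉ D := fun h => hcl (M.subset_closure D hDE h)
  obtain ⟨d, hd, x, hx, hne⟩ := (Set.one_lt_ncard hDf).1 (by omega : 1 < D.ncard)
  have hI := hD.sdiff_singleton_indep hd
  have hIs : D \ {d} ⊆ (M.E \ {y}) \ {e} :=
    fun w hw => ⟨⟨hDE hw.1, fun h => hy (h ▸ hw.1)⟩, fun h => heD (h ▸ hw.1)⟩
  obtain ⟨B, hB, hIB, hBs⟩ := hI.exists_isBase_subset_spanning hsp hIs
  have heB : e ∉ B := fun h => (hBs h).2 rfl
  have hC := ua_base M he hu hB heB
  refine ⟨insert e B, D, ?_, ?_, ?_, ?_⟩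
  · rw [Matroid.delete_isCircuit_iff]
    refine ⟨hC, Set.disjoint_singleton_right.2 ?_⟩
    rintro (h | h)
    · exact hye h
    · exact (hBs h).1.2 rfl
  · rw [Matroid.delete_isCircuit_iff]
    exact ⟨hD, Set.disjoint_singleton_right.2 hy⟩
  · exact ⟨x, Set.mem_insert_of_mem _ (hIB ⟨hx, fun h => hne h.symm⟩), hx⟩
  · intro h
    have h1 := h (Set.mem_insert e B)
    rw [AM.closure_del M hy] at h1
    exact hcl h1.1

end Pool.Agent.MP8f11b1
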